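import Pool.Agent.FQA.Iface
import Pool.Agent.FQA.TouchF

/-!
# Two orthogonal families of coroots in an irreducible algebra

`T : TD g t` is an irreducible Lie algebra with a torus, `P` and `P'` two properties of functions such that
every coroot of a root vector of `g` (`AR g t g v`) has the property `P` or `P'`, and coroots with the
properties `P` and `P'` are orthogonal. `sP g t v P` (`Touch.lean`) is the ideal of the elements of `g` which
commute with all root vectors whose coroot has not the property `P`.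
-/

set_option autoImplicit false
set_option linter.unusedSectionVars false

namespace Pool.Agent.FQA.TD

open Module Pool.Agent.CoprimeSig Pool.Agent.Mod4 Pool.Agent.NumRank
open Pool.Agent.PrimePow.CC (Rf Rt Lat)

variable {K V : Type*} [Field K] [CharZero K] [IsAlgClosed K] [AddCommGroup V] [Module K V]
  [FiniteDimensional K V] {g t : Submodule K (End K V)} {I : Type} [Fintype I]

/-- The coroots have the property `P` or `P'`, and these are orthogonal. -/
structure Two (g t : Submodule K (End K V)) (v : Basis I K V) (P P' : (I → ℚ) → Prop) : Prop where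
  all : ∀ h, AR g t g v h → P h ∨ P' h
  orth : ∀ h h', P h → P' h' → h ⬝ᵥ h' = 0

variable (v : Basis I K V) (T : TD g t) [Nontrivial V]
  (hv : ∀ x ∈ t, ∀ i, ∃ c : K, x (v i) = c • v i) {P P' : (I → ℚ) → Prop}
  (hT : Two g t v P P')
include T hv hT

/-- PACKAGE. `sPA_ideal` (`TouchF.lean`): `StbA g t v P` because a coroot which has the property `P'` is
orthogonal to those with `P` (a coroot is not orthogonal to itself: `Rt_sq_ne`, `ar_rt`). -/
theorem two_ideal : ∀ x ∈ g, ∀ b ∈ sP g t v P, x * b - b * x ∈ sP g t v P :=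
  T.sPA_ideal v hv fun h k _ hk hP h0 =>
    (hT.all k hk).resolve_right fun h' => h0 (hT.orth h k hP h')

/-- A torus element orthogonal to the coroots in `P'` is in `sP g t v P`. PACKAGE. As `hes` in the proof of
`touch` (`Touch.lean`): by `dot_ne` the root of a root vector with coroot outside `P` (so in `P'`) vanishes
on `τ`. -/
theorem two_mem {τ : End K V} (hτ : τ ∈ t) {f : I → ℚ} (hf : ∀ i, τ (v i) = (f i : K) • v i)
    (h0 : ∀ h, AR g t g v h → P' h → f ⬝ᵥ h = 0) : τ ∈ sP g t v P := by
  refine ⟨T.le hτ, ?_⟩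
  rintro z ⟨α, y, k, R, hz0, hk, hPk⟩
  have Hk : AR g t g v k := ⟨α, z, y, R, hz0, R.rx.mem, hk⟩
  have h1 : α τ = 0 := by
    by_contra h2
    refine (dot_ne v R hz0 hτ hk hf).1 h2 ?_
    rw [dotProduct_comm]
    exact h0 k Hk ((hT.all k Hk).resolve_left hPk)
  have h2 := R.rx.root τ hτ
  rw [h1, zero_smul, sub_eq_zero] at h2
  exact h2

omit T hv in
/-- the stability needed for `two_comm` and `two_split` -/
private theorem two_comm_stb : StbA g t v P := fun h k _ Hk hPh h0 =>
  (hT.all k Hk).resolve_right fun hPk => h0 (hT.orth h k hPh hPk)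

/-- the ideal of the elements of trace zero in `sP` -/
private theorem two_comm_idl :
    Idl g (sP g t v P ⊓ LinearMap.ker (LinearMap.trace K V)) := by
  refine ⟨fun z hz => hz.1.1, fun x hx z hz => ⟨?_, ?_⟩, fun z hz => hz.2⟩
  · exact T.sPA_ideal v hv (two_comm_stb v hT) x hx z hz.1
  · rw [SetLike.mem_coe, LinearMap.mem_ker, map_sub, LinearMap.trace_mul_comm, sub_self]

omit hv hT in
/-- what commutes with the elements of trace zero commutes with `sP` -/
private theorem two_comm_cen {b : End K V}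
    (hb : ∀ y ∈ sP g t v P ⊓ LinearMap.ker (LinearMap.trace K V), b * y = y * b) :
    ∀ y ∈ sP g t v P, b * y = y * b := by
  intro y hy
  have hn : (finrank K V : K) ≠ 0 := by
    rw [Nat.cast_ne_zero]
    exact finrank_pos.ne'
  obtain ⟨c, hc⟩ : ∃ c : K, c = LinearMap.trace K V y / finrank K V := ⟨_, rfl⟩
  have h1 : (1 : End K V) ∈ sP g t v P :=
    ⟨T.hone, fun z _ => by rw [one_mul, mul_one]⟩
  have h2 : y - c • 1 ∈ sP g t v P ⊓ LinearMap.ker (LinearMap.trace K V) := by
    refine ⟨(sP g t v P).sub_mem hy ((sP g t v P).smul_mem c h1), ?_⟩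
    rw [SetLike.mem_coe, LinearMap.mem_ker, map_sub, map_smul, LinearMap.trace_one, smul_eq_mul,
      hc, div_mul_cancel₀ _ hn, sub_self]
  have h3 := hb _ h2
  rw [mul_sub, sub_mul, mul_smul_comm, smul_mul_assoc, mul_one, one_mul] at h3
  exact sub_left_injective h3

/-- A torus element orthogonal to the coroots in `P` commutes with `sP g t v P`. PACKAGE. Let
`s = sP g t v P ⊓ ker trace`, `Idl g s` (`two_ideal`). By `T.split_t` `τ = a + b`, `a ∈ s`, `b ∈ cen g s`, both in `t`.
`a` commutes with all root vectors: if the coroot of the root vector `z` is not in `P` by the definition of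
`sP`; if it is in `P` then `z ∈ sP` (`comm_ofA`), so `z ∈ s` (root vectors have trace zero), so `b` commutes with
`z`, and `τ` commutes with `z` by `dot_ne` (`f ⬝ᵥ h = 0`). So `a` is a scalar (`T.scalar_of`). `b` commutes with
`s`, so with `sP` (an element of `sP` minus a scalar has trace zero; `1 ∈ sP`). -/
theorem two_comm {τ : End K V} (hτ : τ ∈ t) {f : I → ℚ} (hf : ∀ i, τ (v i) = (f i : K) • v i)
    (h0 : ∀ h, AR g t g v h → P h → f ⬝ᵥ h = 0) : ∀ b ∈ sP g t v P, τ * b = b * τ := by
  have hs := T.two_comm_idl v hv hT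
  obtain ⟨a, ha, b, hb, hab, hat, hbt⟩ := T.split_t hs hτ
  obtain ⟨c, hc⟩ := T.scalar_of (x := a) (fun α z hz hz0 hα => by
    obtain ⟨y, R⟩ := T.hopp α z hz hz0 hα
    obtain ⟨k, π, hk, hkv, -⟩ := exists_rf v hv (T.hmult v hv) R hz0
    by_cases hPk : P k
    · have h1 : z ∈ sP g t v P := ⟨hz.mem, fun w hw =>
        T.comm_ofA v hv (two_comm_stb v hT) R hz0 hkv hPk hw⟩
      have h2 : LinearMap.trace K V z = 0 := by
        obtain ⟨τ', hτ', h3⟩ := hα
        have h4 := congrArg (LinearMap.trace K V) (hz.root τ' hτ')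
        rw [map_sub, LinearMap.trace_mul_comm, sub_self, map_smul, smul_eq_mul] at h4
        exact (mul_eq_zero.1 h4.symm).resolve_left h3
      have h3 : b * z = z * b := hb.2 z ⟨h1, h2⟩
      have h4 : α τ = 0 := by
        by_contra h5
        apply (dot_ne v R hz0 hτ hkv hf).1 h5
        rw [dotProduct_comm]
        exact h0 k ⟨α, z, y, R, hz0, hz.mem, hkv⟩ hPk
      have h5 := hz.root τ hτ
      rw [h4, zero_smul, sub_eq_zero, hab, add_mul, mul_add, h3] at h5
      exact add_right_cancel h5
    · exact ha.1.2 z ⟨α, y, k, R, hz0, hkv, hPk⟩) fun τ' hτ' => T.comm a hat τ' hτ'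
  intro y hy
  rw [hab, add_mul, mul_add, hc, smul_mul_assoc, mul_smul_comm, one_mul, mul_one,
    T.two_comm_cen v hb.2 y hy]

/-- PACKAGE. `T.split` for the ideal `s` of the previous theorem. -/
theorem two_split {x : End K V} (hx : x ∈ g) :
    ∃ a ∈ sP g t v P, ∃ b ∈ g, (∀ y ∈ sP g t v P, b * y = y * b) ∧ x = a + b := by
  obtain ⟨a, ha, b, hb, hab⟩ := T.split (T.two_comm_idl v hv hT) hx
  exact ⟨a, ha.1, b, hb.1, T.two_comm_cen v hb.2, hab⟩

/-- An ideal which commutes with the coroots in `P'` is contained in `sP g t v P`. PACKAGE. Let `z` be a root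
vector with the coroot `h` outside `P`, so in `P'`; let `H = z y - y z ∈ t` be the coroot as an operator,
`H z - z H = 2 z` (`opp_two`). For `x ∈ J`: `2 (x z - z x) = x (H z - z H) - (H z - z H) x`, and `x` and
`x z - z x ∈ J` commute with `H`, so this is `H (x z - z x) - (x z - z x) H = 0`. -/
theorem two_of_ideal {J : Submodule K (End K V)} (hJ : J ≤ g)
    (hid : ∀ a ∈ g, ∀ b ∈ J, a * b - b * a ∈ J)
    (hc : ∀ b ∈ J, ∀ H ∈ t, (∃ h, AR g t g v h ∧ P' h ∧ ∀ i, H (v i) = (h i : K) • v i) →
      b * H = H * b) : J ≤ sP g t v P := by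
  intro x hx
  refine ⟨hJ hx, ?_⟩
  rintro z ⟨α, y, h, R, hz0, hh, hPh⟩
  have Hh : AR g t g v h := ⟨α, z, y, R, hz0, R.rx.mem, hh⟩
  have hP' : P' h := (hT.all h Hh).resolve_left hPh
  have h1 := hc x hx (z * y - y * z) R.mem ⟨h, Hh, hP', hh⟩
  have h2 : z * x - x * z ∈ J := hid z R.rx.mem x hx
  have h3 := hc _ h2 (z * y - y * z) R.mem ⟨h, Hh, hP', hh⟩
  have h4 := R.rx.root (z * y - y * z) R.mem
  rw [opp_two R hz0] at h4
  generalize z * y - y * z = D at h1 h3 h4
  have h5 : (2 : K) • (x * z - z * x) = 0 := by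
    have h6 : (2 : K) • (x * z - z * x) = x * ((2 : K) • z) - ((2 : K) • z) * x := by
      rw [mul_smul_comm, smul_mul_assoc, smul_sub]
    rw [h6, ← h4]
    have h7 : x * (D * z - z * D) - (D * z - z * D) * x =
        (x * D - D * x) * z + ((z * x - x * z) * D - D * (z * x - x * z)) +
          z * (D * x - x * D) := by noncomm_ring
    rw [h7, h1, h3, sub_self, sub_self, zero_mul, mul_zero, add_zero, add_zero]
  exact sub_eq_zero.1 ((smul_eq_zero.1 h5).resolve_left two_ne_zero)

end Pool.Agent.FQA.TD
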