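import Pool.Agent.FQX.NoT
import Pool.Agent.FQV.PowK2

/-!
# The components form a system of blocks
-/

set_option autoImplicit false
set_option linter.unusedSectionVars false

namespace Pool.Agent.FQX

open Module
open Pool.Agent.CoprimeSig (ratM)
open Pool.Agent.PrimePow.CC (Rf Rt Lat)
open Pool.Agent.FQ (expG)
open Pool.Agent.FQV

variable {ι : Type} [Fintype ι] [DecidableEq ι] {E : Type} [CommRing E]
  {R : E →+* Matrix ι ι ℚ} {Φ : Matrix ι ι ℚ} {σ : E →+* ℂ} {c : E → E}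
  {g : Submodule ℂ (Matrix ι ι ℂ)} {ψ : Matrix ι ι ℂ}

/-- The dimension of the tensor factor which belongs to `s`. -/
noncomputable def bd (R : E →+* Matrix ι ι ℚ) (Φ : Matrix ι ι ℚ) (σ : E →+* ℂ)
    (s : Set (ℂ → ℚ)) : ℕ :=
  Nat.card (Quotient (cls fun f : Om R Φ σ → ℚ => ∃ F ∈ s, rs R Φ σ F = f))

theorem finite_cmp (R : E →+* Matrix ι ι ℚ) (Φ : Matrix ι ι ℚ) (σ : E →+* ℂ) :
    {c | IsCmp R Φ σ c}.Finite := by
  refine ((finite_rts R Φ σ).image (cmp R Φ σ)).subset ?_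
  rintro c ⟨F, hF, rfl⟩
  exact ⟨F, hF, rfl⟩

theorem rts_of_cmp {c : Set (ℂ → ℚ)} (hc : IsCmp R Φ σ c) {F : ℂ → ℚ} (hF : F ∈ c) :
    Rts R Φ σ F := by
  obtain ⟨F₀, hF₀, h1⟩ := hc
  rw [h1] at hF
  exact hF.1

theorem bd_mv (R : E →+* Matrix ι ι ℚ) (Φ : Matrix ι ι ℚ) (γ : ℂ ≃+* ℂ) (σ : E →+* ℂ)
    (s : Set (ℂ → ℚ)) : bd R Φ (cp γ σ) (mv γ '' s) = bd R Φ σ s := by
  have h2 : ∀ (F : ℂ → ℚ) (ω : Om R Φ σ),
      rs R Φ (cp γ σ) (mv γ F) (omE R Φ γ σ ω) = rs R Φ σ F ω := fun F ω => congrFun rs_mv ω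
  refine (Nat.card_congr (Quotient.congr (omE R Φ γ σ) fun ω ω' => ?_)).symm
  constructor
  · rintro H _ ⟨_, ⟨F, hF, rfl⟩, rfl⟩
    rw [h2, h2]
    exact H _ ⟨F, hF, rfl⟩
  · rintro H _ ⟨F, hF, rfl⟩
    have h1 := H _ ⟨mv γ F, ⟨F, hF, rfl⟩, rfl⟩
    rwa [h2, h2] at h1

theorem two_le_bd {s : Set (ℂ → ℚ)} {F : ℂ → ℚ} (hF : F ∈ s) (hr : Rts R Φ σ F) :
    2 ≤ bd R Φ σ s := by
  obtain ⟨π, K⟩ := hr.rt
  obtain ⟨ω, hω⟩ := Function.ne_iff.1 K.ne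
  rw [Pi.zero_apply] at hω
  have h1 : Nontrivial (Quotient (cls fun f : Om R Φ σ → ℚ => ∃ F ∈ s, rs R Φ σ F = f)) := by
    refine ⟨Quotient.mk _ ω, Quotient.mk _ (π ω), fun h => ?_⟩
    have h2 : ∀ f : Om R Φ σ → ℚ, (∃ F ∈ s, rs R Φ σ F = f) → f ω = f (π ω) := Quotient.exact h
    have h3 := h2 _ ⟨F, hF, rfl⟩
    rw [K.neg ω] at h3
    apply hω
    linarith
  exact Finite.one_lt_card_iff_nontrivial.2 h1

theorem dot_zero_of_not_ns {e : Matrix ι ι ℂ} (hns : ¬ Ns R Φ e σ) {F : ℂ → ℚ}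
    (hF : Rts R Φ σ F) : rs R Φ σ (ev Φ e) ⬝ᵥ rs R Φ σ F = 0 := by
  obtain ⟨π, K⟩ := hF.rt
  have hc : ∃ q : ℚ, ∀ ω : Om R Φ σ, rs R Φ σ (ev Φ e) ω = q := by
    by_cases h : ∃ μ ∈ Om R Φ σ, ev Φ e μ = 0
    · obtain ⟨μ, hμ, h0⟩ := h
      refine ⟨0, fun ω => ?_⟩
      rcases ev_or Φ e ω with h1 | h1
      · exact h1
      · exact absurd ⟨μ, hμ, ω, ω.2, h0, h1⟩ hns
    · refine ⟨1, fun ω => ?_⟩
      rcases ev_or Φ e ω with h1 | h1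
      · exact absurd ⟨ω, ω.2, h1⟩ h
      · exact h1
  obtain ⟨q, hq⟩ := hc
  rw [dotProduct, Finset.sum_congr rfl fun ω _ => by rw [hq ω], ← Finset.mul_sum, K.sum_zero,
    mul_zero]

variable [Algebra ℚ E] [Module.Finite ℚ E] [IsReduced E]

/-- A root is not orthogonal to some conjugate of the idempotent. -/
theorem orbit_ne (M : Mono R c Φ g ψ) (H : IsFrob R Φ) (hI : Idem Φ) {e : Matrix ι ι ℂ}
    (he : e ∈ tor Φ) (hee : e * e = e) (hspan : tor Φ ≤ Submodule.span ℂ (orbit Φ g e))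
    {F : ℂ → ℚ} (hF : Rts R Φ σ F) :
    ∃ (γ : ℂ ≃+* ℂ) (e' : Matrix ι ι ℂ) (u : (Matrix ι ι ℂ)ˣ), e' ∈ tor Φ ∧ u ∈ expG ℂ g ∧
      e' = (u : Matrix ι ι ℂ) * e * ((u⁻¹ : (Matrix ι ι ℂ)ˣ) : Matrix ι ι ℂ) ∧
      Ns R Φ e (cp γ⁻¹ σ) ∧ Ns R Φ e' (cp γ⁻¹ σ) ∧ Ns R Φ (e'.map γ) σ ∧ e'.map γ ∈ tor Φ ∧
      e'.map γ * e'.map γ = e'.map γ ∧ rs R Φ σ (ev Φ (e'.map γ)) ⬝ᵥ rs R Φ σ F ≠ 0 := by
  obtain ⟨π, hπ⟩ := hF.rt
  obtain ⟨-, y, hy, hvy⟩ := mem_Ls.1 hπ.mem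
  obtain ⟨L, hL⟩ := exists_functional R Φ σ (rs R Φ σ F)
  have hLy : L y ≠ 0 := by
    rw [hL y _ hvy]
    intro h0
    have h1 : (rs R Φ σ F ⬝ᵥ rs R Φ σ F : ℚ) = 0 := by exact_mod_cast h0
    exact hπ.ne (dotProduct_self_eq_zero.1 h1)
  obtain ⟨z, hz, hLz⟩ : ∃ z ∈ orbit Φ g e, L z ≠ 0 := by
    by_contra hcon
    push Not at hcon
    have h1 : tor Φ ≤ LinearMap.ker L := hspan.trans (Submodule.span_le.2 fun z hz => hcon z hz)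
    exact hLy (h1 hy)
  obtain ⟨e', he', ⟨u, hu, hue⟩, γ, rfl⟩ := hz
  have hee' : e' * e' = e' := conj_idem hee hue
  have hσ : σ = cp γ (cp γ⁻¹ σ) := by
    rw [← cp_mul, mul_inv_cancel]
    exact cp_one.symm
  have hz1 : e'.map γ ∈ tor Φ := map_mem_tor he' γ H.diag
  have hz2 : e'.map γ * e'.map γ = e'.map γ := by
    have h1 := Matrix.map_mul (L := e') (M := e') (f := (γ : ℂ →+* ℂ))
    rw [hee'] at h1
    exact h1.symm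
  have hne : rs R Φ σ (ev Φ (e'.map γ)) ⬝ᵥ rs R Φ σ F ≠ 0 := by
    intro h0
    apply hLz
    rw [hL _ _ (vals_ev hz1 hz2), h0, Rat.cast_zero]
  have hns2 : Ns R Φ (e'.map γ) σ := by
    by_contra h1
    exact hne (dot_zero_of_not_ns h1 hF)
  have hns' : Ns R Φ e' (cp γ⁻¹ σ) := by
    have h1 := ns_map hns2 γ⁻¹
    have h2 : (e'.map γ).map (γ⁻¹ : ℂ ≃+* ℂ) = e' := by
      ext i j
      exact γ.symm_apply_apply _
    rwa [h2] at h1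
  have hns1 : Ns R Φ e (cp γ⁻¹ σ) := by
    refine ns_conj M H hI he' hee' hns' he (inv_mem hu) ?_
    rw [hue, inv_inv]
    calc e = (((u⁻¹ : (Matrix ι ι ℂ)ˣ) : Matrix ι ι ℂ) * (u : Matrix ι ι ℂ)) * e *
          (((u⁻¹ : (Matrix ι ι ℂ)ˣ) : Matrix ι ι ℂ) * (u : Matrix ι ι ℂ)) := by
            rw [Units.inv_mul, one_mul, mul_one]
      _ = _ := by simp only [mul_assoc]
  exact ⟨γ, e', u, he', hu, hue, hns1, hns', hns2, hz1, hz2, hne⟩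

/-- Every component is the conjugate of a component touched by the idempotent. -/
theorem comp_orbit' (M : Mono R c Φ g ψ) (H : IsFrob R Φ) (hI : Idem Φ) {e : Matrix ι ι ℂ}
    (he : e ∈ tor Φ) (hee : e * e = e) (hspan : tor Φ ≤ Submodule.span ℂ (orbit Φ g e))
    {s : Set (ℂ → ℚ)} (hs : IsCmp R Φ σ s) :
    ∃ γ : ℂ ≃+* ℂ, Ns R Φ e (cp γ⁻¹ σ) ∧ s = mv γ '' tch R Φ (cp γ⁻¹ σ) (ev Φ e) := by
  obtain ⟨F, hF, rfl⟩ := hs
  obtain ⟨γ, e', u, he', hu, hue, hns1, hns', hns2, hz1, hz2, hne⟩ :=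
    orbit_ne M H hI he hee hspan hF
  have hσ : σ = cp γ (cp γ⁻¹ σ) := by
    rw [← cp_mul, mul_inv_cancel]
    exact cp_one.symm
  have hmem : F ∈ tch R Φ σ (ev Φ (e'.map γ)) := ⟨hF, F, hF, hne, Cns.refl⟩
  have hcmp := tch_isCmp M H hI hz1 hz2 hns2
  refine ⟨γ, hns1, ?_⟩
  rw [cmp_eq_of_mem hcmp hmem, tch_conj M H hI he hee hns1 he' hns' hu hue,
    ← tch_mv H.diag, ← hσ]
  congr 1
  exact funext fun μ => ev_map Φ e' γ μ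

/-- The dimensions of the tensor factors and the rank of the idempotent. -/
theorem bd_prod (M : Mono R c Φ g ψ) (H : IsFrob R Φ) (hI : Idem Φ) (σ : E →+* ℂ) :
    ∏ᶠ s ∈ {s | IsCmp R Φ σ s}, bd R Φ σ s = Fintype.card (Om R Φ σ) ∧
      ∀ e ∈ tor Φ, e * e = e → Ns R Φ e σ → ∃ k : ℕ,
        (bd R Φ σ (tch R Φ σ (ev Φ e)) : ℚ) * sm R Φ σ (ev Φ e) = Fintype.card (Om R Φ σ) * k := by
  classical
  have hfin : Finite {c : Set (ℂ → ℚ) // IsCmp R Φ σ c} := (finite_cmp R Φ σ).to_subtype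
  have : Fintype {c : Set (ℂ → ℚ) // IsCmp R Φ σ c} := Fintype.ofFinite _
  have hne : Nonempty (Om R Φ σ) := by
    obtain ⟨W, p, v, F⟩ := exists_frame M H hI σ
    have := F.nontrivial
    exact v.index_nonempty
  obtain ⟨P, hP⟩ : ∃ P : {c : Set (ℂ → ℚ) // IsCmp R Φ σ c} → (Om R Φ σ → ℚ) → Prop,
      P = fun c f => ∃ F ∈ c.1, rs R Φ σ F = f := ⟨_, rfl⟩
  have h1 : ∀ i h, P i h → Rt (Ls R Φ σ) h := by
    rw [hP]
    rintro c f ⟨F, hF, rfl⟩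
    exact (rts_of_cmp c.2 hF).rt
  have h2 : ∀ h, Rt (Ls R Φ σ) h → ∃ i, P i h := by
    rw [hP]
    intro f hf
    obtain ⟨F, hF, rfl⟩ := exists_rts hf
    exact ⟨⟨cmp R Φ σ F, F, hF, rfl⟩, F, ⟨hF, Cns.refl⟩, rfl⟩
  have h3 : ∀ i j h h', i ≠ j → P i h → P j h' → h ⬝ᵥ h' = 0 := by
    rw [hP]
    rintro c c' f f' hne ⟨F, hF, rfl⟩ ⟨F', hF', rfl⟩
    by_contra h0
    apply hne
    apply Subtype.ext
    rw [← cmp_eq_of_mem c.2 hF]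
    refine cmp_eq_of_mem c'.2 hF' ▸ ?_
    have hmem : F' ∈ cmp R Φ σ F := by
      refine ⟨rts_of_cmp c'.2 hF', ?_⟩
      exact Relation.ReflTransGen.single ⟨(rts_of_cmp c'.2 hF').rt, h0⟩
    have hFc : IsCmp R Φ σ (cmp R Φ σ F) := by
      rw [cmp_eq_of_mem c.2 hF]
      exact c.2
    exact (cmp_eq_of_mem hFc hmem).symm
  have h := card_classes (lat M H hI σ) P h1 h2 h3
  have hbd : ∀ c : {c : Set (ℂ → ℚ) // IsCmp R Φ σ c},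
      Nat.card (Quotient (cls (P c))) = bd R Φ σ c.1 := by
    intro c
    rw [hP]
    rfl
  refine ⟨?_, fun e he hee hns => ?_⟩
  · have h6 : ∏ᶠ c : {c : Set (ℂ → ℚ) // IsCmp R Φ σ c}, bd R Φ σ c.1 =
        ∏ c : {c : Set (ℂ → ℚ) // IsCmp R Φ σ c}, bd R Φ σ c.1 := finprod_eq_prod_of_fintype _
    rw [h, ← finprod_set_coe_eq_finprod_mem]
    refine Eq.trans h6 (Finset.prod_congr rfl fun c _ => (hbd c).symm)
  · have hj := tch_isCmp M H hI he hee hns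
    obtain ⟨s, hs⟩ := sum_classes (lat M H hI σ) P h1 h2 h3 ⟨_, hj⟩
      (ev_mem (σ := σ) he hee) (fun ω => ev_or Φ e ω) (by
        rw [hP]
        rintro c _ hcj ⟨F, hF, rfl⟩
        by_contra h0
        apply hcj
        apply Subtype.ext
        have hFr := rts_of_cmp c.2 hF
        have hmem : F ∈ tch R Φ σ (ev Φ e) := ⟨hFr, F, hFr, h0, Cns.refl⟩
        exact (cmp_eq_of_mem c.2 hF).symm.trans (cmp_eq_of_mem hj hmem))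
    refine ⟨s, ?_⟩
    unfold sm
    rw [hs, h, ← Finset.mul_prod_erase Finset.univ _ (Finset.mem_univ ⟨_, hj⟩), hbd ⟨_, hj⟩]
    push_cast
    ring

/-- The components form a system of blocks. -/
theorem sys_cmp (M : Mono R c Φ g ψ) (H : IsFrob R Φ) (hI : Idem Φ) {r : (E →+* ℂ) → ℕ}
    {τ : ℂ ≃+* ℂ} {e : Matrix ι ι ℂ} (C : Coch R Φ r g ψ τ e)
    (hspan : tor Φ ≤ Submodule.span ℂ (orbit Φ g e)) {K : Subfield ℂ}
    (hrec : ∀ h : ℂ ≃+* ℂ, (∀ x ∈ K, h x = x) → ∀ σ : E →+* ℂ, Ns R Φ e σ →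
      Ns R Φ e (cp h σ) ∧ mv h '' tch R Φ σ (ev Φ e) = tch R Φ (cp h σ) (ev Φ e)) :
    Sys R Φ K (fun σ => Fintype.card (Om R Φ σ)) r (fun _ => True)
      (fun σ => {s | IsCmp R Φ σ s}) (bd R Φ) (fun σ => tch R Φ σ (ev Φ e)) := by
  have hns : ∀ σ : E →+* ℂ, Ns R Φ e σ ↔ 0 < r σ ∧ r σ < Fintype.card (Om R Φ σ) := by
    intro σ
    refine ⟨?_, ns_of_r M H hI C⟩
    rintro ⟨μ, hμ, ν, hν, h0, h1⟩
    have h2 := sm_coch M H hI C σ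
    have h3 : (0 : ℚ) < r σ := by
      rw [← h2]
      refine Finset.sum_pos' (fun ω _ => ?_) ⟨⟨ν, hν⟩, Finset.mem_univ _, ?_⟩
      · rcases ev_or Φ e ω with h3 | h3 <;> rw [rs_apply, h3] <;> norm_num
      · rw [rs_apply, h1]
        norm_num
    have h4 : (r σ : ℚ) < Fintype.card (Om R Φ σ) := by
      rw [← h2]
      have h5 : (Fintype.card (Om R Φ σ) : ℚ) = ∑ _ω : Om R Φ σ, (1 : ℚ) := by simp
      rw [h5]
      refine Finset.sum_lt_sum (fun ω _ => ?_) ⟨⟨μ, hμ⟩, Finset.mem_univ _, ?_⟩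
      · rcases ev_or Φ e ω with h3 | h3 <;> rw [rs_apply, h3] <;> norm_num
      · rw [rs_apply, h0]
        norm_num
    exact ⟨by exact_mod_cast h3, by exact_mod_cast h4⟩
  have htr := trace_of_mult M C.mult
  refine ⟨fun _ _ _ => trivial, fun γ σ _ => card_cp γ, fun σ _ => finite_cmp R Φ σ,
    fun σ _ s hs F hF => rts_of_cmp hs hF, fun γ σ _ s hs => isCmp_mv H.diag γ hs,
    fun σ _ s hs => ?_, fun γ σ _ s _ => bd_mv R Φ γ σ s, fun σ _ _ => (bd_prod M H hI σ).1,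
    fun σ _ h0 h1 => tch_isCmp M H hI C.mem C.idem ((hns σ).2 ⟨h0, h1⟩),
    fun h hh σ _ h0 h1 => ?_, fun σ _ h0 h1 => ⟨?_, tch_star H C.mem C.idem htr σ⟩,
    fun σ _ s hs => ?_, fun σ _ h0 h1 => ?_⟩
  · obtain ⟨F, hF, rfl⟩ := hs
    exact two_le_bd ⟨hF, Cns.refl⟩ hF
  · obtain ⟨h2, h3⟩ := hrec h hh σ ((hns σ).2 ⟨h0, h1⟩)
    exact ⟨(hns _).1 h2, h3⟩
  · have h2 := r_dual M H hI C σ
    have h3 : Fintype.card (Om R Φ (cp starRingAut σ)) = Fintype.card (Om R Φ σ) := card_cp _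
    constructor
    · omega
    · rw [h3]
      omega
  · obtain ⟨γ, h1, h2⟩ := comp_orbit' M H hI C.mem C.idem hspan hs
    exact ⟨γ, ((hns _).1 h1).1, ((hns _).1 h1).2, h2⟩
  · obtain ⟨k, hk⟩ := (bd_prod M H hI σ).2 e C.mem C.idem ((hns σ).2 ⟨h0, h1⟩)
    rw [sm_coch M H hI C] at hk
    exact ⟨k, by exact_mod_cast hk⟩

/-- **All roots for an embedding are connected**, if `NoTensor` holds. -/
theorem all_cn_rec (M : Mono R c Φ g ψ) (H : IsFrob R Φ) (hI : Idem Φ)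
    (hc : ∀ (σ : E →+* ℂ) a, σ (c a) = starRingEnd ℂ (σ a)) {r : (E →+* ℂ) → ℕ}
    {τ : ℂ ≃+* ℂ} {e : Matrix ι ι ℂ} (C : Coch R Φ r g ψ τ e)
    (hspan : tor Φ ≤ Submodule.span ℂ (orbit Φ g e)) {K : Subfield ℂ}
    (hrec : ∀ h : ℂ ≃+* ℂ, (∀ x ∈ K, h x = x) → ∀ σ : E →+* ℂ, Ns R Φ e σ →
      Ns R Φ e (cp h σ) ∧ mv h '' tch R Φ σ (ev Φ e) = tch R Φ (cp h σ) (ev Φ e))
    {σ : E →+* ℂ} (hN : NoTensor K (fun σ => Fintype.card (Om R Φ σ)) r σ)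
    (h h' : Om R Φ σ → ℚ) (hh : Rt (Ls R Φ σ) h) (hh' : Rt (Ls R Φ σ) h') :
    Pool.Agent.FQA.Cn (Ls R Φ σ) h h' := by
  obtain ⟨F, hF, rfl⟩ := exists_rts hh
  obtain ⟨F', hF', rfl⟩ := exists_rts hh'
  have h1 := (sys_cmp M H hI C hspan hrec).one H hc (σ := σ) trivial hN
  have h2 : cmp R Φ σ F = cmp R Φ σ F' := h1 ⟨F, hF, rfl⟩ ⟨F', hF', rfl⟩
  have h3 : F' ∈ cmp R Φ σ F := by
    rw [h2]
    exact ⟨hF', Cns.refl⟩
  exact h3.2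

omit [Algebra ℚ E] [Module.Finite ℚ E] [IsReduced E] in
/-- The condition `NoTensor` holds over `ℚ`. -/
theorem noTensor_bot (n r : (E →+* ℂ) → ℕ) (σ : E →+* ℂ) : NoTensor ⊥ n r σ := by
  rintro ⟨k, m, T, hk, -, -, h1, h2, -⟩
  obtain ⟨g, hg, hgT⟩ := h1 ⟨0, by omega⟩
  obtain ⟨g', hg', hgT'⟩ := h1 ⟨1, by omega⟩
  have h3 := (h2 g hg).1 (g⁻¹ * g') fun x hx => by
    have h0 : (⊥ : Subfield ℂ) ≤
        RingHom.eqLocusField ((g⁻¹ * g' : ℂ ≃+* ℂ) : ℂ →+* ℂ) (RingHom.id ℂ) := bot_le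
    exact h0 hx
  rw [mul_inv_cancel_left, hgT, hgT'] at h3
  have h4 := congrArg Fin.val h3
  simp at h4

end Pool.Agent.FQX
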