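import Pool.Agent.FQX.Equi
import Pool.Agent.FQX.SysC

/-!
# The generic place

`γ` is the Frobenius automorphism at an auxiliary prime `ℓ₀` at which the Frobenius torus splits and
`Φ = e(w₀) x ^ m` with a primitive root `w₀` modulo `ℓ₀`, where `e` is the idempotent of Hodge and Tate.
Then `γ` multiplies the `m`-th roots of the eigenvalues `ω` of `Φ` by `ζ₀ ^ e(ω)`.
-/

set_option autoImplicit false
set_option linter.unusedSectionVars false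

namespace Pool.Agent.FQX

open Module
open Pool.Agent.CoprimeSig (ratM)
open Pool.Agent.PrimePow.CC (Rf Rt Lat)
open Pool.Agent.NumRank (cf cf_eq_zero)
open Pool.Agent.FQA (Rf_move)
open Pool.Agent.FQV

variable {ι : Type} [Fintype ι] [DecidableEq ι] {E : Type} [CommRing E] [Algebra ℚ E]
  [Module.Finite ℚ E] [IsReduced E] {R : E →+* Matrix ι ι ℚ} {Φ : Matrix ι ι ℚ} {σ : E →+* ℂ}
  {s s' : Set (ℂ → ℚ)} {ξ ξ' : ℂ → ℂ} {γ : ℂ ≃+* ℂ} {ζ₀ : ℂ} {m : ℕ} {c : E → E}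
  {g : Submodule ℂ (Matrix ι ι ℂ)} {ψ e : Matrix ι ι ℂ}

/-- `γ` multiplies the `m`-th roots of the eigenvalues `ω` of `Φ` by `ζ₀ ^ e(ω)`. -/
def Kumm (Φ : Matrix ι ι ℚ) (m : ℕ) (ζ₀ : ℂ) (γ : ℂ ≃+* ℂ) (e : Matrix ι ι ℂ) : Prop :=
  ∀ y : ℂ, Module.End.HasEigenvalue (Matrix.toLin' (ratM Φ)) (y ^ m) →
    (ev Φ e (y ^ m) = 1 → γ y = ζ₀ * y) ∧ (ev Φ e (y ^ m) = 0 → γ y = y)

/-- The data at the auxiliary prime. -/
structure AtG (R : E →+* Matrix ι ι ℚ) (c : E → E) (Φ : Matrix ι ι ℚ) (m : ℕ) (ζ₀ : ℂ)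
    (γ : ℂ ≃+* ℂ) (g : Submodule ℂ (Matrix ι ι ℂ)) (ψ e : Matrix ι ι ℂ) : Prop where
  mono : Mono R c Φ g ψ
  emb : ∀ σ : E →+* ℂ, cp γ σ = σ
  mem : e ∈ tor Φ
  idem : e * e = e
  kum : Kumm Φ m ζ₀ γ e

/-- The exponent. -/
noncomputable def kx (Φ : Matrix ι ι ℚ) (e : Matrix ι ι ℂ) (ω : ℂ) : ℤ :=
  if ev Φ e ω = 1 then 1 else 0

omit [Algebra ℚ E] [Module.Finite ℚ E] [IsReduced E] in
theorem kx_cast (Φ : Matrix ι ι ℚ) (e : Matrix ι ι ℂ) (ω : ℂ) : (kx Φ e ω : ℚ) = ev Φ e ω := by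
  unfold kx
  rcases ev_or Φ e ω with h | h
  · rw [h]
    simp
  · rw [h]
    simp

omit [Algebra ℚ E] [Module.Finite ℚ E] [IsReduced E] in
theorem Kumm.root (hG : Kumm Φ m ζ₀ γ e) (hm0 : m ≠ 0) {ω : ℂ}
    (hω : Module.End.HasEigenvalue (Matrix.toLin' (ratM Φ)) ω) :
    ∃ y : ℂ, y ^ m = ω ∧ γ y = ζ₀ ^ kx Φ e ω * y := by
  obtain ⟨y, hy⟩ := IsAlgClosed.exists_pow_nat_eq ω (Nat.pos_of_ne_zero hm0)
  refine ⟨y, hy, ?_⟩
  obtain ⟨h1, h2⟩ := hG y (by rw [hy]; exact hω)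
  rw [hy] at h1 h2
  unfold kx
  rcases ev_or Φ e ω with h | h
  · rw [h2 h, h]
    simp
  · rw [h1 h, h]
    simp

omit [Algebra ℚ E] [Module.Finite ℚ E] [IsReduced E] in
theorem Kumm.fix (hG : Kumm Φ m ζ₀ γ e) (hm0 : m ≠ 0) (hζ₀ : IsPrimitiveRoot ζ₀ m) {ω : ℂ}
    (hω : Module.End.HasEigenvalue (Matrix.toLin' (ratM Φ)) ω) : γ ω = ω := by
  obtain ⟨y, hy, h1⟩ := hG.root hm0 hω
  rw [← hy, map_pow, h1, mul_pow, ← zpow_natCast (ζ₀ ^ _), ← zpow_mul, mul_comm (kx Φ e _),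
    zpow_mul, zpow_natCast, hζ₀.pow_eq_one, one_zpow, one_mul]

/-- A reflection orthogonal to the idempotent does not change its values. -/
theorem ev_move (he : e ∈ tor Φ) (hee : e * e = e) {F : ℂ → ℚ}
    {π : Equiv.Perm (Om R Φ σ)} (K : Rf (Ls R Φ σ) (rs R Φ σ F) π)
    (h0 : rs R Φ σ (ev Φ e) ⬝ᵥ rs R Φ σ F = 0) (ω : Om R Φ σ) :
    kx Φ e (π ω) = kx Φ e ω := by
  have h1 := Rf_move K _ (ev_mem he hee) ω
  have h2 : cf (rs R Φ σ (ev Φ e)) (rs R Φ σ F) = 0 := by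
    rw [cf_eq_zero K.dot_self_pos.ne', dotProduct_comm]
    exact h0
  rw [h2, zero_mul, sub_zero, rs_apply, rs_apply] at h1
  have h3 : (kx Φ e (π ω) : ℚ) = kx Φ e ω := by rw [kx_cast, kx_cast, h1]
  exact_mod_cast h3

/-- The values of `ξ` are `m`-th powers on which `γ` acts by roots of unity. -/
theorem exists_b (H : IsFrob R Φ) (hG : Kumm Φ m ζ₀ γ e) (hm0 : m ≠ 0)
    (hζ₀ : IsPrimitiveRoot ζ₀ m) (hD : Dcm R Φ σ s s') (hξ : IsXi R Φ σ s s' ξ) (f : ℂ → ℤ)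
    (hf1 : ∀ (F : ℂ → ℚ) (π : Equiv.Perm (Om R Φ σ)), F ∈ s → Rf (Ls R Φ σ) (rs R Φ σ F) π →
      ∀ ω : Om R Φ σ, f (π ω) - f ω = kx Φ e (π ω) - kx Φ e ω)
    (hf2 : ∀ (F : ℂ → ℚ) (π : Equiv.Perm (Om R Φ σ)), F ∈ s' → Rf (Ls R Φ σ) (rs R Φ σ F) π →
      ∀ ω : Om R Φ σ, f (π ω) = f ω) {ω₀ : ℂ} (hω₀ : ω₀ ∈ Om R Φ σ) :
    ∀ ω ∈ Om R Φ σ, ∃ b : ℂ, b ≠ 0 ∧ ξ ω = ξ ω₀ * b ^ m ∧ γ b = ζ₀ ^ (f ω - f ω₀) * b := by
  have hζ0 : ζ₀ ≠ 0 := hζ₀.ne_zero hm0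
  have h1 : {ω : Om R Φ σ | ∃ b : ℂ, b ≠ 0 ∧ ξ ω = ξ ω₀ * b ^ m ∧
      γ b = ζ₀ ^ (f ω - f ω₀) * b} = Set.univ := by
    refine hD.tr _ ⟨⟨ω₀, hω₀⟩, 1, one_ne_zero, ?_, ?_⟩ fun F π hF K ω hω => ?_
    · rw [one_pow, mul_one]
    · rw [sub_self, zpow_zero, one_mul, map_one]
    · obtain ⟨b, hb0, hb1, hb2⟩ := hω
      rcases hF with hF | hF
      · obtain ⟨y, hy, hγ⟩ := hG.root hm0 (hasEigenvalue_of_mem ω.2)
        obtain ⟨y', hy', hγ'⟩ := hG.root hm0 (hasEigenvalue_of_mem (π ω).2)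
        have hy0 : y ≠ 0 := fun h0 => eig_ne H ω.2 (by rw [← hy, h0, zero_pow hm0])
        have hy0' : y' ≠ 0 := fun h0 => eig_ne H (π ω).2 (by rw [← hy', h0, zero_pow hm0])
        refine ⟨b * (y' * y⁻¹), mul_ne_zero hb0 (mul_ne_zero hy0' (inv_ne_zero hy0)), ?_, ?_⟩
        · have h2 := hξ.inn F π hF K ω
          have h3 : y ^ m ≠ 0 := pow_ne_zero _ hy0
          have h4 : ξ ω₀ * b ^ m * y' ^ m = ξ (π ω) * y ^ m := by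
            rw [hy', hy, ← hb1]
            exact h2
          apply mul_right_cancel₀ h3
          rw [← h4, mul_pow, mul_pow, inv_pow]
          field_simp
        · have h2 := hf1 F π hF K ω
          have h3 : f (π ω) - f ω₀ = (f ω - f ω₀) + kx Φ e (π ω) - kx Φ e ω := by omega
          have h5 : ζ₀ ^ (f (π ω) - f ω₀) =
              ζ₀ ^ (f ω - f ω₀) * ζ₀ ^ kx Φ e (π ω) * (ζ₀ ^ kx Φ e ω)⁻¹ := by
            rw [h3, zpow_sub₀ hζ0, zpow_add₀ hζ0, div_eq_mul_inv]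
          rw [map_mul, map_mul, map_inv₀, hb2, hγ, hγ', h5, mul_inv]
          ring
      · refine ⟨b, hb0, ?_, ?_⟩
        · rw [← hξ.out F π hF K ω, hb1]
        · rw [hf2 F π hF K ω, hb2]
  intro ω hω
  have h2 : (⟨ω, hω⟩ : Om R Φ σ) ∈ {ω : Om R Φ σ | ∃ b : ℂ, b ≠ 0 ∧ ξ ω = ξ ω₀ * b ^ m ∧
      γ b = ζ₀ ^ (f ω - f ω₀) * b} := by
    rw [h1]
    exact Set.mem_univ _
  exact h2

/-- The value of `eps` in terms of a determinant. -/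
theorem eps_det (H : IsFrob R Φ) (hV : ⨆ σ : E →+* ℂ, HS R σ = ⊤) (hF : Free Φ)
    (hL : Lat (Ls R Φ σ)) (hG : Kumm Φ m ζ₀ γ e) (hm0 : m ≠ 0) (hζ₀ : IsPrimitiveRoot ζ₀ m)
    (hmu : ∀ x : ℂ, x ^ m = 1 → γ x = x) (hm : dm R σ ∣ m) (hD : Dcm R Φ σ s s')
    (hγ : Stab σ s s' γ) (f : ℂ → ℤ)
    (hf1 : ∀ (F : ℂ → ℚ) (π : Equiv.Perm (Om R Φ σ)), F ∈ s → Rf (Ls R Φ σ) (rs R Φ σ F) π →
      ∀ ω : Om R Φ σ, f (π ω) - f ω = kx Φ e (π ω) - kx Φ e ω)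
    (hf2 : ∀ (F : ℂ → ℚ) (π : Equiv.Perm (Om R Φ σ)), F ∈ s' → Rf (Ls R Φ σ) (rs R Φ σ F) π →
      ∀ ω : Om R Φ σ, f (π ω) = f ω) {ω₀ : ℂ} (hω₀ : ω₀ ∈ Om R Φ σ) :
    ∃ (ζ : ℂ) (q : ℕ) (D : Matrix ι ι ℂ), Eps R Φ σ s s' γ ζ ∧ m = dm R σ * q ∧
      IsDg R Φ σ (fun z => ζ₀ ^ (f z - f ω₀)) D ∧ ζ * D.det ^ q = 1 := by
  classical
  obtain ⟨ζ, hε, -⟩ := exists_eps H hV hF hL hD hγ
  obtain ⟨ξ, hξ, hξγ⟩ := id hε
  have key := exists_b H hG hm0 hζ₀ hD hξ.toIsXi f hf1 hf2 hω₀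
  let b : ℂ → ℂ := fun z => if h : z ∈ Om R Φ σ then (key z h).choose else 1
  have hb : ∀ ω ∈ Om R Φ σ, b ω ≠ 0 ∧ ξ ω = ξ ω₀ * b ω ^ m ∧
      γ (b ω) = ζ₀ ^ (f ω - f ω₀) * b ω := by
    intro ω hω
    have h1 : b ω = (key ω hω).choose := dif_pos hω
    rw [h1]
    exact (key ω hω).choose_spec
  have hfix : ∀ ω ∈ Om R Φ σ, γ ω = ω := fun ω hω =>
    hG.fix hm0 hζ₀ (hasEigenvalue_of_mem hω)
  obtain ⟨P, hP, -⟩ := exists_pr R σ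
  obtain ⟨B, hB⟩ := exists_dg R Φ σ b
  obtain ⟨D, hD'⟩ := exists_dg R Φ σ fun z => ζ₀ ^ (f z - f ω₀)
  obtain ⟨q, hq⟩ := hm
  refine ⟨ζ, q, D, hε, hq, hD', ?_⟩
  -- powers
  have hpow : ∀ k : ℕ, IsDg R Φ σ (fun z => b z ^ k) (B ^ k) := by
    intro k
    induction k with
    | zero =>
      refine ⟨fun ω v _ _ => ?_, fun σ' _ v _ => ?_⟩
      · rw [pow_zero, pow_zero, Matrix.one_mulVec, one_smul]
      · rw [pow_zero, Matrix.one_mulVec]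
    | succ k ih =>
      refine ⟨fun ω v hv h => ?_, fun σ' h v hv => ?_⟩
      · rw [pow_succ, ← Matrix.mulVec_mulVec, hB.eig ω v hv h, Matrix.mulVec_smul,
          ih.eig ω v hv h, smul_smul, pow_succ, mul_comm (b ω)]
      · rw [pow_succ, ← Matrix.mulVec_mulVec, hB.out σ' h v hv, ih.out σ' h v hv]
  have h1 : IsDg R Φ σ ξ (B ^ m * (1 + (ξ ω₀ - 1) • P)) :=
    (hpow m).smul hP (ξ ω₀) fun ω hω => (hb ω hω).2.1
  have h2 : B.det ^ m * ξ ω₀ ^ dm R σ = 1 := by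
    have h3 := hξ.nrm _ h1
    rwa [Matrix.det_mul, Matrix.det_pow, det_pr hV hP] at h3
  -- conjugation
  have h3 : IsDg R Φ σ (fun z => γ (b (γ.symm z))) (B.map γ) := by
    have h4 := hB.map γ
    rwa [hγ.1] at h4
  have h4 : IsDg R Φ σ (fun z => γ (b (γ.symm z))) (B * D) := by
    refine ⟨fun ω v hv h => ?_, fun σ' h v hv => ?_⟩
    · by_cases h0 : v = 0
      · rw [h0, Matrix.mulVec_zero, smul_zero]
      have hω : ω ∈ Om R Φ σ := ⟨v, hv, h0, h⟩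
      have h5 : γ.symm ω = ω := by
        rw [RingEquiv.symm_apply_eq, hfix ω hω]
      rw [← Matrix.mulVec_mulVec, hD'.eig ω v hv h, Matrix.mulVec_smul, hB.eig ω v hv h, smul_smul,
        h5, (hb ω hω).2.2]
    · rw [← Matrix.mulVec_mulVec, hD'.out σ' h v hv, hB.out σ' h v hv]
  have h5 : γ B.det = B.det * D.det := by
    have h6 := congrArg Matrix.det (dg_unique H hV h3 h4)
    rw [Matrix.det_mul] at h6
    rw [← h6]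
    exact RingEquiv.map_det γ B
  have h6 : γ (ξ ω₀) = ζ * ξ ω₀ := by rw [hξγ ω₀ hω₀, hfix ω₀ hω₀]
  -- the product is a root of unity
  have h7 : (ξ ω₀ * B.det ^ q) ^ m = 1 := by
    have h8 : (ξ ω₀ * B.det ^ q) ^ dm R σ = 1 := by
      rw [mul_pow, ← pow_mul, mul_comm q, ← hq, mul_comm]
      exact h2
    rw [hq, pow_mul, h8, one_pow]
  have h8 := hmu _ h7
  rw [map_mul, map_pow, h5, h6, mul_pow] at h8
  have h9 : ξ ω₀ * B.det ^ q ≠ 0 := by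
    intro h0
    rw [h0, zero_pow hm0] at h7
    exact zero_ne_one h7
  have h10 : (ζ * D.det ^ q) * (ξ ω₀ * B.det ^ q) = 1 * (ξ ω₀ * B.det ^ q) := by
    rw [one_mul]
    calc (ζ * D.det ^ q) * (ξ ω₀ * B.det ^ q) = ζ * ξ ω₀ * (B.det ^ q * D.det ^ q) := by ring
      _ = _ := h8
  exact mul_right_cancel₀ h9 h10

/-- A map fixing all eigenvalues of `Φ` fixes the roots. -/
theorem mv_eq_of_fix (hfix : ∀ ω ∈ Om R Φ σ, γ ω = ω) {F : ℂ → ℚ} (hF : Rts R Φ σ F) :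
    mv γ F = F := by
  funext μ
  change F (γ.symm μ) = F μ
  by_cases hμ : μ ∈ Om R Φ σ
  · have h1 : γ.symm μ = μ := by rw [RingEquiv.symm_apply_eq, hfix μ hμ]
    rw [h1]
  · have h2 : γ.symm μ ∉ Om R Φ σ := by
      intro h3
      have h4 := hfix _ h3
      rw [RingEquiv.apply_symm_apply] at h4
      rw [← h4] at h3
      exact hμ h3
    rw [hF.supp μ hμ, hF.supp _ h2]

theorem stab_of_fix (hσ : cp γ σ = σ) (hfix : ∀ ω ∈ Om R Φ σ, γ ω = ω) (hD : Dcm R Φ σ s s') :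
    Stab σ s s' γ := by
  have key : ∀ A : Set (ℂ → ℚ), (∀ F ∈ A, Rts R Φ σ F) → mv γ '' A = A := by
    intro A hA
    ext F
    constructor
    · rintro ⟨F', hF', rfl⟩
      rwa [mv_eq_of_fix hfix (hA F' hF')]
    · intro hF
      exact ⟨F, hF, mv_eq_of_fix hfix (hA F hF)⟩
  exact ⟨hσ, key s hD.fst, key s' hD.snd⟩

/-- **The value of `eps` at the auxiliary prime.** -/
theorem gen_eps (H : IsFrob R Φ) (hF : Free Φ) (hI : Idem Φ) (hm0 : m ≠ 0)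
    (hζ₀ : IsPrimitiveRoot ζ₀ m) (hmu : ∀ x : ℂ, x ^ m = 1 → γ x = x)
    (G : AtG R c Φ m ζ₀ γ g ψ e) (hD : Dcm R Φ σ s s') (hO : One R Φ σ s s')
    (hm : dm R σ ∣ m) :
    Stab σ s s' γ ∧ ∃ ζ : ℂ, Eps R Φ σ s s' γ ζ ∧
      (ζ ≠ 1 ↔ Ns R Φ e σ ∧ ∃ F ∈ s, rs R Φ σ (ev Φ e) ⬝ᵥ rs R Φ σ F ≠ 0) := by
  have M := G.mono
  have hV := iSup_HS M
  have hfix : ∀ ω ∈ Om R Φ σ, γ ω = ω := fun ω hω =>
    G.kum.fix hm0 hζ₀ (hasEigenvalue_of_mem hω)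
  have hγ := stab_of_fix (G.emb σ) hfix hD
  refine ⟨hγ, ?_⟩
  obtain ⟨ω₀, hω₀⟩ := om_nonempty H σ
  have hζ0 : ζ₀ ≠ 0 := hζ₀.ne_zero hm0
  by_cases hA : ∀ F ∈ s, rs R Φ σ (ev Φ e) ⬝ᵥ rs R Φ σ F = 0
  · obtain ⟨ζ, q, D, hε, -, hD', h1⟩ := eps_det H hV hF (lat M H hI σ) G.kum hm0 hζ₀ hmu hm hD hγ
      (fun _ => 0) (fun F π hFs K ω => by rw [ev_move G.mem G.idem K (hA F hFs) ω, sub_self, sub_self])
      (fun F π _ _ ω => rfl) hω₀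
    have h2 : D = 1 := dg_unique H hV hD' ⟨fun ω v _ _ => by
      rw [sub_self, zpow_zero, one_smul, Matrix.one_mulVec], fun σ' _ v _ => by
      rw [Matrix.one_mulVec]⟩
    rw [h2, Matrix.det_one, one_pow, mul_one] at h1
    refine ⟨ζ, hε, fun h3 => absurd h1 h3, ?_⟩
    rintro ⟨-, F, hF', h3⟩
    exact absurd (hA F hF') h3
  · push Not at hA
    obtain ⟨F, hFs, hdot⟩ := hA
    have hB : ∀ F ∈ s', rs R Φ σ (ev Φ e) ⬝ᵥ rs R Φ σ F = 0 := by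
      rcases hO e G.mem G.idem with h1 | h1
      · exact h1
      · exact absurd (h1 F hFs) hdot
    have hns : Ns R Φ e σ := by
      by_contra h0
      exact hdot (dot_zero_of_not_ns h0 (hD.fst F hFs))
    obtain ⟨ζ, q, D, hε, hq, hD', h1⟩ := eps_det H hV hF (lat M H hI σ) G.kum hm0 hζ₀ hmu hm hD hγ
      (kx Φ e) (fun F π _ _ ω => rfl)
      (fun F π hFs K ω => ev_move G.mem G.idem K (hB F hFs) ω) hω₀
    refine ⟨ζ, hε, fun _ => ⟨hns, F, hFs, hdot⟩, fun _ hζ => ?_⟩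
    have heC : CC g e := CC.mem (M.le G.mem)
    obtain ⟨ρ, hρ, hρ0, hρ1, hdet⟩ := det_gl M σ heC G.idem
    obtain ⟨b₁, hb₁, -⟩ := exists_gl M σ (CC.one.add (heC.smul (ζ₀ - 1)))
    obtain ⟨b₂, hb₂, -⟩ := exists_gl M σ ((CC.one (g := g)).smul (ζ₀ ^ (-kx Φ e ω₀)))
    have h2 : D = b₂ * b₁ := by
      refine dg_unique H hV hD' ⟨fun ω v hv h => ?_, fun σ' h v hv => ?_⟩
      · have h3 : b₁.mulVec v = ζ₀ ^ kx Φ e ω • v := by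
          rw [hb₁.eq v hv, Matrix.add_mulVec, Matrix.one_mulVec, Matrix.smul_mulVec,
            ev_apply G.mem G.idem h]
          unfold kx
          rcases ev_or Φ e ω with h4 | h4
          · rw [h4]
            simp
          · rw [h4]
            simp only [if_true, Rat.cast_one, one_smul, zpow_one]
            rw [sub_smul, one_smul]
            abel
        rw [← Matrix.mulVec_mulVec, h3, Matrix.mulVec_smul, hb₂.eq v hv, Matrix.smul_mulVec,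
          Matrix.one_mulVec, smul_smul, ← zpow_add₀ hζ0, sub_eq_add_neg]
      · rw [← Matrix.mulVec_mulVec, hb₁.out σ' h v hv, hb₂.out σ' h v hv]
    rw [hζ, one_mul, h2, Matrix.det_mul, hdet ζ₀ b₁ hb₁, det_scalar M σ _ hb₂, mul_pow, ← pow_mul,
      ← hq] at h1
    have h3 : (ζ₀ ^ (-kx Φ e ω₀)) ^ m = 1 := by
      rw [← zpow_natCast, ← zpow_mul, mul_comm, zpow_mul, zpow_natCast, hζ₀.pow_eq_one, one_zpow]
    rw [h3, one_mul, ← pow_mul] at h1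
    have h4 : m ∣ ρ * q := (hζ₀.pow_eq_one_iff_dvd _).1 h1
    have hq0 : 0 < q := by
      rcases Nat.eq_zero_or_pos q with h5 | h5
      · rw [h5, mul_zero] at hq
        exact absurd hq hm0
      · exact h5
    have h5 : dm R σ ∣ ρ := by
      rw [hq] at h4
      exact Nat.dvd_of_mul_dvd_mul_right hq0 h4
    obtain ⟨μ, ⟨w, hw, hw0, hwμ⟩, ν, ⟨w', hw', hw0', hwν⟩, h6, h7⟩ := hns
    have h8 := ev_apply G.mem G.idem hwμ
    have h9 := ev_apply G.mem G.idem hwν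
    rw [h6, Rat.cast_zero, zero_smul] at h8
    rw [h7, Rat.cast_one, one_smul] at h9
    rcases Nat.eq_zero_or_pos ρ with h11 | h11
    · apply hw0'
      rw [← h9, hρ0 h11 w' hw', Matrix.zero_mulVec]
    · apply hw0
      rw [← h8, hρ1 (le_antisymm hρ (Nat.le_of_dvd h11 h5)) w hw, Matrix.one_mulVec]

/-- **The reciprocity law.** -/
theorem recip_g (H : IsFrob R Φ) (hF : Free Φ) (hI : Idem Φ) {K : Subfield ℂ} {π : K}
    (hm0 : 0 < m) (hm : ∀ σ : E →+* ℂ, dm R σ ∣ m)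
    (hζ₀ : IsPrimitiveRoot ζ₀ m) (T : Tame K π m ζ₀ γ) (G : AtG R c Φ m ζ₀ γ g ψ e)
    (h1 : ∀ δ : ℂ ≃+* ℂ, Cls K π m δ → ∀ S : Finset ℂ, (∀ x ∈ S, IsAlgebraic ℚ x) →
      ∃ τ : ℂ ≃+* ℂ, (∀ x ∈ S, τ x = δ x) ∧ ∃ (g : Submodule ℂ (Matrix ι ι ℂ))
        (ψ : Matrix ι ι ℂ), AtL R c Φ m τ g ψ)
    {h : ℂ ≃+* ℂ} (hh : ∀ x ∈ K, h x = x) {σ : E →+* ℂ} (hns : Ns R Φ e σ) :
    Ns R Φ e (cp h σ) ∧ mv h '' tch R Φ σ (ev Φ e) = tch R Φ (cp h σ) (ev Φ e) := by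
  have M := G.mono
  have hL : ∀ σ : E →+* ℂ, Lat (Ls R Φ σ) := fun σ => lat M H hI σ
  refine rec_tch H (iSup_HS M) hL hm0 hζ₀ hm T ?_ ?_ hh hns (tch_isCmp M H hI G.mem G.idem hns)
  · intro δ hδ S hS
    obtain ⟨τ, hτ, g', ψ', M', h2⟩ := atl_eps H hF hI hm0.ne' hδ.mu
      (fun S hS => h1 δ hδ S hS) S hS
    exact ⟨τ, hτ, fun σ s hs hst => h2 σ s _ (dcm_cmp H (hL σ) hs) (act_compl M' H hI s)
      (one_cmp M' H hI hs) (hm σ) hst⟩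
  · intro σ s hs
    have hD := dcm_cmp H (hL σ) hs
    obtain ⟨hst, ζ, hε, hζ⟩ := gen_eps H hF hI hm0.ne' hζ₀ T.mu G hD (one_cmp M H hI hs) (hm σ)
    refine ⟨hst, ζ, hε, hζ.trans ⟨?_, ?_⟩⟩
    · rintro ⟨hn, F, hFs, hd⟩
      have ht := tch_isCmp M H hI G.mem G.idem hn
      have hFt : F ∈ tch R Φ σ (ev Φ e) :=
        ⟨hD.fst F hFs, F, hD.fst F hFs, hd, Relation.ReflTransGen.refl⟩
      exact ⟨hn, by rw [← cmp_eq_of_mem hs hFs, cmp_eq_of_mem ht hFt]⟩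
    · rintro ⟨hn, hs'⟩
      obtain ⟨F₀, hF₀, ht⟩ := tch_isCmp M H hI G.mem G.idem hn
      have h3 : F₀ ∈ tch R Φ σ (ev Φ e) := by
        rw [ht]
        exact ⟨hF₀, Relation.ReflTransGen.refl⟩
      obtain ⟨-, F', h4, h5, -⟩ := h3
      refine ⟨hn, F', ?_, h5⟩
      rw [hs']
      exact ⟨h4, F', h4, h5, Relation.ReflTransGen.refl⟩

end Pool.Agent.FQX
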