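import Pool.Agent.FQX.Pr

/-!
# Block decomposition of an element of the monodromy group

`s`, `s'` are two orthogonal sets of reflections (`Dcm`). `G1` are the elements of `g` which act on the
tensor factor of `s` only (and the scalars), `G2` those which act on the other factor. `Blk t a`: `a` is
the part in the factor of `s` of the group element `t`, normalised by `det a = 1`.
-/

set_option autoImplicit false
set_option linter.unusedSectionVars false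

namespace Pool.Agent.FQX

open Module
open Pool.Agent.CoprimeSig (ratM)
open Pool.Agent.FQV
open Pool.Agent.FQ (expG IsExp)

variable {ι : Type} [Fintype ι] [DecidableEq ι] {E : Type} [CommRing E]
  {R : E →+* Matrix ι ι ℚ} {Φ : Matrix ι ι ℚ} {σ : E →+* ℂ} {c : E → E}
  {g : Submodule ℂ (Matrix ι ι ℂ)} {ψ : Matrix ι ι ℂ} {s s' : Set (ℂ → ℚ)}

/-- The elements of the torus which act on `HS R σ` as an element of `s'`. -/
def Co (R : E →+* Matrix ι ι ℚ) (Φ : Matrix ι ι ℚ) (σ : E →+* ℂ) (s' : Set (ℂ → ℚ)) :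
    Set (Matrix ι ι ℂ) := {y | y ∈ tor Φ ∧ ∃ F ∈ s', Vals R Φ σ y (rs R Φ σ F)}

/-- The elements of the ideals of `g` which commute on `HS R σ` with `Co R Φ σ s'`. -/
def G1 (g : Submodule ℂ (Matrix ι ι ℂ)) (R : E →+* Matrix ι ι ℚ) (Φ : Matrix ι ι ℚ)
    (σ : E →+* ℂ) (s' : Set (ℂ → ℚ)) : Submodule ℂ (Matrix ι ι ℂ) where
  carrier := {x | ∃ I : Submodule ℂ (Matrix ι ι ℂ), I ≤ g ∧
    (∀ a ∈ g, ∀ b ∈ I, a * b - b * a ∈ I) ∧ x ∈ I ∧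
    ∀ b ∈ I, ∀ y ∈ Co R Φ σ s', EqOn R σ (b * y) (y * b)}
  add_mem' := by
    rintro x y ⟨I, h1, h2, h3, h4⟩ ⟨J, k1, k2, k3, k4⟩
    refine ⟨I ⊔ J, sup_le h1 k1, ?_, (I ⊔ J).add_mem (Submodule.mem_sup_left h3)
      (Submodule.mem_sup_right k3), ?_⟩
    · intro a ha b hb
      obtain ⟨u, hu, w, hw, rfl⟩ := Submodule.mem_sup.1 hb
      have e : a * (u + w) - (u + w) * a = (a * u - u * a) + (a * w - w * a) := by noncomm_ring
      rw [e]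
      exact (I ⊔ J).add_mem (Submodule.mem_sup_left (h2 a ha u hu))
        (Submodule.mem_sup_right (k2 a ha w hw))
    · intro b hb z hz
      obtain ⟨u, hu, w, hw, rfl⟩ := Submodule.mem_sup.1 hb
      rw [add_mul, mul_add]
      exact (h4 u hu z hz).add (k4 w hw z hz)
  zero_mem' := ⟨⊥, bot_le, fun a _ b hb => by
    rw [Submodule.mem_bot] at hb ⊢
    rw [hb, mul_zero, zero_mul, sub_zero], Submodule.mem_bot ℂ |>.2 rfl, fun b hb y _ => by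
    rw [Submodule.mem_bot] at hb
    rw [hb, zero_mul, mul_zero]
    exact EqOn.refl⟩
  smul_mem' := fun z x ⟨I, h1, h2, h3, h4⟩ => ⟨I, h1, h2, I.smul_mem z h3, h4⟩

/-- The elements of `g` which commute with `G1` on `HS R σ`. -/
def G2 (g : Submodule ℂ (Matrix ι ι ℂ)) (R : E →+* Matrix ι ι ℚ) (Φ : Matrix ι ι ℚ)
    (σ : E →+* ℂ) (s' : Set (ℂ → ℚ)) : Submodule ℂ (Matrix ι ι ℂ) where
  carrier := {x | x ∈ g ∧ ∀ y ∈ G1 g R Φ σ s', EqOn R σ (x * y) (y * x)}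
  add_mem' := fun {x y} hx hy => ⟨g.add_mem hx.1 hy.1, fun z hz => by
    rw [add_mul, mul_add]
    exact (hx.2 z hz).add (hy.2 z hz)⟩
  zero_mem' := ⟨g.zero_mem, fun z _ => by
    rw [zero_mul, mul_zero]
    exact EqOn.refl⟩
  smul_mem' := fun k x hx => ⟨g.smul_mem k hx.1, fun z hz => by
    rw [smul_mul_assoc, mul_smul_comm]
    exact (hx.2 z hz).smul k⟩

theorem G1_le : G1 g R Φ σ s' ≤ g := fun _ ⟨_, h1, _, h3, _⟩ => h1 h3

theorem G2_le : G2 g R Φ σ s' ≤ g := fun _ h => h.1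

/-- PACKAGE. With the same `I`. -/
theorem G1_ideal {x b : Matrix ι ι ℂ} (hx : x ∈ g) (hb : b ∈ G1 g R Φ σ s') :
    x * b - b * x ∈ G1 g R Φ σ s' := by
  obtain ⟨I, h1, h2, h3, h4⟩ := hb
  exact ⟨I, h1, h2, h2 x hx b h3, h4⟩

/-- PACKAGE. Jacobi identity; elements of `g` preserve `HS R σ` (`HS_stable M`). -/
theorem G2_ideal (M : Mono R c Φ g ψ) {x b : Matrix ι ι ℂ} (hx : x ∈ g)
    (hb : b ∈ G2 g R Φ σ s') : x * b - b * x ∈ G2 g R Φ σ s' := by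
  refine ⟨M.lie x hx b hb.1, fun y hy v hv => ?_⟩
  have h1 := ((hb.2 y hy).mul_left x) v hv
  have h2 := (hb.2 _ (G1_ideal hx hy)) v hv
  have h3 := ((hb.2 y hy).mul_right (fun w hw => HS_stable M x hx w hw)) v hv
  have e : (x * b - b * x) * y = y * (x * b - b * x) + (x * (b * y) - x * (y * b)) -
      (b * (x * y - y * x) - (x * y - y * x) * b) - (b * y * x - y * b * x) := by
    noncomm_ring
  rw [e, Matrix.sub_mulVec, Matrix.sub_mulVec, Matrix.add_mulVec, Matrix.sub_mulVec (x * (b * y)),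
    Matrix.sub_mulVec (b * (x * y - y * x)), Matrix.sub_mulVec (b * y * x), h1, h2, h3]
  simp

/-- `1 ∈ G1`, `1 ∈ G2`. PACKAGE: the ideal `ℂ • 1` (`M.one`). -/
theorem one_mem_G (M : Mono R c Φ g ψ) : (1 : Matrix ι ι ℂ) ∈ G1 g R Φ σ s' ∧
    (1 : Matrix ι ι ℂ) ∈ G2 g R Φ σ s' := by
  refine ⟨⟨Submodule.span ℂ {1}, ?_, ?_, Submodule.mem_span_singleton_self _, ?_⟩, M.one,
    fun y _ => by rw [one_mul, mul_one]; exact EqOn.refl⟩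
  · rw [Submodule.span_singleton_le_iff_mem]
    exact M.one
  · intro a _ b hb
    obtain ⟨z, rfl⟩ := Submodule.mem_span_singleton.1 hb
    rw [mul_smul_comm, smul_mul_assoc, one_mul, mul_one, sub_self]
    exact Submodule.zero_mem _
  · intro b hb y _
    obtain ⟨z, rfl⟩ := Submodule.mem_span_singleton.1 hb
    rw [mul_smul_comm, smul_mul_assoc, one_mul, mul_one]
    exact EqOn.refl

/-- `τ` preserves `g`. -/
def Inv (g : Submodule ℂ (Matrix ι ι ℂ)) (τ : ℂ ≃+* ℂ) : Prop :=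
  (∀ x ∈ g, x.map τ ∈ g) ∧ ∀ x ∈ g, x.map τ.symm ∈ g

private theorem blk_map_symm (τ : ℂ ≃+* ℂ) (A : Matrix ι ι ℂ) :
    (A.map τ.symm).map τ = A := by
  ext i j
  simp

private theorem blk_symm_map (τ : ℂ ≃+* ℂ) (A : Matrix ι ι ℂ) :
    (A.map τ).map τ.symm = A := by
  ext i j
  simp

private theorem blk_map_mul (τ : ℂ ≃+* ℂ) (A B : Matrix ι ι ℂ) :
    (A * B).map τ = A.map τ * B.map τ := by
  have h := (RingEquiv.mapMatrix (m := ι) τ).map_mul A B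
  exact h

private theorem blk_map_sub (τ : ℂ ≃+* ℂ) (A B : Matrix ι ι ℂ) :
    (A - B).map τ = A.map τ - B.map τ := by
  ext i j
  simp

private theorem blk_mulVec (δ : ℂ ≃+* ℂ) (A : Matrix ι ι ℂ) (v : ι → ℂ) :
    (A.map δ).mulVec (fun i => δ (v i)) = fun i => δ (A.mulVec v i) := by
  funext i
  rw [Matrix.mulVec, Matrix.mulVec, dotProduct, dotProduct, map_sum]
  exact Finset.sum_congr rfl fun j _ => by rw [Matrix.map_apply, map_mul]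

private theorem blk_cp {τ : ℂ ≃+* ℂ} (h : cp τ σ = σ) : cp τ.symm σ = σ := by
  have h1 : cp τ.symm (cp τ σ) = σ := by
    ext a
    simp [cp_apply]
  rwa [h] at h1

private theorem blk_mv {τ : ℂ ≃+* ℂ} {s : Set (ℂ → ℚ)} (h : mv τ '' s = s) :
    mv τ.symm '' s = s := by
  have h1 : ∀ F : ℂ → ℚ, mv τ.symm (mv τ F) = F := by
    intro F
    funext μ
    simp [mv]
  conv_lhs => rw [← h]
  rw [Set.image_image]
  simp [h1]

private theorem blk_stab {τ : ℂ ≃+* ℂ} (h : Stab σ s s' τ) : Stab σ s s' τ.symm :=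
  ⟨blk_cp h.1, blk_mv h.2.1, blk_mv h.2.2⟩

private theorem blk_inv {τ : ℂ ≃+* ℂ} (h : Inv g τ) : Inv g τ.symm :=
  ⟨h.2, fun x hx => h.1 x hx⟩

private theorem blk_co (H : IsFrob R Φ) {τ : ℂ ≃+* ℂ} (hτ : Stab σ s s' τ)
    {y : Matrix ι ι ℂ} (hy : y ∈ Co R Φ σ s') : y.map τ.symm ∈ Co R Φ σ s' := by
  obtain ⟨h1, F, hF, hv⟩ := hy
  refine ⟨map_mem_tor h1 τ.symm H.diag, ?_⟩
  rw [← hτ.2.2] at hF
  obtain ⟨F', hF', rfl⟩ := hF
  refine ⟨F', hF', fun μ w hw hμ => ?_⟩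
  have h2 : (fun i => τ (w i)) ∈ HS R σ := by
    have h3 := conj_mem_HS τ hw
    rwa [hτ.1] at h3
  have h4 : τ μ ∈ Om R Φ σ := by
    have h3 := mem_Om_cp τ μ.2
    rwa [hτ.1] at h3
  have h5 := hv ⟨τ μ, h4⟩ _ h2 (conj_eig τ hμ)
  have h6 := blk_mulVec τ.symm y (fun i => τ (w i))
  rw [h5] at h6
  have h7 : (fun i => τ.symm ((fun i => τ (w i)) i)) = w := by
    funext i
    simp
  rw [h7] at h6
  rw [h6]
  funext i
  simp [rs_apply, mv]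

/-- PACKAGE. For the ideal `I` take the image of `I` under `x ↦ x.map τ` (a subspace, because `τ` is
surjective). `Co` is preserved: `map_mem_tor`, `conj_mem_HS τ.symm`; `mv τ '' s' = s'` (`Stab`). -/
theorem G1_map (H : IsFrob R Φ) {τ : ℂ ≃+* ℂ} (hτ : Stab σ s s' τ) (hg : Inv g τ)
    {x : Matrix ι ι ℂ} (hx : x ∈ G1 g R Φ σ s') : x.map τ ∈ G1 g R Φ σ s' := by
  obtain ⟨I, h1, h2, h3, h4⟩ := hx
  obtain ⟨J, hJ⟩ : ∃ J : Submodule ℂ (Matrix ι ι ℂ), ∀ y, y ∈ J ↔ y.map τ.symm ∈ I := by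
    refine ⟨{ carrier := {y | y.map τ.symm ∈ I}, add_mem' := ?_, zero_mem' := ?_,
              smul_mem' := ?_ }, fun y => Iff.rfl⟩
    · intro a b ha hb
      have e : (a + b).map τ.symm = a.map τ.symm + b.map τ.symm := by
        ext i j
        simp
      change (a + b).map τ.symm ∈ I
      rw [e]
      exact I.add_mem ha hb
    · have e : (0 : Matrix ι ι ℂ).map τ.symm = 0 := by
        ext i j
        simp
      change (0 : Matrix ι ι ℂ).map τ.symm ∈ I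
      rw [e]
      exact I.zero_mem
    · intro z a ha
      have e : (z • a).map τ.symm = τ.symm z • a.map τ.symm := by
        ext i j
        simp
      change (z • a).map τ.symm ∈ I
      rw [e]
      exact I.smul_mem _ ha
  refine ⟨J, fun y hy => ?_, fun a ha b hb => ?_, ?_, fun b hb y hy => ?_⟩
  · have h5 := hg.1 _ (h1 ((hJ y).1 hy))
    rwa [blk_map_symm] at h5
  · rw [hJ] at hb ⊢
    rw [blk_map_sub, blk_map_mul, blk_map_mul]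
    exact h2 _ (hg.2 a ha) _ hb
  · rw [hJ, blk_symm_map]
    exact h3
  · have h5 := (h4 _ ((hJ b).1 hb) _ (blk_co H hτ hy)).map τ
    rwa [hτ.1, blk_map_mul, blk_map_mul, blk_map_symm, blk_map_symm] at h5

/-- PACKAGE. `G1_map` for `τ.symm`, `EqOn.map`. -/
theorem G2_map (H : IsFrob R Φ) {τ : ℂ ≃+* ℂ} (hτ : Stab σ s s' τ) (hg : Inv g τ)
    {x : Matrix ι ι ℂ} (hx : x ∈ G2 g R Φ σ s') : x.map τ ∈ G2 g R Φ σ s' := by
  refine ⟨hg.1 x hx.1, fun y hy => ?_⟩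
  have h1 := (hx.2 _ (G1_map H (blk_stab hτ) (blk_inv hg) hy)).map τ
  rwa [hτ.1, blk_map_mul, blk_map_mul, blk_map_symm] at h1

/-- `a` is the part of `t` in the tensor factor which belongs to `s`. -/
structure Blk (g : Submodule ℂ (Matrix ι ι ℂ)) (R : E →+* Matrix ι ι ℚ) (Φ : Matrix ι ι ℚ)
    (σ : E →+* ℂ) (s' : Set (ℂ → ℚ)) (t a : (Matrix ι ι ℂ)ˣ) : Prop where
  cc : CC g (a : Matrix ι ι ℂ)
  out : ∀ σ' : E →+* ℂ, σ' ≠ σ → ∀ v ∈ HS R σ', (a : Matrix ι ι ℂ).mulVec v = v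
  c2 : ∀ x ∈ G2 g R Φ σ s', EqOn R σ ((a : Matrix ι ι ℂ) * x) (x * a)
  nrm : ∀ x ∈ G1 g R Φ σ s', (t : Matrix ι ι ℂ) * x * ((t⁻¹ : (Matrix ι ι ℂ)ˣ) : Matrix ι ι ℂ) ∈
    G1 g R Φ σ s' ∧ ((t⁻¹ : (Matrix ι ι ℂ)ˣ) : Matrix ι ι ℂ) * x * (t : Matrix ι ι ℂ) ∈
    G1 g R Φ σ s'
  c1 : ∀ x ∈ G1 g R Φ σ s', EqOn R σ ((a : Matrix ι ι ℂ) * x)
    ((t : Matrix ι ι ℂ) * x * ((t⁻¹ : (Matrix ι ι ℂ)ˣ) : Matrix ι ι ℂ) * a)
  det : (a : Matrix ι ι ℂ).det = 1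

variable {t t' a a' b : (Matrix ι ι ℂ)ˣ}

/-- PACKAGE. -/
theorem Blk.one : Blk g R Φ σ s' 1 1 := by
  refine ⟨?_, ?_, ?_, ?_, ?_, ?_⟩
  · rw [Units.val_one]
    exact CC.one
  · intro σ' _ v _
    rw [Units.val_one, Matrix.one_mulVec]
  · intro x _
    rw [Units.val_one, one_mul, mul_one]
    exact EqOn.refl
  · intro x hx
    rw [inv_one, Units.val_one, one_mul, mul_one]
    exact ⟨hx, hx⟩
  · intro x _
    rw [inv_one, Units.val_one, one_mul, mul_one, mul_one]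
    exact EqOn.refl
  · rw [Units.val_one, Matrix.det_one]

/-- PACKAGE. `a` and `a'` preserve `HS R σ` (`CC.hs M`), and `t' x t'⁻¹ ∈ G1`:
`a a' x = a (t' x t'⁻¹) a' = t (t' x t'⁻¹) t⁻¹ a a'` on `HS R σ`. -/
theorem Blk.mul (M : Mono R c Φ g ψ) (h : Blk g R Φ σ s' t a) (h' : Blk g R Φ σ s' t' a') :
    Blk g R Φ σ s' (t * t') (a * a') := by
  have ha : ∀ v ∈ HS R σ, (a : Matrix ι ι ℂ).mulVec v ∈ HS R σ := fun v hv => CC.hs M h.cc hv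
  have ha' : ∀ v ∈ HS R σ, (a' : Matrix ι ι ℂ).mulVec v ∈ HS R σ := fun v hv =>
    CC.hs M h'.cc hv
  refine ⟨?_, ?_, ?_, ?_, ?_, ?_⟩
  · rw [Units.val_mul]
    exact h.cc.mul h'.cc
  · intro σ' hσ' v hv
    rw [Units.val_mul, ← Matrix.mulVec_mulVec, h'.out σ' hσ' v hv, h.out σ' hσ' v hv]
  · intro x hx
    rw [Units.val_mul]
    have h1 := (h'.c2 x hx).mul_left (a : Matrix ι ι ℂ)
    have h2 := (h.c2 x hx).mul_right ha'
    simp only [mul_assoc] at h1 h2 ⊢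
    exact h1.trans h2
  · intro x hx
    rw [mul_inv_rev, Units.val_mul, Units.val_mul]
    have h1 := (h.nrm _ (h'.nrm x hx).1).1
    have h2 := (h'.nrm _ (h.nrm x hx).2).2
    simp only [mul_assoc] at h1 h2 ⊢
    exact ⟨h1, h2⟩
  · intro x hx
    rw [mul_inv_rev, Units.val_mul, Units.val_mul, Units.val_mul]
    have h1 := (h'.c1 x hx).mul_left (a : Matrix ι ι ℂ)
    have h2 := (h.c1 _ (h'.nrm x hx).1).mul_right ha'
    simp only [mul_assoc] at h1 h2 ⊢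
    exact h1.trans h2
  · rw [Units.val_mul, Matrix.det_mul, h.det, h'.det, mul_one]

/-- PACKAGE. -/
theorem Blk.inv (M : Mono R c Φ g ψ) (h : Blk g R Φ σ s' t a) : Blk g R Φ σ s' t⁻¹ a⁻¹ := by
  have hc := h.cc.inv
  have hv1 : ∀ v : ι → ℂ, (a : Matrix ι ι ℂ).mulVec
      (((a⁻¹ : (Matrix ι ι ℂ)ˣ) : Matrix ι ι ℂ).mulVec v) = v := fun v => by
    rw [Matrix.mulVec_mulVec, Units.mul_inv, Matrix.one_mulVec]
  have hv2 : ∀ v : ι → ℂ, ((a⁻¹ : (Matrix ι ι ℂ)ˣ) : Matrix ι ι ℂ).mulVec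
      ((a : Matrix ι ι ℂ).mulVec v) = v := fun v => by
    rw [Matrix.mulVec_mulVec, Units.inv_mul, Matrix.one_mulVec]
  refine ⟨hc, ?_, ?_, ?_, ?_, ?_⟩
  · intro σ' hσ' v hv
    have h1 := hv2 v
    rwa [h.out σ' hσ' v hv] at h1
  · intro x hx v hv
    have h1 := h.c2 x hx _ (CC.hs M hc hv)
    rw [← Matrix.mulVec_mulVec, ← Matrix.mulVec_mulVec, hv1] at h1
    rw [← Matrix.mulVec_mulVec, ← Matrix.mulVec_mulVec, ← h1, hv2]
  · intro x hx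
    rw [inv_inv]
    exact ⟨(h.nrm x hx).2, (h.nrm x hx).1⟩
  · intro x hx v hv
    rw [inv_inv]
    have h1 := h.c1 _ (h.nrm x hx).2 _ (CC.hs M hc hv)
    have h2 : (t : Matrix ι ι ℂ) * (((t⁻¹ : (Matrix ι ι ℂ)ˣ) : Matrix ι ι ℂ) * x * t) *
        ((t⁻¹ : (Matrix ι ι ℂ)ˣ) : Matrix ι ι ℂ) = x := by
      rw [mul_assoc, mul_assoc ((t⁻¹ : (Matrix ι ι ℂ)ˣ) : Matrix ι ι ℂ),
        mul_assoc ((t⁻¹ : (Matrix ι ι ℂ)ˣ) : Matrix ι ι ℂ), mul_assoc x, Units.mul_inv, mul_one,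
        ← mul_assoc, Units.mul_inv, one_mul]
    rw [h2] at h1
    generalize ((t⁻¹ : (Matrix ι ι ℂ)ˣ) : Matrix ι ι ℂ) * x * t = y at h1 ⊢
    rw [← Matrix.mulVec_mulVec, ← Matrix.mulVec_mulVec, hv1] at h1
    rw [← Matrix.mulVec_mulVec, ← Matrix.mulVec_mulVec, ← h1, hv2]
  · have h1 : (((a * a⁻¹ : (Matrix ι ι ℂ)ˣ) : Matrix ι ι ℂ)).det = 1 := by
      rw [mul_inv_cancel, Units.val_one, Matrix.det_one]
    rw [Units.val_mul, Matrix.det_mul, h.det, one_mul] at h1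
    exact h1

/-- PACKAGE. `x ↦ x.map τ` is multiplicative; the image of the unit `a` is
`Units.map (RingEquiv.mapMatrix τ)`; here `at'` is a unit with the entries `τ (a i j)`; similarly `t'` for
`t`. -/
theorem Blk.map (M : Mono R c Φ g ψ) (H : IsFrob R Φ) {τ : ℂ ≃+* ℂ} (hτ : Stab σ s s' τ)
    (hg : Inv g τ) (h : Blk g R Φ σ s' t a) (ht : (t' : Matrix ι ι ℂ) = (t : Matrix ι ι ℂ).map τ)
    (ha : (a' : Matrix ι ι ℂ) = (a : Matrix ι ι ℂ).map τ) : Blk g R Φ σ s' t' a' := by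
  have hm : ∀ x : Matrix ι ι ℂ, (x.map τ.symm).map τ = x := fun x => by
    ext i j
    simp
  have hmul : ∀ x y : Matrix ι ι ℂ, (x * y).map τ = x.map τ * y.map τ := fun x y =>
    Matrix.map_mul (f := (τ : ℂ →+* ℂ))
  have hti : ((t'⁻¹ : (Matrix ι ι ℂ)ˣ) : Matrix ι ι ℂ) =
      ((t⁻¹ : (Matrix ι ι ℂ)ˣ) : Matrix ι ι ℂ).map τ := by
    apply Units.inv_eq_of_mul_eq_one_right
    rw [ht, ← hmul, Units.mul_inv]
    exact Matrix.map_one τ (map_zero τ) (map_one τ)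
  have hcp : cp τ.symm σ = σ := by
    have h1 : cp τ.symm (cp τ σ) = σ := RingHom.ext fun r => by simp [cp_apply]
    rwa [hτ.1] at h1
  have himg : ∀ r : Set (ℂ → ℚ), mv τ '' r = r → mv τ.symm '' r = r := by
    intro r hr
    conv_lhs => rw [← hr]
    rw [Set.image_image]
    simp only [mv_symm_mv, Set.image_id']
  have hτ' : Stab σ s s' τ.symm := ⟨hcp, himg s hτ.2.1, himg s' hτ.2.2⟩
  have hg' : Inv g τ.symm := ⟨hg.2, fun x hx => by rw [RingEquiv.symm_symm]; exact hg.1 x hx⟩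
  have hE : ∀ {x y : Matrix ι ι ℂ}, EqOn R σ x y → EqOn R σ (x.map τ) (y.map τ) := by
    intro x y hxy
    have h1 := EqOn.map τ hxy
    rwa [hτ.1] at h1
  refine ⟨?_, ?_, ?_, ?_, ?_, ?_⟩
  · rw [ha]
    exact CC.map τ hg.1 h.cc
  · intro σ' hσ' v hv
    have h1 : (fun i => τ.symm (v i)) ∈ HS R (cp τ.symm σ') := conj_mem_HS τ.symm hv
    have h2 : cp τ.symm σ' ≠ σ := by
      intro h3
      apply hσ'
      have h4 : cp τ (cp τ.symm σ') = σ' := RingHom.ext fun r => by simp [cp_apply]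
      rw [← h4, h3, hτ.1]
    have h3 := h.out _ h2 _ h1
    rw [ha]
    funext i
    have h4 := congrArg τ (congrFun h3 i)
    rw [Matrix.mulVec, dotProduct, map_sum] at h4
    rw [RingEquiv.apply_symm_apply] at h4
    rw [← h4, Matrix.mulVec, dotProduct]
    refine Finset.sum_congr rfl fun j _ => ?_
    rw [map_mul, RingEquiv.apply_symm_apply, Matrix.map_apply]
  · intro x hx
    have h1 := hE (h.c2 _ (G2_map H hτ' hg' hx))
    rw [hmul, hmul, hm, ← ha] at h1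
    exact h1
  · intro x hx
    have h1 := h.nrm _ (G1_map H hτ' hg' hx)
    have h2 := G1_map H hτ hg h1.1
    have h3 := G1_map H hτ hg h1.2
    rw [hmul, hmul, hm, ← ht, ← hti] at h2 h3
    exact ⟨h2, h3⟩
  · intro x hx
    have h1 := hE (h.c1 _ (G1_map H hτ' hg' hx))
    rw [hmul, hmul, hmul, hmul, hm, ← ht, ← hti, ← ha] at h1
    exact h1
  · have h1 := RingHom.map_det (τ : ℂ →+* ℂ) (a : Matrix ι ι ℂ)
    rw [h.det, map_one] at h1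
    rw [ha]
    exact h1.symm

/-- Every element of `g` is the sum of an element of `G1` and an element of `G2`. -/
def Sum (g : Submodule ℂ (Matrix ι ι ℂ)) (R : E →+* Matrix ι ι ℚ) (Φ : Matrix ι ι ℚ)
    (σ : E →+* ℂ) (s' : Set (ℂ → ℚ)) : Prop :=
  ∀ x ∈ g, ∃ x1 ∈ G1 g R Φ σ s', ∃ x2 ∈ G2 g R Φ σ s', x = x1 + x2

/-- Uniqueness. PACKAGE. `a⁻¹ a'` is in the double commutant and commutes on `HS R σ` with `G1` (`c1` for
both) and with `G2`, so with `g` (`hS`), so it is a scalar `ζ` on `HS R σ` (`schur`); its determinant is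
`1 = ζ ^ dm R σ` (`det_scalar`). -/
theorem Blk.unique [Algebra ℚ E] [Module.Finite ℚ E] [IsReduced E] (M : Mono R c Φ g ψ)
    (H : IsFrob R Φ) (hI : Idem Φ) (hS : Sum g R Φ σ s') (h : Blk g R Φ σ s' t a)
    (h' : Blk g R Φ σ s' t a') :
    ∃ ζ : ℂ, ζ ^ dm R σ = 1 ∧ EqOn R σ (a' : Matrix ι ι ℂ) (ζ • (a : Matrix ι ι ℂ)) := by
  have ha : ((a⁻¹ : (Matrix ι ι ℂ)ˣ) : Matrix ι ι ℂ) * (a : Matrix ι ι ℂ) = 1 := a.inv_mul
  have ha' : (a : Matrix ι ι ℂ) * ((a⁻¹ : (Matrix ι ι ℂ)ˣ) : Matrix ι ι ℂ) = 1 := a.mul_inv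
  have hsi : ∀ v ∈ HS R σ, ((a⁻¹ : (Matrix ι ι ℂ)ˣ) : Matrix ι ι ℂ).mulVec v ∈ HS R σ :=
    fun v hv => CC.hs M h.cc.inv hv
  have hs' : ∀ v ∈ HS R σ, (a' : Matrix ι ι ℂ).mulVec v ∈ HS R σ := fun v hv => CC.hs M h'.cc hv
  have hcc : CC g (((a⁻¹ : (Matrix ι ι ℂ)ˣ) : Matrix ι ι ℂ) * (a' : Matrix ι ι ℂ)) :=
    h.cc.inv.mul h'.cc
  have hgen : ∀ x y : Matrix ι ι ℂ, EqOn R σ ((a : Matrix ι ι ℂ) * x) (y * a) →
      EqOn R σ ((a' : Matrix ι ι ℂ) * x) (y * a') →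
      EqOn R σ (((a⁻¹ : (Matrix ι ι ℂ)ˣ) : Matrix ι ι ℂ) * (a' : Matrix ι ι ℂ) * x)
        (x * (((a⁻¹ : (Matrix ι ι ℂ)ˣ) : Matrix ι ι ℂ) * (a' : Matrix ι ι ℂ))) := by
    intro x y h1 h2
    have h3 := h2.mul_left ((a⁻¹ : (Matrix ι ι ℂ)ˣ) : Matrix ι ι ℂ)
    have h4 := ((h1.mul_right hsi).mul_left ((a⁻¹ : (Matrix ι ι ℂ)ˣ) : Matrix ι ι ℂ)).mul_right hs'
    have e1 : ((a⁻¹ : (Matrix ι ι ℂ)ˣ) : Matrix ι ι ℂ) * ((a : Matrix ι ι ℂ) * x *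
        ((a⁻¹ : (Matrix ι ι ℂ)ˣ) : Matrix ι ι ℂ)) * (a' : Matrix ι ι ℂ) =
        x * (((a⁻¹ : (Matrix ι ι ℂ)ˣ) : Matrix ι ι ℂ) * (a' : Matrix ι ι ℂ)) := by
      calc _ = (((a⁻¹ : (Matrix ι ι ℂ)ˣ) : Matrix ι ι ℂ) * (a : Matrix ι ι ℂ)) * x *
            (((a⁻¹ : (Matrix ι ι ℂ)ˣ) : Matrix ι ι ℂ) * (a' : Matrix ι ι ℂ)) := by noncomm_ring
        _ = _ := by rw [ha, one_mul]
    have e2 : ((a⁻¹ : (Matrix ι ι ℂ)ˣ) : Matrix ι ι ℂ) * (y * (a : Matrix ι ι ℂ) *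
        ((a⁻¹ : (Matrix ι ι ℂ)ˣ) : Matrix ι ι ℂ)) * (a' : Matrix ι ι ℂ) =
        ((a⁻¹ : (Matrix ι ι ℂ)ˣ) : Matrix ι ι ℂ) * (y * (a' : Matrix ι ι ℂ)) := by
      calc _ = ((a⁻¹ : (Matrix ι ι ℂ)ˣ) : Matrix ι ι ℂ) * (y * ((a : Matrix ι ι ℂ) *
            ((a⁻¹ : (Matrix ι ι ℂ)ˣ) : Matrix ι ι ℂ)) * (a' : Matrix ι ι ℂ)) := by noncomm_ring
        _ = _ := by rw [ha', mul_one]
    rw [e1, e2] at h4
    rw [mul_assoc]
    exact h3.trans h4.symm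
  obtain ⟨z, hz⟩ := schur M H hI hcc fun x hx => by
    obtain ⟨x1, hx1, x2, hx2, rfl⟩ := hS x hx
    rw [mul_add, add_mul]
    exact (hgen _ _ (h.c1 x1 hx1) (h'.c1 x1 hx1)).add (hgen _ _ (h.c2 x2 hx2) (h'.c2 x2 hx2))
  have hgl : Gl R σ (z • 1) (((a⁻¹ : (Matrix ι ι ℂ)ˣ) : Matrix ι ι ℂ) * (a' : Matrix ι ι ℂ)) := by
    refine ⟨hz, fun σ' hσ v hv => ?_⟩
    rw [← Matrix.mulVec_mulVec, h'.out σ' hσ v hv]
    have h1 := h.out σ' hσ v hv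
    have h2 := congrArg ((a⁻¹ : (Matrix ι ι ℂ)ˣ) : Matrix ι ι ℂ).mulVec h1
    rw [Matrix.mulVec_mulVec, ha, Matrix.one_mulVec] at h2
    exact h2.symm
  have hdet := det_scalar M σ z hgl
  have hdi : ((a⁻¹ : (Matrix ι ι ℂ)ˣ) : Matrix ι ι ℂ).det = 1 := by
    have h1 := congrArg Matrix.det ha
    rwa [Matrix.det_mul, h.det, mul_one, Matrix.det_one] at h1
  rw [Matrix.det_mul, hdi, h'.det, mul_one] at hdet
  refine ⟨z, hdet.symm, ?_⟩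
  have h1 := hz.mul_left (a : Matrix ι ι ℂ)
  rw [← mul_assoc, ha', one_mul, mul_smul_comm, mul_one] at h1
  exact h1

/-- The part of `t` in the tensor factor of `s` is multiplied by `ζ` under `τ`. -/
def Dl (g : Submodule ℂ (Matrix ι ι ℂ)) (R : E →+* Matrix ι ι ℚ) (Φ : Matrix ι ι ℚ)
    (σ : E →+* ℂ) (s' : Set (ℂ → ℚ)) (τ : ℂ ≃+* ℂ) (t : (Matrix ι ι ℂ)ˣ) (ζ : ℂ) : Prop :=
  ∃ a : (Matrix ι ι ℂ)ˣ, Blk g R Φ σ s' t a ∧
    EqOn R σ ((a : Matrix ι ι ℂ).map τ) (ζ • (a : Matrix ι ι ℂ))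

/-- PACKAGE. `Blk.one`. -/
theorem Dl.one {τ : ℂ ≃+* ℂ} : Dl g R Φ σ s' τ 1 1 := by
  refine ⟨1, Blk.one, ?_⟩
  have h1 : ((1 : (Matrix ι ι ℂ)ˣ) : Matrix ι ι ℂ).map τ = (1 : ℂ) •
      ((1 : (Matrix ι ι ℂ)ˣ) : Matrix ι ι ℂ) := by
    rw [Units.val_one, one_smul]
    exact Matrix.map_one τ (map_zero τ) (map_one τ)
  rw [h1]
  exact EqOn.refl

/-- PACKAGE. `Blk.mul`; `EqOn` of products (`CC.hs`, `CC.map`). -/
theorem Dl.mul (M : Mono R c Φ g ψ) {τ : ℂ ≃+* ℂ} (hg : Inv g τ) {ζ ζ' : ℂ}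
    (h : Dl g R Φ σ s' τ t ζ) (h' : Dl g R Φ σ s' τ t' ζ') :
    Dl g R Φ σ s' τ (t * t') (ζ * ζ') := by
  obtain ⟨a, hB, hE⟩ := h
  obtain ⟨a', hB', hE'⟩ := h'
  refine ⟨a * a', hB.mul M hB', ?_⟩
  have h1 : ((a * a' : (Matrix ι ι ℂ)ˣ) : Matrix ι ι ℂ).map τ =
      (a : Matrix ι ι ℂ).map τ * (a' : Matrix ι ι ℂ).map τ := by
    rw [Units.val_mul]
    exact Matrix.map_mul
  have h2 : ∀ v ∈ HS R σ, (ζ' • (a' : Matrix ι ι ℂ)).mulVec v ∈ HS R σ := fun v hv =>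
    CC.hs M (hB'.cc.smul ζ') hv
  have h3 := (hE'.mul_left ((a : Matrix ι ι ℂ).map τ)).trans (hE.mul_right h2)
  rw [smul_mul_smul_comm] at h3
  rw [h1, Units.val_mul]
  exact h3

/-- PACKAGE. `ζ ≠ 0` because `a` is invertible and `HS R σ ≠ ⊥` (`HS_ne_bot`). -/
theorem Dl.inv [Algebra ℚ E] [Module.Finite ℚ E] [IsReduced E] (M : Mono R c Φ g ψ)
    (H : IsFrob R Φ) {τ : ℂ ≃+* ℂ} (hg : Inv g τ) {ζ : ℂ}
    (h : Dl g R Φ σ s' τ t ζ) : Dl g R Φ σ s' τ t⁻¹ ζ⁻¹ := by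
  obtain ⟨a, hB, hE⟩ := h
  have hm : ((a⁻¹ : (Matrix ι ι ℂ)ˣ) : Matrix ι ι ℂ).map τ * (a : Matrix ι ι ℂ).map τ = 1 := by
    rw [← Matrix.map_mul, a.inv_mul]
    exact Matrix.map_one τ (map_zero τ) (map_one τ)
  obtain ⟨v, hv, hv0⟩ := Submodule.exists_mem_ne_zero_of_ne_bot (HS_ne_bot H.inj σ)
  have hζ : ζ ≠ 0 := by
    rintro rfl
    have h1 := congrArg (((a⁻¹ : (Matrix ι ι ℂ)ˣ) : Matrix ι ι ℂ).map τ).mulVec (hE v hv)
    rw [Matrix.mulVec_mulVec, hm, Matrix.one_mulVec, zero_smul, Matrix.zero_mulVec,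
      Matrix.mulVec_zero] at h1
    exact hv0 h1
  refine ⟨a⁻¹, hB.inv M, fun w hw => ?_⟩
  have h1 := hE _ (CC.hs M hB.cc.inv hw)
  rw [Matrix.smul_mulVec, Matrix.mulVec_mulVec w (a : Matrix ι ι ℂ), a.mul_inv,
    Matrix.one_mulVec] at h1
  have h2 := congrArg (((a⁻¹ : (Matrix ι ι ℂ)ˣ) : Matrix ι ι ℂ).map τ).mulVec h1
  rw [Matrix.mulVec_mulVec, hm, Matrix.one_mulVec, Matrix.mulVec_smul] at h2
  rw [Matrix.smul_mulVec, h2, inv_smul_smul₀ hζ]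

/-- PACKAGE. `Dl.mul`. -/
theorem Dl.pow (M : Mono R c Φ g ψ) {τ : ℂ ≃+* ℂ} (hg : Inv g τ) {ζ : ℂ}
    (h : Dl g R Φ σ s' τ t ζ) (k : ℕ) : Dl g R Φ σ s' τ (t ^ k) (ζ ^ k) := by
  induction k with
  | zero =>
    rw [pow_zero, pow_zero]
    exact Dl.one
  | succ k ih =>
    rw [pow_succ, pow_succ]
    exact Dl.mul M hg ih h

/-- PACKAGE. `Blk.map` (with `t' = t`) and `Blk.unique`. -/
theorem Dl.exists [Algebra ℚ E] [Module.Finite ℚ E] [IsReduced E] (M : Mono R c Φ g ψ)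
    (H : IsFrob R Φ) (hI : Idem Φ) (hS : Sum g R Φ σ s') {τ : ℂ ≃+* ℂ} (hτ : Stab σ s s' τ)
    (hg : Inv g τ) (h : Blk g R Φ σ s' t a) (ht : (t : Matrix ι ι ℂ).map τ = t) :
    ∃ ζ : ℂ, ζ ^ dm R σ = 1 ∧ Dl g R Φ σ s' τ t ζ := by
  have ha : ∃ a' : (Matrix ι ι ℂ)ˣ, (a' : Matrix ι ι ℂ) = (a : Matrix ι ι ℂ).map τ :=
    ⟨Units.map (RingEquiv.mapMatrix τ : Matrix ι ι ℂ ≃+* Matrix ι ι ℂ).toMonoidHom a, rfl⟩
  obtain ⟨a', ha'⟩ := ha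
  obtain ⟨ζ, h1, h2⟩ := Blk.unique M H hI hS h (Blk.map M H hτ hg h ht.symm ha')
  rw [ha'] at h2
  exact ⟨ζ, h1, a, h, h2⟩

/-- PACKAGE. If `a' = η a` on `HS R σ`, `η ^ dm R σ = 1`, then `τ η = η`; compare (`HS R σ ≠ ⊥`, `a`
invertible). -/
theorem Dl.unique [Algebra ℚ E] [Module.Finite ℚ E] [IsReduced E] (M : Mono R c Φ g ψ)
    (H : IsFrob R Φ) (hI : Idem Φ) (hS : Sum g R Φ σ s') {τ : ℂ ≃+* ℂ} (hτ : cp τ σ = σ)
    (hm : ∀ z : ℂ, z ^ dm R σ = 1 → τ z = z) {ζ ζ' : ℂ}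
    (h : Dl g R Φ σ s' τ t ζ) (h' : Dl g R Φ σ s' τ t ζ') : ζ = ζ' := by
  obtain ⟨a, hB, hE⟩ := h
  obtain ⟨a', hB', hE'⟩ := h'
  obtain ⟨η, h1, h2⟩ := Blk.unique M H hI hS hB hB'
  obtain ⟨v, hv, hv0⟩ := Submodule.exists_mem_ne_zero_of_ne_bot (HS_ne_bot H.inj σ)
  have hinj : ∀ b : (Matrix ι ι ℂ)ˣ, (b : Matrix ι ι ℂ).mulVec v ≠ 0 := by
    intro b h0
    have h3 := congrArg ((b⁻¹ : (Matrix ι ι ℂ)ˣ) : Matrix ι ι ℂ).mulVec h0
    rw [Matrix.mulVec_mulVec, b.inv_mul, Matrix.one_mulVec, Matrix.mulVec_zero] at h3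
    exact hv0 h3
  have hη : η ≠ 0 := by
    rintro rfl
    have h3 := h2 v hv
    rw [zero_smul, Matrix.zero_mulVec] at h3
    exact hinj a' h3
  have h3 := EqOn.map τ h2
  have h4 : (η • (a : Matrix ι ι ℂ)).map τ = η • (a : Matrix ι ι ℂ).map τ := by
    ext i j
    simp [hm η h1]
  rw [hτ, h4] at h3
  have h5 := h3 v hv
  rw [hE' v hv, Matrix.smul_mulVec, Matrix.smul_mulVec, h2 v hv, hE v hv, Matrix.smul_mulVec,
    Matrix.smul_mulVec, smul_smul, smul_smul] at h5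
  have h6 := smul_left_injective ℂ (hinj a) h5
  beta_reduce at h6
  have h7 : η * (ζ - ζ') = 0 := by linear_combination -h6
  rcases mul_eq_zero.1 h7 with h8 | h8
  · exact absurd h8 hη
  · exact sub_eq_zero.1 h8

end Pool.Agent.FQX
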