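import Pool.Agent.FQX.Xi
import Pool.Agent.FQV.Form2

/-!
# Matrices which commute with the commutant of `g`

`EqOn R σ x y`: `x` and `y` agree on the eigenspace `HS R σ`. `CC g a`: `a` is in the double commutant of
`g`. Such matrices preserve all subspaces with a `g`-stable complement, and on `HS R σ` they are
determined by their action on one irreducible subspace.
-/

set_option autoImplicit false
set_option linter.unusedSectionVars false

namespace Pool.Agent.FQX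

open Module
open Pool.Agent.CoprimeSig (ratM)
open Pool.Agent.FQV

variable {ι : Type} [Fintype ι] [DecidableEq ι] {E : Type} [CommRing E]
  {R : E →+* Matrix ι ι ℚ} {Φ : Matrix ι ι ℚ} {σ : E →+* ℂ} {c : E → E}
  {g : Submodule ℂ (Matrix ι ι ℂ)} {ψ : Matrix ι ι ℂ} {W : Submodule ℂ (ι → ℂ)}
  {p : (ι → ℂ) →ₗ[ℂ] W} {v : Basis (Om R Φ σ) ℂ W} {a b x y : Matrix ι ι ℂ}

/-- `x` and `y` agree on the eigenspace for `σ`. -/
def EqOn (R : E →+* Matrix ι ι ℚ) (σ : E →+* ℂ) (x y : Matrix ι ι ℂ) : Prop :=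
  ∀ v ∈ HS R σ, x.mulVec v = y.mulVec v

theorem EqOn.refl : EqOn R σ x x := fun _ _ => rfl

theorem EqOn.symm (h : EqOn R σ x y) : EqOn R σ y x := fun v hv => (h v hv).symm

theorem EqOn.trans {z : Matrix ι ι ℂ} (h : EqOn R σ x y) (h' : EqOn R σ y z) : EqOn R σ x z :=
  fun v hv => (h v hv).trans (h' v hv)

theorem EqOn.add (h : EqOn R σ x y) (h' : EqOn R σ a b) : EqOn R σ (x + a) (y + b) :=
  fun v hv => by rw [Matrix.add_mulVec, Matrix.add_mulVec, h v hv, h' v hv]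

theorem EqOn.smul (z : ℂ) (h : EqOn R σ x y) : EqOn R σ (z • x) (z • y) :=
  fun v hv => by rw [Matrix.smul_mulVec, Matrix.smul_mulVec, h v hv]

/-- Multiplication on the left by any matrix. -/
theorem EqOn.mul_left (a : Matrix ι ι ℂ) (h : EqOn R σ x y) : EqOn R σ (a * x) (a * y) :=
  fun v hv => by rw [← Matrix.mulVec_mulVec, ← Matrix.mulVec_mulVec, h v hv]

/-- Multiplication on the right by a matrix which preserves the eigenspace. -/
theorem EqOn.mul_right (h : EqOn R σ x y) (ha : ∀ v ∈ HS R σ, a.mulVec v ∈ HS R σ) :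
    EqOn R σ (x * a) (y * a) :=
  fun v hv => by rw [← Matrix.mulVec_mulVec, ← Matrix.mulVec_mulVec, h _ (ha v hv)]

/-- `a` is in the double commutant of `g`. -/
def CC (g : Submodule ℂ (Matrix ι ι ℂ)) (a : Matrix ι ι ℂ) : Prop :=
  ∀ Z : Matrix ι ι ℂ, (∀ x ∈ g, x * Z = Z * x) → a * Z = Z * a

theorem CC.mem (hx : x ∈ g) : CC g x := fun _ hZ => hZ x hx

theorem CC.one : CC g 1 := fun Z _ => by rw [one_mul, mul_one]

theorem CC.mul (ha : CC g a) (hb : CC g b) : CC g (a * b) := fun Z hZ => by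
  rw [mul_assoc, hb Z hZ, ← mul_assoc, ha Z hZ, mul_assoc]

theorem CC.add (ha : CC g a) (hb : CC g b) : CC g (a + b) := fun Z hZ => by
  rw [add_mul, ha Z hZ, hb Z hZ, mul_add]

theorem CC.smul (z : ℂ) (ha : CC g a) : CC g (z • a) := fun Z hZ => by
  rw [smul_mul_assoc, ha Z hZ, mul_smul_comm]

theorem CC.sub (ha : CC g a) (hb : CC g b) : CC g (a - b) := fun Z hZ => by
  rw [sub_mul, ha Z hZ, hb Z hZ, mul_sub]

theorem CC.pow (ha : CC g a) (k : ℕ) : CC g (a ^ k) := by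
  induction k with
  | zero =>
    rw [pow_zero]
    exact CC.one
  | succ k ih =>
    rw [pow_succ]
    exact ih.mul ha

theorem CC.inv {u : (Matrix ι ι ℂ)ˣ} (hu : CC g (u : Matrix ι ι ℂ)) :
    CC g ((u⁻¹ : (Matrix ι ι ℂ)ˣ) : Matrix ι ι ℂ) := fun Z hZ => by
  have h1 := hu Z hZ
  calc ((u⁻¹ : (Matrix ι ι ℂ)ˣ) : Matrix ι ι ℂ) * Z =
        ((u⁻¹ : (Matrix ι ι ℂ)ˣ) : Matrix ι ι ℂ) * Z * ((u : Matrix ι ι ℂ) *
          ((u⁻¹ : (Matrix ι ι ℂ)ˣ) : Matrix ι ι ℂ)) := by rw [Units.mul_inv, mul_one]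
    _ = ((u⁻¹ : (Matrix ι ι ℂ)ˣ) : Matrix ι ι ℂ) * (Z * (u : Matrix ι ι ℂ)) *
          ((u⁻¹ : (Matrix ι ι ℂ)ˣ) : Matrix ι ι ℂ) := by simp only [mul_assoc]
    _ = Z * ((u⁻¹ : (Matrix ι ι ℂ)ˣ) : Matrix ι ι ℂ) := by
      rw [← h1, ← mul_assoc, Units.inv_mul, one_mul]

/-- The Frobenius element. `tor Φ ≤ g` and `comm_frob`. -/
theorem CC.frob (M : Mono R c Φ g ψ) (H : IsFrob R Φ) : CC g (ratM Φ) := fun _ hZ =>
  comm_frob H fun x hx => hZ x (M.le hx)

theorem CC.rat (M : Mono R c Φ g ψ) (r : E) : CC g (ratM (R r)) := fun Z hZ =>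
  (M.center Z hZ r).symm

/-- The eigenspaces of `E` are preserved. -/
theorem CC.hs (M : Mono R c Φ g ψ) (ha : CC g a) {w : ι → ℂ} (hw : w ∈ HS R σ) :
    a.mulVec w ∈ HS R σ := fun r => by
  rw [Matrix.mulVec_mulVec, ← ha _ (fun x hx => M.comm r x hx), ← Matrix.mulVec_mulVec, hw r,
    Matrix.mulVec_smul]

/-- Subspaces with a projection commuting with `g` are preserved. -/
theorem CC.stable (P : Prj g W p) (ha : CC g a) {w : ι → ℂ} (hw : w ∈ W) : a.mulVec w ∈ W := by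
  have hZ : ∀ u, (LinearMap.toMatrix' (W.subtype ∘ₗ p)).mulVec u = (p u : ι → ℂ) := by
    intro u
    rw [← Matrix.toLin'_apply, Matrix.toLin'_toMatrix']
    rfl
  have h1 : a * LinearMap.toMatrix' (W.subtype ∘ₗ p) =
      LinearMap.toMatrix' (W.subtype ∘ₗ p) * a := by
    refine ha _ fun x hx => ?_
    apply (Matrix.toLin' (R := ℂ)).injective
    refine LinearMap.ext fun u => ?_
    rw [Matrix.toLin'_apply, Matrix.toLin'_apply, ← Matrix.mulVec_mulVec, ← Matrix.mulVec_mulVec,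
      hZ, hZ, P.eq x hx]
  have h2 : (p w : ι → ℂ) = w := congrArg Subtype.val (P.id ⟨w, hw⟩)
  have h3 := congrArg (fun B : Matrix ι ι ℂ => B.mulVec w) h1
  beta_reduce at h3
  rw [← Matrix.mulVec_mulVec, ← Matrix.mulVec_mulVec, hZ, hZ, h2] at h3
  rw [h3]
  exact (p (a.mulVec w)).2

theorem CC.rm_mul (F : Frame R Φ g σ W p v) (ha : CC g a) (hb : CC g b) :
    rm p (a * b) = rm p a * rm p b :=
  FQV.rm_mul F.prj (fun _ hw => ha.stable F.prj hw) fun _ hw => hb.stable F.prj hw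

/-- `HS R σ` is spanned by the images of `W` under the commutant of `g`. PACKAGE. The span `U` of the
vectors `Z.mulVec w`, `Z` in the commutant of `g`, `w ∈ W`, is contained in `HS R σ` (`Z` commutes with
`ratM (R r)` by `M.center`), it is stable under `g` and under the commutant of `g`, and contains
`W ≠ ⊥` (`Z = 1`). So `U = HS R σ` by `M.iso σ`. (See the proof of `exists_eig` in `FQV/Isot.lean`.) -/
theorem hs_le_span (M : Mono R c Φ g ψ) (F : Frame R Φ g σ W p v) :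
    HS R σ ≤ Submodule.span ℂ {u | ∃ Z : Matrix ι ι ℂ, (∀ x ∈ g, x * Z = Z * x) ∧
      ∃ w ∈ W, u = Z.mulVec w} := by
  obtain ⟨S, hS⟩ : ∃ S : Set (ι → ℂ), S = {u | ∃ Z : Matrix ι ι ℂ,
    (∀ x ∈ g, x * Z = Z * x) ∧ ∃ w ∈ W, u = Z.mulVec w} := ⟨_, rfl⟩
  rw [← hS]
  have hmem : ∀ u, u ∈ S ↔ ∃ Z : Matrix ι ι ℂ, (∀ x ∈ g, x * Z = Z * x) ∧
      ∃ w ∈ W, u = Z.mulVec w := fun u => by rw [hS]; exact Iff.rfl
  have hHS : ∀ Z : Matrix ι ι ℂ, (∀ x ∈ g, x * Z = Z * x) → ∀ w ∈ HS R σ,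
      Z.mulVec w ∈ HS R σ := by
    intro Z hZ w hw r
    rw [Matrix.mulVec_mulVec, ← M.center Z hZ r, ← Matrix.mulVec_mulVec, hw r,
      Matrix.mulVec_smul]
  have hWU : W ≤ Submodule.span ℂ S := by
    intro w hw
    exact Submodule.subset_span ((hmem w).2 ⟨1, fun x _ => by rw [mul_one, one_mul], w, hw,
      (Matrix.one_mulVec w).symm⟩)
  have hU1 : Submodule.span ℂ S ≤ HS R σ := by
    refine Submodule.span_le.2 fun u hu => ?_
    obtain ⟨Z, hZ, w, hw, rfl⟩ := (hmem u).1 hu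
    exact hHS Z hZ w (F.le hw)
  have hU2 : ∀ x ∈ g, ∀ u ∈ Submodule.span ℂ S, x.mulVec u ∈ Submodule.span ℂ S := by
    intro x hx u hu
    induction hu using Submodule.span_induction with
    | mem v hv =>
      obtain ⟨Z, hZ, w, hw, rfl⟩ := (hmem v).1 hv
      rw [Matrix.mulVec_mulVec, hZ x hx, ← Matrix.mulVec_mulVec]
      exact Submodule.subset_span ((hmem _).2 ⟨Z, hZ, _, F.irr.1 x hx w hw, rfl⟩)
    | zero => rw [Matrix.mulVec_zero]; exact Submodule.zero_mem _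
    | add u v _ _ h1 h2 => rw [Matrix.mulVec_add]; exact Submodule.add_mem _ h1 h2
    | smul c u _ h1 => rw [Matrix.mulVec_smul]; exact Submodule.smul_mem _ c h1
  have hU3 : ∀ Z : Matrix ι ι ℂ, (∀ x ∈ g, x * Z = Z * x) →
      (∀ w ∈ HS R σ, Z.mulVec w ∈ HS R σ) →
      ∀ u ∈ Submodule.span ℂ S, Z.mulVec u ∈ Submodule.span ℂ S := by
    intro Y hY1 _ u hu
    induction hu using Submodule.span_induction with
    | mem v hv =>
      obtain ⟨Z, hZ, w, hw, rfl⟩ := (hmem v).1 hv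
      rw [Matrix.mulVec_mulVec]
      refine Submodule.subset_span ((hmem _).2 ⟨Y * Z, fun x hx => ?_, w, hw, rfl⟩)
      rw [← Matrix.mul_assoc, hY1 x hx, Matrix.mul_assoc, hZ x hx, Matrix.mul_assoc]
    | zero => rw [Matrix.mulVec_zero]; exact Submodule.zero_mem _
    | add u v _ _ h1 h2 => rw [Matrix.mulVec_add]; exact Submodule.add_mem _ h1 h2
    | smul c u _ h1 => rw [Matrix.mulVec_smul]; exact Submodule.smul_mem _ c h1
  rcases M.iso σ _ hU1 hU2 hU3 with h1 | h1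
  · exact absurd (le_bot_iff.1 (h1 ▸ hWU)) F.irr.2.1
  · exact h1.ge

/-- Two elements of the double commutant which agree on `W` agree on `HS R σ`. PACKAGE. By
`hs_le_span`: `a (Z w) = Z (a w) = Z (b w) = b (Z w)`; `a w = rm p a w` by `rm_apply` and `CC.stable`. -/
theorem CC.eqOn (M : Mono R c Φ g ψ) (F : Frame R Φ g σ W p v) (ha : CC g a) (hb : CC g b)
    (h : rm p a = rm p b) : EqOn R σ a b := by
  have hW : ∀ w ∈ W, a.mulVec w = b.mulVec w := by
    intro w hw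
    have h1 := FQV.rm_apply F.prj (fun _ hw => ha.stable F.prj hw) ⟨w, hw⟩
    have h2 := FQV.rm_apply F.prj (fun _ hw => hb.stable F.prj hw) ⟨w, hw⟩
    rw [← h1, ← h2, h]
  have key : ∀ u ∈ Submodule.span ℂ {u | ∃ Z : Matrix ι ι ℂ, (∀ x ∈ g, x * Z = Z * x) ∧
      ∃ w ∈ W, u = Z.mulVec w}, a.mulVec u = b.mulVec u := by
    intro u hu
    induction hu using Submodule.span_induction with
    | mem v hv =>
      obtain ⟨Z, hZ, w, hw, rfl⟩ := hv
      rw [Matrix.mulVec_mulVec, Matrix.mulVec_mulVec, ha Z hZ, hb Z hZ, ← Matrix.mulVec_mulVec,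
        ← Matrix.mulVec_mulVec, hW w hw]
    | zero => rw [Matrix.mulVec_zero, Matrix.mulVec_zero]
    | add u v _ _ h1 h2 => rw [Matrix.mulVec_add, Matrix.mulVec_add, h1, h2]
    | smul c u _ h1 => rw [Matrix.mulVec_smul, Matrix.mulVec_smul, h1]
  exact fun u hu => key u (hs_le_span M F hu)

/-- PACKAGE. `W ≤ HS R σ`, `rm_apply`, `CC.stable`. -/
theorem CC.rm_eq (F : Frame R Φ g σ W p v) (ha : CC g a) (hb : CC g b) (h : EqOn R σ a b) :
    rm p a = rm p b := by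
  refine LinearMap.ext fun w => Subtype.ext ?_
  rw [FQV.rm_apply F.prj (fun _ hw => ha.stable F.prj hw) w,
    FQV.rm_apply F.prj (fun _ hw => hb.stable F.prj hw) w]
  exact h _ (F.le w.2)

/-- Schur's lemma. PACKAGE. Let `F` be a frame (`exists_frame M H hI σ`). `rm p a` commutes with
`res p g` (`CC.rm_mul`, `CC.rm_eq`), which is irreducible (`irr_res F.prj F.irr`), so `rm p a` is a scalar
(`Pool.Agent.PrimePow.schur_irr`); use `CC.eqOn`. -/
theorem schur [Algebra ℚ E] [Module.Finite ℚ E] [IsReduced E] (M : Mono R c Φ g ψ) (H : IsFrob R Φ)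
    (hI : Idem Φ) (ha : CC g a) (h : ∀ x ∈ g, EqOn R σ (a * x) (x * a)) :
    ∃ z : ℂ, EqOn R σ a (z • 1) := by
  obtain ⟨W, p, v, F⟩ := exists_frame M H hI σ
  obtain ⟨z, hz⟩ := Pool.Agent.PrimePow.schur_irr (g := res p g)
    (fun U hU => irr_res F.prj F.irr U hU) (rm p a) (by
      intro y hy
      obtain ⟨x, hx, rfl⟩ := mem_res.1 hy
      rw [← CC.rm_mul F ha (CC.mem hx), ← CC.rm_mul F (CC.mem hx) ha]
      exact CC.rm_eq F (ha.mul (CC.mem hx)) ((CC.mem hx).mul ha) (h x hx))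
  refine ⟨z, CC.eqOn M F ha (CC.smul z CC.one) ?_⟩
  rw [hz, rm_smul, rm_one F.prj]

/-- PACKAGE. If `Z` commutes with `g` then `Z.map τ.symm` commutes with `g`, because
`x * Z.map τ.symm = (x.map τ * Z).map τ.symm`. -/
theorem CC.map (τ : ℂ ≃+* ℂ) (hg : ∀ x ∈ g, x.map τ ∈ g) (ha : CC g a) : CC g (a.map τ) := by
  intro Z hZ
  have hs : ∀ B : Matrix ι ι ℂ, (B.map τ).map τ.symm = B := fun B => by
    ext i j
    simp
  have hs' : ∀ B : Matrix ι ι ℂ, (B.map τ.symm).map τ = B := fun B => by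
    ext i j
    simp
  have hm : ∀ (δ : ℂ ≃+* ℂ) (B B' : Matrix ι ι ℂ), (B * B').map δ = B.map δ * B'.map δ :=
    fun δ B B' => by
      ext i j
      simp [Matrix.mul_apply, Matrix.map_apply]
  have h1 := ha (Z.map τ.symm) fun x hx => by
    have h2 := congrArg (fun B : Matrix ι ι ℂ => B.map τ.symm) (hZ _ (hg x hx))
    beta_reduce at h2
    rwa [hm, hm, hs] at h2
  have h3 := congrArg (fun B : Matrix ι ι ℂ => B.map τ) h1
  beta_reduce at h3
  rwa [hm, hm, hs'] at h3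

/-- PACKAGE. For `w ∈ HS R (cp τ σ)` the vector `fun i => τ.symm (w i)` is in `HS R σ` (`conj_mem_HS`). -/
theorem EqOn.map (τ : ℂ ≃+* ℂ) (h : EqOn R σ a b) : EqOn R (cp τ σ) (a.map τ) (b.map τ) := by
  intro w hw
  have key : ∀ B : Matrix ι ι ℂ, (B.map τ).mulVec w =
      fun i => τ (B.mulVec (fun i => τ.symm (w i)) i) := by
    intro B
    funext i
    rw [Matrix.mulVec, Matrix.mulVec, dotProduct, dotProduct, map_sum]
    exact Finset.sum_congr rfl fun j _ => by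
      rw [Matrix.map_apply, map_mul, RingEquiv.apply_symm_apply]
  have hw' : (fun i => τ.symm (w i)) ∈ HS R σ := by
    have h2 := conj_mem_HS τ.symm hw
    have h3 : cp τ.symm (cp τ σ) = σ := by
      ext a
      simp [cp_apply]
    rwa [h3] at h2
  rw [key a, key b, h _ hw']

end Pool.Agent.FQX
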