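import Mathlib

/-!
# Functions whose sums over the subsets with `k` elements are zero or one
-/

set_option autoImplicit false

namespace Pool.Agent.FQX

variable {K : Type*} [Field K] [CharZero K] {k m : ℕ}

private theorem exists_sub (a b : ℕ) (S : Finset (Fin m)) (hS : S.card ≤ b) (h : a + b ≤ m) :
    ∃ S' : Finset (Fin m), S'.card = a ∧ Disjoint S' S := by
  have h1 : a ≤ (Sᶜ).card := by
    rw [Finset.card_compl, Fintype.card_fin]
    omega
  obtain ⟨S', h2, h3⟩ := Finset.exists_subset_card_eq h1
  refine ⟨S', h3, ?_⟩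
  rw [Finset.disjoint_left]
  intro x hx hxS
  exact Finset.mem_compl.1 (h2 hx) hxS

private theorem two_ne : (2 : K) ≠ 0 ∧ (2 : K) ≠ 1 ∧ (2 : K) ≠ -1 := by
  refine ⟨two_ne_zero, fun h => ?_, fun h => ?_⟩
  · have : (1 : K) = 0 := by linear_combination h
    exact one_ne_zero this
  · have : (3 : K) = 0 := by linear_combination h
    exact three_ne_zero this

/-- **Combinatorics.** -/
theorem comb (hm : m = 2 * k) (hk : 2 ≤ k) (a : Fin m → K)
    (h : ∀ S : Finset (Fin m), S.card = k → ∑ i ∈ S, a i = 0 ∨ ∑ i ∈ S, a i = 1) :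
    (∃ c, ∀ i, a i = c) ∨ (∃ i, ∀ j, a j = if j = i then 1 else 0) ∨
      ∃ i, ∀ j, a j = (k : K)⁻¹ - if j = i then 1 else 0 := by
  classical
  obtain ⟨h20, h21, h22⟩ := two_ne (K := K)
  have hk0 : (k : K) ≠ 0 := Nat.cast_ne_zero.2 (by omega)
  have step : ∀ i j, a i - a j = 0 ∨ a i - a j = 1 ∨ a i - a j = -1 := by
    intro i j
    by_cases hij : i = j
    · left
      rw [hij, sub_self]
    obtain ⟨S, hS, hd⟩ := exists_sub (m := m) (k - 1) 2 {i, j} Finset.card_le_two (by omega)
    rw [Finset.disjoint_right] at hd
    have hi : i ∉ S := hd (by simp)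
    have hj : j ∉ S := hd (by simp)
    have e1 := h (insert i S) (by rw [Finset.card_insert_of_notMem hi]; omega)
    have e2 := h (insert j S) (by rw [Finset.card_insert_of_notMem hj]; omega)
    rw [Finset.sum_insert hi] at e1
    rw [Finset.sum_insert hj] at e2
    rcases e1 with e1 | e1 <;> rcases e2 with e2 | e2
    · left; linear_combination e1 - e2
    · right; right; linear_combination e1 - e2
    · right; left; linear_combination e1 - e2
    · left; linear_combination e1 - e2
  by_cases hall : ∀ i j, a i = a j
  · left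
    exact ⟨a ⟨0, by omega⟩, fun i => hall i _⟩
  right
  push Not at hall
  obtain ⟨i, j, hij⟩ : ∃ i j, a i = a j + 1 := by
    obtain ⟨i, j, hij⟩ := hall
    rcases step i j with h1 | h1 | h1
    · exact absurd (sub_eq_zero.1 h1) hij
    · exact ⟨i, j, by linear_combination h1⟩
    · exact ⟨j, i, by linear_combination -h1⟩
  have hne : i ≠ j := by
    rintro rfl
    have : (1 : K) = 0 := by linear_combination -hij
    exact one_ne_zero this
  have hval : ∀ l, a l = a i ∨ a l = a j := by
    intro l
    rcases step l i with h1 | h1 | h1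
    · left; linear_combination h1
    · exfalso
      have h2 : a l - a j = 2 := by linear_combination h1 + hij
      rcases step l j with h3 | h3 | h3
      · exact h20 (h2.symm.trans h3)
      · exact h21 (h2.symm.trans h3)
      · exact h22 (h2.symm.trans h3)
    · right; linear_combination h1 + hij
  have hno : ¬ ((∃ i', i' ≠ i ∧ a i' = a i) ∧ ∃ j', j' ≠ j ∧ a j' = a j) := by
    rintro ⟨⟨i', hi', hi2⟩, j', hj', hj2⟩
    have haij : a i ≠ a j := fun h0 => by
      have : (1 : K) = 0 := by linear_combination h0 - hij
      exact one_ne_zero this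
    have n1 : i' ≠ j := fun h0 => haij (by rw [← hi2, h0])
    have n2 : j' ≠ i := fun h0 => haij (by rw [← hj2, h0])
    have n3 : i' ≠ j' := fun h0 => haij (by rw [← hi2, h0, hj2])
    obtain ⟨S, hS, hd⟩ := exists_sub (m := m) (k - 2) 4 {i, i', j, j'} Finset.card_le_four
      (by omega)
    rw [Finset.disjoint_right] at hd
    have m1 : i ∉ S := hd (by simp)
    have m2 : i' ∉ S := hd (by simp)
    have m3 : j ∉ S := hd (by simp)
    have m4 : j' ∉ S := hd (by simp)
    have key : ∀ x y, x ≠ y → x ∉ S → y ∉ S →
        a x + a y + ∑ l ∈ S, a l = 0 ∨ a x + a y + ∑ l ∈ S, a l = 1 := by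
      intro x y hxy hx hy
      have hx' : x ∉ insert y S := by
        rw [Finset.mem_insert, not_or]
        exact ⟨hxy, hx⟩
      have e1 := h (insert x (insert y S)) (by
        rw [Finset.card_insert_of_notMem hx', Finset.card_insert_of_notMem hy]
        omega)
      rw [Finset.sum_insert hx', Finset.sum_insert hy, ← add_assoc] at e1
      exact e1
    have e1 := key i i' hi'.symm m1 m2
    have e3 := key j j' hj'.symm m3 m4
    rw [hi2, hij] at e1
    rw [hj2] at e3
    have e5 : a j + 1 + (a j + 1) + ∑ l ∈ S, a l = a j + a j + ∑ l ∈ S, a l + 2 := by ring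
    rw [e5] at e1
    rcases e1 with e1 | e1 <;> rcases e3 with e3 | e3 <;> rw [e3] at e1
    · exact h20 (by linear_combination e1)
    · have : (3 : K) = 0 := by linear_combination e1
      exact three_ne_zero this
    · exact h21 (by linear_combination e1)
    · exact h20 (by linear_combination e1)
  rw [not_and_or] at hno
  rcases hno with hno | hno
  · left
    push Not at hno
    have hb : ∀ l, l ≠ i → a l = a j := fun l hl => (hval l).resolve_left fun h1 => hno l hl h1
    obtain ⟨S, hS, hd⟩ := exists_sub (m := m) (k - 1) 1 {i} (by simp) (by omega)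
    rw [Finset.disjoint_right] at hd
    have hi : i ∉ S := hd (by simp)
    obtain ⟨S', hS', hd'⟩ := exists_sub (m := m) k 1 {i} (by simp) (by omega)
    rw [Finset.disjoint_right] at hd'
    have hi' : i ∉ S' := hd' (by simp)
    have e1 := h (insert i S) (by rw [Finset.card_insert_of_notMem hi]; omega)
    have e2 := h S' hS'
    rw [Finset.sum_insert hi, Finset.sum_congr rfl fun l hl => hb l (fun h0 => hi (h0 ▸ hl)),
      Finset.sum_const, hS, nsmul_eq_mul, Nat.cast_sub (by omega : 1 ≤ k), hij] at e1
    rw [Finset.sum_congr rfl fun l hl => hb l (fun h0 => hi' (h0 ▸ hl)), Finset.sum_const, hS',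
      nsmul_eq_mul] at e2
    have e3 : a j + 1 + ((k : K) - (1 : ℕ)) * a j = (k : K) * a j + 1 := by
      push_cast
      ring
    rw [e3] at e1
    have e4 : (k : K) * a j = 0 := by
      rcases e2 with e2 | e2
      · exact e2
      · rw [e2] at e1
        rcases e1 with e1 | e1
        · exact absurd (by linear_combination e1) h20
        · exact absurd (by linear_combination e1) h21
    have e5 : a j = 0 := (mul_eq_zero.1 e4).resolve_left hk0
    refine ⟨i, fun l => ?_⟩
    by_cases hl : l = i
    · rw [if_pos hl, hl, hij, e5, zero_add]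
    · rw [if_neg hl, hb l hl, e5]
  · right
    push Not at hno
    have hb : ∀ l, l ≠ j → a l = a i := fun l hl => (hval l).resolve_right fun h1 => hno l hl h1
    obtain ⟨S, hS, hd⟩ := exists_sub (m := m) (k - 1) 1 {j} (by simp) (by omega)
    rw [Finset.disjoint_right] at hd
    have hi : j ∉ S := hd (by simp)
    obtain ⟨S', hS', hd'⟩ := exists_sub (m := m) k 1 {j} (by simp) (by omega)
    rw [Finset.disjoint_right] at hd'
    have hi' : j ∉ S' := hd' (by simp)
    have e1 := h (insert j S) (by rw [Finset.card_insert_of_notMem hi]; omega)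
    have e2 := h S' hS'
    have e0 : a j = a i - 1 := by linear_combination -hij
    rw [Finset.sum_insert hi, Finset.sum_congr rfl fun l hl => hb l (fun h0 => hi (h0 ▸ hl)),
      Finset.sum_const, hS, nsmul_eq_mul, Nat.cast_sub (by omega : 1 ≤ k), e0] at e1
    rw [Finset.sum_congr rfl fun l hl => hb l (fun h0 => hi' (h0 ▸ hl)), Finset.sum_const, hS',
      nsmul_eq_mul] at e2
    have e3 : a i - 1 + ((k : K) - (1 : ℕ)) * a i = (k : K) * a i - 1 := by
      push_cast
      ring
    rw [e3] at e1
    have e4 : (k : K) * a i = 1 := by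
      rcases e2 with e2 | e2
      · rw [e2] at e1
        rcases e1 with e1 | e1
        · have : (1 : K) = 0 := by linear_combination -e1
          exact absurd this one_ne_zero
        · exact absurd (by linear_combination -e1) h20
      · exact e2
    have e5 : a i = (k : K)⁻¹ := eq_inv_of_mul_eq_one_left (by rw [mul_comm]; exact e4)
    refine ⟨j, fun l => ?_⟩
    by_cases hl : l = j
    · rw [if_pos hl, hl, e0, e5]
    · rw [if_neg hl, hb l hl, e5, sub_zero]

end Pool.Agent.FQX
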