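import Pool.Agent.FQX.Defs

/-!
# The group generated by the eigenvalues of the Frobenius element
-/

set_option autoImplicit false
set_option linter.unusedSectionVars false

namespace Pool.Agent.FQX

open Module
open Pool.Agent.CoprimeSig (ratM)
open Pool.Agent.FQV

variable {ι : Type} [Fintype ι] [DecidableEq ι] {E : Type} [CommRing E]
  {R : E →+* Matrix ι ι ℚ} {Φ : Matrix ι ι ℚ}

private theorem toMul_zpow_prod {T : Type*} (t : Finset T) (n : T → ℤ) (u : T → Additive ℂˣ) :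
    ((Additive.toMul (∑ x ∈ t, n x • u x) : ℂˣ) : ℂ) =
      ∏ x ∈ t, ((Additive.toMul (u x) : ℂˣ) : ℂ) ^ n x := by
  rw [toMul_sum, Units.coe_prod]
  refine Finset.prod_congr rfl fun x _ => ?_
  rw [toMul_zsmul, Units.val_zpow_eq_zpow_val]

/-- The eigenvalues are products of powers of independent numbers; the exponents satisfy all relations
between the eigenvalues. -/
theorem exists_coords (H : IsFrob R Φ) (hF : Free Φ) :
    ∃ (n : ℕ) (c : Fin n → ℂ) (x : Fin n → ℂ → ℤ), (∀ i, c i ≠ 0) ∧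
      (∀ μ, Module.End.HasEigenvalue (Matrix.toLin' (ratM Φ)) μ → μ = ∏ i, c i ^ x i μ) ∧
      ∀ i, ∀ t : Finset ℂ, (∀ μ ∈ t, Module.End.HasEigenvalue (Matrix.toLin' (ratM Φ)) μ) →
        ∀ m : ℂ → ℤ, ∏ μ ∈ t, μ ^ m μ = 1 → ∑ μ ∈ t, m μ * x i μ = 0 := by
  classical
  let Λ : Type := {μ : ℂ // Module.End.HasEigenvalue (Matrix.toLin' (ratM Φ)) μ}
  have hΛ : Finite Λ := (Module.End.finite_hasEigenvalue (Matrix.toLin' (ratM Φ))).to_subtype
  have hΛ' : Fintype Λ := Fintype.ofFinite Λ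
  have h0 : ∀ μ : Λ, (μ : ℂ) ≠ 0 := by
    intro μ h1
    obtain ⟨r, hr, h2⟩ := H.abs
    have h3 := h2 μ μ.2
    rw [h1, norm_zero] at h3
    exact hr.ne h3
  let u : Λ → Additive ℂˣ := fun μ => Additive.ofMul (Units.mk0 (μ : ℂ) (h0 μ))
  have hu : ∀ μ : Λ, ((Additive.toMul (u μ) : ℂˣ) : ℂ) = μ := fun μ => rfl
  let N : Submodule ℤ (Additive ℂˣ) := Submodule.span ℤ (Set.range u)
  have hfin : Module.Finite ℤ N := Module.Finite.span_of_finite ℤ (Set.finite_range u)
  have htf : Module.IsTorsionFree ℤ N := by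
    refine Module.IsTorsionFree.of_smul_eq_zero fun k y hy => ?_
    by_cases hk : k = 0
    · exact Or.inl hk
    right
    obtain ⟨m, hm⟩ := (Submodule.mem_span_range_iff_exists_fun ℤ).1 y.2
    let t : Finset ℂ := Finset.univ.image (fun μ : Λ => (μ : ℂ))
    let m' : ℂ → ℤ := fun z => if h : Module.End.HasEigenvalue (Matrix.toLin' (ratM Φ)) z then
      m ⟨z, h⟩ else 0
    have h1 : ∏ μ ∈ t, μ ^ m' μ = ((Additive.toMul (y : Additive ℂˣ) : ℂˣ) : ℂ) := by
      rw [← hm, toMul_zpow_prod, Finset.prod_image (fun a _ b _ h => Subtype.ext h)]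
      refine Finset.prod_congr rfl fun μ _ => ?_
      have h2 : m' (μ : ℂ) = m μ := dif_pos μ.2
      rw [h2, hu]
    have h2 : (∏ μ ∈ t, μ ^ m' μ) ^ k.natAbs = 1 := by
      rw [h1, ← Units.val_pow_eq_pow_val, ← toMul_nsmul]
      have h3 : (k.natAbs : ℤ) • (y : Additive ℂˣ) = 0 := by
        have h4 : k • (y : Additive ℂˣ) = 0 := by
          have h5 := congrArg (Subtype.val) hy
          simpa using h5
        rcases Int.natAbs_eq k with h5 | h5
        · rw [← h5, h4]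
        · have h6 : (k.natAbs : ℤ) = -k := by omega
          rw [h6, neg_smul, h4, neg_zero]
      rw [natCast_zsmul] at h3
      rw [h3]
      rfl
    have h3 := hF t m' k.natAbs (by
      intro μ hμ
      obtain ⟨ν, -, rfl⟩ := Finset.mem_image.1 hμ
      exact ν.2) (Int.natAbs_ne_zero.2 hk) h2
    rw [h1] at h3
    apply Subtype.ext
    have h4 : Additive.toMul (y : Additive ℂˣ) = 1 := Units.ext h3
    have h5 := congrArg Additive.ofMul h4
    simpa using h5
  obtain ⟨n, b⟩ : Σ n : ℕ, Basis (Fin n) ℤ N := Module.basisOfFiniteTypeTorsionFree'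
  let w : Λ → N := fun μ => ⟨u μ, Submodule.subset_span ⟨μ, rfl⟩⟩
  let x : Fin n → ℂ → ℤ := fun i z =>
    if h : Module.End.HasEigenvalue (Matrix.toLin' (ratM Φ)) z then b.repr (w ⟨z, h⟩) i else 0
  have hx : ∀ i (μ : Λ), x i (μ : ℂ) = b.repr (w μ) i := fun i μ => dif_pos μ.2
  refine ⟨n, fun i => ((Additive.toMul (b i : Additive ℂˣ) : ℂˣ) : ℂ), x,
    fun i => Units.ne_zero _, ?_, ?_⟩
  · intro μ hμ
    have h1 := b.sum_repr (w ⟨μ, hμ⟩)
    have h2 := congrArg (Subtype.val : N → Additive ℂˣ) h1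
    rw [Submodule.coe_sum] at h2
    simp only [Submodule.coe_smul] at h2
    have h3 : ((Additive.toMul (u ⟨μ, hμ⟩) : ℂˣ) : ℂ) =
        ∏ i, ((Additive.toMul (b i : Additive ℂˣ) : ℂˣ) : ℂ) ^ (b.repr (w ⟨μ, hμ⟩) i) := by
      rw [← toMul_zpow_prod]
      exact congrArg (fun z : Additive ℂˣ => ((Additive.toMul z : ℂˣ) : ℂ)) h2.symm
    rw [hu] at h3
    have h4 : ∏ i, ((Additive.toMul (b i : Additive ℂˣ) : ℂˣ) : ℂ) ^ (b.repr (w ⟨μ, hμ⟩) i) =
        ∏ i, ((Additive.toMul (b i : Additive ℂˣ) : ℂˣ) : ℂ) ^ x i μ :=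
      Finset.prod_congr rfl fun i _ => by rw [← hx i ⟨μ, hμ⟩]
    exact h3.trans h4
  · intro i t ht m hm
    have h1 : ∑ μ ∈ t.attach, m μ • w ⟨μ, ht μ μ.2⟩ = 0 := by
      apply Subtype.ext
      rw [Submodule.coe_sum]
      simp only [Submodule.coe_smul]
      have h2 : Additive.toMul (∑ μ ∈ t.attach, m μ • u ⟨μ, ht μ μ.2⟩) = 1 := by
        apply Units.ext
        rw [toMul_zpow_prod t.attach (fun μ => m μ) fun μ => u ⟨μ, ht μ μ.2⟩]
        rw [Units.val_one, ← hm, ← Finset.prod_attach t]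
        rfl
      have h3 := congrArg Additive.ofMul h2
      simpa using h3
    have h2 := congrArg (fun z => b.repr z i) h1
    simp only [map_sum, map_smul, map_zero, Finsupp.coe_finsetSum, Finset.sum_apply,
      Finsupp.smul_apply, Finsupp.coe_zero, Pi.zero_apply, smul_eq_mul] at h2
    rw [← Finset.sum_attach t, ← h2]
    refine Finset.sum_congr rfl fun μ _ => ?_
    rw [hx i ⟨μ, ht μ μ.2⟩]

end Pool.Agent.FQX
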