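import Pool.Agent.FQV.Api

/-!
# Reciprocity for the components: definitions

`s`, `s'` are two orthogonal sets of reflections of the lattice `Ls R Φ σ` (`Dcm R Φ σ s s'`), as sets of
functions on `ℂ` (extended by zero); for example a component (`IsCmp R Φ σ s`) and its complement. The
tensor factor of the irreducible subspaces of `HS R σ` which belongs to `s`
gives a decomposition of the Frobenius element into a product of two commuting operators; `IsXi` are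
the eigenvalues of the first one. `eps` measures how it is changed by an automorphism of `ℂ`.
-/

set_option autoImplicit false
set_option linter.unusedSectionVars false

namespace Pool.Agent.FQX

open Module
open Pool.Agent.CoprimeSig (ratM)
open Pool.Agent.PrimePow.CC (Rf Rt Lat)
open Pool.Agent.FQV

variable {ι : Type} [Fintype ι] [DecidableEq ι] {E : Type} [CommRing E]

/-- `P` is the projection on the eigenspace for `σ`. -/
structure IsPr (R : E →+* Matrix ι ι ℚ) (σ : E →+* ℂ) (P : Matrix ι ι ℂ) : Prop where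
  fix : ∀ v ∈ HS R σ, P.mulVec v = v
  kill : ∀ σ' : E →+* ℂ, σ' ≠ σ → ∀ v ∈ HS R σ', P.mulVec v = 0

/-- `a` acts on the eigenspace of `Φ` for `ω` in `HS R σ` by the scalar `ξ ω`, and trivially on the other
eigenspaces of `E`. -/
structure IsDg (R : E →+* Matrix ι ι ℚ) (Φ : Matrix ι ι ℚ) (σ : E →+* ℂ) (ξ : ℂ → ℂ)
    (a : Matrix ι ι ℂ) : Prop where
  eig : ∀ (ω : ℂ) (v : ι → ℂ), v ∈ HS R σ → (ratM Φ).mulVec v = ω • v → a.mulVec v = ξ ω • v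
  out : ∀ σ' : E →+* ℂ, σ' ≠ σ → ∀ v ∈ HS R σ', a.mulVec v = v

/-- Two orthogonal sets of reflections `s`, `s'`, which together are transitive on the eigenvalues. -/
structure Dcm (R : E →+* Matrix ι ι ℚ) (Φ : Matrix ι ι ℚ) (σ : E →+* ℂ) (s s' : Set (ℂ → ℚ)) :
    Prop where
  fst : ∀ F ∈ s, Rts R Φ σ F
  snd : ∀ F ∈ s', Rts R Φ σ F
  orth : ∀ F ∈ s, ∀ F' ∈ s', rs R Φ σ F ⬝ᵥ rs R Φ σ F' = 0
  tr : ∀ A : Set (Om R Φ σ), A.Nonempty → (∀ (F : ℂ → ℚ) (π : Equiv.Perm (Om R Φ σ)),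
    (F ∈ s ∨ F ∈ s') → Rf (Ls R Φ σ) (rs R Φ σ F) π → ∀ ω ∈ A, π ω ∈ A) → A = Set.univ

/-- The eigenvalues of the part of `Φ` which belongs to `s`: for the reflections `F ∈ s` the function `ξ`
changes in the same way as the eigenvalues of `Φ`, for the reflections in `s'` it does not change. -/
structure IsXi (R : E →+* Matrix ι ι ℚ) (Φ : Matrix ι ι ℚ) (σ : E →+* ℂ) (s s' : Set (ℂ → ℚ))
    (ξ : ℂ → ℂ) : Prop where
  ne : ∀ ω ∈ Om R Φ σ, ξ ω ≠ 0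
  inn : ∀ (F : ℂ → ℚ) (π : Equiv.Perm (Om R Φ σ)), F ∈ s → Rf (Ls R Φ σ) (rs R Φ σ F) π →
    ∀ ω : Om R Φ σ, ξ ω * (π ω : ℂ) = ξ (π ω) * ω
  out : ∀ (F : ℂ → ℚ) (π : Equiv.Perm (Om R Φ σ)), F ∈ s' → Rf (Ls R Φ σ) (rs R Φ σ F) π →
    ∀ ω : Om R Φ σ, ξ ω = ξ (π ω)

/-- `ξ` is normalised: the determinant is one. -/
structure IsXn (R : E →+* Matrix ι ι ℚ) (Φ : Matrix ι ι ℚ) (σ : E →+* ℂ) (s s' : Set (ℂ → ℚ))
    (ξ : ℂ → ℂ) : Prop extends IsXi R Φ σ s s' ξ where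
  nrm : ∀ a : Matrix ι ι ℂ, IsDg R Φ σ ξ a → a.det = 1

/-- The automorphism `δ` fixes `σ`, `s` and `s'`. -/
def Stab (σ : E →+* ℂ) (s s' : Set (ℂ → ℚ)) (δ : ℂ ≃+* ℂ) : Prop :=
  cp δ σ = σ ∧ mv δ '' s = s ∧ mv δ '' s' = s'

/-- `δ` changes the function `ξ` by the factor `ζ`. -/
def Eps (R : E →+* Matrix ι ι ℚ) (Φ : Matrix ι ι ℚ) (σ : E →+* ℂ) (s s' : Set (ℂ → ℚ))
    (δ : ℂ ≃+* ℂ) (ζ : ℂ) : Prop :=
  ∃ ξ : ℂ → ℂ, IsXn R Φ σ s s' ξ ∧ ∀ ω ∈ Om R Φ σ, δ (ξ ω) = ζ * ξ (δ ω)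

/-- The group generated by the eigenvalues of `Φ` has no torsion. -/
def Free (Φ : Matrix ι ι ℚ) : Prop :=
  ∀ (s : Finset ℂ) (n : ℂ → ℤ) (k : ℕ),
    (∀ μ ∈ s, Module.End.HasEigenvalue (Matrix.toLin' (ratM Φ)) μ) → k ≠ 0 →
    (∏ μ ∈ s, μ ^ n μ) ^ k = 1 → ∏ μ ∈ s, μ ^ n μ = 1

/-- The dimension of the eigenspace for `σ`. -/
noncomputable def dm (R : E →+* Matrix ι ι ℚ) (σ : E →+* ℂ) : ℕ := finrank ℂ (HS R σ)

end Pool.Agent.FQX
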