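import Pool.Agent.FQX.Defs

/-!
# The projections on the eigenspaces of `E` and matrices with given eigenvalues
-/

set_option autoImplicit false
set_option linter.unusedSectionVars false

namespace Pool.Agent.FQX

open Module
open Pool.Agent.CoprimeSig (ratM)
open Pool.Agent.FQV

variable {ι : Type} [Fintype ι] [DecidableEq ι] {E : Type} [CommRing E] [Algebra ℚ E]
  [Module.Finite ℚ E] [IsReduced E] {R : E →+* Matrix ι ι ℚ} {Φ : Matrix ι ι ℚ} {σ : E →+* ℂ}
  {s : Set (ℂ → ℚ)} {ξ ξ' : ℂ → ℂ} {ζ : ℂ}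

/-- The projection on the eigenspace for `σ`. It commutes with all matrices which commute with `E`. -/
theorem exists_pr (R : E →+* Matrix ι ι ℚ) (σ : E →+* ℂ) :
    ∃ P : Matrix ι ι ℂ, IsPr R σ P ∧ ∀ x : Matrix ι ι ℂ, (∀ a, x * ratM (R a) = ratM (R a) * x) →
      x * P = P * x := by
  classical
  have := Fintype.ofFinite (E →+* ℂ)
  have key : ∀ T : Finset (E →+* ℂ), σ ∉ T → ∃ P : Matrix ι ι ℂ, (∀ v ∈ HS R σ, P.mulVec v = v) ∧
      (∀ σ' ∈ T, ∀ v ∈ HS R σ', P.mulVec v = 0) ∧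
      ∀ x : Matrix ι ι ℂ, (∀ a, x * ratM (R a) = ratM (R a) * x) → x * P = P * x := by
    intro T
    induction T using Finset.induction_on with
    | empty =>
      intro _
      exact ⟨1, fun v _ => Matrix.one_mulVec v, fun σ' h => absurd h (Finset.notMem_empty _),
        fun x _ => by rw [mul_one, one_mul]⟩
    | insert σ' T hT ih =>
      intro hσ
      rw [Finset.mem_insert, not_or] at hσ
      obtain ⟨P, h1, h2, h3⟩ := ih hσ.2
      obtain ⟨a, ha⟩ : ∃ a, σ a ≠ σ' a := by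
        by_contra hcon
        push Not at hcon
        exact hσ.1 (RingHom.ext hcon)
      have hd : σ a - σ' a ≠ 0 := sub_ne_zero.2 ha
      refine ⟨P * ((σ a - σ' a)⁻¹ • (ratM (R a) - σ' a • (1 : Matrix ι ι ℂ))), ?_, ?_, ?_⟩
      · intro v hv
        rw [← Matrix.mulVec_mulVec, Matrix.smul_mulVec, Matrix.sub_mulVec, mem_HS.1 hv a,
          Matrix.smul_mulVec, Matrix.one_mulVec, ← sub_smul, smul_smul, inv_mul_cancel₀ hd,
          one_smul, h1 v hv]
      · intro σ₁ h4 v hv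
        rw [← Matrix.mulVec_mulVec, Matrix.smul_mulVec, Matrix.sub_mulVec, mem_HS.1 hv a,
          Matrix.smul_mulVec, Matrix.one_mulVec, ← sub_smul, smul_smul, Matrix.mulVec_smul]
        rcases Finset.mem_insert.1 h4 with rfl | h5
        · rw [sub_self, mul_zero, zero_smul]
        · rw [h2 σ₁ h5 v hv, smul_zero]
      · intro x hx
        have h4 : x * ((σ a - σ' a)⁻¹ • (ratM (R a) - σ' a • (1 : Matrix ι ι ℂ))) =
            ((σ a - σ' a)⁻¹ • (ratM (R a) - σ' a • (1 : Matrix ι ι ℂ))) * x := by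
          rw [mul_smul_comm, smul_mul_assoc, mul_sub, sub_mul, hx a, mul_smul_comm,
            smul_mul_assoc, mul_one, one_mul]
        rw [← mul_assoc, h3 x hx, mul_assoc, h4, mul_assoc]
  obtain ⟨P, h1, h2, h3⟩ := key (Finset.univ.erase σ) (Finset.notMem_erase σ _)
  exact ⟨P, ⟨h1, fun σ' h => h2 σ' (Finset.mem_erase.2 ⟨h, Finset.mem_univ _⟩)⟩, h3⟩

/-- The eigenspaces of `E` are stable under matrices which commute with `E`. -/
theorem HS_comm {x : Matrix ι ι ℂ} (hx : ∀ a, x * ratM (R a) = ratM (R a) * x) {v : ι → ℂ}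
    (hv : v ∈ HS R σ) : x.mulVec v ∈ HS R σ := by
  intro a
  rw [Matrix.mulVec_mulVec, ← hx a, ← Matrix.mulVec_mulVec, mem_HS.1 hv a, Matrix.mulVec_smul]

theorem ratM_mul' (A B : Matrix ι ι ℚ) : ratM (A * B) = ratM A * ratM B := by
  change (A * B).map (Rat.castHom ℂ) = A.map (Rat.castHom ℂ) * B.map (Rat.castHom ℂ)
  exact Matrix.map_mul

theorem frob_comm (H : IsFrob R Φ) (a : E) : ratM Φ * ratM (R a) = ratM (R a) * ratM Φ := by
  rw [← ratM_mul', ← ratM_mul', H.comm]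

/-- Matrices which agree on the eigenvectors of `Φ` in `HS R σ` and on the other eigenspaces of `E` are
equal. -/
theorem ext_hs (H : IsFrob R Φ) (hV : ⨆ σ : E →+* ℂ, HS R σ = ⊤) {x y : Matrix ι ι ℂ}
    (h1 : ∀ (ω : ℂ) (v : ι → ℂ), v ∈ HS R σ → (ratM Φ).mulVec v = ω • v →
      x.mulVec v = y.mulVec v)
    (h2 : ∀ σ' : E →+* ℂ, σ' ≠ σ → ∀ v ∈ HS R σ', x.mulVec v = y.mulVec v) : x = y := by
  have h3 : (⊤ : Submodule ℂ (ι → ℂ)) ≤
      LinearMap.eqLocus (Matrix.toLin' x) (Matrix.toLin' y) := by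
    rw [← hV]
    refine iSup_le fun σ' v hv => ?_
    by_cases hσ : σ' = σ
    · subst hσ
      have h4 := Submodule.eq_iSup_inf_genEigenspace (p := HS R σ') (f := Matrix.toLin' (ratM Φ)) 1
        (fun w hw => by
          rw [Matrix.toLin'_apply]
          exact HS_comm (frob_comm H) hw) H.diag
      rw [h4] at hv
      have h5 : (⨆ μ, HS R σ' ⊓ Module.End.genEigenspace (Matrix.toLin' (ratM Φ)) μ 1) ≤
          LinearMap.eqLocus (Matrix.toLin' x) (Matrix.toLin' y) := by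
        refine iSup_le fun μ w hw => ?_
        have h6 : (ratM Φ).mulVec w = μ • w := by
          have h7 := Module.End.mem_eigenspace_iff.1 hw.2
          rwa [Matrix.toLin'_apply] at h7
        rw [LinearMap.mem_eqLocus, Matrix.toLin'_apply, Matrix.toLin'_apply]
        exact h1 μ w hw.1 h6
      exact h5 hv
    · rw [LinearMap.mem_eqLocus, Matrix.toLin'_apply, Matrix.toLin'_apply]
      exact h2 σ' hσ v hv
  exact (Matrix.toLin' (R := ℂ)).injective (LinearMap.ext fun v => h3 (Submodule.mem_top : v ∈ ⊤))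

theorem dg_unique (H : IsFrob R Φ) (hV : ⨆ σ : E →+* ℂ, HS R σ = ⊤) {a b : Matrix ι ι ℂ}
    (ha : IsDg R Φ σ ξ a) (hb : IsDg R Φ σ ξ b) : a = b :=
  ext_hs H hV (fun ω v hv h => by rw [ha.eig ω v hv h, hb.eig ω v hv h])
    fun σ' h v hv => by rw [ha.out σ' h v hv, hb.out σ' h v hv]

private theorem aevalMV (A : Matrix ι ι ℂ) (P : Polynomial ℂ) {μ : ℂ} {v : ι → ℂ}
    (hv : A.mulVec v = μ • v) : (Polynomial.aeval A P).mulVec v = P.eval μ • v := by
  have h1 : Matrix.toLin' (Polynomial.aeval A P) = Polynomial.aeval (Matrix.toLin' A) P :=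
    (Polynomial.aeval_algHom_apply (Matrix.toLinAlgEquiv' (R := ℂ) (n := ι)).toAlgHom A P).symm
  have h2 : v ∈ Module.End.eigenspace (Matrix.toLin' A) μ :=
    Module.End.mem_eigenspace_iff.2 (by rw [Matrix.toLin'_apply, hv])
  rw [← Matrix.toLin'_apply, h1]
  by_cases h : v = 0
  · rw [h, map_zero, smul_zero]
  · exact Module.End.aeval_apply_of_hasEigenvector ⟨h2, h⟩

/-- A polynomial in `Φ` with given values on the eigenspaces. -/
theorem exists_poly (Φ : Matrix ι ι ℚ) (d : ℂ → ℂ) : ∃ Q : Polynomial ℂ, ∀ (ω : ℂ) (v : ι → ℂ),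
    (ratM Φ).mulVec v = ω • v → (Polynomial.aeval (ratM Φ) Q).mulVec v = d ω • v := by
  classical
  let S : Finset ℂ := (Module.End.finite_hasEigenvalue (Matrix.toLin' (ratM Φ))).toFinset
  refine ⟨Lagrange.interpolate S id d, fun ω v hv => ?_⟩
  by_cases h0 : v = 0
  · rw [h0, Matrix.mulVec_zero, smul_zero]
  rw [aevalMV _ _ hv]
  have h1 : ω ∈ S := by
    rw [Set.Finite.mem_toFinset]
    exact Module.End.hasEigenvalue_of_hasEigenvector (x := v)
      ⟨Module.End.mem_eigenspace_iff.2 (by rw [Matrix.toLin'_apply, hv]), h0⟩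
  have h2 := Lagrange.eval_interpolate_at_node (v := id) d (Set.injOn_id (S : Set ℂ)) h1
  rw [id_eq] at h2
  rw [h2]

theorem exists_dg (R : E →+* Matrix ι ι ℚ) (Φ : Matrix ι ι ℚ) (σ : E →+* ℂ) (ξ : ℂ → ℂ) :
    ∃ a, IsDg R Φ σ ξ a := by
  obtain ⟨P, hP, -⟩ := exists_pr R σ
  obtain ⟨Q, hQ⟩ := exists_poly Φ fun ω => ξ ω - 1
  refine ⟨1 + Polynomial.aeval (ratM Φ) Q * P, fun ω v hv h => ?_, fun σ' h v hv => ?_⟩
  · rw [Matrix.add_mulVec, Matrix.one_mulVec, ← Matrix.mulVec_mulVec, hP.fix v hv, hQ ω v h,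
      sub_smul, one_smul]
    abel
  · rw [Matrix.add_mulVec, Matrix.one_mulVec, ← Matrix.mulVec_mulVec, hP.kill σ' h v hv,
      Matrix.mulVec_zero, add_zero]

/-- The determinant of the matrix which is `κ` on the eigenspace for `σ` and one on the others. -/
theorem det_pr (hV : ⨆ σ : E →+* ℂ, HS R σ = ⊤) {P : Matrix ι ι ℂ} (hP : IsPr R σ P) (κ : ℂ) :
    (1 + (κ - 1) • P).det = κ ^ dm R σ := by
  have hP1 : ∀ v, P.mulVec v ∈ HS R σ := by
    have h1 : (⊤ : Submodule ℂ (ι → ℂ)) ≤ (HS R σ).comap (Matrix.toLin' P) := by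
      rw [← hV]
      refine iSup_le fun σ' v hv => ?_
      rw [Submodule.mem_comap, Matrix.toLin'_apply]
      by_cases h : σ' = σ
      · subst h
        rw [hP.fix v hv]
        exact hv
      · rw [hP.kill σ' h v hv]
        exact zero_mem _
    intro v
    have h2 := h1 (Submodule.mem_top : v ∈ ⊤)
    rwa [Submodule.mem_comap, Matrix.toLin'_apply] at h2
  have hD : ∀ v, Matrix.toLin' (1 + (κ - 1) • P) v = v + (κ - 1) • P.mulVec v := by
    intro v
    rw [Matrix.toLin'_apply, Matrix.add_mulVec, Matrix.one_mulVec, Matrix.smul_mulVec]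
  have he : HS R σ ≤ (HS R σ).comap (Matrix.toLin' (1 + (κ - 1) • P)) := by
    intro v hv
    rw [Submodule.mem_comap, hD]
    exact (HS R σ).add_mem hv ((HS R σ).smul_mem _ (hP1 v))
  rw [← LinearMap.det_toLin', LinearMap.det_eq_det_mul_det (HS R σ) _ he]
  have he' : ∀ x ∈ HS R σ, Matrix.toLin' (1 + (κ - 1) • P) x ∈ HS R σ := fun x hx => he hx
  have h1 : (Matrix.toLin' (1 + (κ - 1) • P)).restrict he' =
      κ • (LinearMap.id : HS R σ →ₗ[ℂ] HS R σ) := by
    ext v : 1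
    apply Subtype.ext
    rw [LinearMap.coe_restrict_apply, hD, hP.fix v.1 v.2]
    change (v : ι → ℂ) + (κ - 1) • (v : ι → ℂ) = κ • (v : ι → ℂ)
    rw [sub_smul, one_smul]
    abel
  have h2 : (HS R σ).mapQ (HS R σ) (Matrix.toLin' (1 + (κ - 1) • P)) he = LinearMap.id := by
    refine Submodule.linearMap_qext _ (LinearMap.ext fun v => ?_)
    rw [LinearMap.comp_apply, Submodule.mkQ_apply, Submodule.mapQ_apply, LinearMap.id_comp,
      Submodule.mkQ_apply, hD, Submodule.Quotient.eq, add_sub_cancel_left]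
    exact (HS R σ).smul_mem _ (hP1 v)
  rw [h1, h2, LinearMap.det_id, mul_one, LinearMap.det_smul, LinearMap.det_id, mul_one]
  rfl

/-- Multiplication of the function by a constant. -/
theorem IsDg.smul {a P : Matrix ι ι ℂ} (ha : IsDg R Φ σ ξ a) (hP : IsPr R σ P) (κ : ℂ)
    (h : ∀ ω ∈ Om R Φ σ, ξ' ω = κ * ξ ω) : IsDg R Φ σ ξ' (a * (1 + (κ - 1) • P)) := by
  refine ⟨fun ω v hv h1 => ?_, fun σ' h1 v hv => ?_⟩
  · by_cases h0 : v = 0
    · rw [h0, Matrix.mulVec_zero, smul_zero]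
    rw [← Matrix.mulVec_mulVec, Matrix.add_mulVec, Matrix.one_mulVec, Matrix.smul_mulVec,
      hP.fix v hv, Matrix.mulVec_add, Matrix.mulVec_smul, ha.eig ω v hv h1,
      h ω ⟨v, hv, h0, h1⟩, sub_smul, one_smul, mul_smul]
    abel
  · rw [← Matrix.mulVec_mulVec, Matrix.add_mulVec, Matrix.one_mulVec, Matrix.smul_mulVec,
      hP.kill σ' h1 v hv, smul_zero, add_zero, ha.out σ' h1 v hv]

theorem IsDg.congr {a : Matrix ι ι ℂ} (ha : IsDg R Φ σ ξ a) (h : ∀ ω ∈ Om R Φ σ, ξ' ω = ξ ω) :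
    IsDg R Φ σ ξ' a := by
  refine ⟨fun ω v hv h1 => ?_, ha.out⟩
  by_cases h0 : v = 0
  · rw [h0, Matrix.mulVec_zero, smul_zero]
  rw [h ω ⟨v, hv, h0, h1⟩, ha.eig ω v hv h1]

theorem om_nonempty (H : IsFrob R Φ) (σ : E →+* ℂ) : ∃ ω, ω ∈ Om R Φ σ := by
  by_contra hcon
  push Not at hcon
  apply HS_ne_bot H.inj σ
  rw [eq_bot_iff]
  have h4 := Submodule.eq_iSup_inf_genEigenspace (p := HS R σ) (f := Matrix.toLin' (ratM Φ)) 1
    (fun w hw => by
      rw [Matrix.toLin'_apply]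
      exact HS_comm (frob_comm H) hw) H.diag
  rw [h4]
  refine iSup_le fun μ w hw => ?_
  have h6 : (ratM Φ).mulVec w = μ • w := by
    have h7 := Module.End.mem_eigenspace_iff.1 hw.2
    rwa [Matrix.toLin'_apply] at h7
  rw [Submodule.mem_bot]
  by_contra h0
  exact hcon μ ⟨w, hw.1, h0, h6⟩

end Pool.Agent.FQX
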