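import Pool.Agent.FQX.Xi
import Pool.Agent.FQ.AlgFin

/-!
# The reciprocity law

`γ` generates the tame inertia at the place `v = (π)`: it fixes all conjugates of `K`, the roots of unity
of order `M` and the `M`-th roots of the conjugates of `π`, except those of `π` itself, which it multiplies by
a primitive root of unity `ζ₀`. If the automorphisms `δ` which fix all conjugates of `K`, the roots of
unity of order `M` and all `M`-th roots of the conjugates of `π` have trivial `Eps`, then `Eps` of `γ` is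
trivial for `(σ, s)` if it is trivial for `(g σ, g s)`, for every automorphism `g` over `K`.
-/

set_option autoImplicit false
set_option linter.unusedSectionVars false

namespace Pool.Agent.FQX

open Module
open Pool.Agent.CoprimeSig (ratM)
open Pool.Agent.PrimePow.CC (Rf Rt Lat)
open Pool.Agent.FQV

variable {ι : Type} [Fintype ι] [DecidableEq ι] {E : Type} [CommRing E] [Algebra ℚ E]
  [Module.Finite ℚ E] [IsReduced E] {R : E →+* Matrix ι ι ℚ} {Φ : Matrix ι ι ℚ} {σ : E →+* ℂ}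
  {s s' : Set (ℂ → ℚ)} {ξ ξ' : ℂ → ℂ} {δ δ' : ℂ ≃+* ℂ} {ζ ζ' : ℂ}

/-- The values of the normalised functions. -/
def Vl (R : E →+* Matrix ι ι ℚ) (Φ : Matrix ι ι ℚ) (σ : E →+* ℂ) (s s' : Set (ℂ → ℚ)) : Set ℂ :=
  {z | ∃ ξ : ℂ → ℂ, IsXn R Φ σ s s' ξ ∧ ∃ ω ∈ Om R Φ σ, z = ξ ω}

theorem finite_vl (H : IsFrob R Φ) (hV : ⨆ σ : E →+* ℂ, HS R σ = ⊤) (hs : Dcm R Φ σ s s') :
    (Vl R Φ σ s s').Finite := by
  classical
  by_cases he : ∃ ξ, IsXn R Φ σ s s' ξ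
  · obtain ⟨ξ, h⟩ := he
    have hroot : {ζ : ℂ | ζ ^ dm R σ = 1}.Finite := by
      refine (Finset.finite_toSet
        (Polynomial.nthRootsFinset (dm R σ) (1 : ℂ))).subset fun ζ hζ => ?_
      rw [Finset.mem_coe, Polynomial.mem_nthRootsFinset (dm_pos H σ)]
      exact hζ
    refine ((hroot.prod (finite_Om R Φ σ)).image fun q => q.1 * ξ q.2).subset ?_
    rintro _ ⟨ξ', h', ω, hω, rfl⟩
    obtain ⟨ζ, hζ, h1⟩ := IsXn.unique H hV hs h h'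
    exact ⟨(ζ, ω), ⟨hζ, hω⟩, (h1 ω hω).symm⟩
  · refine Set.Finite.subset Set.finite_empty ?_
    rintro _ ⟨ξ, h, -⟩
    exact he ⟨ξ, h⟩

theorem vl_alg (H : IsFrob R Φ) (hV : ⨆ σ : E →+* ℂ, HS R σ = ⊤) (hs : Dcm R Φ σ s s') {z : ℂ}
    (hz : z ∈ Vl R Φ σ s s') : IsAlgebraic ℚ z := by
  classical
  obtain ⟨ξ, h, ω, hω, rfl⟩ := hz
  apply Pool.Agent.FQ.isAlgebraic_of_finite
  have h1 : (⋃ σ' ∈ (Set.univ : Set (E →+* ℂ)), ⋃ t ∈ 𝒫 {F | Rts R Φ σ' F},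
      ⋃ t' ∈ 𝒫 {F | Rts R Φ σ' F}, {z | Dcm R Φ σ' t t' ∧ z ∈ Vl R Φ σ' t t'}).Finite := by
    refine Set.Finite.biUnion Set.finite_univ fun σ' _ => ?_
    refine Set.Finite.biUnion (finite_rts R Φ σ').finite_subsets fun t _ => ?_
    refine Set.Finite.biUnion (finite_rts R Φ σ').finite_subsets fun t' _ => ?_
    by_cases hD : Dcm R Φ σ' t t'
    · exact (finite_vl H hV hD).subset fun z hz => hz.2
    · exact Set.finite_empty.subset fun z hz => hD hz.1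
  refine h1.subset ?_
  rintro _ ⟨τ, rfl⟩
  have h2 := hs.map H τ
  refine Set.mem_biUnion (Set.mem_univ (cp τ σ)) (Set.mem_biUnion (fun F hF => h2.fst F hF)
    (Set.mem_biUnion (fun F hF => h2.snd F hF) ⟨h2, ?_⟩))
  refine ⟨_, h.map H τ, τ ω, mem_Om_cp τ hω, ?_⟩
  change τ (ξ ω) = τ (ξ (τ.symm (τ ω)))
  rw [RingEquiv.symm_apply_apply]

/-- A finite set of algebraic numbers which controls the action. -/
theorem exists_ctl (H : IsFrob R Φ) (hV : ⨆ σ : E →+* ℂ, HS R σ = ⊤) (hs : Dcm R Φ σ s s') :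
    ∃ S : Finset ℂ, (∀ x ∈ S, IsAlgebraic ℚ x) ∧ ∀ δ τ : ℂ ≃+* ℂ, (∀ x ∈ S, τ x = δ x) →
      (Stab σ s s' δ → Stab σ s s' τ) ∧
      ∀ ζ : ℂ, Stab σ s s' δ → Eps R Φ σ s s' τ ζ → Eps R Φ σ s s' δ ζ := by
  classical
  let b := Module.finBasis ℚ E
  let S₁ : Finset ℂ := Finset.univ.image fun i => σ (b i)
  let S₂ : Finset ℂ := (finite_Om R Φ σ).toFinset
  let S₃ : Finset ℂ := (finite_vl H hV hs).toFinset
  have hE : ∀ a : E, IsAlgebraic ℚ (σ a) := by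
    intro a
    exact (Algebra.IsAlgebraic.isAlgebraic (R := ℚ) a).algHom (RingHom.equivRatAlgHom (R := E) (S := ℂ) σ)
  refine ⟨S₁ ∪ S₂ ∪ S₃, ?_, ?_⟩
  · intro x hx
    rcases Finset.mem_union.1 hx with hx | hx
    · rcases Finset.mem_union.1 hx with hx | hx
      · obtain ⟨i, -, rfl⟩ := Finset.mem_image.1 hx
        exact hE _
      · exact eig_alg ((finite_Om R Φ σ).mem_toFinset.1 hx)
    · exact vl_alg H hV hs ((finite_vl H hV hs).mem_toFinset.1 hx)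
  · intro δ τ hτ
    have hO : ∀ ω ∈ Om R Φ σ, τ ω = δ ω := fun ω hω =>
      hτ ω (Finset.mem_union_left _ (Finset.mem_union_right _
        ((finite_Om R Φ σ).mem_toFinset.2 hω)))
    have hcp : cp τ σ = cp δ σ := by
      refine RingHom.ext fun a => ?_
      rw [cp_apply, cp_apply]
      have h1 := b.sum_repr a
      rw [← h1, map_sum, map_sum, map_sum]
      refine Finset.sum_congr rfl fun i _ => ?_
      have h2 : σ (b.repr a i • b i) = (b.repr a i : ℚ) • σ (b i) := by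
        rw [Algebra.smul_def, Algebra.smul_def, map_mul]
        congr 1
        simp
      rw [h2, Algebra.smul_def, map_mul, map_mul, hτ _ (Finset.mem_union_left _
        (Finset.mem_union_left _ (Finset.mem_image.2 ⟨i, Finset.mem_univ _, rfl⟩)))]
      congr 1
      simp
    have hmv : ∀ t : Set (ℂ → ℚ), (∀ F ∈ t, Rts R Φ σ F) → mv τ '' t = mv δ '' t := fun t ht =>
      Set.image_congr fun F hF => (mv_congr (γ := δ) (τ := τ) hO (ht F hF)).symm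
    refine ⟨fun hδ => ⟨?_, ?_, ?_⟩, fun ζ hδ hζ => ?_⟩
    · rw [hcp, hδ.1]
    · rw [hmv s hs.fst, hδ.2.1]
    · rw [hmv s' hs.snd, hδ.2.2]
    · obtain ⟨ξ, h1, h2⟩ := hζ
      refine ⟨ξ, h1, fun ω hω => ?_⟩
      rw [← hτ _ (Finset.mem_union_right _ ((finite_vl H hV hs).mem_toFinset.2
        ⟨ξ, h1, ω, hω, rfl⟩)), h2 ω hω, hO ω hω]

/-- An automorphism which fixes all conjugates of `K`, the roots of unity of order `M` and all `M`-th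
roots of all conjugates of `π`. -/
structure Cls (K : Subfield ℂ) (π : K) (M : ℕ) (δ : ℂ ≃+* ℂ) : Prop where
  emb : ∀ (j : K →+* ℂ) x, δ (j x) = j x
  mu : ∀ z : ℂ, z ^ M = 1 → δ z = z
  rt : ∀ (j : K →+* ℂ) (y : ℂ), y ^ M = j π → δ y = y

/-- A generator of the tame inertia at the place `(π)`. -/
structure Tame (K : Subfield ℂ) (π : K) (M : ℕ) (ζ₀ : ℂ) (γ : ℂ ≃+* ℂ) : Prop where
  emb : ∀ (j : K →+* ℂ) x, γ (j x) = j x
  mu : ∀ z : ℂ, z ^ M = 1 → γ z = z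
  rt : ∀ (j : K →+* ℂ), j ≠ K.subtype → ∀ y : ℂ, y ^ M = j π → γ y = y
  rt0 : ∀ y : ℂ, y ^ M = π → γ y = ζ₀ * y

/-- Automorphisms over `K` act on the tame inertia by the cyclotomic character. -/
theorem Tame.cls {K : Subfield ℂ} {π : K} {M : ℕ} {ζ₀ : ℂ} {γ g : ℂ ≃+* ℂ}
    (hζ₀ : IsPrimitiveRoot ζ₀ M) (hM : 0 < M) (T : Tame K π M ζ₀ γ) (hg : ∀ x ∈ K, g x = x) :
    ∃ a : ℕ, Cls K π M ((γ ^ a)⁻¹ * (g * γ * g⁻¹)) := by
  have hinv : ∀ z, g (g⁻¹ z) = z := fun z => g.apply_symm_apply z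
  have hinv' : ∀ (h : ℂ ≃+* ℂ) {x y : ℂ}, h x = y → h⁻¹ y = x := fun h x y hxy => by
    rw [← hxy]
    exact h.symm_apply_apply x
  have hgi : ∀ x ∈ K, g⁻¹ x = x := fun x hx => hinv' g (hg x hx)
  have hfix : ∀ {z : ℂ}, γ z = z → ∀ a : ℕ, (γ ^ a) z = z := by
    intro z hz a
    induction a with
    | zero => rfl
    | succ a ih =>
      rw [pow_succ]
      change (γ ^ a) (γ z) = z
      rw [hz, ih]
  have : NeZero M := ⟨hM.ne'⟩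
  obtain ⟨a, -, ha⟩ := hζ₀.eq_pow_of_pow_eq_one (ξ := g ζ₀) (by
    rw [← map_pow, hζ₀.pow_eq_one, map_one])
  refine ⟨a, fun j x => ?_, fun z hz => ?_, fun j y hy => ?_⟩
  · change (γ ^ a)⁻¹ (g (γ (g⁻¹ (j x)))) = j x
    have h1 : γ (g⁻¹ (j x)) = g⁻¹ (j x) := T.emb (((g⁻¹ : ℂ ≃+* ℂ) : ℂ →+* ℂ).comp j) x
    rw [h1, hinv]
    exact hinv' _ (hfix (T.emb j x) a)
  · change (γ ^ a)⁻¹ (g (γ (g⁻¹ z))) = z
    have h1 : γ (g⁻¹ z) = g⁻¹ z := T.mu _ (by rw [← map_pow, hz, map_one])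
    rw [h1, hinv]
    exact hinv' _ (hfix (T.mu z hz) a)
  · change (γ ^ a)⁻¹ (g (γ (g⁻¹ y))) = y
    by_cases hj : j = K.subtype
    · have h0 : y ^ M = π := by rw [hy, hj]; rfl
      have h1 : (g⁻¹ y) ^ M = π := by
        rw [← map_pow, h0]
        exact hgi _ π.2
      rw [T.rt0 _ h1, map_mul, hinv, ← ha]
      apply hinv'
      have h2 : ∀ b : ℕ, (γ ^ b) y = ζ₀ ^ b * y := by
        intro b
        induction b with
        | zero =>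
          rw [pow_zero, pow_zero, one_mul]
          rfl
        | succ b ih =>
          rw [pow_succ]
          change (γ ^ b) (γ y) = _
          rw [T.rt0 y h0, map_mul, ih, hfix (T.mu ζ₀ hζ₀.pow_eq_one), pow_succ]
          ring
      exact h2 a
    · have h1 : γ (g⁻¹ y) = g⁻¹ y := by
        refine T.rt (((g⁻¹ : ℂ ≃+* ℂ) : ℂ →+* ℂ).comp j) (fun h2 => hj ?_) _ ?_
        · refine RingHom.ext fun x => ?_
          have h3 : g⁻¹ (j x) = x := congrFun (congrArg (fun f : K →+* ℂ => (f : K → ℂ)) h2) x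
          rw [← hinv (j x), h3]
          exact hg _ x.2
        · rw [← map_pow, hy]
          rfl
      rw [h1, hinv]
      exact hinv' _ (hfix (T.rt j hj y hy) a)

theorem Stab.inv (hδ : Stab σ s s' δ) : Stab σ s s' δ⁻¹ := by
  have key : ∀ t : Set (ℂ → ℚ), mv δ '' t = t → mv δ⁻¹ '' t = t := by
    intro t ht
    conv_lhs => rw [← ht]
    rw [Set.image_image]
    have h1 : ∀ F ∈ t, mv δ⁻¹ (mv δ F) = F := fun F _ => mv_symm_mv δ F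
    rw [Set.image_congr h1, Set.image_id']
  refine ⟨?_, key s hδ.2.1, key s' hδ.2.2⟩
  conv_lhs => rw [← hδ.1]
  rw [← cp_mul, inv_mul_cancel, cp_one]

/-- **Reciprocity.** -/
theorem rec_step (H : IsFrob R Φ) (hV : ⨆ σ : E →+* ℂ, HS R σ = ⊤) {K : Subfield ℂ} {π : K}
    {M : ℕ} (hM : 0 < M) {ζ₀ : ℂ} (hζ₀ : IsPrimitiveRoot ζ₀ M) {γ g : ℂ ≃+* ℂ}
    (T : Tame K π M ζ₀ γ) (hg : ∀ x ∈ K, g x = x) (hs : Dcm R Φ σ s s')
    (hdm : dm R (cp g σ) ∣ M)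
    (h1 : ∀ δ : ℂ ≃+* ℂ, Cls K π M δ → ∀ S : Finset ℂ, (∀ x ∈ S, IsAlgebraic ℚ x) →
      ∃ τ : ℂ ≃+* ℂ, (∀ x ∈ S, τ x = δ x) ∧
        (Stab (cp g σ) (mv g '' s) (mv g '' s') τ →
          Eps R Φ (cp g σ) (mv g '' s) (mv g '' s') τ 1))
    (hγ : Stab σ s s' γ) (hγ' : Stab (cp g σ) (mv g '' s) (mv g '' s') γ)
    (hε : Eps R Φ σ s s' γ ζ) (hε' : Eps R Φ (cp g σ) (mv g '' s) (mv g '' s') γ 1) : ζ = 1 := by
  obtain ⟨a, C⟩ := T.cls hζ₀ hM hg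
  have hs' := hs.map H g
  have hmu : ∀ z : ℂ, z ^ dm R (cp g σ) = 1 → z ^ M = 1 := by
    intro z hz
    obtain ⟨k, hk⟩ := hdm
    rw [hk, pow_mul, hz, one_pow]
  have hm : FixMu R (cp g σ) γ := fun z hz => T.mu z (hmu z hz)
  have hmc : FixMu R (cp g σ) (g * γ * g⁻¹) := by
    intro z hz
    change g (γ (g⁻¹ z)) = z
    rw [T.mu _ (by rw [← map_pow, hmu z hz, map_one])]
    exact g.apply_symm_apply z
  have hc := hγ.conj g
  have hδ : Stab (cp g σ) (mv g '' s) (mv g '' s') ((γ ^ a)⁻¹ * (g * γ * g⁻¹)) :=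
    (hγ'.pow a).inv.mul hc
  obtain ⟨S, hS, hctl⟩ := exists_ctl H hV hs'
  obtain ⟨τ, hτ, h2⟩ := h1 _ C S hS
  obtain ⟨h3, h4⟩ := hctl _ τ hτ
  have h5 := h4 1 hδ (h2 (h3 hδ))
  have h6 := Eps.pow H hV hs' hγ' hm hε' a
  have h7 := Eps.mul H hV hs' (hγ'.pow a) hδ (hm.pow a) h6 h5
  rw [mul_inv_cancel_left, one_pow, one_mul] at h7
  have h8 := Eps.unique H hV hs' hc hmc (hε.conj H g) h7
  exact (map_eq_one_iff g g.injective).1 h8

/-- The complement of a set of reflections. -/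
def cpl (R : E →+* Matrix ι ι ℚ) (Φ : Matrix ι ι ℚ) (σ : E →+* ℂ) (s : Set (ℂ → ℚ)) :
    Set (ℂ → ℚ) := {F | Rts R Φ σ F ∧ F ∉ s}

theorem cpl_mv (H : IsFrob R Φ) (g : ℂ ≃+* ℂ) (s : Set (ℂ → ℚ)) :
    mv g '' cpl R Φ σ s = cpl R Φ (cp g σ) (mv g '' s) := by
  ext F
  constructor
  · rintro ⟨F, ⟨h1, h2⟩, rfl⟩
    refine ⟨h1.mv H.diag g, ?_⟩
    rintro ⟨F', h3, h4⟩
    exact h2 (mv_inj h4 ▸ h3)
  · rintro ⟨h1, h2⟩
    refine ⟨mv g.symm F, ⟨rts_of_mv H.diag h1, fun h3 => h2 ⟨_, h3, mv_mv_symm g F⟩⟩,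
      mv_mv_symm g F⟩

/-- The component touched by the idempotent `e` at the place `(π)` is stable under the automorphisms
over `K`. -/
theorem rec_tch (H : IsFrob R Φ) (hV : ⨆ σ : E →+* ℂ, HS R σ = ⊤)
    (hL : ∀ σ : E →+* ℂ, Lat (Ls R Φ σ)) {K : Subfield ℂ} {π : K}
    {M : ℕ} (hM : 0 < M) {ζ₀ : ℂ} (hζ₀ : IsPrimitiveRoot ζ₀ M) (hdm : ∀ σ : E →+* ℂ, dm R σ ∣ M)
    {γ : ℂ ≃+* ℂ} (T : Tame K π M ζ₀ γ) {e : Matrix ι ι ℂ}
    (h1 : ∀ δ : ℂ ≃+* ℂ, Cls K π M δ → ∀ S : Finset ℂ, (∀ x ∈ S, IsAlgebraic ℚ x) →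
      ∃ τ : ℂ ≃+* ℂ, (∀ x ∈ S, τ x = δ x) ∧ ∀ (σ : E →+* ℂ) (s : Set (ℂ → ℚ)), IsCmp R Φ σ s →
        Stab σ s (cpl R Φ σ s) τ → Eps R Φ σ s (cpl R Φ σ s) τ 1)
    (h2 : ∀ (σ : E →+* ℂ) (s : Set (ℂ → ℚ)), IsCmp R Φ σ s → Stab σ s (cpl R Φ σ s) γ ∧
      ∃ ζ : ℂ, Eps R Φ σ s (cpl R Φ σ s) γ ζ ∧
        (ζ ≠ 1 ↔ Ns R Φ e σ ∧ s = tch R Φ σ (ev Φ e)))
    {g : ℂ ≃+* ℂ} (hg : ∀ x ∈ K, g x = x) {σ : E →+* ℂ} (hns : Ns R Φ e σ)
    (hc : IsCmp R Φ σ (tch R Φ σ (ev Φ e))) :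
    Ns R Φ e (cp g σ) ∧ mv g '' tch R Φ σ (ev Φ e) = tch R Φ (cp g σ) (ev Φ e) := by
  obtain ⟨hγ, ζ, hε, hζ⟩ := h2 σ _ hc
  have hc' := isCmp_mv H.diag g hc
  obtain ⟨hγ', ζ', hε', hζ'⟩ := h2 (cp g σ) _ hc'
  by_contra hcon
  have h3 : ζ' = 1 := by
    by_contra h4
    have h5 := hζ'.1 h4
    exact hcon h5
  rw [h3, ← cpl_mv H] at hε'
  rw [← cpl_mv H] at hγ'
  refine hζ.2 ⟨hns, rfl⟩ (rec_step H hV hM hζ₀ T hg (dcm_cmp H (hL σ) hc) (hdm _)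
    (fun δ hδ S hS => ?_) hγ hγ' hε hε')
  obtain ⟨τ, hτ, h4⟩ := h1 δ hδ S hS
  refine ⟨τ, hτ, fun h5 => ?_⟩
  have h6 := h4 (cp g σ) _ hc' (by
    rw [← cpl_mv H]
    exact h5)
  rwa [← cpl_mv H] at h6

end Pool.Agent.FQX
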