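import Pool.Agent.FQX.Key
import Pool.Agent.FQX.Rec

/-!
# The reciprocity law for the components

`AtL`: the data at a prime `ℓ` for an automorphism `τ` over `ℚ_ℓ`; `AtP`: the data at the place `(π)`.
-/

set_option autoImplicit false
set_option linter.unusedSectionVars false

namespace Pool.Agent.FQX

open Module
open Pool.Agent.CoprimeSig (ratM)
open Pool.Agent.PrimePow.CC (Rf Rt Lat)
open Pool.Agent.FQV
open Pool.Agent.FQ (expG IsExp)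
open Pool.Agent.FQA (AR)

variable {ι : Type} [Fintype ι] [DecidableEq ι] {E : Type} [CommRing E] [Algebra ℚ E]
  [Module.Finite ℚ E] [IsReduced E]
  {R : E →+* Matrix ι ι ℚ} {Φ : Matrix ι ι ℚ} {σ : E →+* ℂ} {c : E → E}
  {g : Submodule ℂ (Matrix ι ι ℂ)} {ψ : Matrix ι ι ℂ} {s s' : Set (ℂ → ℚ)}

/-- The data at a prime `ℓ` for an automorphism `τ` over `ℚ_ℓ` (class field theory). -/
structure AtL (R : E →+* Matrix ι ι ℚ) (c : E → E) (Φ : Matrix ι ι ℚ) (m : ℕ) (τ : ℂ ≃+* ℂ)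
    (g : Submodule ℂ (Matrix ι ι ℂ)) (ψ : Matrix ι ι ℂ) : Prop where
  mono : Mono R c Φ g ψ
  dec : Dec g Φ τ m 1

/-- The simple ideals of `g` are stable under `γ`. -/
def Spl (g : Submodule ℂ (Matrix ι ι ℂ)) (γ : ℂ ≃+* ℂ) : Prop :=
  ∀ I : Submodule ℂ (Matrix ι ι ℂ), I ≤ g → (∀ a ∈ g, ∀ b ∈ I, a * b - b * a ∈ I) →
    ∀ a ∈ g, ∀ b ∈ I, (a * b - b * a).map γ ∈ I

/-- The data at the place `(π)`, `z = π`, for an automorphism `γ` in the inertia group. -/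
structure AtP (R : E →+* Matrix ι ι ℚ) (c : E → E) (Φ : Matrix ι ι ℚ) (m : ℕ) (z : ℂ)
    (γ : ℂ ≃+* ℂ) (g : Submodule ℂ (Matrix ι ι ℂ)) (ψ e e₁ : Matrix ι ι ℂ) : Prop where
  mono : Mono R c Φ g ψ
  emb : ∀ σ : E →+* ℂ, cp γ σ = σ
  inv : Inv g γ
  spl : Spl g γ
  mem : e ∈ tor Φ
  idem : e * e = e
  conj : ∃ u ∈ expG ℂ g, e₁ = (u : Matrix ι ι ℂ) * e * ((u⁻¹ : (Matrix ι ι ℂ)ˣ) : Matrix ι ι ℂ)
  fix : e₁.map γ = e₁
  dec : ∀ y : (Matrix ι ι ℂ)ˣ, (y : Matrix ι ι ℂ) = 1 + (z - 1) • e₁ → Dec g Φ γ m y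

/-- `F` is the coroot of a root vector of `g` which acts on `HS R σ`. -/
def Crt (g : Submodule ℂ (Matrix ι ι ℂ)) (R : E →+* Matrix ι ι ℚ) (Φ : Matrix ι ι ℚ)
    (σ : E →+* ℂ) (F : ℂ → ℚ) : Prop :=
  ∃ (W : Submodule ℂ (ι → ℂ)) (p : (ι → ℂ) →ₗ[ℂ] W) (v : Basis (Om R Φ σ) ℂ W),
    Frame R Φ g σ W p v ∧ AR (res p g) (res p (tor Φ)) (res p g) v (rs R Φ σ F)

/-- Every component contains the coroot of a root vector. PACKAGE. Let `F ∈ s`, `W, p, v` a frame. If no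
coroot `AR` is connected with `rs F`, then `rs F` is orthogonal to all of them (`T.ar_rt`, `exists_rts`), so the
element of `res p (tor Φ)` with the values `rs F` (`mem_Ls`) commutes with all root vectors (`dot_ne`), so it is
a scalar (`T.scalar_of`), `rs F` is constant, but a root is not constant (`Rf`: it changes its sign under
its own reflection). -/
theorem ex_crt (M : Mono R c Φ g ψ) (H : IsFrob R Φ) (hI : Idem Φ) (hs : IsCmp R Φ σ s) :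
    ∃ F ∈ s, Crt g R Φ σ F := by
  obtain ⟨F₀, hF₀, rfl⟩ := hs
  obtain ⟨W, p, v, Fr⟩ := exists_frame M H hI σ
  have hnt := Fr.nontrivial
  have T := td M H hI Fr.irr Fr.prj
  have hrt : Rt (Pool.Agent.NumRank.Lv (res p (tor Φ)) v) (rs R Φ σ F₀) := by
    rw [Fr.lv M]
    exact hF₀.rt
  obtain ⟨-, τ, hτ, hf⟩ := hrt.choose_spec.mem
  obtain ⟨α, z, hz, hz0, hα, hατ⟩ : ∃ (α : End ℂ W → ℂ) (z : End ℂ W),
      Pool.Agent.CoprimeSig.IsRoot (res p g) (res p (tor Φ)) α z ∧ z ≠ 0 ∧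
      (∃ τ ∈ res p (tor Φ), α τ ≠ 0) ∧ α τ ≠ 0 := by
    by_contra hcon
    push Not at hcon
    obtain ⟨c, hc⟩ := T.scalar_of (x := τ) (fun α z hz hz0 hα => by
      have h1 := hz.root τ hτ
      rw [hcon α z hz hz0 hα, zero_smul] at h1
      exact sub_eq_zero.1 h1) fun τ' hτ' => T.comm τ hτ τ' hτ'
    have h1 : ∀ i j, rs R Φ σ F₀ i = rs R Φ σ F₀ j := by
      intro i j
      have h2 := hf i
      have h3 := hf j
      rw [hc, LinearMap.smul_apply, Module.End.one_apply] at h2 h3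
      have h4 : c = rs R Φ σ F₀ i := smul_left_injective ℂ (v.ne_zero i) h2
      have h5 : c = rs R Φ σ F₀ j := smul_left_injective ℂ (v.ne_zero j) h3
      exact_mod_cast h4.symm.trans h5
    obtain ⟨i, hi⟩ := Pool.Agent.NumRank.Rt_one hrt
    have h6 := Pool.Agent.NumRank.Rt_sum hrt
    have h7 : ∑ j, rs R Φ σ F₀ j = ∑ _j : Om R Φ σ, (1 : ℚ) :=
      Finset.sum_congr rfl fun j _ => by rw [h1 j i, hi]
    rw [h7, Finset.sum_const, Finset.card_univ, nsmul_eq_mul, mul_one, Nat.cast_eq_zero,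
      Fintype.card_eq_zero_iff] at h6
    exact h6.elim i
  obtain ⟨y, P⟩ := T.hopp α z hz hz0 hα
  obtain ⟨k, π, hk, hkv, -⟩ :=
    Pool.Agent.NumRank.exists_rf v (Fr.hv M) (T.hmult v (Fr.hv M)) P hz0
  have hdot : rs R Φ σ F₀ ⬝ᵥ k ≠ 0 := by
    rw [dotProduct_comm]
    exact (Pool.Agent.FQA.TD.dot_ne v P hz0 hτ hkv hf).1 hατ
  have hkr : Rt (Ls R Φ σ) k := by
    rw [← Fr.lv M]
    exact ⟨π, hk⟩
  obtain ⟨F', hF', rfl⟩ := exists_rts hkr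
  exact ⟨F', ⟨hF', Relation.ReflTransGen.single ⟨hkr, hdot⟩⟩, W, p, v, Fr, α, z, y, P, hz0,
    P.rx.mem, hkv⟩

private theorem fix_root_mulVec (δ : ℂ ≃+* ℂ) (A : Matrix ι ι ℂ) (v : ι → ℂ) :
    (A.map δ).mulVec (fun i => δ (v i)) = fun i => δ (A.mulVec v i) := by
  funext i
  rw [Matrix.mulVec, Matrix.mulVec, dotProduct, dotProduct, map_sum]
  exact Finset.sum_congr rfl fun j _ => by rw [Matrix.map_apply, map_mul]

private theorem fix_root_map (γ : ℂ ≃+* ℂ) (A B : Matrix ι ι ℂ) :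
    (A.map γ * B.map γ).map γ.symm = A * B := by
  ext i j
  simp [Matrix.mul_apply, Matrix.map_apply, map_sum]

/-- The coroot as an element of the torus has the values of `F`. -/
private theorem fix_root_vals (M : Mono R c Φ g ψ) {W : Submodule ℂ (ι → ℂ)}
    {p : (ι → ℂ) →ₗ[ℂ] W} {v : Basis (Om R Φ σ) ℂ W} (Fr : Frame R Φ g σ W p v)
    {x : Matrix ι ι ℂ} (hx : x ∈ tor Φ) {f : Om R Φ σ → ℚ}
    (h : ∀ i, rm p x (v i) = (f i : ℂ) • v i) : Vals R Φ σ x f := by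
  intro μ w _ hμ
  obtain ⟨d, hd⟩ := exists_scalar hx
  have h3 : (d μ : ℂ) = f μ := by
    have h4 : rm p x (v μ) = d μ • v μ := Subtype.ext (by
      rw [rm_apply Fr.prj (Fr.irr.1 x (M.le hx)), hd _ _ (Fr.bas μ)]
      rfl)
    rw [h μ] at h4
    exact (smul_left_injective ℂ (v.ne_zero μ) h4).symm
  rw [hd μ w hμ, h3]

/-- The conjugate of the coroot has the values of `mv γ F`. -/
private theorem fix_root_co (H : IsFrob R Φ) {γ : ℂ ≃+* ℂ} (hσ : cp γ σ = σ) {x : Matrix ι ι ℂ}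
    (hx : x ∈ tor Φ) {F : ℂ → ℚ} (h : Vals R Φ σ x (rs R Φ σ F)) (hF : mv γ F ∈ s') :
    x.map γ ∈ Co R Φ σ s' := by
  have hσ' : cp γ.symm σ = σ := by
    have h1 : cp γ.symm (cp γ σ) = σ := by
      ext a
      simp [cp_apply]
    rwa [hσ] at h1
  refine ⟨map_mem_tor hx γ H.diag, mv γ F, hF, fun μ w hw hμ => ?_⟩
  have h2 : (fun i => γ.symm (w i)) ∈ HS R σ := by
    have h3 := conj_mem_HS γ.symm hw
    rwa [hσ'] at h3
  have h4 : γ.symm μ ∈ Om R Φ σ := by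
    have h3 := mem_Om_cp γ.symm μ.2
    rwa [hσ'] at h3
  have h5 := h ⟨γ.symm μ, h4⟩ _ h2 (conj_eig γ.symm hμ)
  have h6 := fix_root_mulVec γ x (fun i => γ.symm (w i))
  rw [h5] at h6
  have h7 : (fun i => γ ((fun i => γ.symm (w i)) i)) = w := by
    funext i
    simp
  rw [h7] at h6
  rw [h6]
  funext i
  simp [rs_apply, mv]

/-- PACKAGE. Let `z ∈ g` be such that `rm p z` is a root vector with the coroot `h = rs F`, `H ∈ tor Φ` such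
that `rm p H` is the coroot as an operator, `H z - z H = 2 z` on `W` (`opp_two`), `I = G1 g R Φ σ s'`, which is an
ideal (`G1_ideal`); `z ∈ I` (`mem_G1_iff`, `comm_ofA`; `hD.orth`). So `z' = H z - z H` satisfies `z'.map γ ∈ I` (`hid`),
so it commutes on `HS R σ` with all `y ∈ Co R Φ σ s'`. If `mv γ F ∈ s'` then `H.map γ ∈ Co R Φ σ s'`
(`map_mem_tor`, `conj_mem_HS γ.symm`, `cp γ σ = σ`), so `z'` commutes with `H` on `HS R σ` (`EqOn.map` for `γ.symm`), but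
on `W` `z' = 2 z`, `H z' - z' H = 4 z ≠ 0`. -/
theorem fix_root (M : Mono R c Φ g ψ) (H : IsFrob R Φ) (hI : Idem Φ) (hD : Dcm R Φ σ s s')
    (hA : Act g R Φ σ s s') {γ : ℂ ≃+* ℂ} (hσ : cp γ σ = σ) (hid : Spl g γ) {F : ℂ → ℚ}
    (hF : F ∈ s) (hC : Crt g R Φ σ F) : mv γ F ∉ s' := by
  intro hmv
  obtain ⟨W, p, v, Fr, α, z', y', P, hz0, hzg, hh⟩ := hC
  have hnt := Fr.nontrivial
  have T := td M H hI Fr.irr Fr.prj
  have hT := two_pin Fr hD hA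
  obtain ⟨z, hz, rfl⟩ := mem_res.1 hzg
  obtain ⟨x, hx, hxe⟩ := mem_res.1 P.mem
  have hsP : rm p z ∈ Pool.Agent.FQA.TD.sP (res p g) (res p (tor Φ)) v (Pin R Φ σ s) :=
    ⟨rm_mem hz, fun w hw => T.comm_ofA v (Fr.hv M)
      (fun h k _ Hk hPh h0 => (hT.all k Hk).resolve_right fun hPk => h0 (hT.orth h k hPh hPk))
      P hz0 hh ⟨F, hF, rfl⟩ hw⟩
  have hzG : z ∈ G1 g R Φ σ s' := (mem_G1_iff M H hI hD hA Fr hz).2 hsP
  obtain ⟨I, -, -, h3, h4⟩ := hid (G1 g R Φ σ s') G1_le (fun a ha b hb => G1_ideal ha hb)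
    x (M.le hx) z hzG
  have hval : Vals R Φ σ x (rs R Φ σ F) := fix_root_vals M Fr hx fun i => by rw [hxe]; exact hh i
  have h5 := (h4 _ h3 _ (fix_root_co H hσ hx hval hmv)).map γ.symm
  have hσ' : cp γ.symm σ = σ := by
    have h1 : cp γ.symm (cp γ σ) = σ := by
      ext a
      simp [cp_apply]
    rwa [hσ] at h1
  rw [hσ', fix_root_map, fix_root_map] at h5
  have hxC : CC g x := CC.mem (M.le hx)
  have hzC : CC g z := CC.mem hz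
  have hX : CC g (x * z - z * x) := (hxC.mul hzC).sub (hzC.mul hxC)
  have h6 := CC.rm_eq Fr (hX.mul hxC) (hxC.mul hX) h5
  have h7 : rm p (x * z - z * x) = (2 : ℂ) • rm p z := by
    rw [rm_sub, CC.rm_mul Fr hxC hzC, CC.rm_mul Fr hzC hxC, P.rx.root _ (rm_mem hx), hxe,
      Pool.Agent.Mod4.opp_two P hz0]
  have h8 : rm p x * rm p z - rm p z * rm p x = (2 : ℂ) • rm p z := by
    rw [← h7, rm_sub, CC.rm_mul Fr hxC hzC, CC.rm_mul Fr hzC hxC]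
  rw [CC.rm_mul Fr hX hxC, CC.rm_mul Fr hxC hX, h7, smul_mul_assoc, mul_smul_comm] at h6
  have h9 : rm p z * rm p x = rm p x * rm p z :=
    smul_right_injective _ (two_ne_zero : (2 : ℂ) ≠ 0) h6
  have h10 : rm p x * rm p z - rm p z * rm p x = 0 := by
    rw [h9]
    exact sub_self (rm p x * rm p z)
  exact (smul_ne_zero (two_ne_zero : (2 : ℂ) ≠ 0) hz0) (h8.symm.trans h10)

/-- PACKAGE. `ex_crt`, `fix_root` with `dcm_cmp`, `act_compl`; `isCmp_mv`, `cmp_eq_of_mem`. -/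
theorem fix_cmp (M : Mono R c Φ g ψ) (H : IsFrob R Φ) (hI : Idem Φ) {γ : ℂ ≃+* ℂ}
    (hσ : cp γ σ = σ) (hid : Spl g γ) (hs : IsCmp R Φ σ s) : mv γ '' s = s := by
  obtain ⟨F, hF, hC⟩ := ex_crt M H hI hs
  have hD := dcm_cmp H (lat M H hI σ) hs
  have h1 := fix_root M H hI hD (act_compl M H hI s) hσ hid hF hC
  have h2 : Rts R Φ σ (mv γ F) := by
    have h := (hD.fst F hF).mv H.diag γ
    rwa [hσ] at h
  have h3 : mv γ F ∈ s := by
    by_contra h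
    exact h1 ⟨h2, h⟩
  have h4 : IsCmp R Φ σ (mv γ '' s) := by
    have h := isCmp_mv H.diag γ hs
    rwa [hσ] at h
  rw [← cmp_eq_of_mem h4 ⟨F, hF, rfl⟩, cmp_eq_of_mem hs h3]

private theorem atp_unit_Equi {z : ℂ} (hz : z ≠ 0) {e₁ : Matrix ι ι ℂ} (h : e₁ * e₁ = e₁) :
    ∃ y : (Matrix ι ι ℂ)ˣ, (y : Matrix ι ι ℂ) = 1 + (z - 1) • e₁ := by
  have key : ∀ a b : ℂ, a * b = 1 → (1 + (a - 1) • e₁) * (1 + (b - 1) • e₁) = 1 := by
    intro a b hab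
    have h1 : (1 + (a - 1) • e₁) * (1 + (b - 1) • e₁) = 1 + (a * b - 1) • e₁ := by
      rw [add_mul, mul_add, one_mul, one_mul, mul_add, mul_one, smul_mul_smul_comm, h, add_assoc,
        ← add_smul, ← add_smul]
      congr 2
      ring
    rw [h1, hab, sub_self, zero_smul, add_zero]
  exact ⟨⟨1 + (z - 1) • e₁, 1 + (z⁻¹ - 1) • e₁, key z z⁻¹ (mul_inv_cancel₀ hz),
    key z⁻¹ z (inv_mul_cancel₀ hz)⟩, rfl⟩

/-- An idempotent which is a scalar on `HS R σ` is orthogonal to all roots. -/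
private theorem atp_dot_Equi {F : ℂ → ℚ} {e : Matrix ι ι ℂ} (hF : Rts R Φ σ F)
    (hns : ¬ Ns R Φ e σ) : rs R Φ σ (ev Φ e) ⬝ᵥ rs R Φ σ F = 0 := by
  obtain ⟨π, K⟩ := hF.rt
  have hsum := K.sum_zero
  have hc : ∃ q : ℚ, ∀ ω : Om R Φ σ, rs R Φ σ (ev Φ e) ω = q := by
    by_cases h : ∃ μ ∈ Om R Φ σ, ev Φ e μ = 0
    · obtain ⟨μ, hμ, h0⟩ := h
      refine ⟨0, fun ω => ?_⟩
      rcases ev_or Φ e ω with h1 | h1
      · exact h1
      · exact absurd ⟨μ, hμ, ω, ω.2, h0, h1⟩ hns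
    · refine ⟨1, fun ω => ?_⟩
      rcases ev_or Φ e ω with h1 | h1
      · exact absurd ⟨ω, ω.2, h1⟩ h
      · exact h1
  obtain ⟨q, hq⟩ := hc
  rw [dotProduct, Finset.sum_congr rfl fun ω _ => by rw [hq ω], ← Finset.mul_sum, hsum, mul_zero]

/-- The value of `eps` for `γ`. PACKAGE. `exists_eps` (`iSup_HS`), `eps_in` for `z = π`, `r` a root of `z` of
order `m` (`IsAlgClosed.exists_pow_nat_eq`), `eps_out`; `hO e` decides between the two cases. If `e` is orthogonal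
to `s'` and `Ns R Φ e σ` fails then `e` is orthogonal to `s` too (`ev Φ e` is constant on `Om R Φ σ`, and a root is
orthogonal to the constants, by `Rf.refl`). If `Ns R Φ e σ` holds then `e` is not orthogonal to `s` and to `s'`, because
otherwise `ev Φ e` is invariant under all reflections in `s` and `s'`, so constant by `hD.tr`. -/
theorem atp_eps (H : IsFrob R Φ) (hF : Free Φ) (hI : Idem Φ) {m : ℕ} (hm0 : m ≠ 0) {z ζ₀ : ℂ}
    (hz : z ≠ 0) (hζ₀ : IsPrimitiveRoot ζ₀ m) {γ : ℂ ≃+* ℂ} (hmu : ∀ x : ℂ, x ^ m = 1 → γ x = x)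
    (hrt : ∀ y : ℂ, y ^ m = z → γ y = ζ₀ * y) {e e₁ : Matrix ι ι ℂ}
    (P : AtP R c Φ m z γ g ψ e e₁) (hD : Dcm R Φ σ s s') (hA : Act g R Φ σ s s')
    (hO : One R Φ σ s s') (hγ : Stab σ s s' γ) (hm : dm R σ ∣ m) :
    ∃ ζ : ℂ, Eps R Φ σ s s' γ ζ ∧
      (ζ ≠ 1 ↔ Ns R Φ e σ ∧ ∃ F ∈ s, rs R Φ σ (ev Φ e) ⬝ᵥ rs R Φ σ F ≠ 0) := by
  have M := P.mono
  have he := P.mem
  have hee := P.idem
  obtain ⟨ζ, hε, -⟩ := exists_eps H (iSup_HS M) hF (lat M H hI σ) hD hγ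
  obtain ⟨y, hy⟩ := atp_unit_Equi hz (by
    obtain ⟨u, -, hu⟩ := P.conj
    exact conj_idem hee hu : e₁ * e₁ = e₁)
  have hdec := P.dec y hy
  refine ⟨ζ, hε, fun hne => ?_, ?_⟩
  · obtain ⟨F, hFs, hdot⟩ : ∃ F ∈ s, rs R Φ σ (ev Φ e) ⬝ᵥ rs R Φ σ F ≠ 0 := by
      by_contra hcon
      push Not at hcon
      exact hne (eps_out M H hI hD hA hO hγ hm hmu hdec he hee P.conj hy hcon hε)
    refine ⟨?_, F, hFs, hdot⟩
    by_contra hns
    exact hdot (atp_dot_Equi (hD.fst F hFs) hns)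
  · rintro ⟨hns, F, hFs, hdot⟩
    have hs' : ∀ F ∈ s', rs R Φ σ (ev Φ e) ⬝ᵥ rs R Φ σ F = 0 := by
      rcases hO e he hee with h1 | h1
      · exact h1
      · exact absurd (h1 F hFs) hdot
    obtain ⟨r, hr⟩ := IsAlgClosed.exists_pow_nat_eq z (Nat.pos_of_ne_zero hm0)
    have hr0 : r ≠ 0 := by
      rintro rfl
      rw [zero_pow hm0] at hr
      exact hz hr.symm
    exact eps_in M H hI hD hA hO hγ hm0 hm hmu hdec hr hr0 hζ₀ (hrt r hr) he hee P.conj P.fix hy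
      hns hs' hε

/-- The value of `eps` for the automorphisms in (1). PACKAGE. Enlarge `S` by the finite set of the roots of
unity of order `m`; `exists_eps`, `eps_one`. -/
theorem atl_eps (H : IsFrob R Φ) (hF : Free Φ) (hI : Idem Φ) {m : ℕ} (hm0 : m ≠ 0)
    {δ : ℂ ≃+* ℂ} (hmu : ∀ x : ℂ, x ^ m = 1 → δ x = x)
    (h1 : ∀ S : Finset ℂ, (∀ x ∈ S, IsAlgebraic ℚ x) → ∃ τ : ℂ ≃+* ℂ, (∀ x ∈ S, τ x = δ x) ∧
      ∃ (g : Submodule ℂ (Matrix ι ι ℂ)) (ψ : Matrix ι ι ℂ), AtL R c Φ m τ g ψ)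
    (S : Finset ℂ) (hS : ∀ x ∈ S, IsAlgebraic ℚ x) :
    ∃ τ : ℂ ≃+* ℂ, (∀ x ∈ S, τ x = δ x) ∧ ∃ (g : Submodule ℂ (Matrix ι ι ℂ))
      (ψ : Matrix ι ι ℂ), Mono R c Φ g ψ ∧
      ∀ (σ : E →+* ℂ) (s s' : Set (ℂ → ℚ)), Dcm R Φ σ s s' → Act g R Φ σ s s' →
        One R Φ σ s s' → dm R σ ∣ m → Stab σ s s' τ → Eps R Φ σ s s' τ 1 := by
  classical
  obtain ⟨τ, hτ, g, ψ, A⟩ := h1 (S ∪ Polynomial.nthRootsFinset m (1 : ℂ)) (by
    intro x hx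
    rcases Finset.mem_union.1 hx with hx | hx
    · exact hS x hx
    · rw [Polynomial.mem_nthRootsFinset (Nat.pos_of_ne_zero hm0)] at hx
      exact IsAlgebraic.of_pow (Nat.pos_of_ne_zero hm0) (by rw [hx]; exact isAlgebraic_one))
  have hmuτ : ∀ x : ℂ, x ^ m = 1 → τ x = x := fun x hx => by
    rw [hτ x (Finset.mem_union_right _
      ((Polynomial.mem_nthRootsFinset (Nat.pos_of_ne_zero hm0) _).2 hx)), hmu x hx]
  refine ⟨τ, fun x hx => hτ x (Finset.mem_union_left _ hx), g, ψ, A.mono,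
    fun σ s s' hD hA hO hdm hst => ?_⟩
  obtain ⟨ζ, hε, -⟩ := exists_eps H (iSup_HS A.mono) hF (lat A.mono H hI σ) hD hst
  have h2 := eps_one A.mono H hI hD hA hO hst hdm hmuτ A.dec hε
  rwa [h2] at hε

/-- **The reciprocity law.** PACKAGE. `rec_tch`; `h1` by `atl_eps` (with `dcm_cmp`, `act_compl`, `one_cmp`), `h2` by
`fix_cmp` (`Stab`: also `cpl_mv`) and `atp_eps`: for a component `s` the conditions `s = tch R Φ σ (ev Φ e)` and
`∃ F ∈ s, rs (ev Φ e) ⬝ᵥ rs F ≠ 0` are equivalent if `Ns R Φ e σ` (`tch_isCmp`, `cmp_eq_of_mem`). -/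
theorem recip (H : IsFrob R Φ) (hF : Free Φ) (hI : Idem Φ) {K : Subfield ℂ} {π : K}
    (hπ : (π : ℂ) ≠ 0) {m : ℕ} (hm0 : 0 < m) (hm : ∀ σ : E →+* ℂ, dm R σ ∣ m) {ζ₀ : ℂ}
    (hζ₀ : IsPrimitiveRoot ζ₀ m) {γ : ℂ ≃+* ℂ} (T : Tame K π m ζ₀ γ) {e e₁ : Matrix ι ι ℂ}
    (P : AtP R c Φ m (π : ℂ) γ g ψ e e₁)
    (h1 : ∀ δ : ℂ ≃+* ℂ, Cls K π m δ → ∀ S : Finset ℂ, (∀ x ∈ S, IsAlgebraic ℚ x) →
      ∃ τ : ℂ ≃+* ℂ, (∀ x ∈ S, τ x = δ x) ∧ ∃ (g : Submodule ℂ (Matrix ι ι ℂ))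
        (ψ : Matrix ι ι ℂ), AtL R c Φ m τ g ψ)
    {h : ℂ ≃+* ℂ} (hh : ∀ x ∈ K, h x = x) {σ : E →+* ℂ} (hns : Ns R Φ e σ) :
    Ns R Φ e (cp h σ) ∧ mv h '' tch R Φ σ (ev Φ e) = tch R Φ (cp h σ) (ev Φ e) := by
  have M := P.mono
  have hL : ∀ σ : E →+* ℂ, Lat (Ls R Φ σ) := fun σ => lat M H hI σ
  refine rec_tch H (iSup_HS M) hL hm0 hζ₀ hm T ?_ ?_ hh hns (tch_isCmp M H hI P.mem P.idem hns)
  · intro δ hδ S hS
    obtain ⟨τ, hτ, g', ψ', M', h2⟩ := atl_eps H hF hI hm0.ne' hδ.mu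
      (fun S hS => h1 δ hδ S hS) S hS
    exact ⟨τ, hτ, fun σ s hs hst => h2 σ s _ (dcm_cmp H (hL σ) hs) (act_compl M' H hI s)
      (one_cmp M' H hI hs) (hm σ) hst⟩
  · intro σ s hs
    have hc1 := fix_cmp M H hI (P.emb σ) P.spl hs
    have hst : Stab σ s (cpl R Φ σ s) γ := ⟨P.emb σ, hc1, by rw [cpl_mv H, P.emb σ, hc1]⟩
    have hD := dcm_cmp H (hL σ) hs
    obtain ⟨ζ, hε, hζ⟩ := atp_eps H hF hI hm0.ne' hπ hζ₀ T.mu T.rt0 P hD (act_compl M H hI s)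
      (one_cmp M H hI hs) hst (hm σ)
    refine ⟨hst, ζ, hε, hζ.trans ⟨?_, ?_⟩⟩
    · rintro ⟨hn, F, hFs, hd⟩
      have ht := tch_isCmp M H hI P.mem P.idem hn
      have hFt : F ∈ tch R Φ σ (ev Φ e) :=
        ⟨hD.fst F hFs, F, hD.fst F hFs, hd, Relation.ReflTransGen.refl⟩
      exact ⟨hn, by rw [← cmp_eq_of_mem hs hFs, cmp_eq_of_mem ht hFt]⟩
    · rintro ⟨hn, hs'⟩
      obtain ⟨F₀, hF₀, ht⟩ := tch_isCmp M H hI P.mem P.idem hn
      have h3 : F₀ ∈ tch R Φ σ (ev Φ e) := by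
        rw [ht]
        exact ⟨hF₀, Relation.ReflTransGen.refl⟩
      obtain ⟨-, F', h4, h5, -⟩ := h3
      refine ⟨hn, F', ?_, h5⟩
      rw [hs']
      exact ⟨h4, F', h4, h5, Relation.ReflTransGen.refl⟩

end Pool.Agent.FQX
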