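import Pool.Agent.FQ.Index

/-!
# Characters of order two and quadratic extensions
-/

set_option autoImplicit false
set_option linter.unusedSectionVars false

namespace Pool.Agent.FQX

open Module Polynomial
open Pool.Agent.FQ (fixG mem_fixG index_fixG)

/-- An algebraic number fixed by the automorphisms over `M` is in `M`. -/
theorem fix_mem (M : IntermediateField ℚ ℂ) [FiniteDimensional ℚ M] {z : ℂ}
    (hz : IsAlgebraic ℚ z) (h : ∀ γ ∈ fixG M.toSubfield, γ z = z) : z ∈ M := by
  have hfz : FiniteDimensional ℚ (IntermediateField.adjoin ℚ {z}) :=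
    IntermediateField.adjoin.finiteDimensional hz.isIntegral
  let M' : IntermediateField ℚ ℂ := M ⊔ IntermediateField.adjoin ℚ {z}
  have hf' : FiniteDimensional ℚ M' := IntermediateField.finiteDimensional_sup _ _
  have hf1 : FiniteDimensional ℚ M.toSubfield := ‹FiniteDimensional ℚ M›
  have hf2 : FiniteDimensional ℚ M'.toSubfield := hf'
  have h1 : fixG M'.toSubfield = fixG M.toSubfield := by
    apply le_antisymm
    · intro γ hγ x hx
      exact hγ x ((le_sup_left : M ≤ M') hx)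
    · intro γ hγ x hx
      let F : IntermediateField ℚ ℂ := Subfield.toIntermediateField
        { carrier := {x | γ x = x}
          mul_mem' := fun {a b} ha hb => by
            change γ (a * b) = a * b
            rw [map_mul, ha, hb]
          one_mem' := map_one γ
          add_mem' := fun {a b} ha hb => by
            change γ (a + b) = a + b
            rw [map_add, ha, hb]
          zero_mem' := map_zero γ
          neg_mem' := fun {a} ha => by
            change γ (-a) = -a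
            rw [map_neg, ha]
          inv_mem' := fun a ha => by
            change γ a⁻¹ = a⁻¹
            rw [map_inv₀, ha] } fun q => by
            change γ (algebraMap ℚ ℂ q) = algebraMap ℚ ℂ q
            rw [eq_ratCast, map_ratCast]
      have h2 : M' ≤ F := by
        refine sup_le (fun y hy => hγ y hy) ?_
        rw [IntermediateField.adjoin_simple_le_iff]
        exact h γ hγ
      exact h2 hx
  have h2 := index_fixG M.toSubfield
  have h3 := index_fixG M'.toSubfield
  rw [h1, h2] at h3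
  have h4 : M = M' := by
    refine IntermediateField.eq_of_le_of_finrank_eq le_sup_left ?_
    exact h3
  rw [h4]
  exact (le_sup_right : _ ≤ M') (IntermediateField.mem_adjoin_simple_self ℚ z)

private theorem aeval_aut (γ : RingAut ℂ) (x : ℂ) (q : ℚ[X]) :
    Polynomial.aeval (γ x) q = γ (Polynomial.aeval x q) :=
  Polynomial.aeval_algHom_apply ((γ : ℂ ≃+* ℂ) : ℂ →+* ℂ).toRatAlgHom x q

private theorem alg_map {x : ℂ} (hx : IsAlgebraic ℚ x) (γ : RingAut ℂ) : IsAlgebraic ℚ (γ x) := by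
  obtain ⟨q, hq, h⟩ := hx
  exact ⟨q, hq, by rw [aeval_aut, h, map_zero]⟩

/-- **A character of order two.** -/
theorem exists_quad (M : IntermediateField ℚ ℂ) [FiniteDimensional ℚ M] (S : Subgroup (RingAut ℂ))
    (X : RingAut ℂ → Prop) (hmul : ∀ γ γ', γ ∈ S → γ' ∈ S → (X (γ * γ') ↔ (X γ ↔ X γ')))
    (hfix : ∀ γ ∈ fixG M.toSubfield, γ ∈ S ∧ X γ) {c : RingAut ℂ} (hc : c ∈ S) (hX : ¬ X c) :
    ∃ z ∈ M, IsAlgebraic ℚ z ∧ (∀ γ ∈ S, γ (z ^ 2) = z ^ 2) ∧ c z ≠ z := by
  classical
  have hX1 : X 1 := by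
    have h := hmul 1 1 S.one_mem S.one_mem
    rw [mul_one] at h
    tauto
  have hXinv : ∀ γ ∈ S, (X γ⁻¹ ↔ X γ) := by
    intro γ hγ
    have h := hmul γ⁻¹ γ (S.inv_mem hγ) hγ
    rw [inv_mul_cancel] at h
    tauto
  obtain ⟨α, hα⟩ := Field.exists_primitive_element ℚ M
  have halgα : IsAlgebraic ℚ (α : ℂ) := by
    have h1 : IsAlgebraic ℚ α := Algebra.IsAlgebraic.isAlgebraic α
    exact (isAlgebraic_algebraMap_iff (algebraMap M ℂ).injective).2 h1
  -- an automorphism which fixes `α` fixes `M`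
  have hgen : ∀ γ : RingAut ℂ, γ (α : ℂ) = α → γ ∈ fixG M.toSubfield := by
    intro γ hγ x hx
    have h1 : (⟨x, hx⟩ : M) ∈ IntermediateField.adjoin ℚ {α} := by
      rw [hα]
      exact IntermediateField.mem_top
    have key : ∀ y : M, y ∈ IntermediateField.adjoin ℚ {α} → γ (y : ℂ) = y := by
      intro y hy
      induction hy using IntermediateField.adjoin_induction with
      | mem x hx =>
        rw [Set.mem_singleton_iff] at hx
        rw [hx, hγ]
      | algebraMap q =>
        change γ (algebraMap ℚ ℂ q) = algebraMap ℚ ℂ q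
        rw [eq_ratCast, map_ratCast]
      | add x y _ _ hx hy =>
        change γ ((x : ℂ) + y) = x + y
        rw [map_add, hx, hy]
      | mul x y _ _ hx hy =>
        change γ ((x : ℂ) * y) = x * y
        rw [map_mul, hx, hy]
      | inv x _ hx =>
        change γ ((x : ℂ)⁻¹) = (x : ℂ)⁻¹
        rw [map_inv₀, hx]
    exact key _ h1
  let O : Prop → Set ℂ := fun b => {x | ∃ γ ∈ S, (X γ ↔ b) ∧ γ (α : ℂ) = x}
  have hOalg : ∀ b, ∀ x ∈ O b, IsAlgebraic ℚ x := by
    rintro b x ⟨γ, -, -, rfl⟩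
    exact alg_map halgα γ
  have hfin : ∀ b, (O b).Finite := by
    intro b
    refine (((minpoly ℚ (α : ℂ)).aroots ℂ).toFinset.finite_toSet).subset ?_
    rintro x ⟨γ, -, -, rfl⟩
    rw [Finset.mem_coe, Multiset.mem_toFinset, Polynomial.mem_aroots]
    exact ⟨minpoly.ne_zero halgα.isIntegral, by rw [aeval_aut, minpoly.aeval, map_zero]⟩
  let P : Prop → ℂ[X] := fun b => ∏ x ∈ (hfin b).toFinset, (Polynomial.X - Polynomial.C x)
  -- the action
  have hact : ∀ δ ∈ S, ∀ b b' : Prop, (b' ↔ (X δ ↔ b)) →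
      (P b).map (δ : ℂ →+* ℂ) = P b' := by
    intro δ hδ b b' hbb
    change (∏ x ∈ (hfin b).toFinset, (Polynomial.X - Polynomial.C x)).map (δ : ℂ →+* ℂ) =
      ∏ x ∈ (hfin b').toFinset, (Polynomial.X - Polynomial.C x)
    rw [Polynomial.map_prod]
    refine Finset.prod_bij (fun x _ => δ x) ?_ ?_ ?_ ?_
    · intro x hx
      rw [Set.Finite.mem_toFinset] at hx ⊢
      obtain ⟨γ, hγ, hb, rfl⟩ := hx
      refine ⟨δ * γ, S.mul_mem hδ hγ, ?_, rfl⟩
      rw [hmul δ γ hδ hγ]
      tauto
    · intro x _ y _ hxy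
      exact δ.injective hxy
    · intro y hy
      rw [Set.Finite.mem_toFinset] at hy
      obtain ⟨γ, hγ, hb, rfl⟩ := hy
      refine ⟨δ⁻¹ (γ α), ?_, ?_⟩
      · rw [Set.Finite.mem_toFinset]
        refine ⟨δ⁻¹ * γ, S.mul_mem (S.inv_mem hδ) hγ, ?_, rfl⟩
        rw [hmul _ γ (S.inv_mem hδ) hγ, hXinv δ hδ]
        tauto
      · rw [← RingAut.mul_apply, mul_inv_cancel, RingAut.one_apply]
    · intro x _
      rw [Polynomial.map_sub, Polynomial.map_X, Polynomial.map_C]
      rfl
  have hroot : (P True).eval (α : ℂ) = 0 := by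
    rw [Polynomial.eval_prod]
    refine Finset.prod_eq_zero (i := (α : ℂ)) ?_ (by simp)
    rw [Set.Finite.mem_toFinset]
    exact ⟨1, S.one_mem, by tauto, rfl⟩
  have hnroot : (P False).eval (α : ℂ) ≠ 0 := by
    rw [Polynomial.eval_prod, Finset.prod_ne_zero_iff]
    intro x hx h0
    rw [Set.Finite.mem_toFinset] at hx
    obtain ⟨γ, hγ, hb, rfl⟩ := hx
    rw [Polynomial.eval_sub, Polynomial.eval_X, Polynomial.eval_C, sub_eq_zero] at h0
    have h1 := (hfix γ (hgen γ h0.symm)).2
    tauto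
  have hD : P True - P False ≠ 0 := by
    intro h0
    have h1 := congrArg (Polynomial.eval (α : ℂ)) h0
    rw [Polynomial.eval_sub, hroot, zero_sub, Polynomial.eval_zero, neg_eq_zero] at h1
    exact hnroot h1
  obtain ⟨n, hn⟩ : ∃ n, (P True - P False).coeff n ≠ 0 := by
    by_contra hcon
    push Not at hcon
    exact hD (Polynomial.ext hcon)
  set z := (P True - P False).coeff n with hz
  have hcoeff : ∀ (δ : RingAut ℂ) (p : ℂ[X]), δ (p.coeff n) = (p.map (δ : ℂ →+* ℂ)).coeff n := by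
    intro δ p
    rw [Polynomial.coeff_map]
    rfl
  have hp : ∀ δ ∈ S, X δ → δ z = z := by
    intro δ hδ hXδ
    rw [hz, hcoeff, Polynomial.map_sub, hact δ hδ True True (by tauto),
      hact δ hδ False False (by tauto)]
  have hm : ∀ δ ∈ S, ¬ X δ → δ z = -z := by
    intro δ hδ hXδ
    rw [hz, hcoeff, Polynomial.map_sub, hact δ hδ True False (by tauto),
      hact δ hδ False True (by tauto), ← Polynomial.coeff_neg, neg_sub]
  -- algebraic
  have hzalg : IsAlgebraic ℚ z := by
    have h1 : ∀ b, P b ∈ Polynomial.lifts (algebraMap (algebraicClosure ℚ ℂ) ℂ) := by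
      intro b
      refine Subsemiring.prod_mem _ fun x hx => ?_
      rw [Set.Finite.mem_toFinset] at hx
      rw [Polynomial.mem_lifts]
      refine ⟨Polynomial.X - Polynomial.C (⟨x, mem_algebraicClosure_iff.2 (hOalg b x hx)⟩ :
        algebraicClosure ℚ ℂ), ?_⟩
      rw [Polynomial.map_sub, Polynomial.map_X, Polynomial.map_C]
      rfl
    have h2 : ∀ b, IsAlgebraic ℚ ((P b).coeff n) := by
      intro b
      obtain ⟨q, hq⟩ := (Polynomial.mem_lifts _).1 (h1 b)
      rw [← hq, Polynomial.coeff_map]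
      exact mem_algebraicClosure_iff.1 (q.coeff n).2
    rw [hz, Polynomial.coeff_sub]
    exact (h2 True).sub (h2 False)
  refine ⟨z, fix_mem M hzalg fun γ hγ => hp γ (hfix γ hγ).1 (hfix γ hγ).2, hzalg, ?_, ?_⟩
  · intro γ hγ
    rw [map_pow]
    by_cases h : X γ
    · rw [hp γ hγ h]
    · rw [hm γ hγ h, neg_sq]
  · rw [hm c hc hX]
    intro h0
    have h1 : (2 : ℂ) * z = 0 := by linear_combination -h0
    exact hn ((mul_eq_zero.1 h1).resolve_left two_ne_zero)

/-- The compositum of `K` and the field `σ(E)` contains no quadratic extension of `σ(E)` which is not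
real. -/
def QF {E : Type} [CommRing E] (K : Subfield ℂ) (σ : E →+* ℂ) : Prop :=
  ∀ z ∈ Subfield.closure ((K : Set ℂ) ∪ Set.range σ), (∃ a, z ^ 2 = σ a) → starRingEnd ℂ z = z

/-- The criterion holds if `K` is real. -/
theorem qf_of_real {E : Type} [CommRing E] {K : Subfield ℂ} {σ : E →+* ℂ}
    (hr : ∀ a, starRingEnd ℂ (σ a) = σ a) (hK : ∀ z ∈ K, starRingEnd ℂ z = z) : QF K σ := by
  intro z hz _
  have h1 : Subfield.closure ((K : Set ℂ) ∪ Set.range σ) ≤
      RingHom.eqLocusField (starRingEnd ℂ) (RingHom.id ℂ) := by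
    rw [Subfield.closure_le]
    rintro y (hy | ⟨a, rfl⟩)
    · exact hK y hy
    · exact hr a
  exact h1 hz

/-- The case of a stabiliser. -/
theorem not_qf {E : Type} [CommRing E] [Algebra ℚ E] [Module.Finite ℚ E] {K : Subfield ℂ}
    [FiniteDimensional ℚ K] {σ : E →+* ℂ} (hr : ∀ a, starRingEnd ℂ (σ a) = σ a)
    {X : (ℂ ≃+* ℂ) → Prop}
    (hmul : ∀ γ γ' : ℂ ≃+* ℂ, (∀ a, γ (σ a) = σ a) → (∀ a, γ' (σ a) = σ a) →
      (X (γ * γ') ↔ (X γ ↔ X γ')))
    (hK : ∀ γ ∈ fixG K, (∀ a, γ (σ a) = σ a) → X γ) (hX : ¬ X starRingAut) : ¬ QF K σ := by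
  intro hQ
  let K₀ : IntermediateField ℚ ℂ := K.toIntermediateField fun q => by
    rw [eq_ratCast]
    exact SubfieldClass.ratCast_mem K q
  have hfK : FiniteDimensional ℚ K₀ := ‹FiniteDimensional ℚ K›
  -- the field `σ(E)`
  let f : E →ₐ[ℚ] ℂ := σ.toRatAlgHom
  have hff : FiniteDimensional ℚ f.range :=
    FiniteDimensional.of_surjective f.rangeRestrict.toLinearMap f.rangeRestrict_surjective
  have hfield : IsField f.range := by
    have : Algebra.IsIntegral ℚ f.range := Algebra.IsIntegral.of_finite ℚ f.range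
    exact isField_of_isIntegral_of_isField' (Field.toIsField ℚ)
  let L₀ : IntermediateField ℚ ℂ := f.range.toIntermediateField' hfield
  have hL₀ : ∀ x, x ∈ L₀ ↔ ∃ a, σ a = x := fun x => Iff.rfl
  have hfL : FiniteDimensional ℚ L₀ := hff
  let M : IntermediateField ℚ ℂ := K₀ ⊔ L₀
  have hfM : FiniteDimensional ℚ M := IntermediateField.finiteDimensional_sup _ _
  let S : Subgroup (RingAut ℂ) := fixG L₀.toSubfield
  have hS : ∀ γ : RingAut ℂ, γ ∈ S ↔ ∀ a, γ (σ a) = σ a := by
    intro γ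
    constructor
    · intro h a
      exact h _ ((hL₀ _).2 ⟨a, rfl⟩)
    · intro h x hx
      obtain ⟨a, rfl⟩ := (hL₀ x).1 hx
      exact h a
  obtain ⟨z, hz, hzalg, h1, h2⟩ := exists_quad M S X
    (fun γ γ' hγ hγ' => hmul γ γ' ((hS γ).1 hγ) ((hS γ').1 hγ'))
    (fun γ hγ => by
      have h3 : γ ∈ S := fun x hx => hγ x ((le_sup_right : L₀ ≤ M) hx)
      exact ⟨h3, hK γ (fun x hx => hγ x ((le_sup_left : K₀ ≤ M) hx)) ((hS γ).1 h3)⟩)
    (c := starRingAut) ((hS _).2 hr) hX
  apply h2
  refine hQ z ?_ ?_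
  · let C₀ : IntermediateField ℚ ℂ :=
      (Subfield.closure ((K : Set ℂ) ∪ Set.range σ)).toIntermediateField fun q => by
        rw [eq_ratCast]
        exact SubfieldClass.ratCast_mem _ q
    have h3 : M ≤ C₀ := by
      refine sup_le (fun x hx => Subfield.subset_closure (Or.inl hx)) fun x hx => ?_
      obtain ⟨a, rfl⟩ := (hL₀ x).1 hx
      exact Subfield.subset_closure (Or.inr ⟨a, rfl⟩)
    exact h3 hz
  · have h3 : z ^ 2 ∈ L₀ := fix_mem L₀ (hzalg.pow 2) h1
    obtain ⟨a, ha⟩ := (hL₀ _).1 h3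
    exact ⟨a, ha.symm⟩

end Pool.Agent.FQX
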