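import Pool.Agent.FQX.PjE
import Pool.Agent.FQX.Quad

/-!
# The middle exterior powers: the criterion

If the compositum of `K` and the real field `σ(E)` contains no quadratic extension of `σ(E)` which is not
real, then all skew operators are induced also in the dimensions which are middle binomial
coefficients.
-/

set_option autoImplicit false
set_option linter.unusedSectionVars false

namespace Pool.Agent.FQX

open Module
open Pool.Agent.CoprimeSig (ratM)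
open Pool.Agent.FQA (TD Cn Fl)
open Pool.Agent.PrimePow.CC (Rf Rt Lat)
open Pool.Agent.FQ (expG fixG mem_fixG)
open Pool.Agent.FQV

variable {ι : Type} [Fintype ι] [DecidableEq ι] {E : Type} [CommRing E]
  {R : E →+* Matrix ι ι ℚ} {Φ : Matrix ι ι ℚ} {σ : E →+* ℂ} {c : E → E}
  {g : Submodule ℂ (Matrix ι ι ℂ)} {ψ : Matrix ι ι ℂ} {W : Submodule ℂ (ι → ℂ)}
  {p : (ι → ℂ) →ₗ[ℂ] W} {v : Basis (Om R Φ σ) ℂ W} {r : (E →+* ℂ) → ℕ}

variable [Algebra ℚ E] [Module.Finite ℚ E] [IsReduced E]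

/-- The decompositions of Hodge and Tate for the automorphisms over `K`. -/
def HTK (K : Subfield ℂ) (P : Submodule ℂ (Matrix ι ι ℂ) → Matrix ι ι ℂ → Prop)
    (R : E →+* Matrix ι ι ℚ) (c : E → E) (Φ : Matrix ι ι ℚ) (r : (E →+* ℂ) → ℕ) : Prop :=
  ∀ γ ∈ fixG K, ∀ S : Finset ℂ, (∀ x ∈ S, IsAlgebraic ℚ x) →
    ∃ τ : ℂ ≃+* ℂ, (∀ x ∈ S, τ x = γ x) ∧ ∃ (g : Submodule ℂ (Matrix ι ι ℂ))
      (ψ e : Matrix ι ι ℂ), Mono R c Φ g ψ ∧ P g ψ ∧ Coch R Φ r g ψ τ e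

theorem full_qf {P : Submodule ℂ (Matrix ι ι ℂ) → Matrix ι ι ℂ → Prop} (hP : P g ψ)
    (H : IsFrob R Φ) (hR : Rk R Φ r)
    (hc : ∀ (σ : E →+* ℂ) a, σ (c a) = starRingEnd ℂ (σ a)) (M : Mono R c Φ g ψ)
    (F : Frame R Φ g σ W p v) (hr : ∀ a, starRingEnd ℂ (σ a) = σ a)
    (hcn : ∀ h h', Rt (Ls R Φ σ) h → Rt (Ls R Φ σ) h' → Cn (Ls R Φ σ) h h')
    (hA : TyA R Φ σ) (hS : Alt P R c Φ σ ∨ TyS R Φ σ)
    {K : Subfield ℂ} [FiniteDimensional ℚ K] (hQ : QF K σ) (hHT : HTK K P R c Φ r) :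
    FullW g ψ p := by
  by_contra hnf
  obtain ⟨X, h1, h2, h3⟩ := exists_chi hP H hR hc M F hr hcn hA hS hnf hHT
  have key : ∀ γ : ℂ ≃+* ℂ, (∀ a, γ (σ a) = σ a) → cp γ σ = σ := fun γ h => RingHom.ext h
  exact not_qf (K := K) hr (fun γ γ' h h' => h1 γ γ' (key γ h) (key γ' h'))
    (fun γ hγ h => h2 γ hγ (key γ h)) h3 hQ

/-- **The general case of a real eigenspace.** -/
theorem full_real_qf {P : Submodule ℂ (Matrix ι ι ℂ) → Matrix ι ι ℂ → Prop} (hP : P g ψ)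
    (H : IsFrob R Φ) (hR : Rk R Φ r)
    (hc : ∀ (σ : E →+* ℂ) a, σ (c a) = starRingEnd ℂ (σ a)) (M : Mono R c Φ g ψ)
    (F : Frame R Φ g σ W p v) (hr : ∀ a, starRingEnd ℂ (σ a) = σ a)
    (hcn : ∀ h h', Rt (Ls R Φ σ) h → Rt (Ls R Φ σ) h' → Cn (Ls R Φ σ) h h')
    (hA : TyA R Φ σ) (hS : Alt P R c Φ σ ∨ TyS R Φ σ)
    {K : Subfield ℂ} [FiniteDimensional ℚ K] (hHT : HTK K P R c Φ r)
    (hcj : QF K σ ∨
      ((Syp P R c Φ σ ∨ ∀ k : ℕ, Odd k → 3 ≤ k → Fintype.card (Om R Φ σ) ≠ (2 * k).choose k) ∧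
      (Alt P R c Φ σ ∨ ∀ k : ℕ, Even k → 4 ≤ k → Fintype.card (Om R Φ σ) ≠ (2 * k).choose k))) :
    FullW g ψ p := by
  rcases hcj with hQ | hb
  · exact full_qf hP H hR hc M F hr hcn hA hS hQ hHT
  · exact full_real hP H hR hc M F hr hcn hA hS (Or.inr hb)

end Pool.Agent.FQX
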