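import Pool.Agent.FQX.Spl

/-!
# The block part of exponentials, idempotents, and of the Frobenius element
-/

set_option autoImplicit false
set_option linter.unusedSectionVars false

namespace Pool.Agent.FQX

open Module
open Pool.Agent.CoprimeSig (ratM)
open Pool.Agent.FQV
open Pool.Agent.FQ (expG IsExp)

variable {ι : Type} [Fintype ι] [DecidableEq ι] {E : Type} [CommRing E] [Algebra ℚ E]
  [Module.Finite ℚ E] [IsReduced E]
  {R : E →+* Matrix ι ι ℚ} {Φ : Matrix ι ι ℚ} {σ : E →+* ℂ} {c : E → E}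
  {g : Submodule ℂ (Matrix ι ι ℂ)} {ψ : Matrix ι ι ℂ} {s s' : Set (ℂ → ℚ)}

private theorem exists_nil_gen {V : Type*} [AddCommGroup V] [Module ℂ V] {A B : End ℂ V}
    (hc : Commute A B) (hn : IsNilpotent (A + B)) (μ : ℂ) :
    A.maxGenEigenspace μ ≤ B.maxGenEigenspace (-μ) := by
  intro w hw
  rw [Module.End.mem_maxGenEigenspace] at hw ⊢
  obtain ⟨k, hk⟩ := hw
  obtain ⟨m, hm⟩ := hn
  refine ⟨m + k, ?_⟩
  have e : B - (-μ) • (1 : End ℂ V) = (A + B) + (-(A - μ • (1 : End ℂ V))) := by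
    rw [neg_smul]
    abel
  have hC : Commute (A + B) (-(A - μ • (1 : End ℂ V))) := by
    refine Commute.neg_right (Commute.sub_right ?_ ?_)
    · exact (Commute.refl A).add_left hc.symm
    · exact (Commute.one_right _).smul_right μ
  rw [e, hC.add_pow, LinearMap.sum_apply]
  refine Finset.sum_eq_zero fun i _ => ?_
  rcases le_or_gt m i with hi | hi
  · have : (A + B) ^ i = 0 := by
      rw [← Nat.sub_add_cancel hi, pow_add, hm, mul_zero]
    rw [this, zero_mul, zero_mul, LinearMap.zero_apply]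
  · have h2 : (-(A - μ • (1 : End ℂ V))) ^ (m + k - i) * (((m + k).choose i : ℕ) : End ℂ V) =
        (((m + k).choose i : ℕ) : End ℂ V) * ((-(A - μ • (1 : End ℂ V))) ^ (m + k - i)) :=
      (Nat.cast_commute _ _).symm
    have h3 : ((-(A - μ • (1 : End ℂ V))) ^ (m + k - i)) w = 0 := by
      have e3 : m + k - i = (m - i) + k := by omega
      have e4 : ((-(A - μ • (1 : End ℂ V))) ^ k) w = 0 := by
        rw [neg_pow, Module.End.mul_apply, hk, map_zero]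
      rw [e3, pow_add, Module.End.mul_apply, e4, map_zero]
    rw [mul_assoc, h2, ← mul_assoc, Module.End.mul_apply, h3, map_zero]

private theorem exists_nil_maps {A B : End ℂ (HS R σ)} {x y : Matrix ι ι ℂ}
    (hA : ∀ v : HS R σ, (A v : ι → ℂ) = x.mulVec v) (hB : ∀ v : HS R σ, (B v : ι → ℂ) = y.mulVec v)
    (h : EqOn R σ (x * y) (y * x)) : Commute A B := by
  refine LinearMap.ext fun v => Subtype.ext ?_
  rw [Module.End.mul_apply, Module.End.mul_apply, hA, hB, hB, hA, Matrix.mulVec_mulVec,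
    Matrix.mulVec_mulVec]
  exact h v v.2

/-- The part `N₁` in `G1` of a nilpotent element `N`, nilpotent on `HS R σ`. `N = x₁ + x₂` (`hS`), and on
`HS R σ` these commute (`G2`). Let `μ` be an eigenvalue of `x₁` on `HS R σ` (`HS_ne_bot`) and `U` the generalised
eigenspace of `x₁` in `HS R σ` for `μ`. On `HS R σ` it is also the generalised eigenspace of `x₂ = N - x₁` for `-μ`
(`N` is nilpotent and commutes with `x₁`, `x₂` on `HS R σ`). So `U` is stable under `G2` (which commutes with `x₁ ∈ G1`)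
and under `G1` (which commutes with `x₂ ∈ G2`), so under `g`, and under the commutant of `g`. By `M.iso σ`
(`Isotypic`) `U = HS R σ`. Take `N₁ = x₁ - μ • 1` (`one_mem_G`). -/
theorem exists_nil (M : Mono R c Φ g ψ) (hR : Function.Injective R) (hS : Sum g R Φ σ s')
    {N : Matrix ι ι ℂ} (hN : N ∈ g) (hN' : IsNilpotent N) :
    ∃ N₁ ∈ G1 g R Φ σ s', N - N₁ ∈ G2 g R Φ σ s' ∧ ∃ k : ℕ, EqOn R σ (N₁ ^ k) 0 := by
  obtain ⟨x₁, h1, x₂, h2, hx⟩ := hS N hN
  -- restrictions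
  have hres : ∀ x : Matrix ι ι ℂ, (∀ w ∈ HS R σ, x.mulVec w ∈ HS R σ) →
      ∃ A : End ℂ (HS R σ), ∀ v : HS R σ, (A v : ι → ℂ) = x.mulVec v := by
    intro x hx
    exact ⟨(Matrix.toLin' x).restrict hx, fun v => by
      rw [LinearMap.coe_restrict_apply, Matrix.toLin'_apply]⟩
  obtain ⟨A, hA⟩ := hres x₁ (HS_stable M x₁ (G1_le h1))
  obtain ⟨B, hB⟩ := hres x₂ (HS_stable M x₂ (G2_le h2))
  have hcAB : Commute B A := exists_nil_maps hB hA (h2.2 x₁ h1)
  have hABN : ∀ v : HS R σ, ((A + B) v : ι → ℂ) = N.mulVec v := by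
    intro v
    rw [LinearMap.add_apply, Submodule.coe_add, hA, hB, hx, Matrix.add_mulVec]
  have hpow : ∀ (C : End ℂ (HS R σ)) (x : Matrix ι ι ℂ), (∀ v : HS R σ, (C v : ι → ℂ) =
      x.mulVec v) → ∀ (k : ℕ) (v : HS R σ), ((C ^ k) v : ι → ℂ) = (x ^ k).mulVec v := by
    intro C x hC k
    induction k with
    | zero =>
      intro v
      rw [pow_zero, pow_zero, Module.End.one_apply, Matrix.one_mulVec]
    | succ k ih =>
      intro v
      rw [pow_succ, pow_succ, Module.End.mul_apply, ih, hC, Matrix.mulVec_mulVec]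
  have hnil : IsNilpotent (A + B) := by
    obtain ⟨k, hk⟩ := hN'
    refine ⟨k, LinearMap.ext fun v => Subtype.ext ?_⟩
    rw [hpow _ _ hABN, hk, Matrix.zero_mulVec]
    rfl
  have : Nontrivial (HS R σ) := Submodule.nontrivial_iff_ne_bot.2 (HS_ne_bot hR σ)
  obtain ⟨μ, hμ⟩ := Module.End.exists_eigenvalue A
  set U' : Submodule ℂ (HS R σ) := A.maxGenEigenspace μ with hU'
  have hle : U' = B.maxGenEigenspace (-μ) := by
    refine le_antisymm (exists_nil_gen hcAB.symm hnil μ) ?_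
    have := exists_nil_gen (A := B) (B := A) hcAB (by rw [add_comm]; exact hnil) (-μ)
    rwa [neg_neg] at this
  -- stability
  have hA' : ∀ (z : Matrix ι ι ℂ) (C : End ℂ (HS R σ)), (∀ v : HS R σ, (C v : ι → ℂ) =
      z.mulVec v) → EqOn R σ (x₁ * z) (z * x₁) → ∀ u ∈ U', C u ∈ U' := by
    intro z C hC h u hu
    exact Module.End.mapsTo_maxGenEigenspace_of_comm (exists_nil_maps hA hC h) μ hu
  have hB' : ∀ (z : Matrix ι ι ℂ) (C : End ℂ (HS R σ)), (∀ v : HS R σ, (C v : ι → ℂ) =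
      z.mulVec v) → EqOn R σ (x₂ * z) (z * x₂) → ∀ u ∈ U', C u ∈ U' := by
    intro z C hC h u hu
    rw [hle] at hu ⊢
    exact Module.End.mapsTo_maxGenEigenspace_of_comm (exists_nil_maps hB hC h) (-μ) hu
  have hst : ∀ x ∈ g, ∀ u ∈ U'.map (HS R σ).subtype, x.mulVec u ∈ U'.map (HS R σ).subtype := by
    intro x hxg u hu
    obtain ⟨u, hu, rfl⟩ := hu
    obtain ⟨y₁, k1, y₂, k2, hy⟩ := hS x hxg
    obtain ⟨C₁, hC₁⟩ := hres y₁ (HS_stable M y₁ (G1_le k1))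
    obtain ⟨C₂, hC₂⟩ := hres y₂ (HS_stable M y₂ (G2_le k2))
    refine ⟨C₁ u + C₂ u, U'.add_mem (hB' y₁ C₁ hC₁ (h2.2 y₁ k1) u hu)
      (hA' y₂ C₂ hC₂ (k2.2 x₁ h1).symm u hu), ?_⟩
    rw [map_add, Submodule.subtype_apply, Submodule.subtype_apply, hC₁, hC₂, hy,
      Matrix.add_mulVec]
    rfl
  have hZ : ∀ Z : Matrix ι ι ℂ, (∀ x ∈ g, x * Z = Z * x) → (∀ w ∈ HS R σ, Z.mulVec w ∈ HS R σ) →
      ∀ u ∈ U'.map (HS R σ).subtype, Z.mulVec u ∈ U'.map (HS R σ).subtype := by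
    intro Z hZ hZ' u hu
    obtain ⟨u, hu, rfl⟩ := hu
    obtain ⟨C, hC⟩ := hres Z hZ'
    refine ⟨C u, hA' Z C hC ?_ u hu, ?_⟩
    · intro v _
      rw [hZ x₁ (G1_le h1)]
    · rw [Submodule.subtype_apply, hC]
      rfl
  have hbot : U' ≠ ⊥ := by
    intro h
    have h3 : A.eigenspace μ ≤ U' := by
      rw [hU']
      exact (A.genEigenspace μ).mono le_top
    rw [h, le_bot_iff] at h3
    exact hμ h3
  have htop : U' = ⊤ := by
    rcases M.iso σ (U'.map (HS R σ).subtype) (Submodule.map_subtype_le _ _) hst hZ with h | h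
    · exfalso
      apply hbot
      rw [eq_bot_iff]
      intro u hu
      have hu' : (HS R σ).subtype u ∈ U'.map (HS R σ).subtype := ⟨u, hu, rfl⟩
      rw [h, Submodule.mem_bot] at hu'
      exact Subtype.ext hu'
    · rw [eq_top_iff]
      intro v _
      have hv : (v : ι → ℂ) ∈ U'.map (HS R σ).subtype := by
        rw [h]
        exact v.2
      obtain ⟨u, hu, huv⟩ := hv
      have : u = v := Subtype.ext huv
      rwa [← this]
  have hone := one_mem_G (σ := σ) (s' := s') M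
  refine ⟨x₁ - μ • 1, (G1 g R Φ σ s').sub_mem h1 ((G1 g R Φ σ s').smul_mem μ hone.1), ?_,
    finrank ℂ (HS R σ), ?_⟩
  · have e : N - (x₁ - μ • (1 : Matrix ι ι ℂ)) = x₂ + μ • 1 := by
      rw [hx]
      abel
    rw [e]
    exact (G2 g R Φ σ s').add_mem h2 ((G2 g R Φ σ s').smul_mem μ hone.2)
  · intro v hv
    have h4 : (⟨v, hv⟩ : HS R σ) ∈ U' := by
      rw [htop]
      trivial
    rw [hU', Module.End.maxGenEigenspace_eq_genEigenspace_finrank,
      Module.End.mem_genEigenspace_nat] at h4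
    have h5 : ∀ w : HS R σ, ((A - μ • (1 : End ℂ (HS R σ))) w : ι → ℂ) =
        (x₁ - μ • (1 : Matrix ι ι ℂ)).mulVec w := by
      intro w
      rw [LinearMap.sub_apply, Submodule.coe_sub, hA, LinearMap.smul_apply, Module.End.one_apply,
        Submodule.coe_smul, Matrix.sub_mulVec, Matrix.smul_mulVec, Matrix.one_mulVec]
    have h6 := hpow _ _ h5 (finrank ℂ (HS R σ)) ⟨v, hv⟩
    rw [LinearMap.mem_ker.1 h4] at h6
    rw [Matrix.zero_mulVec]
    exact h6.symm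

private theorem eq_zero_of_pow_eq_zero_Gen {z : ℂ} {k : ℕ} (h : z ^ k = 0) : z = 0 := by
  by_contra h1
  exact pow_ne_zero k h1 h

/-- Conjugation by `1 + (z - 1) e`, `w = z⁻¹`. -/
private theorem conj_idem_Gen {e x : Matrix ι ι ℂ} (hee : e * e = e) {z w : ℂ}
    (hzw : z * w = 1) :
    (1 + (z - 1) • e) * x * (1 + (w - 1) • e) = x + ((z - w) / 2) • (e * x - x * e) +
      ((z + w - 2) / 2) • (e * (e * x - x * e) - (e * x - x * e) * e) := by
  have h1 : e * (e * x - x * e) - (e * x - x * e) * e =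
      e * x + x * e - (2 : ℂ) • (e * x * e) := by
    rw [mul_sub, sub_mul, ← mul_assoc e e x, hee, mul_assoc x e e, hee, ← mul_assoc e x e]
    module
  have h2 : (1 + (z - 1) • e) * x * (1 + (w - 1) • e) = x + (z - 1) • (e * x) +
      (w - 1) • (x * e) + ((z - 1) * (w - 1)) • (e * x * e) := by
    simp only [add_mul, mul_add, one_mul, mul_one, smul_mul_assoc, mul_smul_comm, smul_smul,
      smul_add]
    module
  have h3 : (z - 1) * (w - 1) = 2 - z - w := by linear_combination hzw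
  rw [h1, h2, h3]
  module

/-- Uniqueness. PACKAGE. `D = N₁ - N₁'` is in `G1` and in `G2` (negative of the difference of the other
parts), so it commutes with `g` on `HS R σ` (`hS`), so it is a scalar there (`schur`); `N₁ = N₁' + D` are both
nilpotent on `HS R σ ≠ ⊥`, so the scalar is zero. -/
theorem nil_unique (M : Mono R c Φ g ψ) (H : IsFrob R Φ) (hI : Idem Φ) (hS : Sum g R Φ σ s')
    {N N₁ N₁' : Matrix ι ι ℂ} (h1 : N₁ ∈ G1 g R Φ σ s') (h2 : N - N₁ ∈ G2 g R Φ σ s')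
    (h3 : ∃ k : ℕ, EqOn R σ (N₁ ^ k) 0) (h1' : N₁' ∈ G1 g R Φ σ s')
    (h2' : N - N₁' ∈ G2 g R Φ σ s') (h3' : ∃ k : ℕ, EqOn R σ (N₁' ^ k) 0) :
    EqOn R σ N₁ N₁' := by
  have hD1 : N₁ - N₁' ∈ G1 g R Φ σ s' := Submodule.sub_mem _ h1 h1'
  have hD2 : N₁ - N₁' ∈ G2 g R Φ σ s' := by
    have e1 : N₁ - N₁' = (N - N₁') - (N - N₁) := by abel
    rw [e1]
    exact Submodule.sub_mem _ h2' h2
  have hDg : N₁ - N₁' ∈ g := G1_le hD1
  have hcomm : ∀ x ∈ g, EqOn R σ ((N₁ - N₁') * x) (x * (N₁ - N₁')) := by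
    intro x hx
    obtain ⟨x1, hx1, x2, hx2, rfl⟩ := hS x hx
    rw [mul_add, add_mul]
    exact (hD2.2 x1 hx1).add (hx2.2 _ hD1).symm
  obtain ⟨z, hz⟩ := schur M H hI (CC.mem hDg) hcomm
  obtain ⟨k, hk⟩ := h3
  obtain ⟨k', hk'⟩ := h3'
  obtain ⟨v, hv, hv0⟩ := (Submodule.ne_bot_iff _).1 (HS_ne_bot H.inj σ)
  have hex : ∃ j, (N₁' ^ j).mulVec v = 0 := ⟨k', by
    rw [hk' v hv, Matrix.zero_mulVec]⟩
  classical
  obtain ⟨j, hj, hmin⟩ : ∃ j, (N₁' ^ j).mulVec v = 0 ∧ ∀ i < j, (N₁' ^ i).mulVec v ≠ 0 :=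
    ⟨Nat.find hex, Nat.find_spec hex, fun i hi => Nat.find_min hex hi⟩
  have hj0 : j ≠ 0 := by
    rintro rfl
    rw [pow_zero, Matrix.one_mulVec] at hj
    exact hv0 hj
  obtain ⟨i, rfl⟩ := Nat.exists_eq_succ_of_ne_zero hj0
  obtain ⟨w, hw⟩ : ∃ w, w = (N₁' ^ i).mulVec v := ⟨_, rfl⟩
  have hw0 : w ≠ 0 := by
    rw [hw]
    exact hmin i (Nat.lt_succ_self i)
  have hwH : w ∈ HS R σ := by
    rw [hw]
    exact ((CC.mem (G1_le h1')).pow i).hs M hv
  have hw1 : N₁'.mulVec w = 0 := by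
    rw [hw, Matrix.mulVec_mulVec, ← pow_succ']
    exact hj
  have hw2 : N₁.mulVec w = z • w := by
    have h4 := hz w hwH
    rw [Matrix.sub_mulVec, hw1, sub_zero, Matrix.smul_mulVec, Matrix.one_mulVec] at h4
    exact h4
  have hw3 : ∀ n : ℕ, (N₁ ^ n).mulVec w = z ^ n • w := by
    intro n
    induction n with
    | zero => rw [pow_zero, Matrix.one_mulVec, pow_zero, one_smul]
    | succ n ih =>
      rw [pow_succ, ← Matrix.mulVec_mulVec, hw2, Matrix.mulVec_smul, ih, smul_smul, pow_succ,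
        mul_comm]
  have hz0 : z = 0 := by
    have h4 := hk w hwH
    rw [hw3 k, Matrix.zero_mulVec] at h4
    rcases smul_eq_zero.1 h4 with h5 | h5
    · exact eq_zero_of_pow_eq_zero_Gen h5
    · exact absurd h5 hw0
  intro u hu
  have h4 := hz u hu
  rw [hz0, zero_smul, Matrix.zero_mulVec, Matrix.sub_mulVec] at h4
  exact sub_eq_zero.1 h4

private theorem blk_exp_mul_pr (M : Mono R c Φ g ψ) {P x y : Matrix ι ι ℂ} (hP : IsPr R σ P)
    (h : EqOn R σ x y) : x * P = y * P := by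
  apply (Matrix.toLin' (R := ℂ)).injective
  refine LinearMap.ext fun v => ?_
  rw [Matrix.toLin'_apply, Matrix.toLin'_apply, ← Matrix.mulVec_mulVec, ← Matrix.mulVec_mulVec]
  exact h _ (hP.range M v)

private theorem blk_exp_eqOn {P x y : Matrix ι ι ℂ} (hP : IsPr R σ P)
    (h : x * P = y * P) : EqOn R σ x y := fun v hv => by
  have h1 := congrArg (fun A : Matrix ι ι ℂ => A.mulVec v) h
  beta_reduce at h1
  rwa [← Matrix.mulVec_mulVec, ← Matrix.mulVec_mulVec, hP.fix v hv] at h1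

private theorem blk_exp_comm {X Z : Matrix ι ι ℂ} (h : X * Z = Z * X) :
    IsNilpotent.exp X * Z = Z * IsNilpotent.exp X := by
  unfold IsNilpotent.exp
  rw [Finset.sum_mul, Finset.mul_sum]
  refine Finset.sum_congr rfl fun i _ => ?_
  rw [smul_mul_assoc, mul_smul_comm, (Commute.pow_left (show Commute X Z from h) i).eq]

private theorem blk_exp_pow {P A : Matrix ι ι ℂ} (hPP : P * P = P) (hA : A * P = P * A) (k : ℕ) :
    (A * P) ^ k * P = A ^ k * P := by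
  induction k with
  | zero => rw [pow_zero, pow_zero]
  | succ k ih =>
    calc (A * P) ^ (k + 1) * P = (A * P) ^ k * (A * (P * P)) := by
          rw [pow_succ, mul_assoc, mul_assoc A P P]
      _ = (A * P) ^ k * P * A := by rw [hPP, hA, ← mul_assoc]
      _ = A ^ k * P * A := by rw [ih]
      _ = A ^ (k + 1) * P := by rw [mul_assoc, ← hA, ← mul_assoc, ← pow_succ]

private theorem blk_exp_sum {P A : Matrix ι ι ℂ} (hPP : P * P = P) (hA : A * P = P * A) {k : ℕ}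
    (hk : (A * P) ^ k = 0) : IsNilpotent.exp (A * P) * P =
      (∑ i ∈ Finset.range k, ((i.factorial : ℕ) : ℂ)⁻¹ • A ^ i) * P := by
  rw [IsNilpotent.exp_eq_sum hk, Finset.sum_mul, Finset.sum_mul]
  refine Finset.sum_congr rfl fun i _ => ?_
  rw [smul_mul_assoc, smul_mul_assoc, blk_exp_pow hPP hA,
    ← Rat.cast_smul_eq_qsmul ℂ ((i.factorial : ℕ) : ℚ)⁻¹ (A ^ i * P), Rat.cast_inv,
    Rat.cast_natCast]

/-- The block part of the exponential of a nilpotent element. PACKAGE. Let `P` be the projection on `HS R σ`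
(`exists_prc`), `N₁` from `exists_nil`, `N₂ = N - N₁`. `X = N₁ P`, `Y = N₂ P` commute, `N P = X + Y`, all three are nilpotent
(`N₂ = N - N₁` is nilpotent on `HS R σ` as a difference of commuting nilpotents). Take `a` with the matrix
`IsNilpotent.exp X` (a unit, `IsNilpotent.exp_add_of_commute` and `exp 0 = 1`); `det a = 1` by `det_unipotent`
(`exp X = 1 + X * (..)`, or `exp X` is unipotent). On `HS R σ`: `t = exp (N P) = exp X * exp Y`, `exp Y` commutes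
with `G1`, `exp X` commutes with `G2`. `nrm`: `t x t⁻¹ ∈ G1` by `Pool.Agent.FQ.conj_mem` (an ideal is stable under conjugation
by exponentials), `G1_ideal`. -/
theorem blk_exp (M : Mono R c Φ g ψ) (H : IsFrob R Φ) (hI : Idem Φ) (hS : Sum g R Φ σ s')
    {N : Matrix ι ι ℂ} (hN : N ∈ g) {t : (Matrix ι ι ℂ)ˣ} (ht : IsExp ℂ N (t : Matrix ι ι ℂ)) :
    ∃ a : (Matrix ι ι ℂ)ˣ, Blk g R Φ σ s' t a ∧ ∃ N₁ : Matrix ι ι ℂ, N₁ ∈ G1 g R Φ σ s' ∧
      N - N₁ ∈ G2 g R Φ σ s' ∧ (∃ k : ℕ, EqOn R σ (N₁ ^ k) 0) ∧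
      ∃ k : ℕ, EqOn R σ (N₁ ^ k) 0 ∧ EqOn R σ (a : Matrix ι ι ℂ)
        (∑ i ∈ Finset.range k, ((i.factorial : ℕ) : ℂ)⁻¹ • N₁ ^ i) := by
  obtain ⟨P, hP, hPc⟩ := exists_prc M σ
  obtain ⟨k0, hk0, hte⟩ := id ht
  obtain ⟨N₁, h1, h2, k1, hk1⟩ := exists_nil M H.inj hS hN ⟨k0, hk0⟩
  have hPP : P * P = P := hP.mul_self M
  have hN1 : N₁ ∈ g := G1_le h1
  have cN1 : N₁ * P = P * N₁ := hP.comm M (CC.mem hN1)
  have cN : N * P = P * N := hP.comm M (CC.mem hN)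
  have hX : (N₁ * P) ^ (k1 + 1) = 0 := by
    calc (N₁ * P) ^ (k1 + 1) = (N₁ * P) ^ k1 * P * N₁ := by rw [pow_succ, cN1, ← mul_assoc]
      _ = N₁ ^ k1 * P * N₁ := by rw [blk_exp_pow hPP cN1]
      _ = 0 := by rw [blk_exp_mul_pr M hP hk1, zero_mul, zero_mul]
  have hNP : (N * P) ^ k0 = 0 := by
    rw [Commute.mul_pow cN, hk0, zero_mul]
  have hXn : IsNilpotent (N₁ * P) := ⟨_, hX⟩
  have hNPn : IsNilpotent (N * P) := ⟨_, hNP⟩
  have hc0 : N * N₁ * P = N₁ * N * P := by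
    have h3 := blk_exp_mul_pr M hP (h2.2 N₁ h1)
    rw [sub_mul, mul_sub, sub_mul, sub_mul] at h3
    exact sub_left_injective h3
  have hcomm : Commute (N * P) (N₁ * P) := by
    calc N * P * (N₁ * P) = N * (P * N₁) * P := by noncomm_ring
      _ = N * N₁ * P * P := by rw [← cN1, ← mul_assoc]
      _ = N₁ * N * P * P := by rw [hc0]
      _ = N₁ * (P * N) * P := by rw [← cN, ← mul_assoc]
      _ = N₁ * P * (N * P) := by noncomm_ring
  obtain ⟨Y, hY⟩ : ∃ Y : Matrix ι ι ℂ, Y = N₁ * P - N * P := ⟨_, rfl⟩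
  have hYn : IsNilpotent Y := by
    rw [hY]
    exact Commute.isNilpotent_sub hcomm.symm hXn hNPn
  have hcY : Commute (N * P) Y := by
    rw [hY]
    exact hcomm.sub_right (Commute.refl _)
  have hexp : IsNilpotent.exp (N₁ * P) = IsNilpotent.exp (N * P) * IsNilpotent.exp Y := by
    rw [← IsNilpotent.exp_add_of_commute hcY hNPn hYn, hY, add_sub_cancel]
  have hYP : IsNilpotent.exp Y * P = P * IsNilpotent.exp Y := by
    refine blk_exp_comm ?_
    rw [hY, sub_mul, mul_sub, ← mul_assoc P, ← cN1, ← mul_assoc P, ← cN]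
  have hYx : ∀ x ∈ G1 g R Φ σ s', IsNilpotent.exp Y * x = x * IsNilpotent.exp Y := by
    intro x hx
    refine blk_exp_comm ?_
    have h3 := blk_exp_mul_pr M hP (h2.2 x hx)
    have cx : x * P = P * x := hP.comm M (CC.mem (G1_le hx))
    have e1 : Y = -((N - N₁) * P) := by
      rw [hY, sub_mul, neg_sub]
    rw [e1, neg_mul, mul_neg, mul_assoc, ← cx, ← mul_assoc, h3, mul_assoc]
  obtain ⟨a, ha⟩ := IsNilpotent.isUnit_exp hXn
  have htP : (t : Matrix ι ι ℂ) * P = IsNilpotent.exp (N * P) * P := by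
    rw [blk_exp_sum hPP cN hNP, hte]
  have haP : (a : Matrix ι ι ℂ) * P = (t : Matrix ι ι ℂ) * IsNilpotent.exp Y * P := by
    rw [ha, hexp, mul_assoc, hYP, ← mul_assoc, ← htP, mul_assoc, ← hYP, ← mul_assoc]
  have hu : t ∈ expG ℂ g := Subgroup.subset_closure ⟨N, hN, ht⟩
  refine ⟨a, ⟨?_, ?_, ?_, ?_, ?_, ?_⟩, N₁, h1, h2, ⟨k1, hk1⟩, k1 + 1, ?_, ?_⟩
  · intro Z hZ
    rw [ha]
    exact blk_exp_comm ((CC.mem hN1).mul hPc Z hZ)
  · intro σ' hσ' v hv
    have h3 : (N₁ * P).mulVec v = 0 := by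
      rw [← Matrix.mulVec_mulVec, hP.kill σ' hσ' v hv, Matrix.mulVec_zero]
    rw [ha, IsNilpotent.exp_eq_sum hX, Finset.sum_range_succ', Matrix.add_mulVec,
      Matrix.sum_mulVec, Finset.sum_eq_zero, zero_add]
    · rw [pow_zero, Nat.factorial_zero, Nat.cast_one, inv_one, one_smul, Matrix.one_mulVec]
    · intro i _
      rw [Matrix.smul_mulVec, pow_succ, ← Matrix.mulVec_mulVec, h3, Matrix.mulVec_zero, smul_zero]
  · intro x hx
    have h3 := blk_exp_mul_pr M hP (hx.2 N₁ h1)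
    have cx : x * P = P * x := hP.comm M (CC.mem (G2_le hx))
    have h4 : N₁ * P * x = x * (N₁ * P) := by
      rw [mul_assoc, ← cx, ← mul_assoc, ← h3, mul_assoc]
    rw [ha, blk_exp_comm h4]
    exact EqOn.refl
  · intro x hx
    refine ⟨Pool.Agent.FQ.conj_mem (fun y hy z hz => G1_ideal hy hz) hu hx, ?_⟩
    have h3 := Pool.Agent.FQ.conj_mem (fun y hy z hz => G1_ideal hy hz) (inv_mem hu) hx
    rwa [inv_inv] at h3
  · intro x hx
    refine blk_exp_eqOn hP ?_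
    have cx : x * P = P * x := hP.comm M (CC.mem (G1_le hx))
    have h3 : (a : Matrix ι ι ℂ) * x * P = (t : Matrix ι ι ℂ) * x * IsNilpotent.exp Y * P := by
      calc (a : Matrix ι ι ℂ) * x * P = (a : Matrix ι ι ℂ) * P * x := by
            rw [mul_assoc, cx, ← mul_assoc]
        _ = (t : Matrix ι ι ℂ) * IsNilpotent.exp Y * (P * x) := by rw [haP, mul_assoc]
        _ = (t : Matrix ι ι ℂ) * (IsNilpotent.exp Y * x) * P := by
            rw [← cx, ← mul_assoc, ← mul_assoc]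
        _ = _ := by rw [hYx x hx, ← mul_assoc]
    rw [h3, mul_assoc _ (a : Matrix ι ι ℂ) P, haP, ← mul_assoc, ← mul_assoc,
      Units.inv_mul_cancel_right]
  · rw [ha]
    have h3 := det_unipotent (IsNilpotent.isNilpotent_exp_sub_one hXn)
    rwa [add_sub_cancel] at h3
  · have h3 := hk1.mul_left N₁
    rwa [mul_zero, ← pow_succ'] at h3
  · rw [ha]
    exact blk_exp_eqOn hP (blk_exp_sum hPP cN1 hX)

/-- If `N` is fixed by `τ` then the block part of `exp N` is fixed by `τ`. PACKAGE. `N₁.map τ` has the properties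
of `N₁` (`G1_map`, `G2_map`, `EqOn.map`), so `N₁.map τ = N₁` on `HS R σ` (`nil_unique`), so the same for `a`. -/
theorem dl_exp (M : Mono R c Φ g ψ) (H : IsFrob R Φ) (hI : Idem Φ) (hS : Sum g R Φ σ s')
    {τ : ℂ ≃+* ℂ} (hτ : Stab σ s s' τ) (hg : Inv g τ) {N : Matrix ι ι ℂ} (hN : N ∈ g)
    (hNτ : N.map τ = N) {t : (Matrix ι ι ℂ)ˣ} (ht : IsExp ℂ N (t : Matrix ι ι ℂ)) :
    Dl g R Φ σ s' τ t 1 := by
  obtain ⟨a, hB, N₁, h1, h2, h3, k, _, hk2⟩ := blk_exp M H hI hS hN ht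
  obtain ⟨k', hk'⟩ := h3
  refine ⟨a, hB, ?_⟩
  have h1' : N₁.map τ ∈ G1 g R Φ σ s' := G1_map H hτ hg h1
  have e2 : (N - N₁).map τ = N - N₁.map τ := by
    rw [Matrix.map_sub τ (fun x y => map_sub τ x y), hNτ]
  have h2' : N - N₁.map τ ∈ G2 g R Φ σ s' := by
    rw [← e2]
    exact G2_map H hτ hg h2
  have hm : ∀ (A : Matrix ι ι ℂ) (n : ℕ), (A ^ n).map τ = (A.map τ) ^ n := by
    intro A n
    have := map_pow (RingHom.mapMatrix (m := ι) (τ : ℂ →+* ℂ)) A n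
    simpa only [RingHom.mapMatrix_apply, RingHom.coe_coe] using this
  have h3' : EqOn R σ ((N₁.map τ) ^ k') 0 := by
    have h4 := hk'.map τ
    rw [hτ.1, hm, Matrix.map_zero τ (map_zero τ)] at h4
    exact h4
  have h5 : EqOn R σ N₁ (N₁.map τ) :=
    nil_unique M H hI hS h1 h2 ⟨k', hk'⟩ h1' h2' ⟨k', h3'⟩
  have h6 : ∀ i : ℕ, EqOn R σ (N₁ ^ i) ((N₁.map τ) ^ i) := by
    intro i
    induction i with
    | zero =>
      rw [pow_zero, pow_zero]
      exact EqOn.refl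
    | succ i ih =>
      rw [pow_succ, pow_succ]
      exact (ih.mul_right fun v hv => (CC.mem (G1_le h1)).hs M hv).trans (h5.mul_left _)
  have h7 : EqOn R σ ((a : Matrix ι ι ℂ).map τ)
      (∑ i ∈ Finset.range k, ((i.factorial : ℕ) : ℂ)⁻¹ • (N₁.map τ) ^ i) := by
    have h8 := hk2.map τ
    rw [hτ.1] at h8
    have e3 : (∑ i ∈ Finset.range k, ((i.factorial : ℕ) : ℂ)⁻¹ • N₁ ^ i).map τ =
        ∑ i ∈ Finset.range k, ((i.factorial : ℕ) : ℂ)⁻¹ • (N₁.map τ) ^ i := by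
      have h9 := map_sum (RingHom.mapMatrix (m := ι) (τ : ℂ →+* ℂ))
        (fun i => ((i.factorial : ℕ) : ℂ)⁻¹ • N₁ ^ i) (Finset.range k)
      simp only [RingHom.mapMatrix_apply, RingHom.coe_coe] at h9
      rw [h9]
      refine Finset.sum_congr rfl fun i _ => ?_
      rw [← hm]
      ext x y
      simp only [Matrix.map_apply, Matrix.smul_apply, smul_eq_mul, map_mul, map_inv₀, map_natCast]
    rw [e3] at h8
    exact h8
  refine h7.trans ?_
  rw [one_smul]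
  refine EqOn.trans ?_ hk2.symm
  intro v hv
  rw [Matrix.sum_mulVec, Matrix.sum_mulVec]
  refine Finset.sum_congr rfl fun i _ => ?_
  exact ((h6 i).symm.smul _) v hv

/-- PACKAGE. `dl_exp`, `Dl.mul`, `Dl.inv`, `Dl.one`, `Subgroup.closure_induction`. -/
theorem dl_expG (M : Mono R c Φ g ψ) (H : IsFrob R Φ) (hI : Idem Φ) (hS : Sum g R Φ σ s')
    {τ : ℂ ≃+* ℂ} (hτ : Stab σ s s' τ) (hg : Inv g τ) {u : (Matrix ι ι ℂ)ˣ}
    (hu : u ∈ Subgroup.closure {u : (Matrix ι ι ℂ)ˣ | ∃ N ∈ g, N.map τ = N ∧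
      IsExp ℂ N (u : Matrix ι ι ℂ)}) : Dl g R Φ σ s' τ u 1 := by
  induction hu using Subgroup.closure_induction with
  | mem x hx =>
    obtain ⟨N, hN, hNτ, hx'⟩ := hx
    exact dl_exp M H hI hS hτ hg hN hNτ hx'
  | one => exact Dl.one
  | mul x y _ _ hx hy =>
    have h := Dl.mul M hg hx hy
    rwa [mul_one] at h
  | inv x _ hx =>
    have h := Dl.inv M H hg hx
    rwa [inv_one] at h

/-- Idempotents in `G2`. PACKAGE. `t = 1 + (z - 1) e` commutes with `G1` on `HS R σ`; `a = 1`. `nrm`: for `x ∈ G1` the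
element `t x t⁻¹` is in `G1`: it is the sum of `x` and a linear combination of iterated commutators of
`e ∈ g` with `x`: `t x t⁻¹ = x + (z - 1) (1 - e) ...`; precisely, with `x₁₀ = e x (1 - e)`, `x₀₁ = (1 - e) x e`:
`t x t⁻¹ = x + (z - 1) x₁₀ + (z⁻¹ - 1) x₀₁`, `x₁₀ + x₀₁ = [e, [e, x]]`, `x₁₀ - x₀₁ = [e, x]` are in `G1`. -/
theorem blk_co2 (M : Mono R c Φ g ψ) {e : Matrix ι ι ℂ} (he : e ∈ G2 g R Φ σ s') (hee : e * e = e)
    {z : ℂ} {t : (Matrix ι ι ℂ)ˣ} (ht : (t : Matrix ι ι ℂ) = 1 + (z - 1) • e) :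
    Blk g R Φ σ s' t 1 := by
  have heg : e ∈ g := G2_le he
  have hct : CC g (t : Matrix ι ι ℂ) := by
    rw [ht]
    exact CC.one.add ((CC.mem heg).smul _)
  -- the inverse
  obtain ⟨w, hzw, hti⟩ : ∃ w : ℂ, (e = 0 ∨ z * w = 1) ∧
      ((t⁻¹ : (Matrix ι ι ℂ)ˣ) : Matrix ι ι ℂ) = 1 + (w - 1) • e := by
    by_cases hz : z = 0
    · have h1 : (t : Matrix ι ι ℂ) * e = 0 := by
        rw [ht, hz, add_mul, one_mul, smul_mul_assoc, hee]
        module
      have h2 : e = 0 := by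
        calc e = ((t⁻¹ : (Matrix ι ι ℂ)ˣ) : Matrix ι ι ℂ) * ((t : Matrix ι ι ℂ) * e) := by
              rw [← mul_assoc, Units.inv_mul, one_mul]
          _ = 0 := by rw [h1, mul_zero]
      refine ⟨1, Or.inl h2, ?_⟩
      have h3 : t = 1 := by
        apply Units.ext
        rw [ht, h2, smul_zero, add_zero, Units.val_one]
      rw [h3, inv_one, Units.val_one, sub_self, zero_smul, add_zero]
    · refine ⟨z⁻¹, Or.inr (mul_inv_cancel₀ hz), ?_⟩
      have h1 : (t : Matrix ι ι ℂ) * (1 + (z⁻¹ - 1) • e) = 1 := by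
        rw [ht]
        have h2 : (1 + (z - 1) • e) * (1 + (z⁻¹ - 1) • e) =
            1 + (z - 1 + (z⁻¹ - 1) + (z - 1) * (z⁻¹ - 1)) • e := by
          simp only [add_mul, mul_add, one_mul, mul_one, smul_mul_assoc, mul_smul_comm,
            smul_smul, hee]
          module
        have h3 : z - 1 + (z⁻¹ - 1) + (z - 1) * (z⁻¹ - 1) = 0 := by
          have := mul_inv_cancel₀ hz
          linear_combination this
        rw [h2, h3, zero_smul, add_zero]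
      calc ((t⁻¹ : (Matrix ι ι ℂ)ˣ) : Matrix ι ι ℂ) =
            ((t⁻¹ : (Matrix ι ι ℂ)ˣ) : Matrix ι ι ℂ) *
              ((t : Matrix ι ι ℂ) * (1 + (z⁻¹ - 1) • e)) := by rw [h1, mul_one]
        _ = 1 + (z⁻¹ - 1) • e := by rw [← mul_assoc, Units.inv_mul, one_mul]
  have key : ∀ x ∈ G1 g R Φ σ s', ∀ a b : ℂ, (e = 0 ∨ a * b = 1) →
      (1 + (a - 1) • e) * x * (1 + (b - 1) • e) ∈ G1 g R Φ σ s' := by
    intro x hx a b hab
    rcases hab with h0 | hab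
    · rw [h0, smul_zero, smul_zero, add_zero, one_mul, mul_one]
      exact hx
    · rw [conj_idem_Gen hee hab]
      have h1 : e * x - x * e ∈ G1 g R Φ σ s' := G1_ideal heg hx
      exact Submodule.add_mem _ (Submodule.add_mem _ hx (Submodule.smul_mem _ _ h1))
        (Submodule.smul_mem _ _ (G1_ideal heg h1))
  refine ⟨by rw [Units.val_one]; exact CC.one, fun σ' _ v _ => ?_, fun x _ => ?_,
    fun x hx => ⟨?_, ?_⟩, fun x hx => ?_, by rw [Units.val_one, Matrix.det_one]⟩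
  · rw [Units.val_one, Matrix.one_mulVec]
  · rw [Units.val_one, one_mul, mul_one]
    exact EqOn.refl
  · rw [ht, hti]
    exact key x hx z w hzw
  · rw [ht, hti]
    refine key x hx w z ?_
    rcases hzw with h | h
    · exact Or.inl h
    · exact Or.inr (by rw [mul_comm]; exact h)
  · have h1 : EqOn R σ ((t : Matrix ι ι ℂ) * x) (x * (t : Matrix ι ι ℂ)) := by
      rw [ht, add_mul, mul_add, one_mul, mul_one, smul_mul_assoc, mul_smul_comm]
      exact EqOn.refl.add ((he.2 x hx).smul _)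
    have h2 : EqOn R σ ((t : Matrix ι ι ℂ) * x * ((t⁻¹ : (Matrix ι ι ℂ)ˣ) : Matrix ι ι ℂ))
        (x * (t : Matrix ι ι ℂ) * ((t⁻¹ : (Matrix ι ι ℂ)ˣ) : Matrix ι ι ℂ)) :=
      h1.mul_right fun v hv => hct.inv.hs M hv
    rw [mul_assoc x, Units.mul_inv, mul_one] at h2
    rw [Units.val_one, one_mul, mul_one]
    exact h2.symm

private theorem blk_co1_id {e x : Matrix ι ι ℂ} (hee : e * e = e) {z w : ℂ} (hzw : z * w = 1) :
    (1 + (z - 1) • e) * x * (1 + (w - 1) • e) = x + ((z - 1) / 2) •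
      ((e * (e * x - x * e) - (e * x - x * e) * e) + (e * x - x * e)) + ((w - 1) / 2) •
      ((e * (e * x - x * e) - (e * x - x * e) * e) - (e * x - x * e)) := by
  have h1 : e * (e * x - x * e) - (e * x - x * e) * e = e * x + x * e - (2 : ℂ) • (e * x * e) := by
    rw [mul_sub, sub_mul, ← mul_assoc, hee, mul_assoc x e e, hee, two_smul, ← mul_assoc]
    abel
  have h2 : e * x + x * e - (2 : ℂ) • (e * x * e) + (e * x - x * e) =
      (2 : ℂ) • (e * x) - (2 : ℂ) • (e * x * e) := by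
    rw [two_smul, two_smul]
    abel
  have h3 : e * x + x * e - (2 : ℂ) • (e * x * e) - (e * x - x * e) =
      (2 : ℂ) • (x * e) - (2 : ℂ) • (e * x * e) := by
    rw [two_smul, two_smul]
    abel
  rw [h1, h2, h3]
  have h4 : (1 + (z - 1) • e) * x * (1 + (w - 1) • e) = x + (z - 1) • (e * x) +
      (w - 1) • (x * e) + ((z - 1) * (w - 1)) • (e * x * e) := by
    rw [add_mul, one_mul, mul_add, mul_one, add_mul, smul_mul_assoc, smul_mul_assoc,
      mul_smul_comm, mul_smul_comm, smul_smul]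
    abel
  have h5 : (z - 1) * (w - 1) = -(z - 1) - (w - 1) := by linear_combination hzw
  rw [h4, h5]
  module

private theorem blk_co1_inv {e : Matrix ι ι ℂ} (hee : e * e = e) {z : ℂ} {t : (Matrix ι ι ℂ)ˣ}
    (ht : (t : Matrix ι ι ℂ) = 1 + (z - 1) • e) (hz : z ≠ 0) :
    ((t⁻¹ : (Matrix ι ι ℂ)ˣ) : Matrix ι ι ℂ) = 1 + (z⁻¹ - 1) • e := by
  have h1 : (t : Matrix ι ι ℂ) * (1 + (z⁻¹ - 1) • e) = 1 := by
    rw [ht, add_mul, one_mul, mul_add, mul_one, smul_mul_assoc, mul_smul_comm, hee, smul_smul]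
    have h2 : (z - 1) * (z⁻¹ - 1) = -(z - 1) - (z⁻¹ - 1) := by
      have h3 : z * z⁻¹ = 1 := mul_inv_cancel₀ hz
      linear_combination h3
    rw [h2]
    module
  calc ((t⁻¹ : (Matrix ι ι ℂ)ˣ) : Matrix ι ι ℂ) =
        ((t⁻¹ : (Matrix ι ι ℂ)ˣ) : Matrix ι ι ℂ) * ((t : Matrix ι ι ℂ) * (1 + (z⁻¹ - 1) • e)) := by
        rw [h1, mul_one]
    _ = _ := by rw [← mul_assoc, Units.inv_mul, one_mul]

private theorem blk_co1_nrm {e : Matrix ι ι ℂ} (he : e ∈ g) (hee : e * e = e) {z : ℂ}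
    {t : (Matrix ι ι ℂ)ˣ} (ht : (t : Matrix ι ι ℂ) = 1 + (z - 1) • e) {x : Matrix ι ι ℂ}
    (hx : x ∈ G1 g R Φ σ s') :
    (t : Matrix ι ι ℂ) * x * ((t⁻¹ : (Matrix ι ι ℂ)ˣ) : Matrix ι ι ℂ) ∈ G1 g R Φ σ s' ∧
      ((t⁻¹ : (Matrix ι ι ℂ)ˣ) : Matrix ι ι ℂ) * x * (t : Matrix ι ι ℂ) ∈ G1 g R Φ σ s' := by
  by_cases hz : z = 0
  · have h0 : e = 0 := by
      have h1 : (t : Matrix ι ι ℂ) * e = 0 := by
        rw [ht, hz, add_mul, one_mul, smul_mul_assoc, hee, zero_sub, neg_one_smul, add_neg_cancel]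
      calc e = ((t⁻¹ : (Matrix ι ι ℂ)ˣ) : Matrix ι ι ℂ) * ((t : Matrix ι ι ℂ) * e) := by
            rw [← mul_assoc, Units.inv_mul, one_mul]
        _ = 0 := by rw [h1, mul_zero]
    have h2 : t = 1 := Units.ext (by rw [ht, h0, smul_zero, add_zero, Units.val_one])
    rw [h2, inv_one, Units.val_one, one_mul, mul_one]
    exact ⟨hx, hx⟩
  · have hC : e * x - x * e ∈ G1 g R Φ σ s' := G1_ideal he hx
    have hD := G1_ideal he hC
    rw [blk_co1_inv hee ht hz, ht]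
    refine ⟨?_, ?_⟩
    · rw [blk_co1_id hee (mul_inv_cancel₀ hz)]
      exact Submodule.add_mem _ (Submodule.add_mem _ hx (Submodule.smul_mem _ _
        (Submodule.add_mem _ hD hC))) (Submodule.smul_mem _ _ (Submodule.sub_mem _ hD hC))
    · rw [blk_co1_id hee (inv_mul_cancel₀ hz)]
      exact Submodule.add_mem _ (Submodule.add_mem _ hx (Submodule.smul_mem _ _
        (Submodule.add_mem _ hD hC))) (Submodule.smul_mem _ _ (Submodule.sub_mem _ hD hC))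

/-- Idempotents in `G1`. PACKAGE. `ρ` from `det_gl`; `a` is `κ • t` on `HS R σ` and trivial on the other
eigenspaces (`exists_gl`): `a = (1 + (κ - 1) P) (1 + (z - 1) e P)`; its determinant is `κ ^ dm R σ * z ^ ρ` (`det_gl` for
`1` and for `e`, multiplicativity). `t` commutes with `G2` on `HS R σ`. -/
theorem blk_co1 (M : Mono R c Φ g ψ) (hR : Function.Injective R) {e : Matrix ι ι ℂ}
    (he : e ∈ G1 g R Φ σ s') (hee : e * e = e) :
    ∃ ρ : ℕ, ρ ≤ dm R σ ∧ (ρ = 0 → EqOn R σ e 0) ∧ (ρ = dm R σ → EqOn R σ e 1) ∧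
      ∀ (z κ : ℂ) (t : (Matrix ι ι ℂ)ˣ), (t : Matrix ι ι ℂ) = 1 + (z - 1) • e →
        κ ^ dm R σ * z ^ ρ = 1 → ∃ a : (Matrix ι ι ℂ)ˣ, Blk g R Φ σ s' t a ∧
          EqOn R σ (a : Matrix ι ι ℂ) (κ • (t : Matrix ι ι ℂ)) := by
  have heg : e ∈ g := G1_le he
  have heC : CC g e := CC.mem heg
  obtain ⟨ρ, h1, h2, h3, h4⟩ := det_gl M σ heC hee
  refine ⟨ρ, h1, h2, h3, fun z κ t ht hκ => ?_⟩
  have htC : CC g (t : Matrix ι ι ℂ) := by
    rw [ht]
    exact CC.one.add (heC.smul _)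
  obtain ⟨b1, hb1, hb1C⟩ := exists_gl M σ (CC.smul κ (CC.one (g := g)))
  obtain ⟨b2, hb2, hb2C⟩ := exists_gl M σ htC
  have hd : (b1 * b2).det = 1 := by
    rw [Matrix.det_mul, det_scalar M σ κ hb1, h4 z b2 (by rw [← ht]; exact hb2), hκ]
  have hu : IsUnit (b1 * b2).det := by
    rw [hd]
    exact isUnit_one
  have hv : ((Matrix.nonsingInvUnit (b1 * b2) hu : (Matrix ι ι ℂ)ˣ) : Matrix ι ι ℂ) = b1 * b2 :=
    rfl
  have heq : EqOn R σ (b1 * b2) (κ • (t : Matrix ι ι ℂ)) := fun v hv' => by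
    rw [← Matrix.mulVec_mulVec, hb2.eq v hv', hb1.eq _ (htC.hs M hv'), Matrix.smul_mulVec,
      Matrix.one_mulVec, Matrix.smul_mulVec]
  refine ⟨Matrix.nonsingInvUnit (b1 * b2) hu, ⟨?_, ?_, ?_, ?_, ?_, ?_⟩, ?_⟩
  · rw [hv]
    exact hb1C.mul hb2C
  · intro σ' hσ' v hv'
    rw [hv, ← Matrix.mulVec_mulVec, hb2.out σ' hσ' v hv', hb1.out σ' hσ' v hv']
  · intro x hx v hv'
    have hxv := (CC.mem (G2_le hx)).hs M hv'
    have h5 := hx.2 e he v hv'
    rw [← Matrix.mulVec_mulVec, ← Matrix.mulVec_mulVec] at h5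
    rw [hv, ← Matrix.mulVec_mulVec, heq _ hxv, ← Matrix.mulVec_mulVec, heq _ hv', ht,
      Matrix.smul_mulVec, Matrix.smul_mulVec, Matrix.mulVec_smul, Matrix.add_mulVec,
      Matrix.add_mulVec, Matrix.one_mulVec, Matrix.one_mulVec, Matrix.smul_mulVec,
      Matrix.smul_mulVec, Matrix.mulVec_add, Matrix.mulVec_smul, h5]
  · intro x hx
    exact blk_co1_nrm heg hee ht hx
  · intro x hx v hv'
    have hxv := (CC.mem (G1_le hx)).hs M hv'
    rw [hv, ← Matrix.mulVec_mulVec, heq _ hxv, ← Matrix.mulVec_mulVec, heq _ hv',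
      Matrix.smul_mulVec, Matrix.smul_mulVec, Matrix.mulVec_smul, Matrix.mulVec_mulVec,
      Matrix.mulVec_mulVec, mul_assoc, mul_assoc, Units.inv_mul, mul_one]
  · rw [hv, hd]
  · rw [hv]
    exact heq

private theorem cc_aeval_dgc {A : Matrix ι ι ℂ} (hA : CC g A) (Q : Polynomial ℂ) :
    CC g (Polynomial.aeval A Q) := by
  induction Q using Polynomial.induction_on' with
  | add p q hp hq =>
    rw [map_add]
    exact hp.add hq
  | monomial n z =>
    rw [Polynomial.aeval_monomial, ← Algebra.smul_def]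
    exact (hA.pow n).smul z

/-- The matrix of `ξ` (see the proof of `exists_dg` in `Dg.lean`). PACKAGE. Let `P` be the projection on `HS R σ`; on `HS R σ` the matrix `ratM Φ` is
diagonalisable with eigenvalues in the finite set `Om R Φ σ`; take the interpolation polynomial `q` with
`q ω = ξ ω` for `ω ∈ Om R Φ σ` and `a = q(Φ) P + 1 - P` (`CC.frob`). It is invertible if `ξ ω ≠ 0`. -/
theorem exists_dgc (M : Mono R c Φ g ψ) (H : IsFrob R Φ) (σ : E →+* ℂ) (ξ : ℂ → ℂ) :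
    ∃ a : Matrix ι ι ℂ, IsDg R Φ σ ξ a ∧ CC g a := by
  obtain ⟨P, hP, hPc⟩ := exists_pr R σ
  obtain ⟨Q, hQ⟩ := exists_poly Φ fun ω => ξ ω - 1
  refine ⟨1 + Polynomial.aeval (ratM Φ) Q * P, ⟨fun ω v hv h => ?_, fun σ' h v hv => ?_⟩, ?_⟩
  · rw [Matrix.add_mulVec, Matrix.one_mulVec, ← Matrix.mulVec_mulVec, hP.fix v hv, hQ ω v h,
      sub_smul, one_smul]
    abel
  · rw [Matrix.add_mulVec, Matrix.one_mulVec, ← Matrix.mulVec_mulVec, hP.kill σ' h v hv,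
      Matrix.mulVec_zero, add_zero]
  · refine CC.one.add ((cc_aeval_dgc (CC.frob M H) Q).mul fun Z hZ => ?_)
    exact (hPc Z fun r => M.center Z hZ r).symm

/-- PACKAGE. `H.diag` ; see the proof of `ext_hs` in `Dg.lean`: on `HS R σ` the eigenvectors of `Φ` span (`HS R σ` is stable under `Φ`, which is
diagonalisable). -/
theorem eqOn_of_eig (M : Mono R c Φ g ψ) (H : IsFrob R Φ) {a b : Matrix ι ι ℂ}
    (h : ∀ (ω : ℂ) (w : ι → ℂ), w ∈ HS R σ → (ratM Φ).mulVec w = ω • w →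
      a.mulVec w = b.mulVec w) : EqOn R σ a b := by
  intro v hv
  have h4 := Submodule.eq_iSup_inf_genEigenspace (p := HS R σ) (f := Matrix.toLin' (ratM Φ)) 1
    (fun w hw => by
      rw [Matrix.toLin'_apply]
      exact HS_comm (frob_comm H) hw) H.diag
  rw [h4] at hv
  have h5 : (⨆ μ, HS R σ ⊓ Module.End.genEigenspace (Matrix.toLin' (ratM Φ)) μ 1) ≤
      LinearMap.eqLocus (Matrix.toLin' a) (Matrix.toLin' b) := by
    refine iSup_le fun μ w hw => ?_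
    have h6 : (ratM Φ).mulVec w = μ • w := by
      have h7 := Module.End.mem_eigenspace_iff.1 hw.2
      rwa [Matrix.toLin'_apply] at h7
    rw [LinearMap.mem_eqLocus, Matrix.toLin'_apply, Matrix.toLin'_apply]
    exact h μ w hw.1 h6
  have h6 := h5 hv
  rwa [LinearMap.mem_eqLocus, Matrix.toLin'_apply, Matrix.toLin'_apply] at h6

/-- The block part of the Frobenius element. PACKAGE. `a` is a unit (determinant one: `h.nrm`). `c2`: `dg_comm_G2`
for `f = ξ` (`h.out`). `c1`: let `b = a⁻¹ Φ`; it acts on the eigenspaces by `ω / ξ ω`, which is invariant under the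
reflections in `s` (`h.inn`), so `b` commutes with `G1` on `HS R σ` (`dg_comm_G1`): `a b x = a x b`, `Φ x Φ⁻¹ a = a x`.
`nrm`: `Φ x Φ⁻¹ ∈ G1` for `x ∈ G1` by `hn`. -/
theorem blk_frob (M : Mono R c Φ g ψ) (H : IsFrob R Φ) (hI : Idem Φ) (hD : Dcm R Φ σ s s')
    (hA : Act g R Φ σ s s') {ξ : ℂ → ℂ} (h : IsXn R Φ σ s s' ξ) {t : (Matrix ι ι ℂ)ˣ}
    (ht : (t : Matrix ι ι ℂ) = ratM Φ)
    (hn : ∀ x ∈ G1 g R Φ σ s', (t : Matrix ι ι ℂ) * x * ((t⁻¹ : (Matrix ι ι ℂ)ˣ) : Matrix ι ι ℂ) ∈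
      G1 g R Φ σ s' ∧ ((t⁻¹ : (Matrix ι ι ℂ)ˣ) : Matrix ι ι ℂ) * x * (t : Matrix ι ι ℂ) ∈
      G1 g R Φ σ s') :
    ∃ a : (Matrix ι ι ℂ)ˣ, Blk g R Φ σ s' t a ∧ IsDg R Φ σ ξ a := by
  obtain ⟨a₀, hdg, hcc⟩ := exists_dgc M H σ ξ
  have hdet : a₀.det = 1 := h.nrm a₀ hdg
  obtain ⟨a, ha⟩ : IsUnit a₀ := by
    rw [Matrix.isUnit_iff_isUnit_det, hdet]
    exact isUnit_one
  subst ha
  refine ⟨a, ⟨hcc, hdg.out, fun x hx => ?_, hn, fun x hx => ?_, hdet⟩, hdg⟩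
  · exact dg_comm_G2 M H hI hD hA hcc hdg.eig h.out hx
  · have hct : CC g (t : Matrix ι ι ℂ) := by
      rw [ht]
      exact CC.frob M H
    have hb : CC g (((a⁻¹ : (Matrix ι ι ℂ)ˣ) : Matrix ι ι ℂ) * (t : Matrix ι ι ℂ)) :=
      (CC.inv hcc).mul hct
    have hf : ∀ (ω : ℂ) (w : ι → ℂ), w ∈ HS R σ → (ratM Φ).mulVec w = ω • w →
        (((a⁻¹ : (Matrix ι ι ℂ)ˣ) : Matrix ι ι ℂ) * (t : Matrix ι ι ℂ)).mulVec w =
          (ω / ξ ω) • w := by
      intro ω w hw h1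
      by_cases h0 : w = 0
      · rw [h0, Matrix.mulVec_zero, smul_zero]
      have hξ : ξ ω ≠ 0 := h.ne ω ⟨w, hw, h0, h1⟩
      have h2 : ((a⁻¹ : (Matrix ι ι ℂ)ˣ) : Matrix ι ι ℂ).mulVec w = (ξ ω)⁻¹ • w := by
        have h3 : ((a⁻¹ : (Matrix ι ι ℂ)ˣ) : Matrix ι ι ℂ).mulVec
            ((a : Matrix ι ι ℂ).mulVec w) = w := by
          rw [Matrix.mulVec_mulVec, Units.inv_mul, Matrix.one_mulVec]
        rw [hdg.eig ω w hw h1, Matrix.mulVec_smul] at h3
        exact (eq_inv_smul_iff₀ hξ).2 h3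
      rw [← Matrix.mulVec_mulVec, ht, h1, Matrix.mulVec_smul, h2, smul_smul, div_eq_mul_inv]
    have h4 := dg_comm_G1 M H hI hD hA hb hf (fun F π hF hπ ω => by
      rw [div_eq_div_iff (h.ne _ ω.2) (h.ne _ (π ω).2)]
      have h5 := h.inn F π hF hπ ω
      rw [mul_comm (ω : ℂ), ← h5, mul_comm]) hx
    have hs : ∀ w ∈ HS R σ, (((t⁻¹ : (Matrix ι ι ℂ)ˣ) : Matrix ι ι ℂ) *
        (a : Matrix ι ι ℂ)).mulVec w ∈ HS R σ := fun w hw =>
      ((CC.inv hct).mul hcc).hs M hw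
    have h6 := (h4.mul_left (a : Matrix ι ι ℂ)).mul_right hs
    have e1 : (a : Matrix ι ι ℂ) * (((a⁻¹ : (Matrix ι ι ℂ)ˣ) : Matrix ι ι ℂ) *
        (t : Matrix ι ι ℂ) * x) * (((t⁻¹ : (Matrix ι ι ℂ)ˣ) : Matrix ι ι ℂ) *
        (a : Matrix ι ι ℂ)) =
        (t : Matrix ι ι ℂ) * x * ((t⁻¹ : (Matrix ι ι ℂ)ˣ) : Matrix ι ι ℂ) * a := by
      simp only [← mul_assoc, Units.mul_inv, one_mul]
    have e2 : (a : Matrix ι ι ℂ) * (x * (((a⁻¹ : (Matrix ι ι ℂ)ˣ) : Matrix ι ι ℂ) *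
        (t : Matrix ι ι ℂ))) * (((t⁻¹ : (Matrix ι ι ℂ)ˣ) : Matrix ι ι ℂ) *
        (a : Matrix ι ι ℂ)) = (a : Matrix ι ι ℂ) * x := by
      simp only [mul_assoc, Units.mul_inv_cancel_left, Units.inv_mul, mul_one]
    rw [e1, e2] at h6
    exact h6.symm

/-- PACKAGE. `blk_frob` for the `ξ` of `Eps`; on the eigenvectors of `Φ` in `HS R σ` for `ω`: with
`w = fun i => τ (w' i)`, `a.map τ w = τ (ξ (τ.symm ω)) w = ζ ξ ω w` (`conj_mem_HS`, `conj_eig`, `eqOn_of_eig`). -/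
theorem dl_frob (M : Mono R c Φ g ψ) (H : IsFrob R Φ) (hI : Idem Φ) (hD : Dcm R Φ σ s s')
    (hA : Act g R Φ σ s s') {τ : ℂ ≃+* ℂ} (hτ : Stab σ s s' τ) {ζ : ℂ}
    (h : Eps R Φ σ s s' τ ζ) {t : (Matrix ι ι ℂ)ˣ} (ht : (t : Matrix ι ι ℂ) = ratM Φ)
    (hn : ∀ x ∈ G1 g R Φ σ s', (t : Matrix ι ι ℂ) * x * ((t⁻¹ : (Matrix ι ι ℂ)ˣ) : Matrix ι ι ℂ) ∈
      G1 g R Φ σ s' ∧ ((t⁻¹ : (Matrix ι ι ℂ)ˣ) : Matrix ι ι ℂ) * x * (t : Matrix ι ι ℂ) ∈
      G1 g R Φ σ s') : Dl g R Φ σ s' τ t ζ := by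
  obtain ⟨ξ, hξ, hτξ⟩ := h
  obtain ⟨a, ha, hdg⟩ := blk_frob M H hI hD hA hξ ht hn
  refine ⟨a, ha, eqOn_of_eig M H fun ω w hw h1 => ?_⟩
  by_cases h0 : w = 0
  · rw [h0, Matrix.mulVec_zero, Matrix.mulVec_zero]
  have h2 := IsDg.map τ hdg
  rw [hτ.1] at h2
  have hω : ω ∈ Om R Φ σ := ⟨w, hw, h0, h1⟩
  have hω' : τ.symm ω ∈ Om R Φ σ := by
    refine symm_mem_Om (γ := τ) ?_
    rw [hτ.1]
    exact hω
  rw [h2.eig ω w hw h1, hτξ _ hω', Matrix.smul_mulVec, hdg.eig ω w hw h1, smul_smul]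
  rw [RingEquiv.apply_symm_apply]

end Pool.Agent.FQX
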