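import Pool.Agent.FQX.AtG

/-!
# The Kummer cocharacter

`f` gives the eigenvalues of a point `x` of the Frobenius torus with `x ^ m = Φ`, and `γ` an automorphism
with `γ(f ω) = ζ₀ ^ κ(γ ω) f(γ ω)`: `κ` is the Kummer cocharacter of `γ`. If `κ` is the sum of a function
`κ₁` which is invariant under the reflections in `s'` and a function which is invariant under those in
`s`, then `eps` is given by the trace of `κ₁` (`kap_det`).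
-/

set_option autoImplicit false
set_option linter.unusedSectionVars false

namespace Pool.Agent.FQX

open Module
open Pool.Agent.CoprimeSig (ratM)
open Pool.Agent.PrimePow.CC (Rf Rt Lat)
open Pool.Agent.FQV

variable {ι : Type} [Fintype ι] [DecidableEq ι] {E : Type} [CommRing E] [Algebra ℚ E]
  [Module.Finite ℚ E] [IsReduced E] {R : E →+* Matrix ι ι ℚ} {Φ : Matrix ι ι ℚ} {σ : E →+* ℂ}
  {s s' : Set (ℂ → ℚ)} {ξ ξ' : ℂ → ℂ} {γ : ℂ ≃+* ℂ} {ζ₀ : ℂ} {m : ℕ} {c : E → E}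
  {g : Submodule ℂ (Matrix ι ι ℂ)} {ψ e : Matrix ι ι ℂ} {f : ℂ → ℂ} {κ κ₁ : ℂ → ℤ}

/-- `f` gives the eigenvalues of a point of the Frobenius torus whose `m`-th power is `Φ`. -/
structure Pt (Φ : Matrix ι ι ℚ) (m : ℕ) (f : ℂ → ℂ) : Prop where
  pow : ∀ μ, Module.End.HasEigenvalue (Matrix.toLin' (ratM Φ)) μ → f μ ^ m = μ
  rel : ∀ (t : Finset ℂ) (n : ℂ → ℤ),
    (∀ μ ∈ t, Module.End.HasEigenvalue (Matrix.toLin' (ratM Φ)) μ) →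
    ∏ μ ∈ t, μ ^ n μ = 1 → ∏ μ ∈ t, f μ ^ n μ = 1

/-- `Y` is the value at `X` of the homomorphism given by `f` on the group generated by the
eigenvalues. -/
def Vf (Φ : Matrix ι ι ℚ) (f : ℂ → ℂ) (X Y : ℂ) : Prop :=
  ∃ n : ℂ →₀ ℤ, (∀ μ ∈ n.support, Module.End.HasEigenvalue (Matrix.toLin' (ratM Φ)) μ) ∧
    X = n.prod (fun μ k => μ ^ k) ∧ Y = n.prod (fun μ k => f μ ^ k)

omit [Algebra ℚ E] [Module.Finite ℚ E] [IsReduced E] in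
theorem eigv_ne (H : IsFrob R Φ) {μ : ℂ}
    (hμ : Module.End.HasEigenvalue (Matrix.toLin' (ratM Φ)) μ) : μ ≠ 0 := by
  obtain ⟨r, hr, h1⟩ := H.abs
  intro h0
  have h2 := h1 μ hμ
  rw [h0, norm_zero] at h2
  exact hr.ne h2

theorem Pt.ne (hf : Pt Φ m f) (hm0 : m ≠ 0) {μ : ℂ} (h0 : μ ≠ 0)
    (hμ : Module.End.HasEigenvalue (Matrix.toLin' (ratM Φ)) μ) : f μ ≠ 0 := by
  intro h1
  have h2 := hf.pow μ hμ
  rw [h1, zero_pow hm0] at h2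
  exact h0 h2.symm

section Vf

variable (H : IsFrob R Φ) (hf : Pt Φ m f) (hm0 : m ≠ 0)

theorem Vf.one : Vf Φ f 1 1 :=
  ⟨0, fun μ hμ => by simp at hμ, by rw [Finsupp.prod_zero_index], by rw [Finsupp.prod_zero_index]⟩

theorem Vf.base {μ : ℂ} (hμ : Module.End.HasEigenvalue (Matrix.toLin' (ratM Φ)) μ) :
    Vf Φ f μ (f μ) := by
  classical
  refine ⟨Finsupp.single μ 1, fun ν hν => ?_, ?_, ?_⟩
  · have h1 := Finsupp.support_single_subset hν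
    rw [Finset.mem_singleton] at h1
    rw [h1]
    exact hμ
  · rw [Finsupp.prod_single_index (zpow_zero _), zpow_one]
  · rw [Finsupp.prod_single_index (zpow_zero _), zpow_one]

include H hf hm0

theorem Vf.mul {X Y X' Y' : ℂ} (h : Vf Φ f X Y) (h' : Vf Φ f X' Y') :
    Vf Φ f (X * X') (Y * Y') := by
  classical
  obtain ⟨n, hn, rfl, rfl⟩ := h
  obtain ⟨n', hn', rfl, rfl⟩ := h'
  have h1 : ∀ μ ∈ n.support ∪ n'.support,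
      Module.End.HasEigenvalue (Matrix.toLin' (ratM Φ)) μ := by
    intro μ hμ
    rcases Finset.mem_union.1 hμ with h | h
    · exact hn μ h
    · exact hn' μ h
  refine ⟨n + n', fun μ hμ => h1 μ (Finsupp.support_add hμ), ?_, ?_⟩
  · rw [Finsupp.prod_add_index (fun μ _ => zpow_zero _) fun μ hμ a b =>
      zpow_add₀ (eigv_ne H (h1 μ hμ)) a b]
  · rw [Finsupp.prod_add_index (fun μ _ => zpow_zero _) fun μ hμ a b =>
      zpow_add₀ (hf.ne hm0 (eigv_ne H (h1 μ hμ)) (h1 μ hμ)) a b]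

omit H hf hm0 in
theorem Vf.inv {X Y : ℂ} (h : Vf Φ f X Y) : Vf Φ f X⁻¹ Y⁻¹ := by
  classical
  obtain ⟨n, hn, rfl, rfl⟩ := h
  refine ⟨-n, fun μ hμ => hn μ (by rwa [Finsupp.support_neg] at hμ), ?_, ?_⟩
  · rw [Finsupp.prod_neg_index (fun μ => zpow_zero _), Finsupp.prod, Finsupp.prod,
      ← Finset.prod_inv_distrib]
    exact Finset.prod_congr rfl fun μ _ => (zpow_neg _ _).symm
  · rw [Finsupp.prod_neg_index (fun μ => zpow_zero _), Finsupp.prod, Finsupp.prod,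
      ← Finset.prod_inv_distrib]
    exact Finset.prod_congr rfl fun μ _ => (zpow_neg _ _).symm

theorem Vf.ne {X Y : ℂ} (h : Vf Φ f X Y) : X ≠ 0 ∧ Y ≠ 0 := by
  obtain ⟨n, hn, rfl, rfl⟩ := h
  refine ⟨Finset.prod_ne_zero_iff.2 fun μ hμ => zpow_ne_zero _ (eigv_ne H (hn μ hμ)),
    Finset.prod_ne_zero_iff.2 fun μ hμ => zpow_ne_zero _
      (hf.ne hm0 (eigv_ne H (hn μ hμ)) (hn μ hμ))⟩

theorem Vf.unique {X Y Y' : ℂ} (h : Vf Φ f X Y) (h' : Vf Φ f X Y') : Y = Y' := by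
  have h0 := h.ne H hf hm0
  have h0' := h'.ne H hf hm0
  have h1 := h.mul H hf hm0 h'.inv
  rw [mul_inv_cancel₀ h0.1] at h1
  obtain ⟨n, hn, h2, h3⟩ := h1
  have h4 : Y * Y'⁻¹ = 1 := by
    rw [h3]
    exact hf.rel n.support n hn h2.symm
  field_simp [h0'.2] at h4
  exact h4

theorem Vf.pow {X Y : ℂ} (h : Vf Φ f X Y) : Y ^ m = X := by
  obtain ⟨n, hn, rfl, rfl⟩ := h
  rw [Finsupp.prod, Finsupp.prod, ← Finset.prod_pow]
  refine Finset.prod_congr rfl fun μ hμ => ?_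
  rw [← zpow_natCast, ← zpow_mul, mul_comm, zpow_mul, zpow_natCast, hf.pow μ (hn μ hμ)]

end Vf

private theorem rf_equiv_kap {Ω Ω' : Type*} [Fintype Ω] [Fintype Ω'] {L : AddSubgroup (Ω → ℚ)}
    {L' : AddSubgroup (Ω' → ℚ)} (ε : Ω ≃ Ω') (hL : ∀ f, f ∈ L' ↔ f ∘ ε ∈ L) {h : Ω' → ℚ}
    {π : Equiv.Perm Ω'} (H : Rf L' h π) : Rf L (h ∘ ε) ((ε.trans π).trans ε.symm) where
  mem := (hL h).1 H.mem
  ne := fun h0 => H.ne (funext fun ω => by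
    have h1 := congrFun h0 (ε.symm ω)
    simpa using h1)
  val := fun ω => H.val (ε ω)
  refl := fun f hf => by
    have h1 : f ∘ ε.symm ∈ L' := by
      rw [hL]
      have h2 : (f ∘ ε.symm) ∘ ε = f := by
        funext ω
        simp
      rwa [h2]
    obtain ⟨a, ha⟩ := H.refl _ h1
    refine ⟨a, fun ω => ?_⟩
    have h3 := ha (ε ω)
    simpa using h3
  neg := fun ω => by
    have h1 := H.neg (ε ω)
    simpa using h1

/-- Transport of the reflections. -/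
theorem rf_mv (H : IsFrob R Φ) (γ : ℂ ≃+* ℂ) {σ' : E →+* ℂ} (hσ : cp γ σ = σ') {F : ℂ → ℚ}
    {π : Equiv.Perm (Om R Φ σ)} (K : Rf (Ls R Φ σ) (rs R Φ σ F) π) :
    ∃ π' : Equiv.Perm (Om R Φ σ'), Rf (Ls R Φ σ') (rs R Φ σ' (mv γ F)) π' ∧
      ∀ (ω : Om R Φ σ) (ω' : Om R Φ σ'), (ω' : ℂ) = γ ω → (π' ω' : ℂ) = γ (π ω) := by
  subst hσ
  have hLs : ∀ f, f ∈ Ls R Φ σ ↔ f ∘ (omE R Φ γ σ).symm ∈ Ls R Φ (cp γ σ) := by
    intro f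
    rw [mem_Ls_cp H.diag γ]
    have h2 : (f ∘ (omE R Φ γ σ).symm) ∘ (omE R Φ γ σ) = f := by
      funext ω
      simp
    rw [h2]
  have h2 := rf_equiv_kap (omE R Φ γ σ).symm hLs K
  have h3 : rs R Φ σ F ∘ (omE R Φ γ σ).symm = rs R Φ (cp γ σ) (mv γ F) := by
    rw [← rs_mv (R := R) (Φ := Φ) (σ := σ) (γ := γ) (F := F)]
    funext ω
    simp
  rw [h3] at h2
  refine ⟨_, h2, fun ω ω' hω => ?_⟩
  have h4 : ω' = omE R Φ γ σ ω := Subtype.ext (by rw [hω, omE_apply])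
  rw [h4]
  simp [omE_apply]

section Main

variable (H : IsFrob R Φ) (hf : Pt Φ m f) (hm0 : m ≠ 0) (hζ₀ : IsPrimitiveRoot ζ₀ m)
  (hD : Dcm R Φ σ s s') (hγ : Stab σ s s' γ)
  (hκ : ∀ ω ∈ Om R Φ σ, γ (f ω) = ζ₀ ^ κ (γ ω) * f (γ ω))
  (h1 : ∀ (F : ℂ → ℚ) (π : Equiv.Perm (Om R Φ σ)), F ∈ s → Rf (Ls R Φ σ) (rs R Φ σ F) π →
    ∀ ω : Om R Φ σ, κ₁ (π ω) - κ₁ ω = κ (π ω) - κ ω)
  (h2 : ∀ (F : ℂ → ℚ) (π : Equiv.Perm (Om R Φ σ)), F ∈ s' → Rf (Ls R Φ σ) (rs R Φ σ F) π →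
    ∀ ω : Om R Φ σ, κ₁ (π ω) = κ₁ ω)
include H hf hm0 hζ₀ hD hγ hκ h1 h2

/-- The quotients of the values of `ξ` are in the group generated by the eigenvalues. -/
theorem exists_vf (hξ : IsXi R Φ σ s s' ξ) {ω : ℂ} (hω : ω ∈ Om R Φ σ) :
    ∀ ω' ∈ Om R Φ σ, ∃ X Y Y' : ℂ, Vf Φ f X Y ∧ Vf Φ f (γ X) Y' ∧ ξ ω' = ξ ω * X ∧
      γ Y = ζ₀ ^ (κ₁ (γ ω') - κ₁ (γ ω)) * Y' := by
  have hζ0 : ζ₀ ≠ 0 := hζ₀.ne_zero hm0
  have key : {ω' : Om R Φ σ | ∃ X Y Y' : ℂ, Vf Φ f X Y ∧ Vf Φ f (γ X) Y' ∧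
      ξ ω' = ξ ω * X ∧ γ Y = ζ₀ ^ (κ₁ (γ ω') - κ₁ (γ ω)) * Y'} = Set.univ := by
    refine hD.tr _ ⟨⟨ω, hω⟩, 1, 1, 1, Vf.one, ?_, ?_, ?_⟩ fun F π hF K ω' hω' => ?_
    · rw [map_one]
      exact Vf.one
    · rw [mul_one]
    · rw [map_one, sub_self, zpow_zero, one_mul]
    obtain ⟨X, Y, Y', a1, a2, a3, a4⟩ := hω'
    obtain ⟨π', K', hπ'⟩ := rf_mv H γ hγ.1 K
    have hγω : γ ω' ∈ Om R Φ σ := hγ.om ω'.2
    have hπω := hπ' ω' ⟨_, hγω⟩ rfl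
    rcases hF with hF | hF
    · have e1 := hasEigenvalue_of_mem ω'.2
      have e2 := hasEigenvalue_of_mem (π ω').2
      have e3 := hasEigenvalue_of_mem (hγ.om (π ω').2)
      have e4 := hasEigenvalue_of_mem hγω
      have hne := eigv_ne H e1
      refine ⟨X * ((π ω' : ℂ) * (ω' : ℂ)⁻¹), Y * (f (π ω') * (f ω')⁻¹),
        Y' * (f (γ (π ω')) * (f (γ ω'))⁻¹),
        a1.mul H hf hm0 ((Vf.base e2).mul H hf hm0 (Vf.base e1).inv), ?_, ?_, ?_⟩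
      · rw [map_mul, map_mul, map_inv₀]
        exact a2.mul H hf hm0 ((Vf.base e3).mul H hf hm0 (Vf.base e4).inv)
      · have b1 := hξ.inn F π hF K ω'
        rw [a3] at b1
        apply mul_right_cancel₀ hne
        rw [← b1]
        field_simp
      · have hF' : mv γ F ∈ s := by
          rw [← hγ.2.1]
          exact ⟨F, hF, rfl⟩
        have b2 := h1 (mv γ F) π' hF' K' ⟨_, hγω⟩
        rw [hπω] at b2
        have b3 : κ₁ (γ (π ω')) - κ₁ (γ ω) =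
            (κ₁ (γ ω') - κ₁ (γ ω)) + κ (γ (π ω')) - κ (γ ω') := by
          change κ₁ (γ (π ω')) - κ₁ (γ ω') = κ (γ (π ω')) - κ (γ ω') at b2
          omega
        have b4 : ζ₀ ^ (κ₁ (γ (π ω')) - κ₁ (γ ω)) =
            ζ₀ ^ (κ₁ (γ ω') - κ₁ (γ ω)) * ζ₀ ^ κ (γ (π ω')) * (ζ₀ ^ κ (γ ω'))⁻¹ := by
          rw [b3, zpow_sub₀ hζ0, zpow_add₀ hζ0, div_eq_mul_inv]
        rw [map_mul, map_mul, map_inv₀, a4, hκ _ (π ω').2, hκ _ ω'.2, b4, mul_inv]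
        ring
    · refine ⟨X, Y, Y', a1, a2, ?_, ?_⟩
      · rw [← hξ.out F π hF K ω', a3]
      · have hF' : mv γ F ∈ s' := by
          rw [← hγ.2.2]
          exact ⟨F, hF, rfl⟩
        have b2 := h2 (mv γ F) π' hF' K' ⟨_, hγω⟩
        rw [hπω] at b2
        change κ₁ (γ (π ω')) = κ₁ (γ ω') at b2
        rw [b2, a4]
  intro ω' hω'
  have h3 : (⟨ω', hω'⟩ : Om R Φ σ) ∈ {ω' : Om R Φ σ | ∃ X Y Y' : ℂ, Vf Φ f X Y ∧
      Vf Φ f (γ X) Y' ∧ ξ ω' = ξ ω * X ∧ γ Y = ζ₀ ^ (κ₁ (γ ω') - κ₁ (γ ω)) * Y'} := by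
    rw [key]
    exact Set.mem_univ _
  exact h3

/-- **The value of `eps`** in terms of a determinant. -/
theorem kap_det (hV : ⨆ σ : E →+* ℂ, HS R σ = ⊤) (hF : Free Φ) (hL : Lat (Ls R Φ σ))
    (hmu : ∀ x : ℂ, x ^ m = 1 → γ x = x) (hm : dm R σ ∣ m) {ω₁ : ℂ} (hω₁ : ω₁ ∈ Om R Φ σ) :
    ∃ (ζ : ℂ) (q : ℕ) (D : Matrix ι ι ℂ), Eps R Φ σ s s' γ ζ ∧ m = dm R σ * q ∧
      IsDg R Φ σ (fun z => ζ₀ ^ (κ₁ z - κ₁ ω₁)) D ∧ ζ * D.det ^ q = 1 := by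
  classical
  have hζ0 : ζ₀ ≠ 0 := hζ₀.ne_zero hm0
  obtain ⟨ζ, hε, hζm⟩ := exists_eps H hV hF hL hD hγ
  obtain ⟨ξ, hξ, hξγ⟩ := id hε
  -- the base point
  obtain ⟨ω₀, hω₀, rfl⟩ : ∃ ω₀ ∈ Om R Φ σ, γ ω₀ = ω₁ := by
    refine ⟨γ.symm ω₁, ?_, γ.apply_symm_apply ω₁⟩
    have h3 := mem_Om_cp γ.symm hω₁
    have h4 : cp γ.symm σ = σ := by
      conv_lhs => rw [← hγ.1]
      ext a
      simp [cp_apply]
    rwa [h4] at h3
  have key := exists_vf H hf hm0 hζ₀ hD hγ hκ h1 h2 hξ.toIsXi hω₀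
  have key' : ∀ ω ∈ Om R Φ σ, ∃ y : ℂ, Vf Φ f (ξ ω * (ξ ω₀)⁻¹) y ∧ ∃ Y' : ℂ,
      Vf Φ f (γ (ξ ω * (ξ ω₀)⁻¹)) Y' ∧ γ y = ζ₀ ^ (κ₁ (γ ω) - κ₁ (γ ω₀)) * Y' := by
    intro ω hω
    obtain ⟨X, Y, Y', a1, a2, a3, a4⟩ := key ω hω
    have h4 : ξ ω * (ξ ω₀)⁻¹ = X := by
      rw [a3]
      field_simp [hξ.ne ω₀ hω₀]
    rw [h4]
    exact ⟨Y, a1, Y', a2, a4⟩
  choose! b hb using key'
  have hbne : ∀ ω ∈ Om R Φ σ, b ω ≠ 0 := fun ω hω => ((hb ω hω).1.ne H hf hm0).2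
  -- the action on `b`
  have hbγ : ∀ ω ∈ Om R Φ σ, γ (b ω) = ζ₀ ^ (κ₁ (γ ω) - κ₁ (γ ω₀)) *
      (b (γ ω) * (b (γ ω₀))⁻¹) := by
    intro ω hω
    obtain ⟨-, Y', a1, a2⟩ := hb ω hω
    rw [a2]
    congr 1
    refine a1.unique H hf hm0 ?_
    have h3 := (hb (γ ω) (hγ.om hω)).1.mul H hf hm0 (hb (γ ω₀) (hγ.om hω₀)).1.inv
    have h4 : γ (ξ ω * (ξ ω₀)⁻¹) = ξ (γ ω) * (ξ ω₀)⁻¹ * (ξ (γ ω₀) * (ξ ω₀)⁻¹)⁻¹ := by
      have h5 : ζ ≠ 0 := by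
        intro h0
        have h6 := hξγ ω₀ hω₀
        rw [h0, zero_mul] at h6
        exact hξ.ne ω₀ hω₀ ((map_eq_zero γ).1 h6)
      rw [map_mul, map_inv₀, hξγ ω hω, hξγ ω₀ hω₀]
      have h6 := hξ.ne ω₀ hω₀
      have h7 := hξ.ne _ (hγ.om hω₀)
      field_simp
    rw [h4]
    exact h3
  obtain ⟨P, hP, -⟩ := exists_pr R σ
  obtain ⟨B, hB⟩ := exists_dg R Φ σ b
  obtain ⟨D, hD'⟩ := exists_dg R Φ σ fun z => ζ₀ ^ (κ₁ z - κ₁ (γ ω₀))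
  obtain ⟨q, hq⟩ := hm
  refine ⟨ζ, q, D, hε, hq, hD', ?_⟩
  -- powers
  have hpow : ∀ k : ℕ, IsDg R Φ σ (fun z => b z ^ k) (B ^ k) := by
    intro k
    induction k with
    | zero =>
      refine ⟨fun ω v _ _ => ?_, fun σ' _ v _ => ?_⟩
      · rw [pow_zero, pow_zero, Matrix.one_mulVec, one_smul]
      · rw [pow_zero, Matrix.one_mulVec]
    | succ k ih =>
      refine ⟨fun ω v hv h => ?_, fun σ' h v hv => ?_⟩
      · rw [pow_succ, ← Matrix.mulVec_mulVec, hB.eig ω v hv h, Matrix.mulVec_smul,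
          ih.eig ω v hv h, smul_smul, pow_succ, mul_comm (b ω)]
      · rw [pow_succ, ← Matrix.mulVec_mulVec, hB.out σ' h v hv, ih.out σ' h v hv]
  have c1 : IsDg R Φ σ ξ (B ^ m * (1 + (ξ ω₀ - 1) • P)) :=
    (hpow m).smul hP (ξ ω₀) fun ω hω => by
      rw [(hb ω hω).1.pow H hf hm0]
      field_simp [hξ.ne ω₀ hω₀]
  have c2 : B.det ^ m * ξ ω₀ ^ dm R σ = 1 := by
    have h3 := hξ.nrm _ c1
    rwa [Matrix.det_mul, Matrix.det_pow, det_pr hV hP] at h3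
  -- conjugation
  have c3 : IsDg R Φ σ (fun z => γ (b (γ.symm z))) (B.map γ) := by
    have h4 := hB.map γ
    rwa [hγ.1] at h4
  have hDB : IsDg R Φ σ (fun z => b z * ζ₀ ^ (κ₁ z - κ₁ (γ ω₀))) (B * D) := by
    refine ⟨fun ω v hv h => ?_, fun σ' h v hv => ?_⟩
    · rw [← Matrix.mulVec_mulVec, hD'.eig ω v hv h, Matrix.mulVec_smul, hB.eig ω v hv h, smul_smul,
        mul_comm]
    · rw [← Matrix.mulVec_mulVec, hD'.out σ' h v hv, hB.out σ' h v hv]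
  have c4 : IsDg R Φ σ (fun z => γ (b (γ.symm z))) (B * D * (1 + ((b (γ ω₀))⁻¹ - 1) • P)) := by
    refine hDB.smul hP _ fun ω hω => ?_
    obtain ⟨ω', hω', rfl⟩ : ∃ ω' ∈ Om R Φ σ, γ ω' = ω := by
      refine ⟨γ.symm ω, ?_, γ.apply_symm_apply ω⟩
      have h3 := mem_Om_cp γ.symm hω
      have h4 : cp γ.symm σ = σ := by
        conv_lhs => rw [← hγ.1]
        ext a
        simp [cp_apply]
      rwa [h4] at h3
    rw [RingEquiv.symm_apply_apply, hbγ ω' hω']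
    ring
  have hb0 := hbne _ (hγ.om hω₀)
  have c5 : γ B.det = B.det * D.det * (b (γ ω₀))⁻¹ ^ dm R σ := by
    have h6 := congrArg Matrix.det (dg_unique H hV c3 c4)
    rw [Matrix.det_mul, Matrix.det_mul, det_pr hV hP] at h6
    rw [← h6]
    exact RingEquiv.map_det γ B
  have c6 : γ (ξ ω₀) = ζ * (ξ ω₀ * b (γ ω₀) ^ m) := by
    rw [hξγ ω₀ hω₀, (hb _ (hγ.om hω₀)).1.pow H hf hm0]
    field_simp [hξ.ne ω₀ hω₀]
  -- the product is a root of unity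
  have c7 : (ξ ω₀ * B.det ^ q) ^ m = 1 := by
    have h8 : (ξ ω₀ * B.det ^ q) ^ dm R σ = 1 := by
      rw [mul_pow, ← pow_mul, mul_comm q, ← hq, mul_comm]
      exact c2
    rw [hq, pow_mul, h8, one_pow]
  have c8 := hmu _ c7
  rw [map_mul, map_pow, c5, c6, mul_pow, mul_pow] at c8
  have c9 : ξ ω₀ * B.det ^ q ≠ 0 := by
    intro h0
    rw [h0, zero_pow hm0] at c7
    exact zero_ne_one c7
  have c10 : ((b (γ ω₀))⁻¹ ^ dm R σ) ^ q = (b (γ ω₀) ^ m)⁻¹ := by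
    rw [← pow_mul, ← hq, inv_pow]
  rw [c10] at c8
  have c11 : (ζ * D.det ^ q) * (ξ ω₀ * B.det ^ q) = 1 * (ξ ω₀ * B.det ^ q) := by
    rw [one_mul]
    calc (ζ * D.det ^ q) * (ξ ω₀ * B.det ^ q) =
        ζ * (ξ ω₀ * b (γ ω₀) ^ m) * (B.det ^ q * D.det ^ q * (b (γ ω₀) ^ m)⁻¹) := by
          field_simp
      _ = _ := c8
  exact mul_right_cancel₀ c9 c11

end Main

end Pool.Agent.FQX
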