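import Pool.Agent.FQX.Kap

/-!
# Coroots and the Kummer cocharacter

`Coroot g Φ h`: `h` is a coroot of `g` with respect to `tor Φ` (or zero); `QL g Φ`: the coroot lattice.
`Kap g Φ m ζ γ e`: the Kummer cocharacter of `γ` is the sum of `e` and of an element of the coroot
lattice. The values of `eps` for such automorphisms: `kap_one`, `kap_e`.
-/

set_option autoImplicit false
set_option linter.unusedSectionVars false

namespace Pool.Agent.FQX

open Module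
open Pool.Agent.CoprimeSig (ratM Opp IsRoot opp_sq_zero)
open Pool.Agent.PrimePow.CC (Rf Rt Lat)
open Pool.Agent.NumRank (cf cf_eq_zero)
open Pool.Agent.FQA (Rf_move AR TD)
open Pool.Agent.FQV

section Opp

variable {K V : Type*} [Field K] [CharZero K] [IsAlgClosed K] [AddCommGroup V] [Module K V]
  [FiniteDimensional K V] {g t : Submodule K (End K V)}

/-- Root vectors which generate a Lie algebra `sl₂`. -/
theorem opp_of (T : TD g t) {α : End K V → K} {x y : End K V} (hx : IsRoot g t α x)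
    (hy : IsRoot g t (fun τ => -α τ) y) (hx0 : x ≠ 0)
    (h2 : (x * y - y * x) * x - x * (x * y - y * x) = (2 : K) • x) : Opp g t α x y := by
  have hm : x * y - y * x ∈ t := by
    refine T.cent _ (T.lie x hx.mem y hy.mem) fun τ hτ => ?_
    have h3 := hx.root τ hτ
    have h4 := hy.root τ hτ
    have e1 : (x * y - y * x) * τ - τ * (x * y - y * x) =
        -((τ * x - x * τ) * y - y * (τ * x - x * τ)) -
          (x * (τ * y - y * τ) - (τ * y - y * τ) * x) := by noncomm_ring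
    rw [h3, h4, smul_mul_assoc, mul_smul_comm, smul_mul_assoc, mul_smul_comm, neg_smul,
      neg_smul, ← smul_sub] at e1
    rw [← sub_eq_zero, e1]
    module
  have hα : α (x * y - y * x) = 2 := by
    have h3 := hx.root _ hm
    rw [h2] at h3
    exact (smul_left_injective K hx0 h3).symm
  obtain ⟨ε, hε, hεε, hαε⟩ := T.exists_idem hx hx0 ⟨_, hm, by rw [hα]; exact two_ne_zero⟩
  have hxx : x * x = 0 := opp_sq_zero hεε (hx.root ε hε) hαε
  have hyy : y * y = 0 := opp_sq_zero hεε (hy.root ε hε) (neg_ne_zero.2 hαε)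
  have hxyx : x * y * x = x := by
    have e1 : (x * y - y * x) * x - x * (x * y - y * x) = (2 : K) • (x * y * x) := by
      have e2 : (x * y - y * x) * x - x * (x * y - y * x) =
          x * y * x + x * y * x - y * (x * x) - (x * x) * y := by noncomm_ring
      rw [e2, hxx, mul_zero, zero_mul, sub_zero, sub_zero, two_smul]
    rw [e1] at h2
    exact smul_right_injective _ (two_ne_zero : (2 : K) ≠ 0) h2
  have hyxy : y * x * y = y := by
    have h3 := hy.root _ hm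
    beta_reduce at h3
    rw [hα] at h3
    have e1 : (x * y - y * x) * y - y * (x * y - y * x) = (-2 : K) • (y * x * y) := by
      have e2 : (x * y - y * x) * y - y * (x * y - y * x) =
          x * (y * y) + (y * y) * x - (y * x * y + y * x * y) := by noncomm_ring
      rw [e2, hyy, mul_zero, zero_mul, zero_add, neg_smul, two_smul, zero_sub]
    rw [e1] at h3
    exact smul_right_injective _ (neg_ne_zero.2 (two_ne_zero : (2 : K) ≠ 0)) h3
  exact ⟨hx, hy, hxx, hyy, hxyx, hyxy, hm⟩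

end Opp

variable {ι : Type} [Fintype ι] [DecidableEq ι] {E : Type} [CommRing E] [Algebra ℚ E]
  [Module.Finite ℚ E] [IsReduced E] {R : E →+* Matrix ι ι ℚ} {Φ : Matrix ι ι ℚ} {σ : E →+* ℂ}
  {s s' : Set (ℂ → ℚ)} {ξ ξ' : ℂ → ℂ} {γ : ℂ ≃+* ℂ} {ζ₀ : ℂ} {m : ℕ} {c : E → E}
  {g : Submodule ℂ (Matrix ι ι ℂ)} {ψ e : Matrix ι ι ℂ} {f : ℂ → ℂ} {κ κ₁ : ℂ → ℤ}

/-- `h` is a coroot of `g` with respect to the torus `tor Φ`, or zero. -/
def Coroot (g : Submodule ℂ (Matrix ι ι ℂ)) (Φ : Matrix ι ι ℚ) (h : Matrix ι ι ℂ) : Prop :=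
  ∃ x ∈ g, ∃ y ∈ g, (∃ α : Matrix ι ι ℂ → ℂ, ∀ τ ∈ tor Φ,
    τ * x - x * τ = α τ • x ∧ τ * y - y * τ = -(α τ) • y) ∧
    h = x * y - y * x ∧ h * x - x * h = (2 : ℂ) • x

/-- The coroot lattice. -/
def QL (g : Submodule ℂ (Matrix ι ι ℂ)) (Φ : Matrix ι ι ℚ) : AddSubgroup (Matrix ι ι ℂ) :=
  AddSubgroup.closure {h | Coroot g Φ h}

/-- The Kummer cocharacter of `γ` is `e` up to the coroot lattice. -/
def Kap (g : Submodule ℂ (Matrix ι ι ℂ)) (Φ : Matrix ι ι ℚ) (m : ℕ) (ζ : ℂ) (γ : ℂ ≃+* ℂ)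
    (e : Matrix ι ι ℂ) : Prop :=
  ∃ f : ℂ → ℂ, Pt Φ m f ∧ ∃ q ∈ QL g Φ, ∀ (w : ℂ) (v : ι → ℂ) (k : ℤ), v ≠ 0 →
    (ratM Φ).mulVec v = γ w • v → (q + e).mulVec v = (k : ℂ) • v → γ (f w) = ζ ^ k * f (γ w)

omit [Algebra ℚ E] [Module.Finite ℚ E] [IsReduced E] in
theorem Coroot.mem (M : Mono R c Φ g ψ) {h : Matrix ι ι ℂ} (hh : Coroot g Φ h) : h ∈ tor Φ := by
  obtain ⟨x, hx, y, hy, ⟨α, hα⟩, rfl, -⟩ := hh
  refine M.cent _ (M.lie x hx y hy) fun τ hτ => ?_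
  obtain ⟨h3, h4⟩ := hα τ hτ
  have e1 : (x * y - y * x) * τ - τ * (x * y - y * x) =
      -((τ * x - x * τ) * y - y * (τ * x - x * τ)) -
        (x * (τ * y - y * τ) - (τ * y - y * τ) * x) := by noncomm_ring
  rw [h3, h4, smul_mul_assoc, mul_smul_comm, smul_mul_assoc, mul_smul_comm, neg_smul,
    neg_smul, ← smul_sub] at e1
  rw [← sub_eq_zero, e1]
  module

/-- The integer part of the data: `q` acts on `HS R σ` by `κ₁ + κ₂`, `κ₁` is invariant under `s'` and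
`κ₂` under `s`; the determinant of `z ^ κ₁` is one. -/
def Spt (R : E →+* Matrix ι ι ℚ) (Φ : Matrix ι ι ℚ) (σ : E →+* ℂ) (s s' : Set (ℂ → ℚ))
    (q : Matrix ι ι ℂ) (κ₁ κ₂ : ℂ → ℤ) : Prop :=
  (∀ (ω : ℂ) (v : ι → ℂ), v ∈ HS R σ → (ratM Φ).mulVec v = ω • v →
      q.mulVec v = ((κ₁ ω + κ₂ ω : ℤ) : ℂ) • v) ∧
    (∀ (F : ℂ → ℚ) (π : Equiv.Perm (Om R Φ σ)), F ∈ s' → Rf (Ls R Φ σ) (rs R Φ σ F) π →
      ∀ ω : Om R Φ σ, κ₁ (π ω) = κ₁ ω) ∧
    (∀ (F : ℂ → ℚ) (π : Equiv.Perm (Om R Φ σ)), F ∈ s → Rf (Ls R Φ σ) (rs R Φ σ F) π →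
      ∀ ω : Om R Φ σ, κ₂ (π ω) = κ₂ ω) ∧
    ∀ (z : ℂ) (D : Matrix ι ι ℂ), z ≠ 0 → IsDg R Φ σ (fun ω => z ^ κ₁ ω) D → D.det = 1

/-- The integer with the same value. -/
private noncomputable def ki (F : ℂ → ℚ) (ω : ℂ) : ℤ := if F ω = 1 then 1 else if F ω = -1 then -1 else 0

private theorem ki_cast {F : ℂ → ℚ} {ω : ℂ} (h : F ω = -1 ∨ F ω = 0 ∨ F ω = 1) :
    (ki F ω : ℚ) = F ω := by
  unfold ki
  rcases h with h | h | h
  · rw [h]
    norm_num
  · rw [h]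
    norm_num
  · rw [h]
    norm_num

/-- A reflection orthogonal to the function does not change its values. -/
private theorem ki_move {F F' : ℂ → ℚ} (hF : Rts R Φ σ F) {π : Equiv.Perm (Om R Φ σ)}
    (K : Rf (Ls R Φ σ) (rs R Φ σ F') π) (h0 : rs R Φ σ F ⬝ᵥ rs R Φ σ F' = 0) (ω : Om R Φ σ) :
    ki F (π ω) = ki F ω := by
  obtain ⟨π', K'⟩ := hF.rt
  have h1 := Rf_move K _ K'.mem ω
  have h2 : cf (rs R Φ σ F) (rs R Φ σ F') = 0 := by
    rw [cf_eq_zero K.dot_self_pos.ne', dotProduct_comm]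
    exact h0
  rw [h2, zero_mul, sub_zero, rs_apply, rs_apply] at h1
  unfold ki
  rw [h1]

private theorem det_pair {x y P : Matrix ι ι ℂ} (hP : x * P = P * x)
    (hE : (y * x * P) * (y * x * P) = y * x * P) {z : ℂ} (hz : z ≠ 0) :
    ((1 + (z - 1) • (x * y * P)) * (1 + (z⁻¹ - 1) • (y * x * P))).det = 1 := by
  have h1 : (1 + (z - 1) • (x * y * P)).det = (1 + (z - 1) • (y * x * P)).det := by
    have e1 : (z - 1) • (x * y * P) = ((z - 1) • x) * (y * P) := by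
      rw [smul_mul_assoc, mul_assoc]
    have e2 : (z - 1) • (y * x * P) = (y * P) * ((z - 1) • x) := by
      rw [mul_smul_comm, mul_assoc y P x, ← hP, mul_assoc]
    rw [e1, e2, Matrix.det_one_add_mul_comm]
  rw [Matrix.det_mul, h1, ← Matrix.det_mul]
  have h2 : (1 + (z - 1) • (y * x * P)) * (1 + (z⁻¹ - 1) • (y * x * P)) = 1 := by
    rw [add_mul, mul_add, one_mul, one_mul, mul_add, mul_one, smul_mul_smul_comm, hE, add_assoc,
      ← add_smul, ← add_smul]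
    have h3 : z⁻¹ - 1 + (z - 1 + (z - 1) * (z⁻¹ - 1)) = 0 := by
      field_simp
      ring
    rw [h3, zero_smul, add_zero]
  rw [h2, Matrix.det_one]

/-- Coroots. -/
theorem Coroot.spt (M : Mono R c Φ g ψ) (H : IsFrob R Φ) (hI : Idem Φ) (hD : Dcm R Φ σ s s')
    (hA : Act g R Φ σ s s') {h : Matrix ι ι ℂ} (hh : Coroot g Φ h) :
    ∃ κ₁ κ₂, Spt R Φ σ s s' h κ₁ κ₂ := by
  have hht := hh.mem M
  have hV := iSup_HS M
  obtain ⟨x, hx, y, hy, ⟨α, hα⟩, he, h2⟩ := hh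
  obtain ⟨W, p, v, Fr⟩ := exists_frame M H hI σ
  have hnt := Fr.nontrivial
  have T := td M H hI Fr.irr Fr.prj
  have cx : CC g x := CC.mem hx
  have cy : CC g y := CC.mem hy
  have hrm : ∀ {a b : Matrix ι ι ℂ}, CC g a → CC g b → rm p (a * b) = rm p a * rm p b :=
    fun ha hb => CC.rm_mul Fr ha hb
  by_cases hx0 : rm p x = 0
  · have h3 : EqOn R σ x 0 := by
      refine CC.eqOn M Fr cx (fun Z _ => by rw [zero_mul, mul_zero]) ?_
      rw [hx0]
      unfold rm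
      rw [map_zero, map_zero]
    refine ⟨fun _ => 0, fun _ => 0, fun ω w hw _ => ?_, fun F π _ _ ω => rfl,
      fun F π _ _ ω => rfl, fun z D _ hD' => ?_⟩
    · rw [he, Matrix.sub_mulVec, ← Matrix.mulVec_mulVec, ← Matrix.mulVec_mulVec,
        h3 _ (cy.hs M hw), h3 w hw, Matrix.zero_mulVec, Matrix.zero_mulVec, Matrix.mulVec_zero,
        sub_zero, add_zero, Int.cast_zero, zero_smul]
    · have h4 : D = 1 := dg_unique H hV hD' ⟨fun ω v _ _ => by
        rw [zpow_zero, one_smul, Matrix.one_mulVec], fun σ' _ v _ => by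
        rw [Matrix.one_mulVec]⟩
      rw [h4, Matrix.det_one]
  -- the root vectors on `W`
  classical
  have hα' : ∀ τ' : End ℂ W, ∃ a : ℂ, τ' ∈ res p (tor Φ) →
      τ' * rm p x - rm p x * τ' = a • rm p x ∧ τ' * rm p y - rm p y * τ' = -a • rm p y := by
    intro τ'
    by_cases hτ' : τ' ∈ res p (tor Φ)
    · obtain ⟨τ, hτ, rfl⟩ := mem_res.1 hτ'
      have cτ : CC g τ := CC.mem (M.le hτ)
      obtain ⟨a1, a2⟩ := hα τ hτ
      refine ⟨α τ, fun _ => ⟨?_, ?_⟩⟩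
      · rw [← hrm cτ cx, ← hrm cx cτ, ← rm_sub, a1, rm_smul]
      · rw [← hrm cτ cy, ← hrm cy cτ, ← rm_sub, a2, rm_smul]
    · exact ⟨0, fun h => absurd h hτ'⟩
  choose α' hα' using hα'
  have Q : Opp (res p g) (res p (tor Φ)) α' (rm p x) (rm p y) := by
    refine opp_of T ⟨rm_mem hx, fun τ hτ => (hα' τ hτ).1⟩ ⟨rm_mem hy, fun τ hτ => (hα' τ hτ).2⟩
      hx0 ?_
    have ch : CC g h := CC.mem (M.le hht)
    rw [← hrm cx cy, ← hrm cy cx, ← rm_sub, ← he, ← hrm ch cx, ← hrm cx ch, ← rm_sub, h2, rm_smul]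
  -- the identities on `HS R σ`
  have hxyx : EqOn R σ (x * y * x) x := CC.eqOn M Fr ((cx.mul cy).mul cx) cx (by
    rw [hrm (cx.mul cy) cx, hrm cx cy, Q.xyx])
  have hxx : EqOn R σ (x * x) 0 := CC.eqOn M Fr (cx.mul cx)
    (fun Z _ => by rw [zero_mul, mul_zero]) (by
      rw [hrm cx cx, Q.xx]
      unfold rm
      rw [map_zero, map_zero])
  have hyy : EqOn R σ (y * y) 0 := CC.eqOn M Fr (cy.mul cy)
    (fun Z _ => by rw [zero_mul, mul_zero]) (by
      rw [hrm cy cy, Q.yy]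
      unfold rm
      rw [map_zero, map_zero])
  obtain ⟨hv, π, hR, hvv, -⟩ :=
    Pool.Agent.NumRank.exists_rf v (Fr.hv M) (T.hmult v (Fr.hv M)) Q hx0
  obtain ⟨F, hF, rfl⟩ := hA W p v Fr hv ⟨α', rm p x, rm p y, Q, hx0, rm_mem hx, hvv⟩
  have hFval : ∀ ω ∈ Om R Φ σ, F ω = -1 ∨ F ω = 0 ∨ F ω = 1 := fun ω hω => hR.val ⟨ω, hω⟩
  -- the action of `h`
  have hact : ∀ (ω : ℂ) (w : ι → ℂ), w ∈ HS R σ → (ratM Φ).mulVec w = ω • w →
      h.mulVec w = ((ki F ω : ℤ) : ℂ) • w := by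
    intro ω w hw hω
    by_cases h0 : w = 0
    · rw [h0, Matrix.mulVec_zero, smul_zero]
    have hωm : ω ∈ Om R Φ σ := ⟨w, hw, h0, hω⟩
    obtain ⟨d, hd⟩ := exists_scalar hht
    have h3 : (d ω : ℂ) = ((ki F ω : ℤ) : ℂ) := by
      have h4 : rm p h (v ⟨ω, hωm⟩) = d ω • v ⟨ω, hωm⟩ := Subtype.ext (by
        rw [rm_apply Fr.prj (Fr.irr.1 h (M.le hht)), hd _ _ (Fr.bas ⟨ω, hωm⟩)]
        rfl)
      have h5 := hvv ⟨ω, hωm⟩
      rw [← hrm cx cy, ← hrm cy cx, ← rm_sub, ← he, h4, rs_apply] at h5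
      rw [smul_left_injective ℂ (v.ne_zero _) h5]
      have h6 := ki_cast (hFval ω hωm)
      exact_mod_cast h6.symm
    rw [hd ω w hω, h3]
  -- the determinant
  obtain ⟨P, hP, cP⟩ := exists_prc M σ
  have hdet : ∀ (z : ℂ) (D : Matrix ι ι ℂ), z ≠ 0 → IsDg R Φ σ (fun ω => z ^ ki F ω) D →
      D.det = 1 := by
    intro z D hz hD'
    have hE : (y * x * P) * (y * x * P) = y * x * P := by
      refine ext_on M fun σ' w hw => ?_
      by_cases hs : σ' = σ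
      · subst hs
        have h3 : (y * x * P).mulVec w = (y * x).mulVec w := by
          rw [← Matrix.mulVec_mulVec, hP.fix w hw]
        have h4 : (y * x).mulVec w ∈ HS R σ' := (cy.mul cx).hs M hw
        have h5 : (y * x) * (y * x) = y * (x * y * x) := by noncomm_ring
        have h6 : (y * x * P).mulVec ((y * x).mulVec w) = (y * x).mulVec w := by
          rw [← Matrix.mulVec_mulVec, hP.fix _ h4, Matrix.mulVec_mulVec, h5,
            ← Matrix.mulVec_mulVec, hxyx w hw, Matrix.mulVec_mulVec]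
        rw [← Matrix.mulVec_mulVec, h3, h6]
      · have h3 : (y * x * P).mulVec w = 0 := by
          rw [← Matrix.mulVec_mulVec, hP.kill σ' hs w hw, Matrix.mulVec_zero]
        rw [← Matrix.mulVec_mulVec, h3, Matrix.mulVec_zero]
    have h3 : D = (1 + (z - 1) • (x * y * P)) * (1 + (z⁻¹ - 1) • (y * x * P)) := by
      refine dg_unique H hV hD' ⟨fun ω w hw hω => ?_, fun σ' hs w hw => ?_⟩
      · by_cases h0 : w = 0
        · rw [h0, Matrix.mulVec_zero, smul_zero]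
        have hωm : ω ∈ Om R Φ σ := ⟨w, hw, h0, hω⟩
        have h4 := hact ω w hw hω
        -- `h ^ 2 = x y + y x`
        have h5 : (h * h).mulVec w = (x * y).mulVec w + (y * x).mulVec w := by
          have e1 : h * h = (x * y * x) * y + y * (x * y * x) - x * (y * y) * x -
              y * (x * x) * y := by
            rw [he]
            noncomm_ring
          have h6 : ((x * y * x) * y).mulVec w = (x * y).mulVec w := by
            rw [← Matrix.mulVec_mulVec, hxyx _ (cy.hs M hw), Matrix.mulVec_mulVec]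
          have h7 : (y * (x * y * x)).mulVec w = (y * x).mulVec w := by
            rw [← Matrix.mulVec_mulVec, hxyx _ hw, Matrix.mulVec_mulVec]
          have h8 : (x * (y * y) * x).mulVec w = 0 := by
            rw [← Matrix.mulVec_mulVec, ← Matrix.mulVec_mulVec, hyy _ (cx.hs M hw),
              Matrix.zero_mulVec, Matrix.mulVec_zero]
          have h9 : (y * (x * x) * y).mulVec w = 0 := by
            rw [← Matrix.mulVec_mulVec, ← Matrix.mulVec_mulVec, hxx _ (cy.hs M hw),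
              Matrix.zero_mulVec, Matrix.mulVec_zero]
          rw [e1, Matrix.sub_mulVec, Matrix.sub_mulVec, Matrix.add_mulVec, h6, h7, h8, h9,
            sub_zero, sub_zero]
        have h6 : (h * h).mulVec w = (((ki F ω : ℤ) : ℂ) * ((ki F ω : ℤ) : ℂ)) • w := by
          rw [← Matrix.mulVec_mulVec, h4, Matrix.mulVec_smul, h4, smul_smul]
        have h7 : h.mulVec w = (x * y).mulVec w - (y * x).mulVec w := by
          rw [he, Matrix.sub_mulVec]
        have hk : ki F ω = -1 ∨ ki F ω = 0 ∨ ki F ω = 1 := by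
          have h8 := ki_cast (hFval ω hωm)
          rcases hFval ω hωm with h9 | h9 | h9 <;> rw [h9] at h8
          · left; exact_mod_cast h8
          · right; left; exact_mod_cast h8
          · right; right; exact_mod_cast h8
        obtain ⟨k, hkk⟩ : ∃ k : ℤ, k = ki F ω := ⟨_, rfl⟩
        rw [← hkk] at h4 h6 hk ⊢
        have h8 : (x * y).mulVec w = ((((k : ℤ) : ℂ) * k + k) / 2) • w := by
          have e1 : (2 : ℂ) • (x * y).mulVec w = (((k : ℤ) : ℂ) * k + k) • w := by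
            rw [add_smul, ← h6, ← h4, h5, h7, two_smul]
            abel
          rw [div_eq_inv_mul, mul_smul, ← e1, smul_smul, inv_mul_cancel₀ two_ne_zero, one_smul]
        have h9 : (y * x).mulVec w = ((((k : ℤ) : ℂ) * k - k) / 2) • w := by
          have e1 : (2 : ℂ) • (y * x).mulVec w = (((k : ℤ) : ℂ) * k - k) • w := by
            rw [sub_smul, ← h6, ← h4, h5, h7, two_smul]
            abel
          rw [div_eq_inv_mul, mul_smul, ← e1, smul_smul, inv_mul_cancel₀ two_ne_zero, one_smul]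
        have b1 : (1 + (z⁻¹ - 1) • (y * x * P)).mulVec w =
            (1 + (z⁻¹ - 1) * ((((k : ℤ) : ℂ) * k - k) / 2)) • w := by
          rw [Matrix.add_mulVec, Matrix.one_mulVec, Matrix.smul_mulVec, ← Matrix.mulVec_mulVec,
            hP.fix w hw, h9, smul_smul, add_smul, one_smul]
        have b2 : (1 + (z - 1) • (x * y * P)).mulVec w =
            (1 + (z - 1) * ((((k : ℤ) : ℂ) * k + k) / 2)) • w := by
          rw [Matrix.add_mulVec, Matrix.one_mulVec, Matrix.smul_mulVec, ← Matrix.mulVec_mulVec,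
            hP.fix w hw, h8, smul_smul, add_smul, one_smul]
        rw [← Matrix.mulVec_mulVec, b1, Matrix.mulVec_smul, b2, smul_smul]
        congr 1
        rcases hk with rfl | rfl | rfl
        · norm_num
        · norm_num
        · norm_num
      · rw [← Matrix.mulVec_mulVec]
        have h4 : (1 + (z⁻¹ - 1) • (y * x * P)).mulVec w = w := by
          rw [Matrix.add_mulVec, Matrix.one_mulVec, Matrix.smul_mulVec, ← Matrix.mulVec_mulVec,
            hP.kill σ' hs w hw, Matrix.mulVec_zero, smul_zero, add_zero]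
        rw [h4, Matrix.add_mulVec, Matrix.one_mulVec, Matrix.smul_mulVec,
          ← Matrix.mulVec_mulVec, hP.kill σ' hs w hw, Matrix.mulVec_zero, smul_zero, add_zero]
    rw [h3]
    exact det_pair (hP.comm M cx) hE hz
  rcases hF with hF | hF
  · refine ⟨ki F, fun _ => 0, fun ω w hw hω => ?_, fun F' π' hF' K ω => ?_,
      fun F π _ _ ω => rfl, hdet⟩
    · rw [hact ω w hw hω, add_zero]
    · exact ki_move (hD.fst F hF) K (hD.orth F hF F' hF') ω
  · refine ⟨fun _ => 0, ki F, fun ω w hw hω => ?_, fun F π _ _ ω => rfl,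
      fun F' π' hF' K ω => ?_, fun z D _ hD' => ?_⟩
    · rw [hact ω w hw hω, zero_add]
    · exact ki_move (hD.snd F hF) K (by rw [dotProduct_comm]; exact hD.orth F' hF' F hF) ω
    · have h4 : D = 1 := dg_unique H hV hD' ⟨fun ω v _ _ => by
        rw [zpow_zero, one_smul, Matrix.one_mulVec], fun σ' _ v _ => by
        rw [Matrix.one_mulVec]⟩
      rw [h4, Matrix.det_one]

/-- The coroot lattice. -/
theorem ql_spt (M : Mono R c Φ g ψ) (H : IsFrob R Φ) (hI : Idem Φ) (hD : Dcm R Φ σ s s')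
    (hA : Act g R Φ σ s s') {q : Matrix ι ι ℂ} (hq : q ∈ QL g Φ) :
    ∃ κ₁ κ₂, Spt R Φ σ s s' q κ₁ κ₂ := by
  have hV := iSup_HS M
  unfold QL at hq
  induction hq using AddSubgroup.closure_induction with
  | mem h hh => exact Coroot.spt M H hI hD hA hh
  | zero =>
    refine ⟨fun _ => 0, fun _ => 0, fun ω w hw _ => ?_, fun F π _ _ ω => rfl,
      fun F π _ _ ω => rfl, fun z D _ hD' => ?_⟩
    · rw [Matrix.zero_mulVec, add_zero, Int.cast_zero, zero_smul]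
    · have h4 : D = 1 := dg_unique H hV hD' ⟨fun ω v _ _ => by
        rw [zpow_zero, one_smul, Matrix.one_mulVec], fun σ' _ v _ => by
        rw [Matrix.one_mulVec]⟩
      rw [h4, Matrix.det_one]
  | add a b _ _ ha hb =>
    obtain ⟨κ₁, κ₂, a1, a2, a3, a4⟩ := ha
    obtain ⟨κ₁', κ₂', b1, b2, b3, b4⟩ := hb
    refine ⟨fun z => κ₁ z + κ₁' z, fun z => κ₂ z + κ₂' z, fun ω w hw hω => ?_,
      fun F π hF K ω => ?_, fun F π hF K ω => ?_, fun z D hz hD' => ?_⟩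
    · rw [Matrix.add_mulVec, a1 ω w hw hω, b1 ω w hw hω, ← add_smul, ← Int.cast_add]
      congr 2
      ring
    · beta_reduce
      rw [a2 F π hF K ω, b2 F π hF K ω]
    · beta_reduce
      rw [a3 F π hF K ω, b3 F π hF K ω]
    · obtain ⟨D₁, hD₁⟩ := exists_dg R Φ σ fun ω => z ^ κ₁ ω
      obtain ⟨D₂, hD₂⟩ := exists_dg R Φ σ fun ω => z ^ κ₁' ω
      have h3 : D = D₁ * D₂ := by
        refine dg_unique H hV hD' ⟨fun ω w hw hω => ?_, fun σ' hs w hw => ?_⟩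
        · rw [← Matrix.mulVec_mulVec, hD₂.eig ω w hw hω, Matrix.mulVec_smul, hD₁.eig ω w hw hω,
            smul_smul, zpow_add₀ hz, mul_comm]
        · rw [← Matrix.mulVec_mulVec, hD₂.out σ' hs w hw, hD₁.out σ' hs w hw]
      rw [h3, Matrix.det_mul, a4 z D₁ hz hD₁, b4 z D₂ hz hD₂, one_mul]
  | neg a _ ha =>
    obtain ⟨κ₁, κ₂, a1, a2, a3, a4⟩ := ha
    refine ⟨fun z => -κ₁ z, fun z => -κ₂ z, fun ω w hw hω => ?_,
      fun F π hF K ω => ?_, fun F π hF K ω => ?_, fun z D hz hD' => ?_⟩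
    · rw [Matrix.neg_mulVec, a1 ω w hw hω, ← neg_smul, ← Int.cast_neg]
      congr 2
      ring
    · beta_reduce
      rw [a2 F π hF K ω]
    · beta_reduce
      rw [a3 F π hF K ω]
    · refine a4 z⁻¹ D (inv_ne_zero hz) ⟨fun ω w hw hω => ?_, hD'.out⟩
      rw [hD'.eig ω w hw hω, inv_zpow, zpow_neg]

/-- The values of `eps`; the idempotent `e` is orthogonal to `s'` or to `s`. -/
private theorem kap_core (M : Mono R c Φ g ψ) (H : IsFrob R Φ) (hF : Free Φ) (hI : Idem Φ)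
    (hm0 : m ≠ 0) (hζ₀ : IsPrimitiveRoot ζ₀ m) (hmu : ∀ x : ℂ, x ^ m = 1 → γ x = x)
    (hK : Kap g Φ m ζ₀ γ e) (he : e ∈ tor Φ) (hee : e * e = e) (hD : Dcm R Φ σ s s')
    (hA : Act g R Φ σ s s')
    (hO : (∀ F ∈ s', rs R Φ σ (ev Φ e) ⬝ᵥ rs R Φ σ F = 0) ∨
      ∀ F ∈ s, rs R Φ σ (ev Φ e) ⬝ᵥ rs R Φ σ F = 0)
    (hγ : Stab σ s s' γ) (hm : dm R σ ∣ m) :
    ∃ ζ : ℂ, Eps R Φ σ s s' γ ζ ∧
      (ζ ≠ 1 ↔ Ns R Φ e σ ∧ ∃ F ∈ s, rs R Φ σ (ev Φ e) ⬝ᵥ rs R Φ σ F ≠ 0) := by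
  obtain ⟨f, hf, q, hq, hfq⟩ := hK
  obtain ⟨κ₁, κ₂, k1, k2, k3, k4⟩ := ql_spt M H hI hD hA hq
  have hV := iSup_HS M
  have hL := lat M H hI σ
  have hζ0 : ζ₀ ≠ 0 := hζ₀.ne_zero hm0
  have hκ : ∀ ω ∈ Om R Φ σ, γ (f ω) = ζ₀ ^ (κ₁ (γ ω) + κ₂ (γ ω) + kx Φ e (γ ω)) * f (γ ω) := by
    intro ω hω
    obtain ⟨w, hw, hw0, hwω⟩ := hγ.om hω
    refine hfq ω w _ hw0 hwω ?_
    rw [Matrix.add_mulVec, k1 _ w hw hwω, ev_apply he hee hwω, ← add_smul, ← kx_cast]
    push_cast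
    rfl
  obtain ⟨ω₁, hω₁⟩ := om_nonempty H σ
  obtain ⟨D₁, hD₁⟩ := exists_dg R Φ σ fun z => ζ₀ ^ κ₁ z
  have hdet₁ : D₁.det = 1 := k4 ζ₀ D₁ hζ0 hD₁
  have hm1 : ∀ k : ℤ, (ζ₀ ^ k) ^ m = 1 := fun k => by
    rw [← zpow_natCast, ← zpow_mul, mul_comm, zpow_mul, zpow_natCast, hζ₀.pow_eq_one, one_zpow]
  by_cases hA' : ∀ F ∈ s, rs R Φ σ (ev Φ e) ⬝ᵥ rs R Φ σ F = 0
  · obtain ⟨ζ, r, D, hε, hr, hD', h1⟩ := kap_det (κ₁ := κ₁)
      (κ := fun z => κ₁ z + κ₂ z + kx Φ e z) H hf hm0 hζ₀ hD hγ hκ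
      (fun F π hFs K ω => by
        rw [k3 F π hFs K ω, ev_move he hee K (hA' F hFs) ω]
        ring) k2 hV hF hL hmu hm hω₁
    obtain ⟨b₂, hb₂, -⟩ := exists_gl M σ ((CC.one (g := g)).smul (ζ₀ ^ (-κ₁ ω₁)))
    have h2 : D = D₁ * b₂ := by
      refine dg_unique H hV hD' ⟨fun ω w hw hω => ?_, fun σ' hs w hw => ?_⟩
      · rw [← Matrix.mulVec_mulVec, hb₂.eq w hw, Matrix.smul_mulVec, Matrix.one_mulVec,
          Matrix.mulVec_smul, hD₁.eig ω w hw hω, smul_smul, ← zpow_add₀ hζ0, sub_eq_add_neg,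
          add_comm]
      · rw [← Matrix.mulVec_mulVec, hb₂.out σ' hs w hw, hD₁.out σ' hs w hw]
    rw [h2, Matrix.det_mul, hdet₁, one_mul, det_scalar M σ _ hb₂, ← pow_mul, ← hr, hm1,
      mul_one] at h1
    refine ⟨ζ, hε, fun h3 => absurd h1 h3, ?_⟩
    rintro ⟨-, F, hF', h3⟩
    exact absurd (hA' F hF') h3
  · have hB : ∀ F ∈ s', rs R Φ σ (ev Φ e) ⬝ᵥ rs R Φ σ F = 0 := hO.resolve_right hA'
    push Not at hA'
    obtain ⟨F, hFs, hdot⟩ := hA'
    have hns : Ns R Φ e σ := by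
      by_contra h0
      exact hdot (dot_zero_of_not_ns h0 (hD.fst F hFs))
    obtain ⟨ζ, r, D, hε, hr, hD', h1⟩ := kap_det (κ₁ := fun z => κ₁ z + kx Φ e z)
      (κ := fun z => κ₁ z + κ₂ z + kx Φ e z) H hf hm0 hζ₀ hD hγ hκ
      (fun F π hFs K ω => by
        rw [k3 F π hFs K ω]
        ring)
      (fun F π hFs K ω => by
        rw [k2 F π hFs K ω, ev_move he hee K (hB F hFs) ω]) hV hF hL hmu hm hω₁
    refine ⟨ζ, hε, fun _ => ⟨hns, F, hFs, hdot⟩, fun _ hζ => ?_⟩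
    have heC : CC g e := CC.mem (M.le he)
    obtain ⟨ρ, hρ, hρ0, hρ1, hdet⟩ := det_gl M σ heC hee
    obtain ⟨b₁, hb₁, -⟩ := exists_gl M σ (CC.one.add (heC.smul (ζ₀ - 1)))
    obtain ⟨b₂, hb₂, -⟩ := exists_gl M σ
      ((CC.one (g := g)).smul (ζ₀ ^ (-(κ₁ ω₁ + kx Φ e ω₁))))
    have h2 : D = b₂ * b₁ * D₁ := by
      refine dg_unique H hV hD' ⟨fun ω v hv h => ?_, fun σ' h v hv => ?_⟩
      · have h3 : b₁.mulVec v = ζ₀ ^ kx Φ e ω • v := by
          rw [hb₁.eq v hv, Matrix.add_mulVec, Matrix.one_mulVec, Matrix.smul_mulVec,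
            ev_apply he hee h]
          unfold kx
          rcases ev_or Φ e ω with h4 | h4
          · rw [h4]
            simp
          · rw [h4]
            simp only [if_true, Rat.cast_one, one_smul, zpow_one]
            rw [sub_smul, one_smul]
            abel
        rw [← Matrix.mulVec_mulVec, hD₁.eig ω v hv h, Matrix.mulVec_smul,
          ← Matrix.mulVec_mulVec, h3, Matrix.mulVec_smul, hb₂.eq v hv, Matrix.smul_mulVec,
          Matrix.one_mulVec, smul_smul, smul_smul, ← zpow_add₀ hζ0, ← zpow_add₀ hζ0]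
        congr 2
      · rw [← Matrix.mulVec_mulVec, ← Matrix.mulVec_mulVec, hD₁.out σ' h v hv,
          hb₁.out σ' h v hv, hb₂.out σ' h v hv]
    rw [hζ, one_mul, h2, Matrix.det_mul, Matrix.det_mul, hdet₁, mul_one, hdet ζ₀ b₁ hb₁,
      det_scalar M σ _ hb₂, mul_pow, ← pow_mul, ← hr, hm1, one_mul, ← pow_mul] at h1
    have h4 : m ∣ ρ * r := (hζ₀.pow_eq_one_iff_dvd _).1 h1
    have hr0 : 0 < r := by
      rcases Nat.eq_zero_or_pos r with h5 | h5
      · rw [h5, mul_zero] at hr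
        exact absurd hr hm0
      · exact h5
    have h5 : dm R σ ∣ ρ := by
      rw [hr] at h4
      exact Nat.dvd_of_mul_dvd_mul_right hr0 h4
    obtain ⟨μ, ⟨w, hw, hw0, hwμ⟩, ν, ⟨w', hw', hw0', hwν⟩, h6, h7⟩ := hns
    have h8 := ev_apply he hee hwμ
    have h9 := ev_apply he hee hwν
    rw [h6, Rat.cast_zero, zero_smul] at h8
    rw [h7, Rat.cast_one, one_smul] at h9
    rcases Nat.eq_zero_or_pos ρ with h11 | h11
    · apply hw0'
      rw [← h9, hρ0 h11 w' hw', Matrix.zero_mulVec]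
    · apply hw0
      rw [← h8, hρ1 (le_antisymm hρ (Nat.le_of_dvd h11 h5)) w hw, Matrix.one_mulVec]

/-- **The value of `eps` at the place `p`.** -/
theorem kap_e (M : Mono R c Φ g ψ) (H : IsFrob R Φ) (hF : Free Φ) (hI : Idem Φ) (hm0 : m ≠ 0)
    (hζ₀ : IsPrimitiveRoot ζ₀ m) (hmu : ∀ x : ℂ, x ^ m = 1 → γ x = x)
    (hK : Kap g Φ m ζ₀ γ e) (he : e ∈ tor Φ) (hee : e * e = e) (hD : Dcm R Φ σ s s')
    (hA : Act g R Φ σ s s') (hO : One R Φ σ s s') (hγ : Stab σ s s' γ) (hm : dm R σ ∣ m) :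
    ∃ ζ : ℂ, Eps R Φ σ s s' γ ζ ∧
      (ζ ≠ 1 ↔ Ns R Φ e σ ∧ ∃ F ∈ s, rs R Φ σ (ev Φ e) ⬝ᵥ rs R Φ σ F ≠ 0) :=
  kap_core M H hF hI hm0 hζ₀ hmu hK he hee hD hA (hO e he hee) hγ hm

/-- **The value of `eps` if the Kummer cocharacter is in the coroot lattice.** -/
theorem kap_one (M : Mono R c Φ g ψ) (H : IsFrob R Φ) (hF : Free Φ) (hI : Idem Φ) (hm0 : m ≠ 0)
    (hζ₀ : IsPrimitiveRoot ζ₀ m) (hmu : ∀ x : ℂ, x ^ m = 1 → γ x = x)
    (hK : Kap g Φ m ζ₀ γ 0) (hD : Dcm R Φ σ s s') (hA : Act g R Φ σ s s')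
    (hγ : Stab σ s s' γ) (hm : dm R σ ∣ m) : Eps R Φ σ s s' γ 1 := by
  have h0 : ∀ ω ∈ Om R Φ σ, ev Φ (0 : Matrix ι ι ℂ) ω = 0 := by
    intro ω ⟨w, hw, hw0, hwω⟩
    have h1 := ev_apply (Submodule.zero_mem (tor Φ)) (mul_zero 0) hwω
    rw [Matrix.zero_mulVec] at h1
    have h2 := (smul_eq_zero.1 h1.symm).resolve_right hw0
    exact_mod_cast h2
  have h1 : rs R Φ σ (ev Φ (0 : Matrix ι ι ℂ)) = 0 := by
    funext ω
    rw [rs_apply, h0 ω ω.2]
    rfl
  obtain ⟨ζ, hε, hζ⟩ := kap_core M H hF hI hm0 hζ₀ hmu hK (Submodule.zero_mem _) (mul_zero 0) hD hA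
    (Or.inr fun F _ => by rw [h1, zero_dotProduct]) hγ hm
  have h2 : ζ = 1 := by
    by_contra h3
    obtain ⟨-, F, -, h4⟩ := hζ.1 h3
    exact h4 (by rw [h1, zero_dotProduct])
  rwa [h2] at hε

end Pool.Agent.FQX
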