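import Pool.Agent.FQX.Dg
import Pool.Agent.FQX.Coord
import Pool.Agent.FQV.Trans
import Pool.Agent.FQA.Mixed

/-!
# The functions `ξ` and the characters `eps`

`exists_xi`. The eigenvalues are products of powers of independent numbers, `ω = ∏ c_i ^ x_i(ω)`, and the
exponents `x_i` are in the lattice (`exists_coords`). Let `S` be the `ℚ`-span of the reflections in `s`,
`y_i` the projection of `x_i` to `S`, `D` a common denominator of the values of the `y_i`, `d_i ^ D = c_i`,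
`ξ ω = ∏ d_i ^ (D y_i ω)`.

`exists_xn`: multiply by a constant. `unique`: the quotient is constant by `Dcm.tr`.
-/

set_option autoImplicit false
set_option linter.unusedSectionVars false

namespace Pool.Agent.FQX

open Module
open Pool.Agent.CoprimeSig (ratM)
open Pool.Agent.PrimePow.CC (Rf Rt Lat)
open Pool.Agent.NumRank (cf cf_sub cf_eq_zero)
open Pool.Agent.FQA (exists_proj LQ mem_LQ move_LQ Rf_move)
open Pool.Agent.FQV

variable {ι : Type} [Fintype ι] [DecidableEq ι] {E : Type} [CommRing E] [Algebra ℚ E]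
  [Module.Finite ℚ E] [IsReduced E] {R : E →+* Matrix ι ι ℚ} {Φ : Matrix ι ι ℚ} {σ : E →+* ℂ}
  {s s' : Set (ℂ → ℚ)} {ξ ξ' : ℂ → ℂ} {δ δ' : ℂ ≃+* ℂ} {ζ ζ' : ℂ}

theorem eig_ne (H : IsFrob R Φ) {μ : ℂ} (hμ : μ ∈ Om R Φ σ) : μ ≠ 0 := by
  obtain ⟨r, hr, h1⟩ := H.abs
  intro h0
  have h2 := h1 μ (hasEigenvalue_of_mem hμ)
  rw [h0, norm_zero] at h2
  exact hr.ne h2

private theorem exists_den {T : Type*} [Fintype T] (f : T → ℚ) :
    ∃ D : ℕ, 0 < D ∧ ∀ t, ∃ z : ℤ, (D : ℚ) * f t = z := by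
  classical
  refine ⟨∏ t, (f t).den, Finset.prod_pos fun t _ => (f t).den_pos, fun t => ?_⟩
  rw [← Finset.mul_prod_erase Finset.univ _ (Finset.mem_univ t)]
  refine ⟨(f t).num * ((∏ x ∈ Finset.univ.erase t, (f x).den : ℕ) : ℤ), ?_⟩
  push_cast
  have h1 : ((f t).den : ℚ) * f t = (f t).num := by
    rw [mul_comm]
    exact Rat.mul_den_eq_num (f t)
  calc ((f t).den : ℚ) * (∏ x ∈ Finset.univ.erase t, ((f x).den : ℚ)) * f t =
      (((f t).den : ℚ) * f t) * ∏ x ∈ Finset.univ.erase t, ((f x).den : ℚ) := by ring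
    _ = _ := by rw [h1]

theorem exists_xi (H : IsFrob R Φ) (hF : Free Φ) (_hL : Lat (Ls R Φ σ)) (hs : Dcm R Φ σ s s') :
    ∃ ξ, IsXi R Φ σ s s' ξ := by
  classical
  obtain ⟨n, c, x, hc, hx, hrel⟩ := exists_coords H hF
  let X : Fin n → Om R Φ σ → ℚ := fun i ω => (x i ω : ℚ)
  have hX : ∀ i, X i ∈ Ls R Φ σ := by
    intro i
    obtain ⟨Q, hQ⟩ := exists_poly Φ fun μ => (x i μ : ℂ)
    refine mem_Ls.2 ⟨fun ω => ⟨x i ω, rfl⟩, Polynomial.aeval (ratM Φ) Q, ?_, fun μ w _ hμ => ?_⟩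
    · refine ⟨fun μ => (x i μ : ℂ), fun μ v hv => ?_, fun t ht m hm => ?_⟩
      · rw [Module.End.mem_eigenspace_iff, Matrix.toLin'_apply] at hv
        rw [Matrix.toLin'_apply]
        exact hQ μ v hv
      · have h1 := hrel i t ht m hm
        have h2 : ((∑ μ ∈ t, m μ * x i μ : ℤ) : ℂ) = 0 := by rw [h1, Int.cast_zero]
        rw [← h2]
        push_cast
        rfl
    · rw [hQ μ w hμ]
      have h1 : (x i μ : ℂ) = ((X i μ : ℚ) : ℂ) := by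
        change (x i μ : ℂ) = ((x i μ : ℚ) : ℂ)
        push_cast
        rfl
      rw [← h1]
  let S : Submodule ℚ (Om R Φ σ → ℚ) := Submodule.span ℚ {f | ∃ F ∈ s, f = rs R Φ σ F}
  choose Y hYS hYp using fun i => exists_proj S (X i)
  have hSL : S ≤ LQ (Ls R Φ σ) := by
    refine Submodule.span_le.2 ?_
    rintro _ ⟨F, hF', rfl⟩
    obtain ⟨π, K⟩ := (hs.fst F hF').rt
    exact mem_LQ K.mem
  obtain ⟨D, hD, hm⟩ := exists_den (fun q : Fin n × Om R Φ σ => Y q.1 q.2)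
  choose m hm using hm
  have hDQ : (D : ℚ) ≠ 0 := Nat.cast_ne_zero.2 hD.ne'
  choose d hd using fun i => IsAlgClosed.exists_pow_nat_eq (c i) hD
  have hd0 : ∀ i, d i ≠ 0 := fun i h0 => hc i (by rw [← hd i, h0, zero_pow hD.ne'])
  have hval : ∀ ω : Om R Φ σ, (if h : (ω : ℂ) ∈ Om R Φ σ then
      ∏ i, d i ^ m (i, (⟨ω, h⟩ : Om R Φ σ)) else 1) = ∏ i, d i ^ m (i, ω) := fun ω => by
    rw [dif_pos ω.2]
  refine ⟨fun z => if h : z ∈ Om R Φ σ then ∏ i, d i ^ m (i, (⟨z, h⟩ : Om R Φ σ)) else 1, ?_, ?_, ?_⟩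
  · intro ω hω
    simp only [dif_pos hω]
    exact Finset.prod_ne_zero_iff.2 fun i _ => zpow_ne_zero _ (hd0 i)
  · intro F π hFs K ω
    have h1 : ∀ i, m (i, π ω) = m (i, ω) + D * (x i (π ω) - x i ω) := by
      intro i
      have e1 := move_LQ (Rf_move K) (hSL (hYS i)) ω
      have e2 := Rf_move K _ (hX i) ω
      have e3 : cf (Y i) (rs R Φ σ F) = cf (X i) (rs R Φ σ F) := by
        have e4 : cf (X i - Y i) (rs R Φ σ F) = 0 := by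
          rw [cf_eq_zero K.dot_self_pos.ne']
          exact hYp i _ (Submodule.subset_span ⟨F, hFs, rfl⟩)
        rw [cf_sub] at e4
        linarith
      have e5 : Y i (π ω) = Y i ω + (X i (π ω) - X i ω) := by
        rw [e1, e2, e3]
        ring
      have e6 := hm (i, π ω)
      have e7 := hm (i, ω)
      simp only at e6 e7
      rw [e5, mul_add, e7] at e6
      have e8 : (D : ℚ) * (X i (π ω) - X i ω) = ((D * (x i (π ω) - x i ω) : ℤ) : ℚ) := by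
        push_cast
        rfl
      rw [e8] at e6
      exact_mod_cast e6.symm
    rw [hval, hval]
    have h2 : ∀ i, d i ^ m (i, π ω) = d i ^ m (i, ω) * (c i ^ x i (π ω) * (c i ^ x i ω)⁻¹) := by
      intro i
      rw [h1 i, zpow_add₀ (hd0 i), zpow_mul, zpow_natCast, hd i, zpow_sub₀ (hc i),
        div_eq_mul_inv]
    rw [Finset.prod_congr rfl fun i _ => h2 i, Finset.prod_mul_distrib, Finset.prod_mul_distrib,
      ← hx _ (hasEigenvalue_of_mem (π ω).2), Finset.prod_inv_distrib,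
      ← hx _ (hasEigenvalue_of_mem ω.2)]
    have h3 := eig_ne H ω.2
    field_simp
  · intro F π hFs K ω
    have h1 : ∀ i, m (i, π ω) = m (i, ω) := by
      intro i
      have e1 := move_LQ (Rf_move K) (hSL (hYS i)) ω
      have e3 : cf (Y i) (rs R Φ σ F) = 0 := by
        rw [cf_eq_zero K.dot_self_pos.ne']
        have e4 : S ≤ LinearMap.ker (dotProductBilin ℚ ℚ (rs R Φ σ F)) := by
          refine Submodule.span_le.2 ?_
          rintro _ ⟨F', hF', rfl⟩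
          rw [SetLike.mem_coe, LinearMap.mem_ker]
          change rs R Φ σ F ⬝ᵥ rs R Φ σ F' = 0
          rw [dotProduct_comm]
          exact hs.orth F' hF' F hFs
        exact LinearMap.mem_ker.1 (e4 (hYS i))
      rw [e3, zero_mul, sub_zero] at e1
      have e6 := hm (i, π ω)
      have e7 := hm (i, ω)
      simp only at e6 e7
      rw [e1, e7] at e6
      exact_mod_cast e6.symm
    rw [hval, hval]
    exact Finset.prod_congr rfl fun i _ => by rw [h1 i]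

private theorem IsXi.smul (h : IsXi R Φ σ s s' ξ) {κ : ℂ} (hκ : κ ≠ 0) :
    IsXi R Φ σ s s' fun z => κ * ξ z where
  ne ω hω := mul_ne_zero hκ (h.ne ω hω)
  inn F π hF K ω := by
    rw [mul_assoc, h.inn F π hF K ω, mul_assoc]
  out F π hF K ω := by
    rw [h.out F π hF K ω]

/-- The quotient of two solutions is constant. -/
theorem IsXi.const (H : IsFrob R Φ) (hs : Dcm R Φ σ s s') (h : IsXi R Φ σ s s' ξ)
    (h' : IsXi R Φ σ s s' ξ') : ∃ ζ : ℂ, ζ ≠ 0 ∧ ∀ ω ∈ Om R Φ σ, ξ' ω = ζ * ξ ω := by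
  obtain ⟨ω₀, hω₀⟩ := om_nonempty H σ
  have h1 : {ω : Om R Φ σ | ξ' ω * ξ ω₀ = ξ' ω₀ * ξ ω} = Set.univ := by
    refine hs.tr _ ⟨⟨ω₀, hω₀⟩, rfl⟩ fun F π hF K ω hω => ?_
    rw [Set.mem_ofPred_eq] at hω ⊢
    rcases hF with hF | hF
    · have h2 := h.inn F π hF K ω
      have h3 := h'.inn F π hF K ω
      apply mul_right_cancel₀ (eig_ne H ω.2)
      calc ξ' (π ω) * ξ ω₀ * ω = (ξ' (π ω) * ω) * ξ ω₀ := by ring
        _ = (ξ' ω * ξ ω₀) * (π ω : ℂ) := by rw [← h3]; ring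
        _ = ξ' ω₀ * (ξ ω * (π ω : ℂ)) := by rw [hω]; ring
        _ = ξ' ω₀ * ξ (π ω) * ω := by rw [h2]; ring
    · rw [← h.out F π hF K ω, ← h'.out F π hF K ω, hω]
  refine ⟨ξ' ω₀ / ξ ω₀, div_ne_zero (h'.ne ω₀ hω₀) (h.ne ω₀ hω₀), fun μ hμ => ?_⟩
  have h3 : (⟨μ, hμ⟩ : Om R Φ σ) ∈ {ω : Om R Φ σ | ξ' ω * ξ ω₀ = ξ' ω₀ * ξ ω} := by
    rw [h1]
    exact Set.mem_univ _
  have h4 : ξ' μ * ξ ω₀ = ξ' ω₀ * ξ μ := h3
  rw [div_mul_eq_mul_div, eq_div_iff (h.ne ω₀ hω₀), h4]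

theorem dm_pos (H : IsFrob R Φ) (σ : E →+* ℂ) : 0 < dm R σ := by
  have h1 := HS_ne_bot H.inj σ
  have h2 : Nontrivial (HS R σ) := (Submodule.nontrivial_iff_ne_bot).2 h1
  exact Module.finrank_pos

private theorem dg_det_ne (H : IsFrob R Φ) (hV : ⨆ σ : E →+* ℂ, HS R σ = ⊤)
    (hξ : ∀ ω ∈ Om R Φ σ, ξ ω ≠ 0) {a : Matrix ι ι ℂ} (ha : IsDg R Φ σ ξ a) : a.det ≠ 0 := by
  obtain ⟨b, hb⟩ := exists_dg R Φ σ fun z => (ξ z)⁻¹
  have h1 : a * b = 1 := by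
    refine ext_hs H hV (σ := σ) (fun ω v hv h => ?_) fun σ' h v hv => ?_
    · by_cases h0 : v = 0
      · rw [h0, Matrix.mulVec_zero, Matrix.mulVec_zero]
      rw [← Matrix.mulVec_mulVec, hb.eig ω v hv h, Matrix.mulVec_smul, ha.eig ω v hv h,
        smul_smul, inv_mul_cancel₀ (hξ ω ⟨v, hv, h0, h⟩), one_smul, Matrix.one_mulVec]
    · rw [← Matrix.mulVec_mulVec, hb.out σ' h v hv, ha.out σ' h v hv, Matrix.one_mulVec]
  intro h0
  have h2 := congrArg Matrix.det h1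
  rw [Matrix.det_mul, h0, zero_mul, Matrix.det_one] at h2
  exact zero_ne_one h2

theorem exists_xn (H : IsFrob R Φ) (hV : ⨆ σ : E →+* ℂ, HS R σ = ⊤) (hF : Free Φ)
    (hL : Lat (Ls R Φ σ)) (hs : Dcm R Φ σ s s') : ∃ ξ, IsXn R Φ σ s s' ξ := by
  obtain ⟨ξ, h⟩ := exists_xi H hF hL hs
  obtain ⟨a, ha⟩ := exists_dg R Φ σ ξ
  obtain ⟨P, hP, -⟩ := exists_pr R σ
  have h1 := dg_det_ne H hV h.ne ha
  obtain ⟨κ, hκ⟩ := IsAlgClosed.exists_pow_nat_eq (a.det)⁻¹ (dm_pos H σ)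
  have hκ0 : κ ≠ 0 := by
    rintro rfl
    rw [zero_pow (dm_pos H σ).ne'] at hκ
    exact inv_ne_zero h1 hκ.symm
  refine ⟨fun z => κ * ξ z, h.smul hκ0, fun b hb => ?_⟩
  have h2 := dg_unique H hV hb (ha.smul hP κ fun ω _ => rfl)
  rw [h2, Matrix.det_mul, det_pr hV hP, hκ, mul_inv_cancel₀ h1]

theorem IsXn.unique (H : IsFrob R Φ) (hV : ⨆ σ : E →+* ℂ, HS R σ = ⊤) (hs : Dcm R Φ σ s s')
    (h : IsXn R Φ σ s s' ξ) (h' : IsXn R Φ σ s s' ξ') :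
    ∃ ζ : ℂ, ζ ^ dm R σ = 1 ∧ ∀ ω ∈ Om R Φ σ, ξ' ω = ζ * ξ ω := by
  obtain ⟨ζ, hζ, h1⟩ := IsXi.const H hs h.toIsXi h'.toIsXi
  refine ⟨ζ, ?_, h1⟩
  obtain ⟨a, ha⟩ := exists_dg R Φ σ ξ
  obtain ⟨P, hP, -⟩ := exists_pr R σ
  have h2 := h'.nrm _ (ha.smul hP ζ h1)
  rwa [Matrix.det_mul, h.nrm a ha, det_pr hV hP, one_mul] at h2

/-- A component and its complement. -/
theorem dcm_cmp (_H : IsFrob R Φ) (hL : Lat (Ls R Φ σ)) (hs : IsCmp R Φ σ s) :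
    Dcm R Φ σ s {F | Rts R Φ σ F ∧ F ∉ s} := by
  obtain ⟨F₀, hF₀, rfl⟩ := hs
  refine ⟨fun F hF => hF.1, fun F hF => hF.1, fun F hF F' hF' => ?_, fun A hA h => ?_⟩
  · by_contra h0
    exact hF'.2 ⟨hF'.1, hF.2.trans (Relation.ReflTransGen.single ⟨hF'.1.rt, h0⟩)⟩
  · refine hL.tr A hA fun f π K ω hω => ?_
    obtain ⟨F, hF, rfl⟩ := exists_rts ⟨π, K⟩
    by_cases hs : F ∈ cmp R Φ σ F₀
    · exact h F π (Or.inl hs) K ω hω
    · exact h F π (Or.inr ⟨hF, hs⟩) K ω hω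

private theorem rf_of_equiv {Ω Ω' : Type*} [Fintype Ω] [Fintype Ω'] {L : AddSubgroup (Ω → ℚ)}
    {L' : AddSubgroup (Ω' → ℚ)} (ε : Ω ≃ Ω') (hL : ∀ f, f ∈ L' ↔ f ∘ ε ∈ L) {h : Ω' → ℚ}
    {π : Equiv.Perm Ω'} (H : Rf L' h π) : Rf L (h ∘ ε) ((ε.trans π).trans ε.symm) where
  mem := (hL h).1 H.mem
  ne := fun h0 => H.ne (funext fun ω => by
    have h1 := congrFun h0 (ε.symm ω)
    simpa using h1)
  val := fun ω => H.val (ε ω)
  refl := fun f hf => by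
    have h1 : f ∘ ε.symm ∈ L' := by
      rw [hL]
      have h2 : (f ∘ ε.symm) ∘ ε = f := by
        funext ω
        simp
      rwa [h2]
    obtain ⟨a, ha⟩ := H.refl _ h1
    refine ⟨a, fun ω => ?_⟩
    have h3 := ha (ε ω)
    simpa using h3
  neg := fun ω => by
    have h1 := H.neg (ε ω)
    simpa using h1

theorem mv_symm_mv (γ : ℂ ≃+* ℂ) (F : ℂ → ℚ) : mv γ.symm (mv γ F) = F := by
  funext μ
  simp [mv]

theorem mv_mv_symm (γ : ℂ ≃+* ℂ) (F : ℂ → ℚ) : mv γ (mv γ.symm F) = F := by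
  funext μ
  simp [mv]

theorem Dcm.map (H : IsFrob R Φ) (γ : ℂ ≃+* ℂ) (h : Dcm R Φ σ s s') :
    Dcm R Φ (cp γ σ) (mv γ '' s) (mv γ '' s') := by
  refine ⟨?_, ?_, ?_, fun A hA hcl => ?_⟩
  · rintro _ ⟨F, hF, rfl⟩
    exact (h.fst F hF).mv H.diag γ
  · rintro _ ⟨F, hF, rfl⟩
    exact (h.snd F hF).mv H.diag γ
  · rintro _ ⟨F, hF, rfl⟩ _ ⟨F', hF', rfl⟩
    rw [dot_mv]
    exact h.orth F hF F' hF'
  · have h1 := h.tr ((omE R Φ γ σ) ⁻¹' A) (hA.preimage (omE R Φ γ σ).surjective)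
      fun F π hF K ω hω => by
        have hLs : ∀ f, f ∈ Ls R Φ σ ↔ f ∘ (omE R Φ γ σ).symm ∈ Ls R Φ (cp γ σ) := by
          intro f
          rw [mem_Ls_cp H.diag γ]
          have h2 : (f ∘ (omE R Φ γ σ).symm) ∘ (omE R Φ γ σ) = f := by
            funext ω
            simp
          rw [h2]
        have h2 := rf_of_equiv (omE R Φ γ σ).symm hLs K
        have h3 : rs R Φ σ F ∘ (omE R Φ γ σ).symm = rs R Φ (cp γ σ) (mv γ F) := by
          rw [← rs_mv (R := R) (Φ := Φ) (σ := σ) (γ := γ) (F := F)]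
          funext ω
          simp
        rw [h3] at h2
        have h4 := hcl (mv γ F) _ (by
          rcases hF with hF | hF
          · exact Or.inl ⟨F, hF, rfl⟩
          · exact Or.inr ⟨F, hF, rfl⟩) h2 _ hω
        rw [Set.mem_preimage]
        simpa using h4
    ext ω
    refine ⟨fun _ => Set.mem_univ _, fun _ => ?_⟩
    have h2 : (omE R Φ γ σ).symm ω ∈ (omE R Φ γ σ) ⁻¹' A := by
      rw [h1]
      exact Set.mem_univ _
    rw [Set.mem_preimage, Equiv.apply_symm_apply] at h2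
    exact h2

private theorem mv_mulVec (δ : ℂ ≃+* ℂ) (A : Matrix ι ι ℂ) (v : ι → ℂ) :
    (A.map δ).mulVec (fun i => δ (v i)) = fun i => δ (A.mulVec v i) := by
  funext i
  rw [Matrix.mulVec, Matrix.mulVec, dotProduct, dotProduct, map_sum]
  exact Finset.sum_congr rfl fun j _ => by rw [Matrix.map_apply, map_mul]

/-- The conjugate matrix. -/
theorem IsDg.unmap (γ : ℂ ≃+* ℂ) {a : Matrix ι ι ℂ}
    (h : IsDg R Φ (cp γ σ) (fun z => γ (ξ (γ.symm z))) a) : IsDg R Φ σ ξ (a.map γ.symm) := by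
  have key : ∀ v : ι → ℂ, (a.map γ.symm).mulVec v = fun i => γ.symm (a.mulVec (fun i => γ (v i)) i) := by
    intro v
    have h1 := mv_mulVec γ.symm a fun i => γ (v i)
    simpa using h1
  refine ⟨fun ω v hv h1 => ?_, fun σ' h1 v hv => ?_⟩
  · rw [key, h.eig (γ ω) _ (conj_mem_HS γ hv) (conj_eig γ h1)]
    funext i
    simp
  · rw [key, h.out (cp γ σ') (fun h2 => h1 ?_) _ (conj_mem_HS γ hv)]
    · funext i
      simp
    · refine RingHom.ext fun x => γ.injective ?_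
      exact congrFun (congrArg (fun f : E →+* ℂ => (f : E → ℂ)) h2) x

theorem IsXi.map (H : IsFrob R Φ) (γ : ℂ ≃+* ℂ) (h : IsXi R Φ σ s s' ξ) :
    IsXi R Φ (cp γ σ) (mv γ '' s) (mv γ '' s') fun z => γ (ξ (γ.symm z)) := by
  have key : ∀ F π', Rf (Ls R Φ (cp γ σ)) (rs R Φ (cp γ σ) (mv γ F)) π' →
      Rf (Ls R Φ σ) (rs R Φ σ F) (((omE R Φ γ σ).trans π').trans (omE R Φ γ σ).symm) := by
    intro F π' K
    have h1 := rf_of_equiv (omE R Φ γ σ) (mem_Ls_cp H.diag γ) K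
    rwa [rs_mv] at h1
  have keyω : ∀ (π' : Equiv.Perm (Om R Φ (cp γ σ))) (ω : Om R Φ (cp γ σ)),
      (((((omE R Φ γ σ).trans π').trans (omE R Φ γ σ).symm) ((omE R Φ γ σ).symm ω) :
        Om R Φ σ) : ℂ) = γ.symm (π' ω) := by
    intro π' ω
    simp only [Equiv.trans_apply, Equiv.apply_symm_apply]
    rfl
  have keyω' : ∀ ω : Om R Φ (cp γ σ), (((omE R Φ γ σ).symm ω : Om R Φ σ) : ℂ) = γ.symm ω :=
    fun ω => rfl
  refine ⟨fun ω hω => ?_, ?_, ?_⟩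
  · exact (map_ne_zero_iff γ γ.injective).2 (h.ne _ (symm_mem_Om hω))
  · rintro _ π' ⟨F, hF, rfl⟩ K ω
    have h2 := h.inn F _ hF (key F π' K) ((omE R Φ γ σ).symm ω)
    rw [keyω, keyω'] at h2
    have h3 := congrArg γ h2
    rw [map_mul, map_mul, RingEquiv.apply_symm_apply, RingEquiv.apply_symm_apply] at h3
    exact h3
  · rintro _ π' ⟨F, hF, rfl⟩ K ω
    have h2 := h.out F _ hF (key F π' K) ((omE R Φ γ σ).symm ω)
    rw [keyω, keyω'] at h2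
    exact congrArg γ h2

theorem IsXn.map (H : IsFrob R Φ) (γ : ℂ ≃+* ℂ) (h : IsXn R Φ σ s s' ξ) :
    IsXn R Φ (cp γ σ) (mv γ '' s) (mv γ '' s') fun z => γ (ξ (γ.symm z)) := by
  refine ⟨h.toIsXi.map H γ, fun a ha => ?_⟩
  have h1 := h.nrm _ (ha.unmap γ)
  have h2 := RingHom.map_det (γ.symm : ℂ →+* ℂ) a
  have h3 : (RingHom.mapMatrix (γ.symm : ℂ →+* ℂ)) a = a.map γ.symm := rfl
  rw [h3, h1] at h2
  have h4 : γ.symm a.det = 1 := h2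
  rw [← γ.apply_symm_apply a.det, h4, map_one]

/-- The automorphism `δ` fixes the roots of unity of order dividing `dm R σ`. -/
def FixMu (R : E →+* Matrix ι ι ℚ) (σ : E →+* ℂ) (δ : ℂ ≃+* ℂ) : Prop :=
  ∀ z : ℂ, z ^ dm R σ = 1 → δ z = z

theorem Stab.om (hδ : Stab σ s s' δ) {ω : ℂ} (hω : ω ∈ Om R Φ σ) : δ ω ∈ Om R Φ σ := by
  have h1 := mem_Om_cp δ hω
  rwa [hδ.1] at h1

theorem exists_eps (H : IsFrob R Φ) (hV : ⨆ σ : E →+* ℂ, HS R σ = ⊤) (hF : Free Φ)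
    (hL : Lat (Ls R Φ σ)) (hs : Dcm R Φ σ s s') (hδ : Stab σ s s' δ) :
    ∃ ζ : ℂ, Eps R Φ σ s s' δ ζ ∧ ζ ^ dm R σ = 1 := by
  obtain ⟨ξ, h⟩ := exists_xn H hV hF hL hs
  have h1 := h.map H δ
  rw [hδ.1, hδ.2.1, hδ.2.2] at h1
  obtain ⟨ζ, hζ, h2⟩ := IsXn.unique H hV hs h h1
  refine ⟨ζ, ⟨ξ, h, fun ω hω => ?_⟩, hζ⟩
  have h3 := h2 (δ ω) (hδ.om hω)
  rwa [RingEquiv.symm_apply_apply] at h3

/-- The constant does not depend on the function `ξ`. -/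
theorem eps_any (H : IsFrob R Φ) (hV : ⨆ σ : E →+* ℂ, HS R σ = ⊤) (hs : Dcm R Φ σ s s')
    (hδ : Stab σ s s' δ) (hm : FixMu R σ δ) (h : Eps R Φ σ s s' δ ζ) (hξ : IsXn R Φ σ s s' ξ) :
    ∀ ω ∈ Om R Φ σ, δ (ξ ω) = ζ * ξ (δ ω) := by
  obtain ⟨ξ₁, h1, h2⟩ := h
  obtain ⟨η, hη, h3⟩ := IsXn.unique H hV hs h1 hξ
  intro ω hω
  rw [h3 ω hω, h3 _ (hδ.om hω), map_mul, hm η hη, h2 ω hω]
  ring

theorem Eps.unique (H : IsFrob R Φ) (hV : ⨆ σ : E →+* ℂ, HS R σ = ⊤) (hs : Dcm R Φ σ s s')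
    (hδ : Stab σ s s' δ) (hm : FixMu R σ δ) (h : Eps R Φ σ s s' δ ζ)
    (h' : Eps R Φ σ s s' δ ζ') : ζ = ζ' := by
  obtain ⟨ξ, h1, h2⟩ := h
  have h3 := eps_any H hV hs hδ hm h' h1
  obtain ⟨ω, hω⟩ := om_nonempty H σ
  have h4 := h2 ω hω
  rw [h3 ω hω] at h4
  exact (mul_right_cancel₀ (h1.ne _ (hδ.om hω)) h4).symm

theorem Eps.one (H : IsFrob R Φ) (hV : ⨆ σ : E →+* ℂ, HS R σ = ⊤) (hF : Free Φ)
    (hL : Lat (Ls R Φ σ)) (hs : Dcm R Φ σ s s') : Eps R Φ σ s s' 1 1 := by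
  obtain ⟨ξ, h⟩ := exists_xn H hV hF hL hs
  exact ⟨ξ, h, fun ω _ => (one_mul _).symm⟩

theorem Eps.root (H : IsFrob R Φ) (hV : ⨆ σ : E →+* ℂ, HS R σ = ⊤) (hs : Dcm R Φ σ s s')
    (hδ : Stab σ s s' δ) (h : Eps R Φ σ s s' δ ζ) : ζ ^ dm R σ = 1 := by
  obtain ⟨ξ, h1, h2⟩ := h
  have h3 := h1.map H δ
  rw [hδ.1, hδ.2.1, hδ.2.2] at h3
  obtain ⟨η, hη, h4⟩ := IsXn.unique H hV hs h1 h3
  obtain ⟨ω, hω⟩ := om_nonempty H σ
  have h5 := h4 (δ ω) (hδ.om hω)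
  rw [RingEquiv.symm_apply_apply, h2 ω hω] at h5
  rw [mul_right_cancel₀ (h1.ne _ (hδ.om hω)) h5, hη]

theorem Eps.mul (H : IsFrob R Φ) (hV : ⨆ σ : E →+* ℂ, HS R σ = ⊤) (hs : Dcm R Φ σ s s')
    (hδ : Stab σ s s' δ) (hδ' : Stab σ s s' δ') (hm : FixMu R σ δ)
    (h : Eps R Φ σ s s' δ ζ) (h' : Eps R Φ σ s s' δ' ζ') :
    Eps R Φ σ s s' (δ * δ') (ζ * ζ') := by
  have hζ := Eps.root H hV hs hδ' h'
  obtain ⟨ξ, h1, h2⟩ := h'
  have h3 := eps_any H hV hs hδ hm h h1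
  refine ⟨ξ, h1, fun ω hω => ?_⟩
  change δ (δ' (ξ ω)) = ζ * ζ' * ξ (δ (δ' ω))
  rw [h2 ω hω, map_mul, hm ζ' hζ, h3 _ (hδ'.om hω)]
  ring

theorem Stab.one : Stab σ s s' (1 : ℂ ≃+* ℂ) :=
  ⟨rfl, (Set.image_congr fun F _ => (mv_one : mv 1 F = F)).trans (Set.image_id' _),
    (Set.image_congr fun F _ => (mv_one : mv 1 F = F)).trans (Set.image_id' _)⟩

theorem Stab.mul (hδ : Stab σ s s' δ) (hδ' : Stab σ s s' δ') : Stab σ s s' (δ * δ') := by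
  refine ⟨?_, ?_, ?_⟩
  · rw [cp_mul, hδ'.1, hδ.1]
  · have h1 : mv (δ * δ') '' s = mv δ '' (mv δ' '' s) := by
      rw [Set.image_image]
      rfl
    rw [h1, hδ'.2.1, hδ.2.1]
  · have h1 : mv (δ * δ') '' s' = mv δ '' (mv δ' '' s') := by
      rw [Set.image_image]
      rfl
    rw [h1, hδ'.2.2, hδ.2.2]

theorem Stab.pow (hδ : Stab σ s s' δ) : ∀ k : ℕ, Stab σ s s' (δ ^ k)
  | 0 => by
    rw [pow_zero]
    exact Stab.one
  | k + 1 => by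
    rw [pow_succ]
    exact (Stab.pow hδ k).mul hδ

theorem FixMu.mul (hm : FixMu R σ δ) (hm' : FixMu R σ δ') : FixMu R σ (δ * δ') := fun z hz => by
  change δ (δ' z) = z
  rw [hm' z hz, hm z hz]

theorem FixMu.pow (hm : FixMu R σ δ) : ∀ k : ℕ, FixMu R σ (δ ^ k)
  | 0 => fun z _ => rfl
  | k + 1 => by
    rw [pow_succ]
    exact (FixMu.pow hm k).mul hm

theorem Eps.pow (H : IsFrob R Φ) (hV : ⨆ σ : E →+* ℂ, HS R σ = ⊤) (hs : Dcm R Φ σ s s')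
    (hδ : Stab σ s s' δ) (hm : FixMu R σ δ) (h : Eps R Φ σ s s' δ ζ) (k : ℕ) :
    Eps R Φ σ s s' (δ ^ k) (ζ ^ k) := by
  induction k with
  | zero =>
    obtain ⟨ξ, h1, -⟩ := h
    rw [pow_zero, pow_zero]
    exact ⟨ξ, h1, fun ω _ => (one_mul _).symm⟩
  | succ k ih =>
    rw [pow_succ, pow_succ]
    exact Eps.mul H hV hs (hδ.pow k) hδ (hm.pow k) ih h

theorem Eps.conj (H : IsFrob R Φ) (g : ℂ ≃+* ℂ) (h : Eps R Φ σ s s' δ ζ) :
    Eps R Φ (cp g σ) (mv g '' s) (mv g '' s') (g * δ * g⁻¹) (g ζ) := by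
  obtain ⟨ξ, h1, h2⟩ := h
  refine ⟨_, h1.map H g, fun ω hω => ?_⟩
  have h3 := h2 (g.symm ω) (symm_mem_Om hω)
  change g (δ (g.symm (g (ξ (g.symm ω))))) = g ζ * g (ξ (g.symm (g (δ (g.symm ω)))))
  rw [RingEquiv.symm_apply_apply, RingEquiv.symm_apply_apply, h3, map_mul]

theorem Stab.conj (g : ℂ ≃+* ℂ) (h : Stab σ s s' δ) :
    Stab (cp g σ) (mv g '' s) (mv g '' s') (g * δ * g⁻¹) := by
  have key : ∀ t : Set (ℂ → ℚ), mv δ '' t = t → mv (g * δ * g⁻¹) '' (mv g '' t) = mv g '' t := by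
    intro t ht
    have h1 : mv (g * δ * g⁻¹) '' (mv g '' t) = mv g '' (mv δ '' t) := by
      rw [Set.image_image, Set.image_image]
      refine Set.image_congr fun F _ => ?_
      rw [← mv_mul, ← mv_mul, inv_mul_cancel_right]
    rw [h1, ht]
  refine ⟨?_, key s h.2.1, key s' h.2.2⟩
  rw [← cp_mul, inv_mul_cancel_right, cp_mul, h.1]

/-- The values are algebraic numbers. -/
theorem IsXi.alg_quot (H : IsFrob R Φ) (hs : Dcm R Φ σ s s') (h : IsXi R Φ σ s s' ξ) {μ ν : ℂ}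
    (hμ : μ ∈ Om R Φ σ) (hν : ν ∈ Om R Φ σ) : IsAlgebraic ℚ (ξ ν * (ξ μ)⁻¹) := by
  have h1 : {ω : Om R Φ σ | IsAlgebraic ℚ (ξ ω * (ξ μ)⁻¹)} = Set.univ := by
    refine hs.tr _ ⟨⟨μ, hμ⟩, ?_⟩ fun F π hF K ω hω => ?_
    · rw [Set.mem_ofPred_eq, mul_inv_cancel₀ (h.ne μ hμ)]
      exact isAlgebraic_one
    · rw [Set.mem_ofPred_eq] at hω ⊢
      rcases hF with hF | hF
      · have h2 := h.inn F π hF K ω
        have h4 : (ω : ℂ) ≠ 0 := eig_ne H ω.2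
        have h5 : ξ (π ω) * (ξ μ)⁻¹ = (ξ ω * (ξ μ)⁻¹) * ((π ω : ℂ) * (ω : ℂ)⁻¹) := by
          have h6 : ξ (π ω) = ξ ω * (π ω : ℂ) * (ω : ℂ)⁻¹ := by
            rw [h2, mul_assoc, mul_inv_cancel₀ h4, mul_one]
          rw [h6]
          ring
        rw [h5]
        exact hω.mul ((eig_alg (π ω).2).mul (eig_alg ω.2).inv)
      · rw [← h.out F π hF K ω]
        exact hω
  have h3 : (⟨ν, hν⟩ : Om R Φ σ) ∈ {ω : Om R Φ σ | IsAlgebraic ℚ (ξ ω * (ξ μ)⁻¹)} := by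
    rw [h1]
    exact Set.mem_univ _
  exact h3

end Pool.Agent.FQX
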