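import Pool.Agent.FQX.Gen
import Pool.Agent.FQX.Xi

/-!
# The value of `eps` for automorphisms over which `Φ` decomposes
-/

set_option autoImplicit false
set_option linter.unusedSectionVars false

namespace Pool.Agent.FQX

open Module
open Pool.Agent.CoprimeSig (ratM)
open Pool.Agent.FQV
open Pool.Agent.FQ (expG IsExp)

variable {ι : Type} [Fintype ι] [DecidableEq ι] {E : Type} [CommRing E] [Algebra ℚ E]
  [Module.Finite ℚ E] [IsReduced E]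
  {R : E →+* Matrix ι ι ℚ} {Φ : Matrix ι ι ℚ} {σ : E →+* ℂ} {c : E → E}
  {g : Submodule ℂ (Matrix ι ι ℂ)} {ψ : Matrix ι ι ℂ} {s s' : Set (ℂ → ℚ)}

/-- The points of the monodromy group: the group generated by the exponentials of the nilpotent elements
of its Lie algebra `g` and by the points `1 + (z - 1) e` of the one-parameter subgroups given by the
idempotents `e` of the torus. -/
def Grp (g : Submodule ℂ (Matrix ι ι ℂ)) (Φ : Matrix ι ι ℚ) : Subgroup (Matrix ι ι ℂ)ˣ :=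
  Subgroup.closure {u | (∃ N ∈ g, IsExp ℂ N (u : Matrix ι ι ℂ)) ∨
    ∃ e ∈ tor Φ, e * e = e ∧ ∃ z : ℂ, (u : Matrix ι ι ℂ) = 1 + (z - 1) • e}

/-- The group generated by the exponentials of the nilpotent elements of `g` fixed by `τ`. -/
def ExpT (g : Submodule ℂ (Matrix ι ι ℂ)) (τ : ℂ ≃+* ℂ) : Subgroup (Matrix ι ι ℂ)ˣ :=
  Subgroup.closure {u | ∃ N ∈ g, N.map τ = N ∧ IsExp ℂ N (u : Matrix ι ι ℂ)}

/-- Every idempotent of the torus is orthogonal to `s` or to `s'`. -/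
def One (R : E →+* Matrix ι ι ℚ) (Φ : Matrix ι ι ℚ) (σ : E →+* ℂ) (s s' : Set (ℂ → ℚ)) : Prop :=
  ∀ e ∈ tor Φ, e * e = e → (∀ F ∈ s', rs R Φ σ (ev Φ e) ⬝ᵥ rs R Φ σ F = 0) ∨
    ∀ F ∈ s, rs R Φ σ (ev Φ e) ⬝ᵥ rs R Φ σ F = 0

/-- PACKAGE. `FQA.one_comp` (see its use in `FQA/Touch.lean`), `lat M H hI σ`, `ev_mem`, `ev_or`. -/
theorem one_cmp (M : Mono R c Φ g ψ) (H : IsFrob R Φ) (hI : Idem Φ) (hs : IsCmp R Φ σ s) :
    One R Φ σ s {F | Rts R Φ σ F ∧ F ∉ s} := by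
  intro e he hee
  obtain ⟨F₀, -, rfl⟩ := hs
  by_cases h : ∀ F ∈ cmp R Φ σ F₀, rs R Φ σ (ev Φ e) ⬝ᵥ rs R Φ σ F = 0
  · exact Or.inr h
  push Not at h
  obtain ⟨F₁, ⟨hF₁, hc⟩, h1⟩ := h
  refine Or.inl fun F hF => ?_
  by_contra h0
  refine hF.2 ⟨hF.1, ?_⟩
  exact Pool.Agent.FQA.one_comp (lat M H hI σ) (ev_mem he hee) (fun ω => ev_or Φ e ω)
    (Pool.Agent.FQA.Cn (Ls R Φ σ) (rs R Φ σ F₀)) (Pool.Agent.FQA.Cn.stb _) hF₁.rt hc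
    (by rwa [dotProduct_comm]) hF.1.rt (by rwa [dotProduct_comm])

private theorem blk_grp_one {ι : Type} [Fintype ι] [DecidableEq ι] {e : Matrix ι ι ℂ}
    (hee : e * e = e) {x : (Matrix ι ι ℂ)ˣ} (hx : (x : Matrix ι ι ℂ) = 1 - e) : x = 1 := by
  have h1 : x * x = x * 1 := by
    apply Units.ext
    rw [mul_one, Units.val_mul, hx]
    calc (1 - e) * (1 - e) = 1 - e - e + e * e := by noncomm_ring
      _ = 1 - e := by
        rw [hee]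
        abel
  exact mul_left_cancel h1

/-- Every point has a block part. PACKAGE. `Subgroup.closure_induction`: `blk_exp`; for an idempotent
`e ∈ tor Φ`: `tor_G1` and `blk_co1` (`κ ^ dm R σ = (z ^ ρ)⁻¹`; `z ≠ 0` or `e = 0`) or `tor_G2` and `blk_co2`. -/
theorem blk_grp (M : Mono R c Φ g ψ) (H : IsFrob R Φ) (hI : Idem Φ) (hD : Dcm R Φ σ s s')
    (hA : Act g R Φ σ s s') (hO : One R Φ σ s s') {x : (Matrix ι ι ℂ)ˣ} (hx : x ∈ Grp g Φ) :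
    ∃ a, Blk g R Φ σ s' x a := by
  have hS := sum_G M H hI hD hA
  refine Subgroup.closure_induction (p := fun x _ => ∃ a, Blk g R Φ σ s' x a) ?_ ?_ ?_ ?_ hx
  · rintro x (⟨N, hN, hx⟩ | ⟨e, he, hee, z, hz⟩)
    · obtain ⟨a, ha, -⟩ := blk_exp M H hI hS hN hx
      exact ⟨a, ha⟩
    · rcases hO e he hee with h0 | h0
      · by_cases hz0 : z = 0
        · have hx1 : x = 1 := blk_grp_one hee (by
            rw [hz, hz0, zero_sub, neg_smul, one_smul, sub_eq_add_neg])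
          rw [hx1]
          exact ⟨1, Blk.one⟩
        · obtain ⟨ρ, -, -, -, h1⟩ := blk_co1 M H.inj (tor_G1 M H hI hD hA he hee h0) hee
          obtain ⟨κ, hκ⟩ := IsAlgClosed.exists_pow_nat_eq ((z ^ ρ)⁻¹) (dm_pos H σ)
          obtain ⟨a, ha, -⟩ := h1 z κ x hz (by rw [hκ, inv_mul_cancel₀ (pow_ne_zero _ hz0)])
          exact ⟨a, ha⟩
      · exact ⟨1, blk_co2 M (tor_G2 M H hI hD hA he hee h0) hee hz⟩
  · exact ⟨1, Blk.one⟩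
  · rintro x y _ _ ⟨a, ha⟩ ⟨b, hb⟩
    exact ⟨a * b, ha.mul M hb⟩
  · rintro x _ ⟨a, ha⟩
    exact ⟨a⁻¹, ha.inv M⟩

/-- The data over the fixed field of `τ`: `Φ = y * x ^ m * u`. -/
structure Dec (g : Submodule ℂ (Matrix ι ι ℂ)) (Φ : Matrix ι ι ℚ) (τ : ℂ ≃+* ℂ) (m : ℕ)
    (y : (Matrix ι ι ℂ)ˣ) : Prop where
  inv : Inv g τ
  dec : ∃ x ∈ Grp g Φ, ((x : (Matrix ι ι ℂ)ˣ) : Matrix ι ι ℂ).map τ = x ∧ ∃ u ∈ ExpT g τ,
    ratM Φ = ((y * x ^ m * u : (Matrix ι ι ℂ)ˣ) : Matrix ι ι ℂ)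

/-- PACKAGE. `Dl.exists` for `x` (`blk_grp`): `Dl x ζ`, `ζ ^ dm R σ = 1`, so `ζ ^ m = 1`; `Dl.pow`, `Dl.mul`, `dl_expG`. -/
theorem dl_dec (M : Mono R c Φ g ψ) (H : IsFrob R Φ) (hI : Idem Φ) (hD : Dcm R Φ σ s s')
    (hA : Act g R Φ σ s s') (hO : One R Φ σ s s') {τ : ℂ ≃+* ℂ} (hτ : Stab σ s s' τ) {m : ℕ}
    (hm : dm R σ ∣ m) {y : (Matrix ι ι ℂ)ˣ} (hdec : Dec g Φ τ m y) {ζ : ℂ}
    (hy : Dl g R Φ σ s' τ y ζ) :
    ∃ t : (Matrix ι ι ℂ)ˣ, (t : Matrix ι ι ℂ) = ratM Φ ∧ Dl g R Φ σ s' τ t ζ := by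
  have hS := sum_G M H hI hD hA
  obtain ⟨x, hx, hxτ, u, hu, hΦ⟩ := hdec.dec
  obtain ⟨a, ha⟩ := blk_grp M H hI hD hA hO hx
  obtain ⟨ζ', hζ', hx'⟩ := Dl.exists M H hI hS hτ hdec.inv ha hxτ
  have h1 := Dl.pow M hdec.inv hx' m
  have h2 : ζ' ^ m = 1 := by
    obtain ⟨k, rfl⟩ := hm
    rw [pow_mul, hζ', one_pow]
  rw [h2] at h1
  have h3 := Dl.mul M hdec.inv hy h1
  have h4 := dl_expG M H hI hS hτ hdec.inv hu
  have h5 := Dl.mul M hdec.inv h3 h4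
  rw [mul_one, mul_one] at h5
  exact ⟨y * x ^ m * u, hΦ.symm, h5⟩

/-- **`eps = 1` if `Φ` is the product of an `m`-th power and exponentials.** PACKAGE. `dl_dec` with `y = 1`,
`dl_frob` (`hn` is `Blk.nrm` of the block part of `t`), `Dl.unique`. -/
theorem eps_one (M : Mono R c Φ g ψ) (H : IsFrob R Φ) (hI : Idem Φ) (hD : Dcm R Φ σ s s')
    (hA : Act g R Φ σ s s') (hO : One R Φ σ s s') {τ : ℂ ≃+* ℂ} (hτ : Stab σ s s' τ) {m : ℕ}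
    (hm : dm R σ ∣ m) (hfix : ∀ z : ℂ, z ^ m = 1 → τ z = z) (hdec : Dec g Φ τ m 1) {ζ : ℂ}
    (h : Eps R Φ σ s s' τ ζ) : ζ = 1 := by
  have hS := sum_G M H hI hD hA
  obtain ⟨t, ht, h1⟩ := dl_dec M H hI hD hA hO hτ hm hdec (Dl.one (g := g) (R := R) (Φ := Φ)
    (σ := σ) (s' := s') (τ := τ))
  obtain ⟨a, ha, -⟩ := id h1
  have h2 := dl_frob M H hI hD hA hτ h ht ha.nrm
  refine Dl.unique M H hI hS hτ.1 (fun z hz => hfix z ?_) h2 h1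
  obtain ⟨k, rfl⟩ := hm
  rw [pow_mul, hz, one_pow]

/-- **`eps = 1` if the idempotent does not touch `s`.** PACKAGE. `e₁ = w e w⁻¹` is in `G2` (`tor_G2`, `FQ.conj_mem`,
`G2_ideal`), `blk_co2`, `dl_dec`, `dl_frob`, `Dl.unique`. -/
theorem eps_out (M : Mono R c Φ g ψ) (H : IsFrob R Φ) (hI : Idem Φ) (hD : Dcm R Φ σ s s')
    (hA : Act g R Φ σ s s') (hO : One R Φ σ s s') {τ : ℂ ≃+* ℂ} (hτ : Stab σ s s' τ) {m : ℕ}
    (hm : dm R σ ∣ m) (hfix : ∀ z : ℂ, z ^ m = 1 → τ z = z) {y : (Matrix ι ι ℂ)ˣ}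
    (hdec : Dec g Φ τ m y) {z : ℂ} {e : Matrix ι ι ℂ} {e₁ : Matrix ι ι ℂ}
    (he : e ∈ tor Φ) (hee : e * e = e) (hw : ∃ u ∈ expG ℂ g,
      e₁ = (u : Matrix ι ι ℂ) * e * ((u⁻¹ : (Matrix ι ι ℂ)ˣ) : Matrix ι ι ℂ))
    (hy : (y : Matrix ι ι ℂ) = 1 + (z - 1) • e₁)
    (h0 : ∀ F ∈ s, rs R Φ σ (ev Φ e) ⬝ᵥ rs R Φ σ F = 0) {ζ : ℂ}
    (h : Eps R Φ σ s s' τ ζ) : ζ = 1 := by
  obtain ⟨u, hu, rfl⟩ := hw
  have hS := sum_G M H hI hD hA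
  have he2 : e ∈ G2 g R Φ σ s' := tor_G2 M H hI hD hA he hee h0
  have he1 : (u : Matrix ι ι ℂ) * e * ((u⁻¹ : (Matrix ι ι ℂ)ˣ) : Matrix ι ι ℂ) ∈
      G2 g R Φ σ s' := FQ.conj_mem (fun x hx b hb => G2_ideal M hx hb) hu he2
  have hee1 : (u : Matrix ι ι ℂ) * e * ((u⁻¹ : (Matrix ι ι ℂ)ˣ) : Matrix ι ι ℂ) *
      ((u : Matrix ι ι ℂ) * e * ((u⁻¹ : (Matrix ι ι ℂ)ˣ) : Matrix ι ι ℂ)) =
      (u : Matrix ι ι ℂ) * e * ((u⁻¹ : (Matrix ι ι ℂ)ˣ) : Matrix ι ι ℂ) := by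
    simp only [mul_assoc, Units.inv_mul_cancel_left]
    rw [← mul_assoc e e, hee]
  have hb := blk_co2 M he1 hee1 hy
  have hDy : Dl g R Φ σ s' τ y 1 := ⟨1, hb, by
    rw [Units.val_one, Matrix.map_one τ (map_zero τ) (map_one τ), one_smul]
    exact EqOn.refl⟩
  obtain ⟨t, ht, hDt⟩ := dl_dec M H hI hD hA hO hτ hm hdec hDy
  obtain ⟨a, ha, -⟩ := id hDt
  have hDf := dl_frob M H hI hD hA hτ h ht ha.nrm
  refine Dl.unique M H hI hS hτ.1 (fun w hw => hfix w ?_) hDf hDt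
  obtain ⟨k, rfl⟩ := hm
  rw [pow_mul, hw, one_pow]

private theorem cc_expG_keyE {u : (Matrix ι ι ℂ)ˣ} (hu : u ∈ expG ℂ g) :
    CC g (u : Matrix ι ι ℂ) := by
  unfold expG at hu
  induction hu using Subgroup.closure_induction with
  | mem x hx =>
    obtain ⟨N, hN, k, -, hx⟩ := hx
    intro Z hZ
    have h1 : Commute N Z := hZ N hN
    rw [hx, Finset.sum_mul, Finset.mul_sum]
    refine Finset.sum_congr rfl fun i _ => ?_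
    rw [smul_mul_assoc, mul_smul_comm, (h1.pow_left i).eq]
  | one =>
    rw [Units.val_one]
    exact CC.one
  | mul x y _ _ hx hy =>
    rw [Units.val_mul]
    exact hx.mul hy
  | inv x _ hx => exact hx.inv

/-- **`eps ≠ 1` if the idempotent touches `s`.** PACKAGE. `e₁` is in `G1` (`tor_G1`, `FQ.conj_mem`, `G1_ideal`). Let
`m = dm R σ * m'`, `ρ` from `blk_co1` for `e₁`, `κ = (r ^ (m' * ρ))⁻¹`, `a = κ y` on `HS R σ`. `τ z = z` (`z = r ^ m`), so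
`y.map τ = y` and `a.map τ = (τ κ) y = (τ κ / κ) a`, `τ κ / κ = (η ^ (m' * ρ))⁻¹`. This is not `1`: otherwise `m ∣ m' * ρ`
(`IsPrimitiveRoot.pow_eq_one_iff_dvd`), so `dm R σ ∣ ρ ≤ dm R σ`, `ρ = 0` or `ρ = dm R σ`, and `e₁`, hence `e` (conjugate; the
double commutant preserves `HS R σ`), is a scalar on `HS R σ`, a contradiction to `hns`. `dl_dec`, `dl_frob`,
`Dl.unique`. -/
theorem eps_in (M : Mono R c Φ g ψ) (H : IsFrob R Φ) (hI : Idem Φ) (hD : Dcm R Φ σ s s')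
    (hA : Act g R Φ σ s s') (hO : One R Φ σ s s') {τ : ℂ ≃+* ℂ} (hτ : Stab σ s s' τ) {m : ℕ}
    (hm0 : m ≠ 0) (hm : dm R σ ∣ m) (hfix : ∀ z : ℂ, z ^ m = 1 → τ z = z)
    {y : (Matrix ι ι ℂ)ˣ} (hdec : Dec g Φ τ m y) {z r η : ℂ} (hr : r ^ m = z) (hr0 : r ≠ 0)
    (hη : IsPrimitiveRoot η m) (hτr : τ r = η * r) {e : Matrix ι ι ℂ} {e₁ : Matrix ι ι ℂ}
    (he : e ∈ tor Φ) (hee : e * e = e) (hw : ∃ u ∈ expG ℂ g,
      e₁ = (u : Matrix ι ι ℂ) * e * ((u⁻¹ : (Matrix ι ι ℂ)ˣ) : Matrix ι ι ℂ))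
    (he₁ : e₁.map τ = e₁) (hy : (y : Matrix ι ι ℂ) = 1 + (z - 1) • e₁) (hns : Ns R Φ e σ)
    (h0 : ∀ F ∈ s', rs R Φ σ (ev Φ e) ⬝ᵥ rs R Φ σ F = 0) {ζ : ℂ}
    (h : Eps R Φ σ s s' τ ζ) : ζ ≠ 1 := by
  intro hζ
  subst hζ
  obtain ⟨u, hu, hue⟩ := hw
  have he1 : e ∈ G1 g R Φ σ s' := tor_G1 M H hI hD hA he hee h0
  have he₁' : e₁ ∈ G1 g R Φ σ s' := by
    rw [hue]
    exact Pool.Agent.FQ.conj_mem (fun x hx y hy => G1_ideal hx hy) hu he1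
  have hui : ((u⁻¹ : (Matrix ι ι ℂ)ˣ) : Matrix ι ι ℂ) * (u : Matrix ι ι ℂ) = 1 := Units.inv_mul u
  have hee₁ : e₁ * e₁ = e₁ := by
    rw [hue]
    calc (u : Matrix ι ι ℂ) * e * ((u⁻¹ : (Matrix ι ι ℂ)ˣ) : Matrix ι ι ℂ) *
        ((u : Matrix ι ι ℂ) * e * ((u⁻¹ : (Matrix ι ι ℂ)ˣ) : Matrix ι ι ℂ)) =
        (u : Matrix ι ι ℂ) * (e * (((u⁻¹ : (Matrix ι ι ℂ)ˣ) : Matrix ι ι ℂ) *
          (u : Matrix ι ι ℂ)) * e) * ((u⁻¹ : (Matrix ι ι ℂ)ˣ) : Matrix ι ι ℂ) := by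
          simp only [mul_assoc]
      _ = (u : Matrix ι ι ℂ) * e * ((u⁻¹ : (Matrix ι ι ℂ)ˣ) : Matrix ι ι ℂ) := by
        rw [hui, mul_one, hee]
  obtain ⟨ρ, hρ, hρ0, hρ1, hbl⟩ := blk_co1 M H.inj he₁' hee₁
  have hd : 0 < dm R σ := dm_pos H σ
  obtain ⟨m', hm'⟩ := hm
  have hm'0 : m' ≠ 0 := by
    rintro rfl
    exact hm0 (by rw [hm', mul_zero])
  have hκ : ((r ^ (m' * ρ))⁻¹) ^ dm R σ * z ^ ρ = 1 := by
    have h1 : m' * ρ * dm R σ = m * ρ := by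
      rw [hm']
      ring
    rw [inv_pow, ← pow_mul, ← hr, ← pow_mul, h1, inv_mul_cancel₀ (pow_ne_zero _ hr0)]
  obtain ⟨a, ha, hay⟩ := hbl z _ y hy hκ
  have hτz : τ z = z := by
    rw [← hr, map_pow, hτr, mul_pow, hη.pow_eq_one, one_mul]
  have hyτ : ∀ i j, τ ((y : Matrix ι ι ℂ) i j) = (y : Matrix ι ι ℂ) i j := by
    intro i j
    have h1 : τ (e₁ i j) = e₁ i j := congrFun (congrFun he₁ i) j
    have h2 : τ ((1 : Matrix ι ι ℂ) i j) = (1 : Matrix ι ι ℂ) i j := by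
      by_cases hij : i = j
      · subst hij
        rw [Matrix.one_apply_eq, map_one]
      · rw [Matrix.one_apply_ne hij, map_zero]
    rw [hy, Matrix.add_apply, Matrix.smul_apply, map_add, smul_eq_mul, map_mul, h1, h2, map_sub,
      hτz, map_one]
  have hκτ : τ ((r ^ (m' * ρ))⁻¹) = (η ^ (m' * ρ))⁻¹ * (r ^ (m' * ρ))⁻¹ := by
    rw [map_inv₀, map_pow, hτr, mul_pow, mul_inv]
  have hDl : Dl g R Φ σ s' τ y (η ^ (m' * ρ))⁻¹ := by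
    refine ⟨a, ha, ?_⟩
    have h1 := hay.map τ
    rw [hτ.1] at h1
    have h2 : ((r ^ (m' * ρ))⁻¹ • (y : Matrix ι ι ℂ)).map τ =
        (η ^ (m' * ρ))⁻¹ • ((r ^ (m' * ρ))⁻¹ • (y : Matrix ι ι ℂ)) := by
      ext i j
      rw [Matrix.map_apply, Matrix.smul_apply, Matrix.smul_apply, Matrix.smul_apply, smul_eq_mul,
        smul_eq_mul, map_mul, hyτ, hκτ, mul_assoc]
    rw [h2] at h1
    exact h1.trans (hay.symm.smul _)
  obtain ⟨t, ht, hDt⟩ := dl_dec M H hI hD hA hO hτ ⟨m', hm'⟩ hdec hDl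
  have hn : ∀ x ∈ G1 g R Φ σ s',
      (t : Matrix ι ι ℂ) * x * ((t⁻¹ : (Matrix ι ι ℂ)ˣ) : Matrix ι ι ℂ) ∈ G1 g R Φ σ s' ∧
      ((t⁻¹ : (Matrix ι ι ℂ)ˣ) : Matrix ι ι ℂ) * x * (t : Matrix ι ι ℂ) ∈ G1 g R Φ σ s' := by
    obtain ⟨b, hb, -⟩ := hDt
    exact hb.nrm
  have hDf := dl_frob M H hI hD hA hτ h ht hn
  have hz := Dl.unique M H hI (sum_G M H hI hD hA) hτ.1
    (fun x hx => hfix x (by rw [hm', pow_mul, hx, one_pow])) hDt hDf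
  rw [inv_eq_one] at hz
  have h2 : m ∣ m' * ρ := (hη.pow_eq_one_iff_dvd _).1 hz
  rw [hm', mul_comm (dm R σ) m'] at h2
  have h3 : dm R σ ∣ ρ := Nat.dvd_of_mul_dvd_mul_left (Nat.pos_of_ne_zero hm'0) h2
  have h5 : e = ((u⁻¹ : (Matrix ι ι ℂ)ˣ) : Matrix ι ι ℂ) * e₁ * (u : Matrix ι ι ℂ) := by
    rw [hue]
    calc e = (((u⁻¹ : (Matrix ι ι ℂ)ˣ) : Matrix ι ι ℂ) * (u : Matrix ι ι ℂ)) * e *
          (((u⁻¹ : (Matrix ι ι ℂ)ˣ) : Matrix ι ι ℂ) * (u : Matrix ι ι ℂ)) := by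
          rw [hui, one_mul, mul_one]
      _ = _ := by simp only [mul_assoc]
  have hev : ∀ k : ℂ, EqOn R σ e₁ (k • 1) → ∀ v ∈ HS R σ, e.mulVec v = k • v := by
    intro k hk v hv
    have h6 := hk _ ((cc_expG_keyE hu).hs M hv)
    rw [h5, ← Matrix.mulVec_mulVec, ← Matrix.mulVec_mulVec, h6, Matrix.smul_mulVec,
      Matrix.one_mulVec, Matrix.mulVec_smul, Matrix.mulVec_mulVec, hui, Matrix.one_mulVec]
  obtain ⟨μ, ⟨w, hw, hw0, hwμ⟩, ν, ⟨w', hw', hw0', hwν⟩, h6, h7⟩ := hns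
  have h8 := ev_apply he hee hwμ
  have h9 := ev_apply he hee hwν
  rw [h6, Rat.cast_zero, zero_smul] at h8
  rw [h7, Rat.cast_one, one_smul] at h9
  have h10 : ρ = 0 ∨ ρ = dm R σ := by
    rcases Nat.eq_zero_or_pos ρ with h11 | h11
    · exact Or.inl h11
    · exact Or.inr (le_antisymm hρ (Nat.le_of_dvd h11 h3))
  rcases h10 with h11 | h11
  · apply hw0'
    have h12 := hev 0 (by
      rw [zero_smul]
      exact hρ0 h11) w' hw'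
    rwa [h9, zero_smul] at h12
  · apply hw0
    have h12 := hev 1 (by
      rw [one_smul]
      exact hρ1 h11) w hw
    rw [h8, one_smul] at h12
    exact h12.symm

end Pool.Agent.FQX
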