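import Pool.Agent.FQV.Full
import Pool.Agent.FQV.Eight
import Pool.Agent.FQV.Final
import Pool.Agent.FQV.Spec

/-!
# The main theorem for connected roots

Variant of `Pool/Agent/FQV/Main.lean`: the conclusion of `main`, from the connectedness of the roots
of the lattices (`hcn`) and the absence of roots without zeros in dimension eight (symplectic) and
four (orthogonal) (`hfl`), for the homomorphisms `σ` with `Cd σ`.
-/

set_option autoImplicit false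
set_option linter.unusedSectionVars false

namespace Pool.Agent.FQX

open Module
open Pool.Agent.FQV
open Pool.Agent.CoprimeSig (ratM)
open Pool.Agent.FQA (TD Cn Fl)
open Pool.Agent.NumRank (Lv)
open Pool.Agent.PrimePow.CC (Rf Rt Lat)
open Pool.Agent.FQ (expG fixG)

variable {ι : Type} [Fintype ι] [DecidableEq ι] {E : Type} [CommRing E]
  {R : E →+* Matrix ι ι ℚ} {Φ : Matrix ι ι ℚ} {c : E → E}

/-- The types: the irreducible subspaces of the eigenspace for a real homomorphism `σ` are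
symplectic if `sp σ`, else orthogonal. -/
def TypD (R : E →+* Matrix ι ι ℚ) (sp : (E →+* ℂ) → Prop) (g : Submodule ℂ (Matrix ι ι ℂ))
    (ψ : Matrix ι ι ℂ) : Prop :=
  ∀ σ : E →+* ℂ, Rl σ → ∀ W ≤ HS R σ, Irr g W → (sp σ → SympOn g ψ W) ∧ (¬ sp σ → OrthOn g ψ W)

/-- The numerical conditions which remain if the roots are connected. -/
def NumD (n r : (E →+* ℂ) → ℕ) (sp Cd : (E →+* ℂ) → Prop) (Cj : Prop) : Prop :=
  (∀ σ : E →+* ℂ, n σ = 1 ∨
    (¬ Rl σ ∧ NoTwist n r σ ∧ ((Cd σ ∧ CondU n r σ) ∨ (n σ = 4 ∧ ∃ σ', SK σ σ' ∧ r σ' = 2))) ∨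
    (Rl σ ∧ ((sp σ ∧ n σ = 4) ∨
      (Cd σ ∧ (∀ m : ℕ, 4 ≤ m → n σ ≠ 2 ^ m) ∧ (sp σ ∨ n σ ≠ 8))) ∧
      (Cj ∨ ∀ k : ℕ, 3 ≤ k → (Odd k ↔ sp σ) → n σ ≠ (2 * k).choose k))) ∧
  ∀ σ σ' : E →+* ℂ, ¬ Rl σ → Rl σ' → ¬ sp σ' → n σ = 4 → n σ' = 6 →
    ∃ σ'', SK σ σ'' ∧ r σ'' ≠ 1 ∧ r σ'' ≠ 3

private theorem SK.trans' {σ σ' σ'' : E →+* ℂ} (h : SK σ σ') (h' : SK σ' σ'') : SK σ σ'' :=
  fun a => (h' a).trans (h a)

/-- The restriction of a form to `W`. -/
private noncomputable def rsF (W : Submodule ℂ (ι → ℂ))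
    (θ : (ι → ℂ) →ₗ[ℂ] (ι → ℂ) →ₗ[ℂ] ℂ) : W →ₗ[ℂ] W →ₗ[ℂ] ℂ :=
  θ.compl₁₂ W.subtype W.subtype

private theorem rsF_apply (W : Submodule ℂ (ι → ℂ)) (θ : (ι → ℂ) →ₗ[ℂ] (ι → ℂ) →ₗ[ℂ] ℂ)
    (u w : W) : rsF W θ u w = θ u w := rfl

private theorem rsF_form {σ : E →+* ℂ} {g : Submodule ℂ (Matrix ι ι ℂ)} {ψ : Matrix ι ι ℂ}
    {W : Submodule ℂ (ι → ℂ)} {p : (ι → ℂ) →ₗ[ℂ] W} {v : Basis (Om R Φ σ) ℂ W}
    (F : Frame R Φ g σ W p v) {θ : (ι → ℂ) →ₗ[ℂ] (ι → ℂ) →ₗ[ℂ] ℂ}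
    (hnd : ∀ x ∈ W, (∀ y ∈ W, θ x y = 0) → x = 0)
    (hmul : ∀ x ∈ g, ∀ κ : ℂ, x.transpose * ψ + ψ * x = κ • ψ →
      ∀ u ∈ W, ∀ v ∈ W, θ (x.mulVec u) v + θ u (x.mulVec v) = κ * θ u v) :
    IsForm g ψ p (rsF W θ) := by
  refine ⟨fun x hx => Subtype.ext (hnd x x.2 fun y hy => hx ⟨y, hy⟩), ?_⟩
  intro y hy κ hκ u w
  rw [rsF_apply, rsF_apply, rsF_apply, rm_apply F.prj (F.irr.1 y hy),
    rm_apply F.prj (F.irr.1 y hy)]
  exact hmul y hy κ hκ u u.2 w w.2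

/-- **The main theorem** for connected roots. -/
theorem main_cd [Algebra ℚ E] [Module.Finite ℚ E] [IsReduced E] (H : IsFrob R Φ)
    (hc : ∀ (σ : E →+* ℂ) a, σ (c a) = starRingEnd ℂ (σ a))
    {n r : (E →+* ℂ) → ℕ} {sp Cd : (E →+* ℂ) → Prop}
    (hsk : ∀ σ σ' : E →+* ℂ, SK σ σ' → sp σ → sp σ')
    {τ₀ : ℂ ≃+* ℂ} {g₀ : Submodule ℂ (Matrix ι ι ℂ)} {ψ₀ e₀ : Matrix ι ι ℂ}
    (MT₀ : MonoT R c Φ sp g₀ ψ₀) (C₀ : Coch R Φ r g₀ ψ₀ τ₀ e₀)
    (hspan : tor Φ ≤ Submodule.span ℂ (orbit Φ g₀ e₀))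
    (hdim : ∀ (σ : E →+* ℂ), ∀ W ≤ HS R σ, Irr g₀ W → finrank ℂ W = n σ)
    (hnum : NumD n r sp Cd (HTc (TypD R sp) R c Φ r))
    (hcn : ∀ σ : E →+* ℂ, n σ ≠ 1 → Cd σ →
      ∀ h h', Rt (Ls R Φ σ) h → Rt (Ls R Φ σ) h' → Cn (Ls R Φ σ) h h')
    (hfl8 : ∀ σ : E →+* ℂ, Rl σ → sp σ → n σ = 8 → Cd σ → ∀ k, ¬ Fl (Ls R Φ σ) k)
    (hfl4 : ∀ σ : E →+* ℂ, Rl σ → ¬ sp σ → n σ = 4 → Cd σ → ∀ k, ¬ Fl (Ls R Φ σ) k)
    {g : Submodule ℂ (Matrix ι ι ℂ)} {ψ : Matrix ι ι ℂ}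
    (MT : MonoT R c Φ sp g ψ) (N : Matrix ι ι ℂ) :
    N ∈ g ↔ (∀ Z : Matrix ι ι ℂ, (∀ x ∈ g, x * Z = Z * x) → N * Z = Z * N) ∧
      ∃ a : (ℂ ≃+* ℂ) →₀ ℂ, TrC R r g ψ N a := by
  classical
  have M : Mono R c Φ g ψ := MT.toMono
  have M₀ : Mono R c Φ g₀ ψ₀ := MT₀.toMono
  have hP : TypD R sp g ψ := MT.typ
  have hR : Rk R Φ r := rk_of M₀ H C₀ hspan
  have hI : Idem Φ := hR.tr.idem
  obtain ⟨hcond, hex⟩ := hnum
  have hn : ∀ σ : E →+* ℂ, Fintype.card (Om R Φ σ) = n σ := by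
    intro σ
    obtain ⟨W, p, v, F⟩ := exists_frame M₀ H hI σ
    rw [F.card, hdim σ W F.le F.irr]
  have hn0 : ∀ σ : E →+* ℂ, n σ ≠ 0 := by
    intro σ h0
    obtain ⟨W, p, v, F⟩ := exists_frame M₀ H hI σ
    have hnt := F.nontrivial
    have h1 : 0 < finrank ℂ W := finrank_pos
    rw [← F.card, hn, h0] at h1
    exact lt_irrefl _ h1
  have hnsk : ∀ σ σ' : E →+* ℂ, SK σ σ' → n σ' = n σ := by
    intro σ σ' h
    rw [← hn, ← hn, h.card]
  have hrl : ∀ σ : E →+* ℂ, Rl σ → 2 * r σ = n σ := by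
    intro σ h
    rw [← hn]
    exact r_real M₀ H hI C₀ h
  have hrlsk : ∀ σ σ' : E →+* ℂ, Rl σ → SK σ σ' → Rl σ' := fun σ σ' h h' =>
    real_sk hc h h'
  -- no twists
  have hnt : ∀ σ : E →+* ℂ, n σ ≠ 1 → NoTwist n r σ := by
    intro σ h1
    rcases hcond σ with h2 | ⟨-, h2, -⟩ | ⟨hr, -⟩
    · exact absurd h2 h1
    · exact h2
    · intro σ' _ _ h γ
      have h2 := hrl (cp γ σ) (hrlsk σ _ hr (sk_cp γ σ))
      rw [hnsk σ _ (sk_cp γ σ)] at h2
      have := hn0 σ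
      rcases h γ with h3 | h3 | h3
      · exact h3
      · omega
      · omega
  have hself : ∀ σ : E →+* ℂ, n σ ≠ 1 → n σ ≠ 2 → (∀ σ', SK σ σ' → 2 * r σ' = n σ ∨ r σ' = 0 ∨
      r σ' = n σ) → ∀ σ', SK σ σ' → 2 * r σ' = n σ := by
    intro σ h1 h1' h σ' hsk
    have hcj : ∀ γ : ℂ ≃+* ℂ, r (cp γ (cp starRingAut σ)) + r (cp γ σ) = n σ := by
      intro γ
      obtain ⟨e, he, hee, htr, hs⟩ := hR.ex γ
      have h2 := sm_dual H he hee htr σ
      rw [hs, hs, hn] at h2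
      exact_mod_cast h2
    have h2 := hnt σ h1 (cp starRingAut σ) (Or.inl h1') (by
      rw [← hn, ← hn, card_cp]) (by
      intro γ
      have h3 := hcj γ
      rcases h _ (sk_cp γ σ) with h4 | h4 | h4
      · left; omega
      · right; left; omega
      · right; right; omega)
    obtain ⟨γ, rfl⟩ := hsk.exists_cp
    have h3 := hcj γ
    have h4 := h2 γ
    omega
  -- the types of the forms
  have halt : ∀ σ : E →+* ℂ, Rl σ → sp σ → Alt (TypD R sp) R c Φ σ := fun σ hr hs =>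
    alt_of_symp fun g ψ _ hP W hW hirr => (hP σ hr W hW hirr).1 hs
  have hspsk : ∀ (g : Submodule ℂ (Matrix ι ι ℂ)) (ψ : Matrix ι ι ℂ), TypD R sp g ψ →
      ∀ σ : E →+* ℂ, Rl σ → ¬ sp σ → ∀ (W : Submodule ℂ (ι → ℂ)) (p : (ι → ℂ) →ₗ[ℂ] W)
      (v : Basis (Om R Φ σ) ℂ W), Frame R Φ g σ W p v → ∃ φ : W →ₗ[ℂ] W →ₗ[ℂ] ℂ,
        IsForm g ψ p φ ∧ ∀ x y, φ x y = φ y x := by
    intro g ψ hP σ hr hs W p v F
    obtain ⟨θ, hsym, hnd, hmul⟩ := (hP σ hr W F.le F.irr).2 hs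
    exact ⟨rsF W θ, rsF_form F hnd hmul, fun x y => hsym x x.2 y y.2⟩
  -- dimension four
  have hno4 : ∀ (σ : E →+* ℂ) (g : Submodule ℂ (Matrix ι ι ℂ)) (ψ : Matrix ι ι ℂ),
      Mono R c Φ g ψ → TypD R sp g ψ → Rl σ → ¬ sp σ → n σ = 4 → False := by
    intro σ g ψ M hP hr hs h4
    have hcd : Cd σ := by
      rcases hcond σ with h5 | ⟨h5, -⟩ | ⟨-, ⟨h5, -⟩ | ⟨h5, -⟩, -⟩
      · omega
      · exact absurd hr h5
      · exact absurd h5 hs
      · exact h5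
    have hcn4 := hcn σ (by omega) hcd
    have h5 := hfl4 σ hr hs h4 hcd
    obtain ⟨W, p, v, F⟩ := exists_frame M H hI σ
    have hnt := F.nontrivial
    have hne : Nonempty ι := by
      by_contra hcon
      rw [not_nonempty_iff] at hcon
      obtain ⟨w, hw⟩ := exists_ne (0 : W)
      exact hw (Subtype.ext (funext fun i => hcon.elim i))
    obtain ⟨φ, hφ, hsym⟩ := hspsk g ψ hP σ hr hs W p v F
    have T := td M H hI F.irr F.prj
    have htr := trace_of_mult M₀ C₀.mult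
    have hm := mult_of_trace M (M.le C₀.mem) htr
    obtain ⟨e1, e2, -⟩ := rm_val F M C₀.mem C₀.idem
    have h6 : ∀ a b, φ (rm p e₀ a) b + φ a (rm p e₀ b) = φ a b := by
      intro a b
      have h7 := hφ.mult e₀ (M.le C₀.mem) 1 (by rw [one_smul]; exact hm) a b
      rwa [one_mul] at h7
    obtain ⟨k, hk⟩ := T.exists_fl_so v (F.hv M) (by rw [F.lv M]; exact hcn4) hsym hφ.nd
      (hφ.sim M) (by rw [← F.card, hn, h4]) e1 e2 h6
    rw [F.lv M] at hk
    exact h5 k hk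
  -- the induced operators
  have hfull : ∀ (σ : E →+* ℂ) (W : Submodule ℂ (ι → ℂ)) (p : (ι → ℂ) →ₗ[ℂ] W)
      (v : Basis (Om R Φ σ) ℂ W), Frame R Φ g σ W p v → Fintype.card (Om R Φ σ) ≠ 1 →
      FullW g ψ p := by
    intro σ W p v F h1
    rw [hn] at h1
    rcases hcond σ with h2 | ⟨hr, hT, h2⟩ | ⟨hr, h2, h3⟩
    · exact absurd h2 h1
    · have hnr : ∃ a, starRingEnd ℂ (σ a) ≠ σ a := by
        unfold Rl at hr
        push Not at hr
        exact hr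
      rcases h2 with ⟨hcd, hU⟩ | ⟨h4, h7⟩
      · refine full_nr H hR hc M F hnr (hcn σ h1 hcd) ?_
        rw [hn]
        rcases hU with hU | ⟨hU, hU'⟩
        · exact Or.inl hU
        · refine Or.inr ⟨hU, hU', ?_⟩
          by_cases h5 : n σ = 2
          · exact Or.inl h5
          · exact Or.inr (hself σ h1 h5)
      · refine full_nr4 H hR hc M F hnr ?_ (by rw [hn, h4]) h7
        rw [hn]
        exact hself σ h1 (by omega)
    · by_cases hs : sp σ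
      · have hA' := halt σ hr hs
        rcases h2 with ⟨-, h4⟩ | ⟨hcd, h4, -⟩
        · exact full_alt4 H hI hc M F hr (by rw [hn, h4]) (hA' g ψ M hP W p v F)
        · refine full_real hP H hR hc M F hr (hcn σ h1 hcd) ?_ (Or.inl hA') ?_
          · unfold TyA
            rw [hn]
            refine ⟨fun m hm _ => h4 m (by omega), fun m hm h7 => ?_⟩
            rcases Nat.eq_or_lt_of_le hm with h5 | h5
            · rw [← h5] at h7
              exact hfl8 σ hr hs h7 hcd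
            · exact absurd h7 (h4 m h5)
          · rcases h3 with h3 | h3
            · exact Or.inl h3
            · right
              rw [hn]
              exact ⟨Or.inr fun k hk hk3 => h3 k hk3 ⟨fun _ => hs, fun _ => hk⟩, Or.inl hA'⟩
      · rcases h2 with ⟨h4, -⟩ | ⟨hcd, h4, h8⟩
        · exact absurd h4 hs
        have h8' := h8.resolve_left hs
        by_cases h5 : n σ = 4
        · exact (hno4 σ g ψ M hP hr hs h5).elim
        have h6 : ∀ m : ℕ, 2 ≤ m → n σ ≠ 2 ^ m := by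
          intro m hm h7
          rcases (by omega : m = 2 ∨ m = 3 ∨ 4 ≤ m) with h9 | h9 | h9
          · exact h5 (by rw [h7, h9]; rfl)
          · exact h8' (by rw [h7, h9]; rfl)
          · exact h4 m h9 h7
        refine full_real hP H hR hc M F hr (hcn σ h1 hcd) ?_ (Or.inr ?_) ?_
        · unfold TyA
          rw [hn]
          exact ⟨fun m hm _ => h6 m (by omega), fun m hm h7 => absurd h7 (h6 m (by omega))⟩
        · unfold TyS
          rw [hn]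
          exact ⟨fun m hm => h6 m (by omega), fun h7 => absurd h7 h5⟩
        · rcases h3 with h3 | h3
          · exact Or.inl h3
          · right
            rw [hn]
            refine ⟨Or.inl (syp_of_orth fun g ψ _ hP W hW hirr => (hP σ hr W hW hirr).2 hs),
              Or.inr fun k hk hk4 => h3 k (by omega) ⟨fun h9 => ?_, fun h9 => absurd h9 hs⟩⟩
            exact absurd h9 (Nat.not_odd_iff_even.2 hk)
  -- the kinds
  have hkd : ∀ σ : E →+* ℂ, Fintype.card (Om R Φ σ) = 1 ∨ Kd R Φ g sp σ := by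
    intro σ
    by_cases h1 : n σ = 1
    · left
      rw [hn, h1]
    · right
      obtain ⟨W, p, v, F⟩ := exists_frame M H hI σ
      have hφ0 : ∀ φ : W →ₗ[ℂ] W →ₗ[ℂ] ℂ, (∀ x, (∀ y, φ x y = 0) → x = 0) → φ ≠ 0 := by
        intro φ hnd h0
        have hnt := F.nontrivial
        obtain ⟨x, hx⟩ := exists_ne (0 : W)
        exact hx (hnd x fun y => by rw [h0]; rfl)
      refine exists_kind M H hR.tr hc F (hfull σ W p v F (by rw [hn]; exact h1)) ?_ ?_ ?_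
      · have := hn0 σ
        rw [hn]
        omega
      · intro φ hφ hsym
        have hnt := F.nontrivial
        have hr : Rl σ := by
          by_contra hcon
          unfold Rl at hcon
          push Not at hcon
          obtain ⟨a, ha⟩ := hcon
          exact ha (real_of_form M hc F.irr F.prj F.le hφ.mult (hφ0 φ hφ.nd) a)
        have hs : ¬ sp σ := fun hs =>
          not_alt_symm hφ.nd (halt σ hr hs g ψ M hP W p v F φ hφ) hsym
        rcases hcond σ with h2 | ⟨h2, -⟩ | ⟨-, ⟨h2, -⟩ | ⟨-, -, h8⟩, -⟩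
        · exact absurd h2 h1
        · exact absurd hr h2
        · exact absurd h2 hs
        · rw [hn]
          refine ⟨fun h5 => ?_, fun h5 => h8.resolve_left hs (by rw [h5])⟩
          have h5' : n σ = 4 := by rw [h5]
          exact hno4 σ g ψ M hP hr hs h5'
      · intro hs φ hφ
        have hr : Rl σ := by
          by_contra hcon
          unfold Rl at hcon
          push Not at hcon
          obtain ⟨a, ha⟩ := hcon
          exact ha (real_of_form M hc F.irr F.prj F.le hφ.mult (hφ0 φ hφ.nd) a)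
        exact halt σ hr hs g ψ M hP W p v F φ hφ
  refine mem_iff M H hR hc hkd (fun σ σ' h1 h0 h2 h3 => ?_) ?_ hfull N
  · rw [hn] at h1
    rw [hn, hn] at h2
    rw [hn] at h3
    exact hnt σ h1 σ' (Or.inr h0) h2 h3
  intro σ σ' hnr hr' hs' h4 h6
  rw [hn] at h4 h6
  refine hex σ σ' ?_ hr' hs' h4 h6
  intro h
  obtain ⟨a, ha⟩ := hnr
  exact ha (h a)

end Pool.Agent.FQX
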