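import Pool.Agent.FQX.SysF
import Pool.Agent.FQX.Kap2
import Pool.Agent.FQX.Equi

/-!
# The reciprocity law with Kummer cocharacters
-/

set_option autoImplicit false
set_option linter.unusedSectionVars false

namespace Pool.Agent.FQX

open Module
open Pool.Agent.CoprimeSig (ratM)
open Pool.Agent.PrimePow.CC (Rf Rt Lat)
open Pool.Agent.FQV
open Pool.Agent.FQ (expG IsExp)
open Pool.Agent.FQA (AR Cn Fl Cube exists_cube conn_of_cn)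
open Pool.Agent.NumRank (Rt_move Rt_mem Rt_sq_ne cf cf_eq_zero)

variable {ι : Type} [Fintype ι] [DecidableEq ι] {E : Type} [CommRing E] [Algebra ℚ E]
  [Module.Finite ℚ E] [IsReduced E]
  {R : E →+* Matrix ι ι ℚ} {Φ : Matrix ι ι ℚ} {σ : E →+* ℂ} {c : E → E}
  {g : Submodule ℂ (Matrix ι ι ℂ)} {ψ : Matrix ι ι ℂ} {s s' : Set (ℂ → ℚ)} {F F' : ℂ → ℚ}
  {m : ℕ} {ζ₀ : ℂ} {γ τ : ℂ ≃+* ℂ} {e : Matrix ι ι ℂ}

/-- The data at a prime `ℓ` for an automorphism `τ` over `ℚ_ℓ` (class field theory). -/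
structure AtQ (R : E →+* Matrix ι ι ℚ) (c : E → E) (Φ : Matrix ι ι ℚ) (m : ℕ) (ζ₀ : ℂ)
    (τ : ℂ ≃+* ℂ) (g : Submodule ℂ (Matrix ι ι ℂ)) (ψ : Matrix ι ι ℂ) : Prop where
  mono : Mono R c Φ g ψ
  kap : Kap g Φ m ζ₀ τ 0

/-- The data at the place `(π)` for an automorphism `γ` in the inertia group. -/
structure AtK (R : E →+* Matrix ι ι ℚ) (c : E → E) (Φ : Matrix ι ι ℚ) (m : ℕ) (ζ₀ : ℂ)
    (γ : ℂ ≃+* ℂ) (g : Submodule ℂ (Matrix ι ι ℂ)) (ψ e : Matrix ι ι ℂ) : Prop where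
  mono : Mono R c Φ g ψ
  emb : ∀ σ : E →+* ℂ, cp γ σ = σ
  spl : Spl g γ
  mem : e ∈ tor Φ
  idem : e * e = e
  kap : Kap g Φ m ζ₀ γ e

/-- The value of `eps` for the automorphisms given by class field theory. -/
theorem atq_eps (H : IsFrob R Φ) (hF : Free Φ) (hI : Idem Φ) (hm0 : m ≠ 0)
    (hζ₀ : IsPrimitiveRoot ζ₀ m)
    {Q : Submodule ℂ (Matrix ι ι ℂ) → Matrix ι ι ℂ → Prop}
    {δ : ℂ ≃+* ℂ} (hmu : ∀ x : ℂ, x ^ m = 1 → δ x = x)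
    (h1 : ∀ S : Finset ℂ, (∀ x ∈ S, IsAlgebraic ℚ x) → ∃ τ : ℂ ≃+* ℂ, (∀ x ∈ S, τ x = δ x) ∧
      ∃ (g : Submodule ℂ (Matrix ι ι ℂ)) (ψ : Matrix ι ι ℂ), AtQ R c Φ m ζ₀ τ g ψ ∧ Q g ψ)
    (S : Finset ℂ) (hS : ∀ x ∈ S, IsAlgebraic ℚ x) :
    ∃ τ : ℂ ≃+* ℂ, (∀ x ∈ S, τ x = δ x) ∧ ∃ (g : Submodule ℂ (Matrix ι ι ℂ))
      (ψ : Matrix ι ι ℂ), Mono R c Φ g ψ ∧ Q g ψ ∧
      ∀ (σ : E →+* ℂ) (s s' : Set (ℂ → ℚ)), Dcm R Φ σ s s' → Act g R Φ σ s s' →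
        dm R σ ∣ m → Stab σ s s' τ → Eps R Φ σ s s' τ 1 := by
  classical
  obtain ⟨τ, hτ, g, ψ, A, hQ⟩ := h1 (S ∪ Polynomial.nthRootsFinset m (1 : ℂ)) (by
    intro x hx
    rcases Finset.mem_union.1 hx with hx | hx
    · exact hS x hx
    · rw [Polynomial.mem_nthRootsFinset (Nat.pos_of_ne_zero hm0)] at hx
      exact IsAlgebraic.of_pow (Nat.pos_of_ne_zero hm0) (by rw [hx]; exact isAlgebraic_one))
  have hmuτ : ∀ x : ℂ, x ^ m = 1 → τ x = x := fun x hx => by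
    rw [hτ x (Finset.mem_union_right _
      ((Polynomial.mem_nthRootsFinset (Nat.pos_of_ne_zero hm0) _).2 hx)), hmu x hx]
  exact ⟨τ, fun x hx => hτ x (Finset.mem_union_left _ hx), g, ψ, A.mono, hQ,
    fun σ s s' hD hA hdm hst => kap_one A.mono H hF hI hm0 hζ₀ hmuτ A.kap hD hA hst hdm⟩

/-- **The reciprocity law.** -/
theorem recip_k (H : IsFrob R Φ) (hF : Free Φ) (hI : Idem Φ) {K : Subfield ℂ} {π : K}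
    (hm0 : 0 < m) (hm : ∀ σ : E →+* ℂ, dm R σ ∣ m)
    (hζ₀ : IsPrimitiveRoot ζ₀ m) (T : Tame K π m ζ₀ γ) (P : AtK R c Φ m ζ₀ γ g ψ e)
    (h1 : ∀ δ : ℂ ≃+* ℂ, Cls K π m δ → ∀ S : Finset ℂ, (∀ x ∈ S, IsAlgebraic ℚ x) →
      ∃ τ : ℂ ≃+* ℂ, (∀ x ∈ S, τ x = δ x) ∧ ∃ (g : Submodule ℂ (Matrix ι ι ℂ))
        (ψ : Matrix ι ι ℂ), AtQ R c Φ m ζ₀ τ g ψ)
    {h : ℂ ≃+* ℂ} (hh : ∀ x ∈ K, h x = x) {σ : E →+* ℂ} (hns : Ns R Φ e σ) :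
    Ns R Φ e (cp h σ) ∧ mv h '' tch R Φ σ (ev Φ e) = tch R Φ (cp h σ) (ev Φ e) := by
  have M := P.mono
  have hL : ∀ σ : E →+* ℂ, Lat (Ls R Φ σ) := fun σ => lat M H hI σ
  refine rec_tch H (iSup_HS M) hL hm0 hζ₀ hm T ?_ ?_ hh hns (tch_isCmp M H hI P.mem P.idem hns)
  · intro δ hδ S hS
    obtain ⟨τ, hτ, g', ψ', M', -, h2⟩ := atq_eps (Q := fun _ _ => True) H hF hI hm0.ne' hζ₀ hδ.mu
      (fun S hS => by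
        obtain ⟨τ, h3, g', ψ', h4⟩ := h1 δ hδ S hS
        exact ⟨τ, h3, g', ψ', h4, trivial⟩) S hS
    exact ⟨τ, hτ, fun σ s hs hst => h2 σ s _ (dcm_cmp H (hL σ) hs) (act_compl M' H hI s)
      (hm σ) hst⟩
  · intro σ s hs
    have hc1 := fix_cmp M H hI (P.emb σ) P.spl hs
    have hst : Stab σ s (cpl R Φ σ s) γ := ⟨P.emb σ, hc1, by rw [cpl_mv H, P.emb σ, hc1]⟩
    have hD := dcm_cmp H (hL σ) hs
    obtain ⟨ζ, hε, hζ⟩ := kap_e M H hF hI hm0.ne' hζ₀ T.mu P.kap P.mem P.idem hD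
      (act_compl M H hI s) (one_cmp M H hI hs) hst (hm σ)
    refine ⟨hst, ζ, hε, hζ.trans ⟨?_, ?_⟩⟩
    · rintro ⟨hn, F, hFs, hd⟩
      have ht := tch_isCmp M H hI P.mem P.idem hn
      have hFt : F ∈ tch R Φ σ (ev Φ e) :=
        ⟨hD.fst F hFs, F, hD.fst F hFs, hd, Relation.ReflTransGen.refl⟩
      exact ⟨hn, by rw [← cmp_eq_of_mem hs hFs, cmp_eq_of_mem ht hFt]⟩
    · rintro ⟨hn, hs'⟩
      obtain ⟨F₀, hF₀, ht⟩ := tch_isCmp M H hI P.mem P.idem hn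
      have h3 : F₀ ∈ tch R Φ σ (ev Φ e) := by
        rw [ht]
        exact ⟨hF₀, Relation.ReflTransGen.refl⟩
      obtain ⟨-, F', h4, h5, -⟩ := h3
      refine ⟨hn, F', ?_, h5⟩
      rw [hs']
      exact ⟨h4, F', h4, h5, Relation.ReflTransGen.refl⟩

/-- **The reciprocity law for the roots without zeros.** -/
theorem recip_fck (H : IsFrob R Φ) (hF : Free Φ) (hI : Idem Φ) {K : Subfield ℂ} {π : K}
    (hm0 : 0 < m) (hm : ∀ σ : E →+* ℂ, dm R σ ∣ m)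
    (hζ₀ : IsPrimitiveRoot ζ₀ m) (T : Tame K π m ζ₀ γ)
    (P : AtK R c Φ m ζ₀ γ g ψ e)
    {Q : Submodule ℂ (Matrix ι ι ℂ) → Matrix ι ι ℂ → Prop} (hQ : Q g ψ)
    (h1 : ∀ δ : ℂ ≃+* ℂ, Cls K π m δ → ∀ S : Finset ℂ, (∀ x ∈ S, IsAlgebraic ℚ x) →
      ∃ τ : ℂ ≃+* ℂ, (∀ x ∈ S, τ x = δ x) ∧ ∃ (g : Submodule ℂ (Matrix ι ι ℂ))
        (ψ : Matrix ι ι ℂ), AtQ R c Φ m ζ₀ τ g ψ ∧ Q g ψ)
    {h : ℂ ≃+* ℂ} (hh : ∀ x ∈ K, h x = x) {σ : E →+* ℂ} (hns : Ns R Φ e σ)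
    (hcn : CnR R Φ σ) (hcn' : CnR R Φ (cp h σ)) (hfl : ∃ k, Fl (Ls R Φ σ) k)
    (hfl' : ∃ k, Fl (Ls R Φ (cp h σ)) k)
    (hall : ∀ (g : Submodule ℂ (Matrix ι ι ℂ)) (ψ : Matrix ι ι ℂ), Mono R c Φ g ψ → Q g ψ →
      AllFl R Φ g σ)
    (hall' : ∀ (g : Submodule ℂ (Matrix ι ι ℂ)) (ψ : Matrix ι ι ℂ), Mono R c Φ g ψ → Q g ψ →
      AllFl R Φ g (cp h σ)) :
    Ns R Φ e (cp h σ) ∧ mv h '' fch R Φ σ (ev Φ e) = fch R Φ (cp h σ) (ev Φ e) := by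
  have M := P.mono
  have hV := iSup_HS M
  -- the touched pair
  have hs := fch_isFc M H hI P.mem P.idem hns hcn hfl
  have hs' := isFc_mv H.diag h hs
  have hγ := stab_fc M H hI hcn (hall g ψ M hQ) (P.emb σ) P.spl hs
  have hγ' := stab_fc M H hI hcn' (hall' g ψ M hQ) (P.emb (cp h σ)) P.spl hs'
  obtain ⟨ζ, hε, hζ⟩ := kap_e M H hF hI hm0.ne' hζ₀ T.mu P.kap P.mem P.idem
    (dcm_fc (lat M H hI _) hcn hs) (act_fc (hall g ψ M hQ) _) (one_fc M H hI hs) hγ (hm σ)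
  obtain ⟨ζ', hε', hζ'⟩ := kap_e M H hF hI hm0.ne' hζ₀ T.mu P.kap P.mem P.idem
    (dcm_fc (lat M H hI _) hcn' hs') (act_fc (hall' g ψ M hQ) _) (one_fc M H hI hs') hγ'
    (hm (cp h σ))
  have hζ1 : ζ ≠ 1 := by
    refine hζ.2 ⟨hns, ?_⟩
    obtain ⟨F, hF, h2⟩ := hs
    have h3 : F ∈ fch R Φ σ (ev Φ e) := by
      rw [h2]
      exact Or.inl rfl
    exact ⟨F, h3, h3.2⟩
  have hζ1' : ζ' ≠ 1 := by
    intro h3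
    rw [h3, ← fcl_mv H] at hε'
    rw [← fcl_mv H] at hγ'
    refine hζ1 (rec_step H hV hm0 hζ₀ T hh (dcm_fc (lat M H hI _) hcn hs) (hm _)
      (fun δ hδ S hS => ?_) hγ hγ' hε hε')
    obtain ⟨τ, hτ, g', ψ', M', hQ', h4⟩ := atq_eps H hF hI hm0.ne' hζ₀ hδ.mu (h1 δ hδ) S hS
    refine ⟨τ, hτ, fun h5 => ?_⟩
    rw [fcl_mv H] at h5 ⊢
    exact h4 (cp h σ) _ _ (dcm_fc (lat M H hI _) hcn' hs') (act_fc (hall' g' ψ' M' hQ') _)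
      (hm _) h5
  obtain ⟨h2, F, hF, h3⟩ := hζ'.1 hζ1'
  have hFf : F ∈ fch R Φ (cp h σ) (ev Φ e) := ⟨(fc_of_mem hs' hF).1, h3⟩
  exact ⟨h2, isFc_eq hs' (fch_isFc M H hI P.mem P.idem h2 hcn' hfl') hF hFf⟩

/-- The system of the pairs of roots without zeros, for the real homomorphisms with the same kernel as
`σ`. -/
theorem sys_fck (H : IsFrob R Φ) (hF : Free Φ) (hI : Idem Φ)
    (hc : ∀ (σ : E →+* ℂ) a, σ (c a) = starRingEnd ℂ (σ a)) {K : Subfield ℂ} {π : K}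
    (hm0 : 0 < m) (hm : ∀ σ : E →+* ℂ, dm R σ ∣ m)
    (hζ₀ : IsPrimitiveRoot ζ₀ m) (T : Tame K π m ζ₀ γ)
    (P : AtK R c Φ m ζ₀ γ g ψ e)
    {Q : Submodule ℂ (Matrix ι ι ℂ) → Matrix ι ι ℂ → Prop} (hQ : Q g ψ)
    (h1 : ∀ δ : ℂ ≃+* ℂ, Cls K π m δ → ∀ S : Finset ℂ, (∀ x ∈ S, IsAlgebraic ℚ x) →
      ∃ τ : ℂ ≃+* ℂ, (∀ x ∈ S, τ x = δ x) ∧ ∃ (g : Submodule ℂ (Matrix ι ι ℂ))
        (ψ : Matrix ι ι ℂ), AtQ R c Φ m ζ₀ τ g ψ ∧ Q g ψ)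
    {n r : (E →+* ℂ) → ℕ} {τ₀ : ℂ ≃+* ℂ} (C : Coch R Φ r g ψ τ₀ e)
    (hspan : tor Φ ≤ Submodule.span ℂ (orbit Φ g e))
    (hn : ∀ σ : E →+* ℂ, Fintype.card (Om R Φ σ) = n σ) (hreal : ∀ a, starRingEnd ℂ (σ a) = σ a)
    (h2 : 2 ≤ n σ) (hcn : ∀ σ' : E →+* ℂ, SK σ σ' → CnR R Φ σ')
    (hfl : ∃ k, Fl (Ls R Φ σ) k)
    (hall : ∀ (g : Submodule ℂ (Matrix ι ι ℂ)) (ψ : Matrix ι ι ℂ), Mono R c Φ g ψ → Q g ψ →
      ∀ σ' : E →+* ℂ, SK σ σ' → (∃ k, Fl (Ls R Φ σ') k) → AllFl R Φ g σ') :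
    Sys R Φ K n r (SK σ) (fun σ => {s | IsFc R Φ σ s}) (fun _ _ => 2)
      (fun σ => fch R Φ σ (ev Φ e)) := by
  classical
  have M := P.mono
  have hfl' : ∀ σ' : E →+* ℂ, SK σ σ' → ∃ k, Fl (Ls R Φ σ') k := by
    intro σ' h1
    obtain ⟨γ, rfl⟩ := h1.exists_cp
    obtain ⟨k₀, hk₀⟩ := hfl
    obtain ⟨F, hF, rfl⟩ := exists_rts hk₀.rt
    exact ⟨_, (Flr.mv H.diag γ ⟨hF, hk₀⟩).fl⟩
  have hpcp : ∀ (γ : ℂ ≃+* ℂ) (σ' : E →+* ℂ), SK σ σ' → SK σ (cp γ σ') := fun γ σ' h a => by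
    rw [cp_apply, map_eq_zero_iff γ γ.injective]
    exact h a
  have hncp : ∀ (γ : ℂ ≃+* ℂ) (σ' : E →+* ℂ), n (cp γ σ') = n σ' := fun γ σ' => by
    rw [← hn, ← hn, card_cp]
  have hnsk : ∀ σ' : E →+* ℂ, SK σ σ' → n σ' = n σ := by
    intro σ' h
    rw [← hn, ← hn, h.card]
  have hr : ∀ σ' : E →+* ℂ, SK σ σ' → 2 * r σ' = n σ' := fun σ' h => by
    rw [← hn]
    exact r_real M H hI C (SK.real hc h hreal)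
  have hpos : ∀ σ' : E →+* ℂ, SK σ σ' → 0 < r σ' ∧ r σ' < n σ' := fun σ' h => by
    have h3 := hr σ' h
    have h4 := hnsk σ' h
    omega
  have hns : ∀ σ' : E →+* ℂ, SK σ σ' → Ns R Φ e σ' := fun σ' h =>
    ns_of_r M H hI C (by
      rw [hn]
      exact hpos σ' h)
  refine
    { pcp := hpcp
      card := fun γ σ' _ => hncp γ σ'
      fin := fun σ' _ => finite_fc R Φ σ'
      rts := fun σ' _ s hs F hF => (fc_of_mem hs hF).1.rts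
      bmv := fun γ σ' _ s hs => isFc_mv H.diag γ hs
      two := fun _ _ _ _ => le_rfl
      inv := fun _ _ _ _ _ => rfl
      prod := ?_
      mem := fun σ' h _ _ => fch_isFc M H hI P.mem P.idem (hns σ' h) (hcn σ' h) (hfl' σ' h)
      ovr := ?_
      star := ?_
      sur := ?_
      dvd := ?_ }
  · intro σ' h _
    have h3 := card_fc M H hI (hcn σ' h) (hfl' σ' h)
    rw [hn] at h3
    have hfin : Finite {c : Set (ℂ → ℚ) // IsFc R Φ σ' c} := (finite_fc R Φ σ').to_subtype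
    have : Fintype {c : Set (ℂ → ℚ) // IsFc R Φ σ' c} := Fintype.ofFinite _
    rw [← finprod_set_coe_eq_finprod_mem]
    change ∏ᶠ _ : {c : Set (ℂ → ℚ) // IsFc R Φ σ' c}, 2 = n σ'
    rw [finprod_eq_prod_of_fintype, Finset.prod_const, Finset.card_univ, h3,
      Nat.card_eq_fintype_card]
  · intro h hh σ' hσ' _ _
    exact ⟨hpos _ (hpcp h σ' hσ'), (recip_fck H hF hI hm0 hm hζ₀ T P hQ h1 hh (hns σ' hσ')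
      (hcn σ' hσ') (hcn _ (hpcp h σ' hσ')) (hfl' σ' hσ') (hfl' _ (hpcp h σ' hσ'))
      (fun g ψ M' Q' => hall g ψ M' Q' σ' hσ' (hfl' σ' hσ'))
      (fun g ψ M' Q' => hall g ψ M' Q' _ (hpcp h σ' hσ') (hfl' _ (hpcp h σ' hσ')))).2⟩
  · intro σ' hσ' _ _
    exact ⟨hpos _ (hpcp _ σ' hσ'), fch_star H P.mem P.idem (trace_of_mult M C.mult) σ'⟩
  · intro σ' hσ' s hs
    have hsk : ∀ σ₁ : E →+* ℂ, SK σ' σ₁ → SK σ σ₁ := fun σ₁ h a => (h a).trans (hσ' a)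
    obtain ⟨γ, σ₁, h3, h4⟩ := fc_orbit M H hI P.mem P.idem (fun σ₁ h => hns σ₁ (hsk σ₁ h))
      (fun σ₁ h => hcn σ₁ (hsk σ₁ h)) (fun σ₁ h => hfl' σ₁ (hsk σ₁ h))
      (fun σ₁ h => hall g ψ M hQ σ₁ (hsk σ₁ h) (hfl' σ₁ (hsk σ₁ h))) hspan hs
    have h5 : cp γ⁻¹ σ' = σ₁ := by
      rw [h3, ← cp_mul, inv_mul_cancel]
      exact cp_one
    have h6 : SK σ σ₁ := by
      rw [← h5]
      exact hpcp _ _ hσ'
    refine ⟨γ, ?_, ?_, ?_⟩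
    · rw [h5]
      exact (hpos σ₁ h6).1
    · rw [h5]
      exact (hpos σ₁ h6).2
    · rw [h5]
      exact h4
  · intro σ' hσ' _ _
    rw [hr σ' hσ']

/-- **No roots without zeros.** -/
theorem no_fl_k (H : IsFrob R Φ) (hF : Free Φ) (hI : Idem Φ)
    (hc : ∀ (σ : E →+* ℂ) a, σ (c a) = starRingEnd ℂ (σ a)) {K : Subfield ℂ} {π : K}
    (hm0 : 0 < m) (hm : ∀ σ : E →+* ℂ, dm R σ ∣ m)
    (hζ₀ : IsPrimitiveRoot ζ₀ m) (T : Tame K π m ζ₀ γ)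
    (P : AtK R c Φ m ζ₀ γ g ψ e)
    {Q : Submodule ℂ (Matrix ι ι ℂ) → Matrix ι ι ℂ → Prop} (hQ : Q g ψ)
    (h1 : ∀ δ : ℂ ≃+* ℂ, Cls K π m δ → ∀ S : Finset ℂ, (∀ x ∈ S, IsAlgebraic ℚ x) →
      ∃ τ : ℂ ≃+* ℂ, (∀ x ∈ S, τ x = δ x) ∧ ∃ (g : Submodule ℂ (Matrix ι ι ℂ))
        (ψ : Matrix ι ι ℂ), AtQ R c Φ m ζ₀ τ g ψ ∧ Q g ψ)
    {n r : (E →+* ℂ) → ℕ} {τ₀ : ℂ ≃+* ℂ} (C : Coch R Φ r g ψ τ₀ e)
    (hspan : tor Φ ≤ Submodule.span ℂ (orbit Φ g e))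
    (hn : ∀ σ : E →+* ℂ, Fintype.card (Om R Φ σ) = n σ) (hreal : ∀ a, starRingEnd ℂ (σ a) = σ a)
    (h2 : 2 < n σ) (hcn : ∀ σ' : E →+* ℂ, SK σ σ' → CnR R Φ σ')
    (hall : ∀ (g : Submodule ℂ (Matrix ι ι ℂ)) (ψ : Matrix ι ι ℂ), Mono R c Φ g ψ → Q g ψ →
      ∀ σ' : E →+* ℂ, SK σ σ' → (∃ k, Fl (Ls R Φ σ') k) → AllFl R Φ g σ')
    (hN : NoTensor K n r σ) : ∀ k, ¬ Fl (Ls R Φ σ) k := by
  intro k hk
  have S := sys_fck H hF hI hc hm0 hm hζ₀ T P hQ h1 C hspan hn hreal h2.le hcn ⟨k, hk⟩ hall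
  have hsk : SK σ σ := fun a => Iff.rfl
  have h3 := S.one H hc hsk hN
  have h4 := card_fc P.mono H hI (hcn σ hsk) ⟨k, hk⟩
  rw [hn] at h4
  have h5 : Nat.card {c : Set (ℂ → ℚ) // IsFc R Φ σ c} ≤ 1 := by
    have h6 : Subsingleton {c : Set (ℂ → ℚ) // IsFc R Φ σ c} :=
      ⟨fun a b => Subtype.ext (h3 a.2 b.2)⟩
    have h7 : Finite {c : Set (ℂ → ℚ) // IsFc R Φ σ c} := Finite.of_subsingleton
    exact Finite.card_le_one_iff_subsingleton.2 h6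
  have h6 : 2 ^ Nat.card {c : Set (ℂ → ℚ) // IsFc R Φ σ c} ≤ 2 ^ 1 :=
    Nat.pow_le_pow_right (by norm_num) h5
  omega

end Pool.Agent.FQX
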