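import Pool.Agent.FQX.MainX
import Pool.Agent.FQX.MainQ

/-!
# The main theorem from the reciprocity law, with the quadratic field criterion
-/

set_option autoImplicit false
set_option linter.unusedSectionVars false

namespace Pool.Agent.FQX

open Module
open Pool.Agent.FQV
open Pool.Agent.CoprimeSig (ratM)
open Pool.Agent.FQA (TD Cn Fl)
open Pool.Agent.NumRank (Lv)
open Pool.Agent.PrimePow.CC (Rf Rt Lat)
open Pool.Agent.FQ (expG fixG)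

variable {ι : Type} [Fintype ι] [DecidableEq ι] {E : Type} [CommRing E] [Algebra ℚ E]
  [Module.Finite ℚ E] [IsReduced E] {R : E →+* Matrix ι ι ℚ} {Φ : Matrix ι ι ℚ} {c : E → E}
  {σ : E →+* ℂ}

/-- **The main theorem**: the Lie algebra of the monodromy group is the set of the matrices in the
double commutant with the traces of the Hodge cocharacters. -/
theorem main_y (H : IsFrob R Φ) (hF : Free Φ)
    (hc : ∀ (σ : E →+* ℂ) a, σ (c a) = starRingEnd ℂ (σ a)) {K : Subfield ℂ} {π : K}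
    (hπ : (π : ℂ) ≠ 0) {m : ℕ} (hm0 : 0 < m) (hm : ∀ σ : E →+* ℂ, dm R σ ∣ m) {ζ₀ : ℂ}
    (hζ₀ : IsPrimitiveRoot ζ₀ m) {γ : ℂ ≃+* ℂ} (T : Tame K π m ζ₀ γ)
    {n r : (E →+* ℂ) → ℕ} {sp : (E →+* ℂ) → Prop}
    (hsk : ∀ σ σ' : E →+* ℂ, SK σ σ' → sp σ → sp σ')
    {g₀ : Submodule ℂ (Matrix ι ι ℂ)} {ψ₀ e₀ e₁ : Matrix ι ι ℂ}
    (P : AtP R c Φ m (π : ℂ) γ g₀ ψ₀ e₀ e₁) (MT₀ : MonoT R c Φ sp g₀ ψ₀)
    (C₀ : Coch R Φ r g₀ ψ₀ γ e₀) (hspan : tor Φ ≤ Submodule.span ℂ (orbit Φ g₀ e₀))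
    (hdim : ∀ (σ : E →+* ℂ), ∀ W ≤ HS R σ, Irr g₀ W → finrank ℂ W = n σ)
    (h1 : ∀ δ : ℂ ≃+* ℂ, Cls K π m δ → ∀ S : Finset ℂ, (∀ x ∈ S, IsAlgebraic ℚ x) →
      ∃ τ : ℂ ≃+* ℂ, (∀ x ∈ S, τ x = δ x) ∧ ∃ (g : Submodule ℂ (Matrix ι ι ℂ))
        (ψ : Matrix ι ι ℂ), AtL R c Φ m τ g ψ ∧ TypD R sp g ψ)
    [FiniteDimensional ℚ K] (hHT : HTK K (TypD R sp) R c Φ r)
    (hnum : NumE n r sp (NoTensor K n r) (QF K))
    {g : Submodule ℂ (Matrix ι ι ℂ)} {ψ : Matrix ι ι ℂ}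
    (MT : MonoT R c Φ sp g ψ) (N : Matrix ι ι ℂ) :
    N ∈ g ↔ (∀ Z : Matrix ι ι ℂ, (∀ x ∈ g, x * Z = Z * x) → N * Z = Z * N) ∧
      ∃ a : (ℂ ≃+* ℂ) →₀ ℂ, TrC R r g ψ N a := by
  have M₀ : Mono R c Φ g₀ ψ₀ := MT₀.toMono
  have hI : Idem Φ := (rk_of M₀ H C₀ hspan).tr.idem
  have hn : ∀ σ : E →+* ℂ, Fintype.card (Om R Φ σ) = n σ := by
    intro σ
    obtain ⟨W, p, v, F⟩ := exists_frame M₀ H hI σ
    rw [F.card, hdim σ W F.le F.irr]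
  have hnf : (fun σ : E →+* ℂ => Fintype.card (Om R Φ σ)) = n := funext hn
  have hnsk : ∀ σ σ' : E →+* ℂ, SK σ σ' → n σ' = n σ := by
    intro σ σ' h
    rw [← hn, ← hn, h.card]
  have hrlsk : ∀ σ σ' : E →+* ℂ, Rl σ → SK σ σ' → Rl σ' := fun σ σ' h h' =>
    real_sk hc h h'
  have hsym : ∀ σ σ' : E →+* ℂ, SK σ σ' → SK σ' σ := fun σ σ' h a => (h a).symm
  -- the reciprocity law
  have hcn : ∀ σ : E →+* ℂ, NoTensor K n r σ → CnR R Φ σ := by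
    intro σ hN h h' hh hh'
    refine all_cn_rec M₀ H hI hc C₀ hspan (K := K) (fun k hk σ' hns => ?_) (by rwa [hnf])
      h h' hh hh'
    exact recip H hF hI hπ hm0 hm hζ₀ T P (fun δ hδ S hS => by
      obtain ⟨τ, hτ, g', ψ', hA, -⟩ := h1 δ hδ S hS
      exact ⟨τ, hτ, g', ψ', hA⟩) hk hns
  -- roots without zeros
  have hnofl : ∀ σ : E →+* ℂ, Rl σ → 2 < n σ → NoTensor K n r σ →
      (∀ σ' : E →+* ℂ, SK σ σ' → NoTensor K n r σ') →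
      (∀ (g : Submodule ℂ (Matrix ι ι ℂ)) (ψ : Matrix ι ι ℂ), Mono R c Φ g ψ → TypD R sp g ψ →
        ∀ σ' : E →+* ℂ, SK σ σ' → (∃ k, Fl (Ls R Φ σ') k) → AllFl R Φ g σ') →
      ∀ k, ¬ Fl (Ls R Φ σ) k := fun σ hr h2 hN hN' hall =>
    no_fl_x H hF hI hc hπ hm0 hm hζ₀ T P MT₀.typ h1 C₀ hspan hn hr h2
      (fun σ' h => hcn σ' (hN' σ' h)) hall hN
  refine main_qf H hc hsk MT₀ C₀ hspan hdim hHT hnum (fun σ _ hN => hcn σ hN) ?_ ?_ MT N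
  · intro σ hr hs h8 hN
    have hN' : ∀ σ' : E →+* ℂ, SK σ σ' → NoTensor K n r σ' := by
      intro σ' h
      have h3 := hnsk σ σ' h
      rcases hnum.1 σ' with h2 | ⟨h2, -⟩ | ⟨-, ⟨-, h2⟩ | ⟨h2, -⟩, -⟩
      · omega
      · exact absurd (hrlsk σ σ' hr h) h2
      · omega
      · exact h2
    refine hnofl σ hr (by omega) hN hN' fun g ψ M hP σ' h hfl => ?_
    exact all_fl8 H hI hc M hP (hrlsk σ σ' hr h) (hsk σ σ' h hs) (by rw [hn, hnsk σ σ' h, h8])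
      (hcn σ' (hN' σ' h)) hfl
  · intro σ hr hs h4 hN
    have hN' : ∀ σ' : E →+* ℂ, SK σ σ' → NoTensor K n r σ' := by
      intro σ' h
      have h3 := hnsk σ σ' h
      rcases hnum.1 σ' with h2 | ⟨h2, -⟩ | ⟨-, ⟨h2, -⟩ | ⟨h2, -⟩, -⟩
      · omega
      · exact absurd (hrlsk σ σ' hr h) h2
      · exact absurd (hsk σ' σ (hsym σ σ' h) h2) hs
      · exact h2
    refine hnofl σ hr (by omega) hN hN' fun g ψ M hP σ' h hfl => ?_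
    exact all_fl4 H hI M hP (hrlsk σ σ' hr h) (fun h5 => hs (hsk σ' σ (hsym σ σ' h) h5))
      (by rw [hn, hnsk σ σ' h, h4]) (hcn σ' (hN' σ' h)) hfl

end Pool.Agent.FQX
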