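import Pool.Agent.FQV.Star
import Pool.Agent.FQV.Trans
import Mathlib.Algebra.BigOperators.Finprod

/-!
# The criterion for one component

`NoTensor K n r σ`: the numbers `r (g⁻¹ σ)` do not permit a decomposition of the irreducible subspaces for `σ`
as a tensor product which is compatible with the reciprocity law.
-/

set_option autoImplicit false
set_option linter.unusedSectionVars false

namespace Pool.Agent.FQX

open Module
open Pool.Agent.CoprimeSig (ratM)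
open Pool.Agent.FQV

variable {ι : Type} [Fintype ι] [DecidableEq ι] {E : Type} [CommRing E]
  {R : E →+* Matrix ι ι ℚ} {Φ : Matrix ι ι ℚ} {σ : E →+* ℂ} {c : E → E}

/-- The Hodge cocharacter conjugated by `g` is not a scalar on the irreducible subspaces for `σ`. -/
def NonSc (n r : (E →+* ℂ) → ℕ) (σ : E →+* ℂ) (g : ℂ ≃+* ℂ) : Prop :=
  0 < r (cp g⁻¹ σ) ∧ r (cp g⁻¹ σ) < n (cp g⁻¹ σ)

/-- There are no numbers `m 0, ..., m (k - 1) ≥ 2`, `k ≥ 2`, with product `n σ` and no surjective map `T` from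
the set of the `g ∈ Aut ℂ` with `0 < r (g⁻¹ σ) < n` onto `{0, ..., k - 1}` such that
* `T (g h) = T g` for automorphisms `h` over `K`, and `T (c g) = T g` for complex conjugations `c`;
* the automorphisms fixing `σ` permute `{0, ..., k - 1}`, compatibly with `T` and the numbers `m i`;
* `n σ` divides `m (T g) * r (g⁻¹ σ)`. -/
def NoTensor (K : Subfield ℂ) (n r : (E →+* ℂ) → ℕ) (σ : E →+* ℂ) : Prop :=
  ¬ ∃ (k : ℕ) (m : Fin k → ℕ) (T : (ℂ ≃+* ℂ) → Fin k), 2 ≤ k ∧ (∀ i, 2 ≤ m i) ∧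
    ∏ i, m i = n σ ∧ (∀ i, ∃ g, NonSc n r σ g ∧ T g = i) ∧
    (∀ g, NonSc n r σ g → (∀ h : ℂ ≃+* ℂ, (∀ x ∈ K, h x = x) → T (g * h) = T g) ∧
      (∀ h : ℂ ≃+* ℂ, T (h * starRingAut * h⁻¹ * g) = T g) ∧
      n σ ∣ m (T g) * r (cp g⁻¹ σ)) ∧
    ∀ h : ℂ ≃+* ℂ, cp h σ = σ → ∃ ρ : Equiv.Perm (Fin k), (∀ i, m (ρ i) = m i) ∧
      ∀ g, NonSc n r σ g → T (h * g) = ρ (T g)

/-- A system of blocks: `B σ` is a finite set of sets of roots, `m σ s` the dimension of the tensor factor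
which belongs to `s`, `t σ` the block touched by the idempotent. `P` is the set of the homomorphisms which are
considered. -/
structure Sys (R : E →+* Matrix ι ι ℚ) (Φ : Matrix ι ι ℚ) (K : Subfield ℂ)
    (n r : (E →+* ℂ) → ℕ) (P : (E →+* ℂ) → Prop) (B : (E →+* ℂ) → Set (Set (ℂ → ℚ)))
    (m : (E →+* ℂ) → Set (ℂ → ℚ) → ℕ) (t : (E →+* ℂ) → Set (ℂ → ℚ)) : Prop where
  pcp : ∀ (γ : ℂ ≃+* ℂ) σ, P σ → P (FQV.cp γ σ)
  card : ∀ (γ : ℂ ≃+* ℂ) σ, P σ → n (FQV.cp γ σ) = n σ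
  fin : ∀ σ, P σ → (B σ).Finite
  rts : ∀ σ, P σ → ∀ s ∈ B σ, ∀ F ∈ s, Rts R Φ σ F
  bmv : ∀ (γ : ℂ ≃+* ℂ) σ, P σ → ∀ s ∈ B σ, FQV.mv γ '' s ∈ B (FQV.cp γ σ)
  two : ∀ σ, P σ → ∀ s ∈ B σ, 2 ≤ m σ s
  inv : ∀ (γ : ℂ ≃+* ℂ) σ, P σ → ∀ s ∈ B σ, m (FQV.cp γ σ) (FQV.mv γ '' s) = m σ s
  prod : ∀ σ, P σ → (B σ).Nonempty → ∏ᶠ s ∈ B σ, m σ s = n σ
  mem : ∀ σ, P σ → 0 < r σ → r σ < n σ → t σ ∈ B σ
  ovr : ∀ h : ℂ ≃+* ℂ, (∀ x ∈ K, h x = x) → ∀ σ, P σ → 0 < r σ → r σ < n σ →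
    (0 < r (FQV.cp h σ) ∧ r (FQV.cp h σ) < n (FQV.cp h σ)) ∧ FQV.mv h '' t σ = t (FQV.cp h σ)
  star : ∀ σ, P σ → 0 < r σ → r σ < n σ →
    (0 < r (FQV.cp starRingAut σ) ∧ r (FQV.cp starRingAut σ) < n (FQV.cp starRingAut σ)) ∧
      FQV.mv starRingAut '' t σ = t (FQV.cp starRingAut σ)
  sur : ∀ σ, P σ → ∀ s ∈ B σ, ∃ γ : ℂ ≃+* ℂ, 0 < r (FQV.cp γ⁻¹ σ) ∧
    r (FQV.cp γ⁻¹ σ) < n (FQV.cp γ⁻¹ σ) ∧ s = FQV.mv γ '' t (FQV.cp γ⁻¹ σ)
  dvd : ∀ σ, P σ → 0 < r σ → r σ < n σ → n σ ∣ m σ (t σ) * r σ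

variable {K : Subfield ℂ} {n r : (E →+* ℂ) → ℕ} {P : (E →+* ℂ) → Prop}
  {B : (E →+* ℂ) → Set (Set (ℂ → ℚ))} {m : (E →+* ℂ) → Set (ℂ → ℚ) → ℕ}
  {t : (E →+* ℂ) → Set (ℂ → ℚ)}

private theorem cp_inv (γ : ℂ ≃+* ℂ) (σ : E →+* ℂ) : cp γ (cp γ⁻¹ σ) = σ := by
  rw [← cp_mul, mul_inv_cancel]
  exact cp_one

private theorem mv_im (γ γ' : ℂ ≃+* ℂ) (s : Set (ℂ → ℚ)) :
    mv (γ * γ') '' s = mv γ '' (mv γ' '' s) := by
  rw [Set.image_image]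
  rfl

/-- **One block.** -/
theorem Sys.one (H : IsFrob R Φ) (hc : ∀ (σ : E →+* ℂ) a, σ (c a) = starRingEnd ℂ (σ a))
    (S : Sys R Φ K n r P B m t) (hP : P σ) (hN : NoTensor K n r σ) : (B σ).Subsingleton := by
  classical
  by_contra hns
  rw [Set.not_subsingleton_iff] at hns
  have hfin := S.fin σ hP
  have : Fintype (B σ) := hfin.fintype
  have hne : (B σ).Nonempty := hns.nonempty
  let f : B σ ≃ Fin (Fintype.card (B σ)) := Fintype.equivFin _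
  have hk : 2 ≤ Fintype.card (B σ) := by
    obtain ⟨a, ha, b, hb, hab⟩ := hns
    have h1 : Nontrivial (B σ) := ⟨⟨a, ha⟩, ⟨b, hb⟩, fun h => hab (congrArg Subtype.val h)⟩
    exact Fintype.one_lt_card
  -- the touched blocks
  have hmem : ∀ g : ℂ ≃+* ℂ, NonSc n r σ g → mv g '' t (cp g⁻¹ σ) ∈ B σ := by
    intro g hg
    have h1 := S.bmv g _ (S.pcp g⁻¹ σ hP) _ (S.mem _ (S.pcp g⁻¹ σ hP) hg.1 hg.2)
    rwa [cp_inv] at h1
  let T : (ℂ ≃+* ℂ) → Fin (Fintype.card (B σ)) := fun g =>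
    if h : NonSc n r σ g then f ⟨_, hmem g h⟩ else ⟨0, by omega⟩
  have hT : ∀ g (h : NonSc n r σ g), T g = f ⟨_, hmem g h⟩ := fun g h => dif_pos h
  have hTT : ∀ g g' (_ : NonSc n r σ g) (_ : NonSc n r σ g'),
      mv g' '' t (cp g'⁻¹ σ) = mv g '' t (cp g⁻¹ σ) → T g' = T g := by
    intro g g' h h' h1
    rw [hT g h, hT g' h']
    exact congrArg f (Subtype.ext h1)
  refine hN ⟨Fintype.card (B σ), fun i => m σ (f.symm i).1, T, hk,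
    fun i => S.two σ hP _ (f.symm i).2, ?_, fun i => ?_, fun g hg => ⟨fun h hh => ?_, fun h => ?_, ?_⟩,
    fun h hh => ?_⟩
  · rw [← S.prod σ hP hne, Equiv.prod_comp f.symm (fun s : B σ => m σ s.1),
      ← finprod_set_coe_eq_finprod_mem, finprod_eq_prod_of_fintype]
  · obtain ⟨γ, h1, h2, h3⟩ := S.sur σ hP _ (f.symm i).2
    refine ⟨γ, ⟨h1, h2⟩, ?_⟩
    rw [hT γ ⟨h1, h2⟩, ← f.apply_symm_apply i]
    exact congrArg f (Subtype.ext h3.symm)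
  · -- automorphisms over `K`
    have e1 : cp (g * h)⁻¹ σ = cp h⁻¹ (cp g⁻¹ σ) := by rw [mul_inv_rev, cp_mul]
    have hh' : ∀ x ∈ K, h⁻¹ x = x := fun x hx => by
      conv_lhs => rw [← hh x hx]
      exact h.symm_apply_apply x
    obtain ⟨h1, h2⟩ := S.ovr h⁻¹ hh' _ (S.pcp g⁻¹ σ hP) hg.1 hg.2
    have hn' : NonSc n r σ (g * h) := by
      rw [NonSc, e1]
      exact h1
    refine hTT _ _ hg hn' ?_
    rw [e1, mv_im, (S.ovr h hh _ (S.pcp h⁻¹ _ (S.pcp g⁻¹ σ hP)) h1.1 h1.2).2, cp_inv]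
  · -- complex conjugations
    have e1 : cp (h * starRingAut * h⁻¹ * g)⁻¹ σ = cp starRingAut (cp g⁻¹ σ) := by
      have h1 : (h * starRingAut * h⁻¹ * g)⁻¹ = g⁻¹ * (h * starRingAut⁻¹ * h⁻¹) := by group
      have h2 : (starRingAut : ℂ ≃+* ℂ)⁻¹ = starRingAut := by
        apply inv_eq_of_mul_eq_one_left
        ext z
        exact star_star z
      rw [h1, h2, cp_mul, cp_mul, cp_mul, cp_star hc h, cp_inv, cp_star hc]
    obtain ⟨h1, h2⟩ := S.star _ (S.pcp g⁻¹ σ hP) hg.1 hg.2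
    have hn' : NonSc n r σ (h * starRingAut * h⁻¹ * g) := by
      rw [NonSc, e1]
      exact h1
    refine hTT _ _ hg hn' ?_
    have hmv : ∀ (γ : ℂ ≃+* ℂ) (σ' : E →+* ℂ) (s : Set (ℂ → ℚ)), (∀ F ∈ s, Rts R Φ σ' F) →
        mv γ '' (mv starRingAut '' s) = mv starRingAut '' (mv γ '' s) := by
      intro γ σ' s hs
      rw [Set.image_image, Set.image_image]
      exact Set.image_congr fun F hF => mv_star (σ := σ') H γ (hs F hF)
    have hr0 : ∀ F ∈ t (cp g⁻¹ σ), Rts R Φ (cp g⁻¹ σ) F :=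
      S.rts _ (S.pcp g⁻¹ σ hP) _ (S.mem _ (S.pcp g⁻¹ σ hP) hg.1 hg.2)
    have hr1 : ∀ F ∈ mv g '' t (cp g⁻¹ σ), Rts R Φ σ F := S.rts σ hP _ (hmem g hg)
    have hr2 : ∀ F ∈ mv h⁻¹ '' (mv g '' t (cp g⁻¹ σ)), Rts R Φ (cp h⁻¹ σ) F :=
      S.rts _ (S.pcp h⁻¹ σ hP) _ (S.bmv h⁻¹ σ hP _ (hmem g hg))
    rw [e1, ← h2, mv_im, hmv g _ _ hr0, mv_im, mv_im, hmv h⁻¹ _ _ hr1, ← mv_im starRingAut starRingAut]
    have h3 : (starRingAut : ℂ ≃+* ℂ) * starRingAut = 1 := by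
      ext z
      exact star_star z
    rw [h3]
    have h4 : ∀ s : Set (ℂ → ℚ), mv (1 : ℂ ≃+* ℂ) '' s = s := fun s =>
      (Set.image_congr fun F _ => (mv_one : mv 1 F = F)).trans (Set.image_id' _)
    rw [h4, ← mv_im, mul_inv_cancel, h4]
  · -- divisibility
    have h1 := S.dvd _ (S.pcp g⁻¹ σ hP) hg.1 hg.2
    have h2 := S.inv g _ (S.pcp g⁻¹ σ hP) _ (S.mem _ (S.pcp g⁻¹ σ hP) hg.1 hg.2)
    rw [cp_inv] at h2
    rw [S.card _ _ hP, ← h2] at h1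
    have h3 : (f.symm (T g)).1 = mv g '' t (cp g⁻¹ σ) := by
      rw [hT g hg, f.symm_apply_apply]
    change n σ ∣ m σ (f.symm (T g)).1 * r (cp g⁻¹ σ)
    rw [h3]
    exact h1
  · -- automorphisms which fix `σ`
    have hinv : ∀ γ : ℂ ≃+* ℂ, cp γ σ = σ → ∀ s ∈ B σ, mv γ '' s ∈ B σ := fun γ hγ s hs => by
      have h1 := S.bmv γ σ hP s hs
      rwa [hγ] at h1
    have hh' : cp h⁻¹ σ = σ := by
      conv_lhs => rw [← hh]
      rw [← cp_mul, inv_mul_cancel]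
      exact cp_one
    have h4 : ∀ s : Set (ℂ → ℚ), mv (1 : ℂ ≃+* ℂ) '' s = s := fun s =>
      (Set.image_congr fun F _ => (mv_one : mv 1 F = F)).trans (Set.image_id' _)
    let q : Equiv.Perm (B σ) :=
      { toFun := fun s => ⟨mv h '' s.1, hinv h hh s.1 s.2⟩
        invFun := fun s => ⟨mv h⁻¹ '' s.1, hinv h⁻¹ hh' s.1 s.2⟩
        left_inv := fun s => Subtype.ext (by
          change mv h⁻¹ '' (mv h '' s.1) = s.1
          rw [← mv_im, inv_mul_cancel, h4])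
        right_inv := fun s => Subtype.ext (by
          change mv h '' (mv h⁻¹ '' s.1) = s.1
          rw [← mv_im, mul_inv_cancel, h4]) }
    refine ⟨(f.symm.trans q).trans f, fun i => ?_, fun g hg => ?_⟩
    · change m σ (f.symm (f (q (f.symm i)))).1 = m σ (f.symm i).1
      rw [f.symm_apply_apply]
      have h1 := S.inv h σ hP _ (f.symm i).2
      rw [hh] at h1
      exact h1
    · have e1 : cp (h * g)⁻¹ σ = cp g⁻¹ σ := by rw [mul_inv_rev, cp_mul, hh']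
      have hn' : NonSc n r σ (h * g) := by
        rw [NonSc, e1]
        exact hg
      change T (h * g) = f (q (f.symm (T g)))
      rw [hT g hg, hT _ hn', f.symm_apply_apply]
      refine congrArg f (Subtype.ext ?_)
      change mv (h * g) '' t (cp (h * g)⁻¹ σ) = mv h '' (mv g '' t (cp g⁻¹ σ))
      rw [e1, mv_im]

end Pool.Agent.FQX
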