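import Pool.Agent.FQA.KindN
import Pool.Agent.FQA.EvenK
import Pool.Agent.FQA.SpreadN

/-!
# The middle exterior powers: the only obstruction besides the powers of two

In the simple symplectic and orthogonal cases all skew operators are in `g`, or no element of
degree one is orthogonal to an extremal pair, and then the dimension is a middle binomial
coefficient.
-/

set_option autoImplicit false
set_option linter.unusedSectionVars false

namespace Pool.Agent.FQX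

open Module Pool.Agent.SmallRank
open Pool.Agent.FQA (TD Cn Fl Conn)
open Pool.Agent.NumRank (Lv)
open Pool.Agent.PrimePow.CC (Rf Rt Lat)

/-- The projective case. -/
def Pj {K V : Type*} [Field K] [AddCommGroup V] [Module K V]
    [CharZero K] [IsAlgClosed K] [FiniteDimensional K V]
    (g : Submodule K (End K V)) (e : End K V) : Prop :=
  (∃ c f ρ, Pr g e c f ρ ∧ ∀ x ∈ up g e, f * x = 0 → x * f = 0 → x = 0) ∧ 20 ≤ finrank K V

variable {K V : Type*} [Field K] [CharZero K] [IsAlgClosed K] [AddCommGroup V] [Module K V]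
  [FiniteDimensional K V] {ψ : V →ₗ[K] V →ₗ[K] K}

private theorem choose_ge {k : ℕ} (h : 3 ≤ k) : 20 ≤ (2 * k).choose k := by
  have h1 : Nat.centralBinom 3 ≤ Nat.centralBinom k := by
    induction k, h using Nat.le_induction with
    | base => exact le_rfl
    | succ k hk ih =>
      refine ih.trans ?_
      have h2 := Nat.succ_mul_centralBinom_succ k
      have h3 : (k + 1) * Nat.centralBinom k ≤ (k + 1) * Nat.centralBinom (k + 1) := by
        rw [h2]
        exact Nat.mul_le_mul_right _ (by omega)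
      exact Nat.le_of_mul_le_mul_left h3 (by omega)
  have h4 : Nat.centralBinom 3 = 20 := by decide
  rw [h4] at h1
  exact h1

/-- **The simple symplectic case.** -/
theorem sp_or {g : Submodule K (End K V)} {e : End K V} (G : Gr g e)
    (halt : ∀ x, ψ x x = 0) (hnd : ∀ x, (∀ y, ψ x y = 0) → x = 0)
    (hgsp : ∀ x ∈ g, ∃ κ : K, ∀ u v, ψ (x u) v + ψ u (x v) = κ * ψ u v)
    (hmult : ∀ u v, ψ (e u) v + ψ u (e v) = ψ u v)
    (hpow : ∀ m, 5 ≤ m → m % 4 = 1 ∨ m % 4 = 2 → finrank K V ≠ 2 ^ m) :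
    (∀ D : End K V, (∀ u v, ψ (D u) v + ψ u (D v) = 0) → D ∈ g) ∨ Pj g e := by
  classical
  have := G.nontrivial
  have hbal := two_rk hnd G.idem hmult
  by_cases hb : ∀ k, Odd k → 3 ≤ k → finrank K V ≠ (2 * k).choose k
  · exact Or.inl fun D hD => FQA.sp_of_gr G halt hnd hgsp hmult hpow (Or.inr hb) hD
  push Not at hb
  obtain ⟨k, -, hk, hkn⟩ := hb
  have h20 : 20 ≤ finrank K V := by
    rw [hkn]
    exact choose_ge hk
  rcases FQA.dich3 G hbal with ⟨c, f, ρ, B, h0⟩ | ⟨c, f, ρ, B, hρ, h4⟩ | ⟨c, f, x, y, T⟩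
  · exact Or.inr ⟨⟨c, f, ρ, B, h0⟩, h20⟩
  · left
    intro D hD
    refine skew_of_small G halt hnd hgsp hmult (N := c) B.cu.1 ?_ ?_ hD
    · intro κ hκ
      have h1 := B.cc
      rw [hκ, smul_mul_smul_comm, one_mul] at h1
      rcases smul_eq_zero.1 h1 with h2 | h2
      · rcases mul_self_eq_zero.1 h2 with rfl
        exact B.c0 (by rw [hκ, zero_smul])
      · exact one_ne_zero h2
    · have h1 := G.rk_add
      have h2 : rk (1 - e) = rk e := by omega
      have h3 : 0 < rk e := G.rk_e_pos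
      rw [h2, B.rkc, ← hbal]
      have h5 : 4 * ρ < 2 * rk e := by rw [hbal]; exact h4
      nlinarith
  · left
    intro D hD
    refine FQA.sp_of_gr G halt hnd hgsp hmult hpow (Or.inl ⟨c + x, T.hu, ?_⟩) hD
    intro v hv hcv
    have h1 := LinearMap.congr_fun T.uu' v
    rw [Module.End.mul_apply, hcv, map_zero, LinearMap.sub_apply, Module.End.one_apply, hv,
      sub_zero] at h1
    exact h1.symm

/-- **The simple orthogonal case.** -/
theorem so_or (hsymm : ∀ u w, ψ u w = ψ w u) (hnd : ∀ x, (∀ y, ψ x y = 0) → x = 0)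
    {g : Submodule K (End K V)} {e : End K V} (G : Gr g e)
    (hgsp : ∀ x ∈ g, ∃ κ : K, ∀ u w, ψ (x u) w + ψ u (x w) = κ * ψ u w)
    (hmul : ∀ u w, ψ (e u) w + ψ u (e w) = ψ u w)
    (hn : ∀ m : ℕ, 3 ≤ m → m % 4 = 0 ∨ m % 4 = 3 → finrank K V ≠ 2 ^ m) :
    (∀ D : End K V, (∀ u v, ψ (D u) v + ψ u (D v) = 0) → D ∈ g) ∨ Pj g e := by
  have := G.nontrivial
  have hbal := two_rk hnd G.idem hmul
  by_cases hb : ∀ k, Even k → 4 ≤ k → finrank K V ≠ (2 * k).choose k
  · exact Or.inl fun D hD => FQA.so_of_gr' hsymm hnd G hgsp hmul hn hb hD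
  push Not at hb
  obtain ⟨k, -, hk, hkn⟩ := hb
  have h20 : 20 ≤ finrank K V := by
    rw [hkn]
    exact choose_ge (by omega)
  rcases FQA.dich3 G hbal with ⟨c, f, ρ, B, h0⟩ | ⟨c, f, ρ, B, hρ, h4⟩ | ⟨c, f, x, y, T⟩
  · exact Or.inr ⟨⟨c, f, ρ, B, h0⟩, h20⟩
  · left
    intro D hD
    have h1 : ρ ≠ 1 := by
      rintro rfl
      exact FQA.rk_up_ne_one hsymm hnd hgsp B.cu.1 B.cc B.rkc
    obtain rfl : ρ = 2 := hρ.resolve_left h1
    exact FQA.skew_of_two hsymm hnd hgsp B hmul hbal (by omega) hD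
  · left
    intro D hD
    refine FQA.so_of_gr hsymm hnd G hgsp hmul (by omega) hn (Or.inl ⟨c + x, T.hu, ?_⟩) hD
    intro v hv hcv
    have h1 := LinearMap.congr_fun T.uu' v
    rw [Module.End.mul_apply, hcv, map_zero, LinearMap.sub_apply, Module.End.one_apply, hv,
      sub_zero] at h1
    exact h1.symm

variable {g t : Submodule K (End K V)} (T : TD g t) [Nontrivial V] {I : Type} [Fintype I]
  (v : Basis I K V) (hv : ∀ x ∈ t, ∀ i, ∃ c : K, x (v i) = c • v i)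
include T hv

theorem td_sp (hcn : ∀ h h', Rt (Lv t v) h → Rt (Lv t v) h' → Cn (Lv t v) h h')
    (halt : ∀ x, ψ x x = 0) (hnd : ∀ x, (∀ y, ψ x y = 0) → x = 0)
    (hgsp : ∀ x ∈ g, ∃ κ : K, ∀ u w, ψ (x u) w + ψ u (x w) = κ * ψ u w)
    (hn : ∀ m : ℕ, 5 ≤ m → m % 4 = 1 ∨ m % 4 = 2 → finrank K V ≠ 2 ^ m)
    (hfl : ∀ m : ℕ, 3 ≤ m → finrank K V = 2 ^ m → ∀ k, ¬ Fl (Lv t v) k)
    {e : End K V} (he : e ∈ t) (hee : e * e = e)
    (hmul : ∀ u w, ψ (e u) w + ψ u (e w) = ψ u w) :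
    (∀ D : End K V, (∀ a b, ψ (D a) b + ψ a (D b) = 0) → D ∈ g) ∨ Pj g e := by
  by_cases h4 : finrank K V % 4 = 2 ∨ finrank K V = 4
  · exact Or.inl fun D hD => T.skew_of_mod4 halt hnd hgsp h4 hD
  push Not at h4
  have hbal := two_rk hnd hee hmul
  obtain ⟨h0, h1⟩ := FQA.ne_of_bal hbal
  have hno : ∀ k, ¬ Fl (Lv t v) k := by
    by_cases hp : ∃ m : ℕ, finrank K V = 2 ^ m
    · obtain ⟨m, hm⟩ := hp
      have hpos : 0 < finrank K V := finrank_pos
      rcases m with _ | _ | _ | m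
      · rw [pow_zero] at hm
        omega
      · rw [zero_add, pow_one] at hm
        exact absurd (by rw [hm]) h4.1
      · exact absurd (by rw [hm]; rfl) h4.2
      · exact hfl (m + 3) (by omega) hm
    · push Not at hp
      exact T.nofl_of_pow v hv hcn hp
  exact sp_or (T.gr_of_nofl v hv hcn hno (T.le he) hee h0 h1) halt hnd hgsp hmul hn

theorem td_so (hcn : ∀ h h', Rt (Lv t v) h → Rt (Lv t v) h' → Cn (Lv t v) h h')
    (hsymm : ∀ u w, ψ u w = ψ w u) (hnd : ∀ x, (∀ y, ψ x y = 0) → x = 0)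
    (hgsp : ∀ x ∈ g, ∃ κ : K, ∀ u w, ψ (x u) w + ψ u (x w) = κ * ψ u w)
    (hn : ∀ m : ℕ, 3 ≤ m → m % 4 = 0 ∨ m % 4 = 3 → finrank K V ≠ 2 ^ m)
    (hfl : ∀ m : ℕ, 2 ≤ m → finrank K V = 2 ^ m → ∀ k, ¬ Fl (Lv t v) k)
    {e : End K V} (he : e ∈ t) (hee : e * e = e)
    (hmul : ∀ u w, ψ (e u) w + ψ u (e w) = ψ u w) :
    (∀ D : End K V, (∀ a b, ψ (D a) b + ψ a (D b) = 0) → D ∈ g) ∨ Pj g e :=
  so_or hsymm hnd (T.so_gr v hv hcn hsymm hnd hgsp hfl he hee hmul) hgsp hmul hn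

end Pool.Agent.FQX
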