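import Pool.Agent.FQX.Comb
import Pool.Agent.SmallRank.LettOdd

/-!
# Letters: the idempotents of the torus
-/

set_option autoImplicit false
set_option linter.unusedSectionVars false

namespace Pool.Agent.FQX

open Module Pool.Agent.SmallRank

variable {K V : Type*} [Field K] [CharZero K] [IsAlgClosed K] [AddCommGroup V] [Module K V]
  [FiniteDimensional K V] {m : ℕ} {g : Submodule K (End K V)} {N : Fin m → End K V}
  {E : Fin m → Fin m → End K V}

/-- The coordinates. -/
theorem lt_coord (L : Lt g N E) {z : End K V} (hz : z ∈ g) : ∃ (a : Fin m → Fin m → K)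
    (b : Fin m → K) (c : K), z = ∑ i, ∑ j, (if i = j then 0 else a i j • E i j) +
      ∑ i, b i • N i + c • (1 : End K V) := by
  classical
  have h1 := L.span z hz
  clear hz
  induction h1 using Submodule.span_induction with
  | mem z hz =>
    rcases hz with (⟨i, j, hij, rfl⟩ | ⟨i, rfl⟩) | hz
    · refine ⟨fun i' j' => if i' = i ∧ j' = j then 1 else 0, 0, 0, ?_⟩
      rw [Finset.sum_eq_single i, Finset.sum_eq_single j]
      · rw [if_neg hij]
        simp
      · intro j' _ hj'
        simp [hj']
      · intro h
        exact absurd (Finset.mem_univ _) h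
      · intro i' _ hi'
        refine Finset.sum_eq_zero fun j' _ => ?_
        simp [hi']
      · intro h
        exact absurd (Finset.mem_univ _) h
    · refine ⟨0, fun i' => if i' = i then 1 else 0, 0, ?_⟩
      simp
    · rw [Set.mem_singleton_iff] at hz
      refine ⟨0, 0, 1, ?_⟩
      rw [hz]
      simp
  | zero => exact ⟨0, 0, 0, by simp⟩
  | add z z' _ _ hz hz' =>
    obtain ⟨a, b, c, rfl⟩ := hz
    obtain ⟨a', b', c', rfl⟩ := hz'
    refine ⟨a + a', b + b', c + c', ?_⟩
    have e1 : ∑ i, ∑ j, (if i = j then 0 else (a + a') i j • E i j) =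
        ∑ i, ∑ j, (if i = j then 0 else a i j • E i j) +
          ∑ i, ∑ j, (if i = j then 0 else a' i j • E i j) := by
      rw [← Finset.sum_add_distrib]
      refine Finset.sum_congr rfl fun i _ => ?_
      rw [← Finset.sum_add_distrib]
      refine Finset.sum_congr rfl fun j _ => ?_
      split_ifs
      · rw [add_zero]
      · rw [Pi.add_apply, Pi.add_apply, add_smul]
    have e2 : ∑ i, (b + b') i • N i = ∑ i, b i • N i + ∑ i, b' i • N i := by
      rw [← Finset.sum_add_distrib]
      exact Finset.sum_congr rfl fun i _ => by rw [Pi.add_apply, add_smul]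
    rw [e1, e2, add_smul]
    abel
  | smul κ z _ hz =>
    obtain ⟨a, b, c, rfl⟩ := hz
    refine ⟨κ • a, κ • b, κ * c, ?_⟩
    have e1 : ∑ i, ∑ j, (if i = j then 0 else (κ • a) i j • E i j) =
        κ • ∑ i, ∑ j, (if i = j then 0 else a i j • E i j) := by
      rw [Finset.smul_sum]
      refine Finset.sum_congr rfl fun i _ => ?_
      rw [Finset.smul_sum]
      refine Finset.sum_congr rfl fun j _ => ?_
      split_ifs
      · rw [smul_zero]
      · rw [Pi.smul_apply, Pi.smul_apply, smul_eq_mul, mul_smul]
    have e2 : ∑ i, (κ • b) i • N i = κ • ∑ i, b i • N i := by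
      rw [Finset.smul_sum]
      exact Finset.sum_congr rfl fun i _ => by rw [Pi.smul_apply, smul_eq_mul, mul_smul]
    rw [e1, e2, smul_add, smul_add, smul_smul]

/-- The elements which commute with the diagonal operators. -/
theorem lt_diag (L : Lt g N E) {k : ℕ} (hk0 : k ≠ 0) (hk : ∑ i, N i = (k : K) • (1 : End K V))
    {z : End K V} (hz : z ∈ g) (hc : ∀ l, z * N l = N l * z) :
    ∃ a : Fin m → K, z = ∑ i, a i • N i := by
  classical
  obtain ⟨a, b, c, h⟩ := lt_coord L hz
  have key : ∀ p q, p ≠ q → a p q • E p q = 0 := by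
    intro p q hpq
    have h1 : N p * ((1 - N q) * (z * ((1 - N p) * N q))) = 0 := by
      have h2 : z * ((1 - N p) * N q) = (1 - N p) * N q * z := by
        rw [mul_sub_right_distrib, one_mul, mul_sub, sub_mul, hc q, ← mul_assoc z, hc p,
          mul_assoc (N p), hc q, mul_assoc (N p)]
      have h3 : N p * ((1 - N q) * ((1 - N p) * N q * z)) =
          (N p * (1 - N q) * ((1 - N p) * N q)) * z := by noncomm_ring
      have h4 : N p * (1 - N q) * ((1 - N p) * N q) = 0 := by
        have h5 : N p * (1 - N q) * ((1 - N p) * N q) = N p * N q - N p * (N q * N q) -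
            N p * N p * N q + N p * (N q * N p) * N q := by noncomm_ring
        rw [h5, L.idem, L.idem, L.comm q p, ← mul_assoc, L.idem, mul_assoc, L.idem]
        abel
      rw [h2, h3, h4, zero_mul]
    -- the components
    have hE : ∀ i j, i ≠ j → N p * ((1 - N q) * (E i j * ((1 - N p) * N q))) =
        if i = p ∧ j = q then E i j else 0 := by
      intro i j hij
      by_cases hip : i = p
      · subst hip
        by_cases hjq : j = q
        · subst hjq
          rw [if_pos ⟨rfl, rfl⟩]
          have e1 : E i j * ((1 - N i) * N j) = E i j := by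
            rw [sub_mul, one_mul, mul_sub, ← mul_assoc, L.EN' i j hij, L.EN i j hij, zero_mul,
              sub_zero]
          rw [e1, sub_mul, one_mul, L.NE' i j hij, sub_zero, L.NE i j hij]
        · rw [if_neg (fun h => hjq h.2)]
          have e1 : E i j * ((1 - N i) * N q) = N q * (E i j * (1 - N i)) := by
            have e2 := L.cm q i j (Ne.symm hpq) (Ne.symm hjq) hij
            have e3 : (1 - N i) * N q = N q * (1 - N i) := by
              rw [sub_mul, one_mul, mul_sub, mul_one, L.comm i q]
            rw [e3, ← mul_assoc, ← e2, mul_assoc]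
          have e4 : (1 - N q) * (N q * (E i j * (1 - N i))) = 0 := by
            rw [← mul_assoc, sub_mul, one_mul, L.idem, sub_self, zero_mul]
          rw [e1, e4, mul_zero]
      · rw [if_neg (fun h => hip h.1)]
        by_cases hjp : j = p
        · subst hjp
          have e1 : N j * ((1 - N q) * (E i j * ((1 - N j) * N q))) = 0 := by
            have e2 : E i j * ((1 - N j) * N q) = 0 := by
              rw [← mul_assoc, mul_sub, mul_one, L.EN' i j hij, sub_self, zero_mul]
            rw [e2, mul_zero, mul_zero]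
          exact e1
        · have e2 := L.cm p i j (Ne.symm hip) (Ne.symm hjp) hij
          have e3 : E i j * ((1 - N p) * N q) = (1 - N p) * (E i j * N q) := by
            rw [← mul_assoc, ← mul_assoc, mul_sub, mul_one, sub_mul 1 (N p) (E i j), one_mul, e2]
          have e4 : N p * ((1 - N q) * ((1 - N p) * (E i j * N q))) = 0 := by
            have e5 : N p * ((1 - N q) * ((1 - N p) * (E i j * N q))) =
                (N p * (1 - N p) - N p * N q * (1 - N p)) * (E i j * N q) := by noncomm_ring
            have e6 : N p * N q * (1 - N p) = 0 := by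
              rw [mul_sub, mul_one, L.comm p q, mul_assoc, L.idem, sub_self]
            rw [e5, e6, mul_sub, mul_one, L.idem, sub_self, sub_zero, zero_mul]
          rw [e3, e4]
    have hN : ∀ i, N p * ((1 - N q) * (N i * ((1 - N p) * N q))) = 0 := by
      intro i
      have e1 : N p * ((1 - N q) * (N i * ((1 - N p) * N q))) =
          N p * N i * N q - N p * (N i * N p) * N q - N p * (N q * N i) * N q +
            N p * (N q * N i) * (N p * N q) := by noncomm_ring
      rw [e1, L.comm i p, L.comm q i]
      have e2 : N p * (N p * N i) * N q = N p * N i * N q := by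
        rw [← mul_assoc, L.idem]
      have e3 : N p * (N i * N q) * N q = N p * N i * N q := by
        rw [← mul_assoc, mul_assoc, L.idem]
      have e4 : N p * (N i * N q) * (N p * N q) = N p * N i * N q := by
        rw [← mul_assoc (N p) (N i), mul_assoc (N p * N i), ← mul_assoc (N q), L.comm q p,
          mul_assoc (N p) (N q), L.idem, ← mul_assoc, mul_assoc (N p) (N i), L.comm i p,
          ← mul_assoc, L.idem]
      rw [e2, e3, e4]
      abel
    have h1N : N p * ((1 - N q) * ((1 : End K V) * ((1 - N p) * N q))) = 0 := by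
      have e1 : N p * ((1 - N q) * ((1 : End K V) * ((1 - N p) * N q))) =
          N p * N q - N p * N p * N q - N p * (N q * N q) + N p * (N q * N p) * N q := by
        noncomm_ring
      rw [e1, L.comm q p, L.idem, L.idem, ← mul_assoc, L.idem, mul_assoc, L.idem]
      abel
    obtain ⟨S, e1⟩ : ∃ S : End K V →ₗ[K] End K V,
        ∀ x, S x = N p * ((1 - N q) * (x * ((1 - N p) * N q))) :=
      ⟨(LinearMap.mulLeft K (N p)).comp ((LinearMap.mulLeft K (1 - N q)).comp
        (LinearMap.mulRight K ((1 - N p) * N q))), fun x => rfl⟩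
    have h6 : S z = a p q • E p q := by
      rw [h, map_add, map_add, map_smul, e1 1, h1N, smul_zero, add_zero, map_sum, map_sum]
      have e2 : ∑ i, S (b i • N i) = 0 := by
        refine Finset.sum_eq_zero fun i _ => ?_
        rw [map_smul, e1, hN, smul_zero]
      rw [e2, add_zero, Finset.sum_eq_single p]
      · rw [map_sum, Finset.sum_eq_single q]
        · rw [if_neg hpq, map_smul, e1, hE p q hpq, if_pos ⟨rfl, rfl⟩]
        · intro j _ hj
          split_ifs with h0
          · rw [map_zero]
          · rw [map_smul, e1, hE p j h0, if_neg (fun h' => hj h'.2), smul_zero]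
        · intro h'
          exact absurd (Finset.mem_univ _) h'
      · intro i _ hi
        rw [map_sum]
        refine Finset.sum_eq_zero fun j _ => ?_
        split_ifs with h0
        · rw [map_zero]
        · rw [map_smul, e1, hE i j h0, if_neg (fun h' => hi h'.1), smul_zero]
      · intro h'
        exact absurd (Finset.mem_univ _) h'
    rw [← e1] at h1
    rw [← h6, h1]
  have h7 : ∑ i, ∑ j, (if i = j then 0 else a i j • E i j) = 0 := by
    refine Finset.sum_eq_zero fun i _ => Finset.sum_eq_zero fun j _ => ?_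
    split_ifs with h0
    · rfl
    · exact key i j h0
  have hkK : (k : K) ≠ 0 := Nat.cast_ne_zero.2 hk0
  refine ⟨fun i => b i + c * (k : K)⁻¹, ?_⟩
  have h8 : ∑ i, (b i + c * (k : K)⁻¹) • N i = ∑ i, b i • N i + c • (1 : End K V) := by
    rw [Finset.sum_congr rfl fun i _ => add_smul (b i) (c * (k : K)⁻¹) (N i),
      Finset.sum_add_distrib, ← Finset.smul_sum, hk, smul_smul, mul_assoc, inv_mul_cancel₀ hkK,
      mul_one]
  rw [h8, h, h7, zero_add]

/-- The idempotents. -/
theorem lt_idem [Nontrivial V] (L : Lt g N E) {k : ℕ} (hm : m = 2 * k) (hk2 : 2 ≤ k)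
    (hk : ∑ i, N i = (k : K) • (1 : End K V)) {f : End K V} (hf : f ∈ g)
    (hc : ∀ l, f * N l = N l * f) (hff : f * f = f) (h0 : f ≠ 0) (h1 : f ≠ 1) :
    ∃ i, f = N i ∨ f = 1 - N i := by
  classical
  obtain ⟨a, ha⟩ := lt_diag L (by omega) hk hf hc
  have hkK : (k : K) ≠ 0 := Nat.cast_ne_zero.2 (by omega)
  have hS : ∀ S : Finset (Fin m), S.card = k → f * L.NS S = (∑ i ∈ S, a i) • L.NS S := by
    intro S hS
    rw [ha, Finset.sum_mul, ← Finset.sum_subset (Finset.subset_univ S), Finset.sum_smul]
    · exact Finset.sum_congr rfl fun i hi => by rw [smul_mul_assoc, L.N_NS hi]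
    · intro i _ hi
      rw [smul_mul_assoc, L.N_NS_zero hk hS hi, smul_zero]
  have hs : ∀ S : Finset (Fin m), S.card = k → ∑ i ∈ S, a i = 0 ∨ ∑ i ∈ S, a i = 1 := by
    intro S hS'
    have h2 := hS S hS'
    have h3 : f * (f * L.NS S) = f * L.NS S := by rw [← mul_assoc, hff]
    rw [h2, mul_smul_comm, h2, smul_smul] at h3
    have h4 := L.rk_one (by omega) hk hS'
    have h5 : L.NS S ≠ 0 := by
      intro h6
      rw [SmallRank.rk_eq_zero.2 h6] at h4
      exact zero_ne_one h4
    have h6 := smul_left_injective K h5 h3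
    by_cases h7 : ∑ i ∈ S, a i = 0
    · exact Or.inl h7
    · exact Or.inr (mul_left_cancel₀ h7 (by rw [h6, mul_one]))
  rcases comb hm hk2 a hs with ⟨c, hcc⟩ | ⟨i, hi⟩ | ⟨i, hi⟩
  · exfalso
    have h2 : f = (c * k) • (1 : End K V) := by
      rw [ha, Finset.sum_congr rfl fun i _ => by rw [hcc i], ← Finset.smul_sum, hk, smul_smul]
    have h3 : (c * k) * (c * k) = c * k := by
      have h4 := hff
      rw [h2, smul_mul_smul_comm, one_mul] at h4
      exact smul_left_injective K one_ne_zero h4
    by_cases h5 : c * k = 0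
    · exact h0 (by rw [h2, h5, zero_smul])
    · exact h1 (by rw [h2, mul_left_cancel₀ h5 (h3.trans (mul_one _).symm), one_smul])
  · refine ⟨i, Or.inl ?_⟩
    rw [ha, Finset.sum_congr rfl fun j _ => by rw [hi j, ite_smul, one_smul, zero_smul],
      Finset.sum_ite_eq', if_pos (Finset.mem_univ _)]
  · refine ⟨i, Or.inr ?_⟩
    rw [ha, Finset.sum_congr rfl fun j _ => by rw [hi j, sub_smul, ite_smul, one_smul, zero_smul],
      Finset.sum_sub_distrib, ← Finset.smul_sum, hk, smul_smul, inv_mul_cancel₀ hkK, one_smul,
      Finset.sum_ite_eq', if_pos (Finset.mem_univ _)]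

/-- The traces of the products. -/
theorem lt_trace [Nontrivial V] (L : Lt g N E) {k : ℕ} (hm : m = 2 * k) (hk2 : 2 ≤ k)
    (hk : ∑ i, N i = (k : K) • (1 : End K V)) {i j : Fin m} (hij : i ≠ j) :
    (2 * (2 * k - 1) : K) * LinearMap.trace K V (N i * N j) = (finrank K V : K) * (k - 1) := by
  classical
  have h1 := L.tr_choose hk {i, j}
  have hij' : i ∉ ({j} : Finset (Fin m)) := by rwa [Finset.mem_singleton]
  have h2 : L.NS {i, j} = N i * N j := by
    have h3 : L.NS {j} = N j := by
      have h4 := L.NS_insert (S := ∅) (i := j) (Finset.notMem_empty _)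
      rw [L.NS_empty, mul_one] at h4
      exact h4
    rw [L.NS_insert hij', h3]
  rw [h2, Finset.card_pair hij] at h1
  have h5 : (m.choose 2 : K) = (m * (m - 1) / 2 : K) := Nat.cast_choose_two K m
  have h6 : (k.choose 2 : K) = (k * (k - 1) / 2 : K) := Nat.cast_choose_two K k
  have h7 : (m : K) = 2 * k := by
    rw [hm]
    push_cast
    ring
  rw [h5, h6, h7] at h1
  have hkK : (k : K) ≠ 0 := Nat.cast_ne_zero.2 (by omega)
  have h8 : (k : K) * ((2 * (2 * k - 1) : K) * LinearMap.trace K V (N i * N j)) =
      k * ((finrank K V : K) * (k - 1)) := by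
    linear_combination 2 * h1
  exact mul_left_cancel₀ hkK h8

end Pool.Agent.FQX
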