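import Pool.Agent.FQX.PjA
import Pool.Agent.FQX.PjB
import Pool.Agent.FQA.PInv
import Pool.Agent.SmallRank.ProjL

/-!
# The letters in the torus
-/

set_option autoImplicit false
set_option linter.unusedSectionVars false

namespace Pool.Agent.FQX

open Module Pool.Agent.SmallRank
open Pool.Agent.SmallRank.PB (nn nn_zero nn_succ)
open Pool.Agent.FQA (TD)
open Pool.Agent.CoprimeSig (IsRoot mem_span_roots)

variable {K V : Type*} [Field K] [CharZero K] [IsAlgClosed K] [AddCommGroup V] [Module K V]
  [FiniteDimensional K V] {g t : Submodule K (End K V)} {e c f : End K V} {ρ : ℕ}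

/-- `z` and `y` are root vectors of opposite weights. -/
def Opp (t : Submodule K (End K V)) (z y : End K V) : Prop :=
  ∀ τ ∈ t, ∃ a : K, τ * z - z * τ = a • z ∧ τ * y - y * τ = -(a • y)

theorem Opp.comm {z y : End K V} (h : Opp t z y) {τ : End K V} (hτ : τ ∈ t) :
    (z * y - y * z) * τ = τ * (z * y - y * z) := by
  obtain ⟨a, h1, h2⟩ := h τ hτ
  have e1 : τ * z = z * τ + a • z := by rw [← h1]; abel
  have e2 : τ * y = y * τ - a • y := by rw [sub_eq_add_neg, ← h2]; abel
  have e3 : τ * (z * y) = z * y * τ := by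
    rw [← mul_assoc, e1, add_mul, mul_assoc, e2, mul_sub, smul_mul_assoc, mul_smul_comm,
      sub_add_cancel, mul_assoc]
  have e4 : τ * (y * z) = y * z * τ := by
    rw [← mul_assoc, e2, sub_mul, mul_assoc, e1, mul_add, smul_mul_assoc, mul_smul_comm,
      add_sub_cancel_right, mul_assoc]
  rw [mul_sub, sub_mul, e3, e4]

/-- A basis of the elements of degree one which consists of root vectors. -/
theorem exists_basis_root (G : Gr g e) (T : TD g t) (he : e ∈ t) :
    ∃ b : Basis (Fin (finrank K (up g e))) K (up g e),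
      ∀ i, ∃ α : End K V → K, ∀ τ ∈ t, τ * (b i : End K V) - (b i : End K V) * τ =
        α τ • (b i : End K V) := by
  have hce : ∀ τ ∈ t, τ * e = e * τ := fun τ hτ => T.comm τ hτ e he
  let S : Set (up g e) := {z | ∃ α : End K V → K, ∀ τ ∈ t, τ * (z : End K V) -
    (z : End K V) * τ = α τ • (z : End K V)}
  have hS : ⊤ ≤ Submodule.span K S := by
    rintro ⟨x, hx⟩ -
    have h1 := mem_span_roots T.toCartan hx.1
    -- the projection
    have key : ∀ z ∈ Submodule.span K {z | ∃ α, IsRoot g t α z}, z ∈ g →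
        ∀ h : e * z * (1 - e) ∈ up g e,
          (⟨e * z * (1 - e), h⟩ : up g e) ∈ Submodule.span K S := by
      intro z hz
      induction hz using Submodule.span_induction with
      | mem z hz =>
        intro _ h
        obtain ⟨α, hα⟩ := hz
        refine Submodule.subset_span ⟨α, fun τ hτ => ?_⟩
        have h2 := hα.root τ hτ
        have h3 := hce τ hτ
        have h4 : τ * (e * z * (1 - e)) - e * z * (1 - e) * τ =
            e * (τ * z - z * τ) * (1 - e) := by
          have h5 : (1 - e) * τ = τ * (1 - e) := by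
            rw [sub_mul, mul_sub, one_mul, mul_one, h3]
          have h6 : e * z * (1 - e) * τ = e * z * τ * (1 - e) := by
            rw [mul_assoc, h5, ← mul_assoc]
          have h7 : τ * (e * z * (1 - e)) = e * τ * z * (1 - e) := by
            rw [← mul_assoc, ← mul_assoc, h3]
          rw [h6, h7, mul_sub e, sub_mul, mul_assoc e τ z, mul_assoc e z τ]
        change τ * (e * z * (1 - e)) - e * z * (1 - e) * τ = α τ • (e * z * (1 - e))
        rw [h4, h2, mul_smul_comm, smul_mul_assoc]
      | zero =>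
        intro _ h
        have h2 : (⟨e * 0 * (1 - e), h⟩ : up g e) = 0 := by
          apply Subtype.ext
          simp
        rw [h2]
        exact Submodule.zero_mem _
      | add z z' hz hz' ih ih' =>
        intro _ h
        have hg : ∀ z ∈ Submodule.span K {z | ∃ α, IsRoot g t α z}, z ∈ g := by
          intro z hz
          have h3 : Submodule.span K {z | ∃ α, IsRoot g t α z} ≤ g := by
            rw [Submodule.span_le]
            rintro z ⟨α, hα⟩
            exact hα.mem
          exact h3 hz
        have h2 := ih (hg z hz) (G.up_mem (hg z hz))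
        have h3 := ih' (hg z' hz') (G.up_mem (hg z' hz'))
        have h4 : (⟨e * (z + z') * (1 - e), h⟩ : up g e) =
            ⟨e * z * (1 - e), G.up_mem (hg z hz)⟩ + ⟨e * z' * (1 - e), G.up_mem (hg z' hz')⟩ := by
          apply Subtype.ext
          change e * (z + z') * (1 - e) = e * z * (1 - e) + e * z' * (1 - e)
          rw [mul_add, add_mul]
        rw [h4]
        exact Submodule.add_mem _ h2 h3
      | smul κ z hz ih =>
        intro _ h
        have hg : z ∈ g := by
          have h3 : Submodule.span K {z | ∃ α, IsRoot g t α z} ≤ g := by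
            rw [Submodule.span_le]
            rintro z ⟨α, hα⟩
            exact hα.mem
          exact h3 hz
        have h2 := ih hg (G.up_mem hg)
        have h4 : (⟨e * (κ • z) * (1 - e), h⟩ : up g e) = κ • ⟨e * z * (1 - e), G.up_mem hg⟩ := by
          apply Subtype.ext
          change e * (κ • z) * (1 - e) = κ • (e * z * (1 - e))
          rw [mul_smul_comm, smul_mul_assoc]
        rw [h4]
        exact Submodule.smul_mem _ _ h2
    have h5 : e * x * (1 - e) = x := by
      rw [hx.2.1, mul_sub, mul_one, hx.2.2, sub_zero]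
    have h6 := key x h1 hx.1 (by rw [h5]; exact hx)
    have h7 : (⟨e * x * (1 - e), by rw [h5]; exact hx⟩ : up g e) = ⟨x, hx⟩ := Subtype.ext h5
    rwa [h7] at h6
  let b := Basis.ofSpan hS
  have hb : ∀ i, b i ∈ S := fun i => Basis.ofSpan_subset hS (Set.mem_range_self i)
  refine ⟨b.reindex (b.indexEquiv (finBasis K (up g e))), fun i => ?_⟩
  rw [Basis.reindex_apply]
  exact hb _

/-- Dual bases which consist of root vectors. -/
theorem exists_dual_root (G : Gr g e) (T : TD g t) (he : e ∈ t) :
    ∃ z y : Fin (finrank K (up g e)) → End K V, Du g e z y ∧ ∀ i, Opp t (z i) (y i) := by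
  obtain ⟨b, hb⟩ := exists_basis_root G T he
  obtain ⟨z', y', D'⟩ := exists_dual G
  choose α hα using hb
  -- the dual basis
  let T' : up g e →ₗ[K] Dual K (dn g e) :=
    { toFun := fun x =>
        ((LinearMap.trace K V).comp (LinearMap.mulLeft K (x : End K V))).comp (dn g e).subtype
      map_add' := fun a b => by
        ext y
        change LinearMap.trace K V (((a : End K V) + (b : End K V)) * (y : End K V)) =
          LinearMap.trace K V ((a : End K V) * (y : End K V)) +
            LinearMap.trace K V ((b : End K V) * (y : End K V))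
        rw [add_mul, map_add]
      map_smul' := fun r a => by
        ext y
        change LinearMap.trace K V ((r • (a : End K V)) * (y : End K V)) =
          r • LinearMap.trace K V ((a : End K V) * (y : End K V))
        rw [smul_mul_assoc, map_smul] }
  have hTa' : ∀ (x : up g e) (y : dn g e),
      T' x y = LinearMap.trace K V ((x : End K V) * (y : End K V)) := fun y x => rfl
  -- the coordinate of `x` in the basis `b` is the trace of `x * y i`
  let y : Fin (finrank K (up g e)) → End K V :=
    fun i => ∑ j, b.repr ⟨z' j, D'.zu j⟩ i • y' j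
  have hyd : ∀ i, y i ∈ dn g e := fun i =>
    (dn g e).sum_mem fun j _ => (dn g e).smul_mem _ (D'.yd j)
  have key : ∀ (i : Fin (finrank K (up g e))) (x : up g e),
      LinearMap.trace K V ((x : End K V) * y i) = b.repr x i := by
    intro i x
    have h1 : x = ∑ j, LinearMap.trace K V ((x : End K V) * y' j) •
        (⟨z' j, D'.zu j⟩ : up g e) := by
      apply Subtype.ext
      rw [AddSubmonoidClass.coe_finsetSum]
      exact D'.ez x x.2
    conv_rhs => rw [h1]
    rw [map_sum, Finsupp.finsetSum_apply]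
    change LinearMap.trace K V ((x : End K V) * ∑ j, b.repr ⟨z' j, D'.zu j⟩ i • y' j) = _
    rw [Finset.mul_sum, map_sum]
    refine Finset.sum_congr rfl fun j _ => ?_
    rw [mul_smul_comm, map_smul, map_smul, Finsupp.smul_apply, smul_eq_mul, smul_eq_mul,
      mul_comm]
  have hez : ∀ x ∈ up g e, x = ∑ i, LinearMap.trace K V (x * y i) • (b i : End K V) := by
    intro x hx
    have h1 := b.sum_repr ⟨x, hx⟩
    have h2 := congrArg Subtype.val h1
    rw [AddSubmonoidClass.coe_finsetSum] at h2
    refine h2.symm.trans (Finset.sum_congr rfl fun i _ => ?_)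
    rw [key i ⟨x, hx⟩]
    rfl
  have hdual : ∀ i j, LinearMap.trace K V ((b i : End K V) * y j) = if i = j then 1 else 0 := by
    intro i j
    rw [key j (b i), b.repr_self, Finsupp.single_apply]
  have hzero : ∀ w ∈ dn g e, (∀ j, LinearMap.trace K V ((b j : End K V) * w) = 0) → w = 0 := by
    intro w hw h
    refine G.nd_dn hw fun u hu => ?_
    rw [hez u hu, Finset.sum_mul, map_sum]
    refine Finset.sum_eq_zero fun j _ => ?_
    rw [smul_mul_assoc, map_smul, h j, smul_zero]
  refine ⟨fun i => (b i : End K V), y, ⟨fun i => (b i).2, hyd, hdual, hez, ?_⟩, ?_⟩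
  · intro x hx
    rw [← sub_eq_zero]
    refine hzero _ ((dn g e).sub_mem hx ((dn g e).sum_mem fun i _ =>
      (dn g e).smul_mem _ (hyd i))) fun j => ?_
    rw [mul_sub, map_sub, Finset.mul_sum, map_sum, Finset.sum_eq_single j]
    · rw [mul_smul_comm, map_smul, hdual, if_pos rfl, smul_eq_mul, mul_one, sub_self]
    · intro i _ hij
      rw [mul_smul_comm, map_smul, hdual, if_neg (Ne.symm hij), smul_zero]
    · intro h
      exact absurd (Finset.mem_univ j) h
  · intro i τ hτ
    refine ⟨α i τ, hα i τ hτ, ?_⟩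
    have h1 : τ * y i - y i * τ ∈ dn g e := by
      have h2 := G.lie_dn (T.le hτ) (T.comm e he τ hτ) (hyd i)
      exact h2
    rw [← sub_eq_zero, sub_neg_eq_add]
    refine hzero _ ((dn g e).add_mem h1 ((dn g e).smul_mem _ (hyd i))) fun j => ?_
    have h3 : LinearMap.trace K V ((b j : End K V) * (τ * y i - y i * τ)) =
        -(α j τ * LinearMap.trace K V ((b j : End K V) * y i)) := by
      have h4 : (b j : End K V) * (τ * y i - y i * τ) =
          ((b j : End K V) * τ) * y i - ((b j : End K V) * y i) * τ := by noncomm_ring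
      have h5 : LinearMap.trace K V ((b j : End K V) * y i * τ) =
          LinearMap.trace K V (τ * (b j : End K V) * y i) := by
        rw [LinearMap.trace_mul_comm, mul_assoc]
      have h6 : τ * (b j : End K V) = (b j : End K V) * τ + α j τ • (b j : End K V) := by
        rw [← hα j τ hτ]
        abel
      rw [h4, map_sub, h5, h6, add_mul, map_add, smul_mul_assoc, map_smul, smul_eq_mul]
      ring
    rw [mul_add, map_add, h3, mul_smul_comm, map_smul, smul_eq_mul, hdual]
    by_cases hji : j = i
    · rw [if_pos hji, hji]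
      ring
    · rw [if_neg hji]
      ring

/-- Bases with the relations of `gl (M + 1)` which consist of root vectors. -/
theorem exists_pb_root (B : Pr g e c f ρ) (h0 : ∀ x ∈ up g e, f * x = 0 → x * f = 0 → x = 0)
    (T : TD g t) (he : e ∈ t) :
    ∃ (M : ℕ) (x y : Fin M → End K V), PB g e x y ∧ ∀ i, Opp t (x i) (y i) := by
  have hρ : (ρ : K) ≠ 0 := Nat.cast_ne_zero.2 B.rho_pos.ne'
  obtain ⟨z, y, D, hop⟩ := exists_dual_root B.G T he
  have hyd : ∀ i, (ρ : K) • y i ∈ dn g e := fun i => (dn g e).smul_mem _ (D.yd i)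
  have htr : ∀ i j, (ρ : K)⁻¹ * LinearMap.trace K V (z i * (ρ : K) • y j) =
      if i = j then 1 else 0 := by
    intro i j
    rw [mul_smul_comm, map_smul, smul_eq_mul, ← mul_assoc, inv_mul_cancel₀ hρ, one_mul, D.dual]
  refine ⟨_, z, fun i => (ρ : K) • y i, ⟨B.G, D.zu, hyd, fun a ha => ?_, fun a ha => ?_, ?_, ?_⟩,
    ?_⟩
  · rw [D.ez a ha]
    exact Submodule.sum_mem _ fun i _ => Submodule.smul_mem _ _
      (Submodule.subset_span (Set.mem_range_self i))
  · rw [D.ey a ha]
    refine Submodule.sum_mem _ fun i _ => ?_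
    have h1 : y i = (ρ : K)⁻¹ • ((ρ : K) • y i) := by
      rw [smul_smul, inv_mul_cancel₀ hρ, one_smul]
    rw [h1]
    exact Submodule.smul_mem _ _ (Submodule.smul_mem _ _
      (Submodule.subset_span (Set.mem_range_self i)))
  · intro i j k
    rw [B.proj₂ h0 (D.zu i) (D.zu k) (hyd j), htr, htr]
  · intro i j k
    rw [B.proj₂' h0 (D.zu j) (hyd i) (hyd k), htr, htr]
  · intro i τ hτ
    obtain ⟨a, h1, h2⟩ := hop i τ hτ
    refine ⟨a, h1, ?_⟩
    rw [mul_smul_comm, smul_mul_assoc, ← smul_sub, h2, smul_neg, smul_comm]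

/-- The exponential of an operator with square zero. -/
theorem exp_mem {x : End K V} (hx : x ∈ g) (hxx : x * x = 0) :
    ∃ u ∈ FQ.expG K g, (u : End K V) = 1 + x ∧ ((u⁻¹ : (End K V)ˣ) : End K V) = 1 - x := by
  refine ⟨⟨1 + x, 1 - x, ?_, ?_⟩, Subgroup.subset_closure ⟨x, hx, 2, ?_, ?_⟩, rfl, rfl⟩
  · rw [mul_sub, mul_one, add_mul, one_mul, hxx]
    abel
  · rw [mul_add, mul_one, sub_mul, one_mul, hxx]
    abel
  · rw [pow_two, hxx]
  · rw [Finset.sum_range_succ, Finset.sum_range_one]
    simp

/-- The conjugation. -/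
theorem pb_conj {M : ℕ} {x y : Fin M → End K V} (P : PB g e x y) (i : Fin (M + 1)) :
    ∃ u ∈ FQ.expG K g,
      (u : End K V) * nn e x y i * ((u⁻¹ : (End K V)ˣ) : End K V) = 1 - e := by
  induction i using Fin.cases with
  | zero =>
    refine ⟨1, Subgroup.one_mem _, ?_⟩
    rw [nn_zero, inv_one, Units.val_one, one_mul, mul_one]
  | succ i =>
    obtain ⟨u, hu, hu1, hu2⟩ := exp_mem (P.xu i).1 (P.xx i i)
    obtain ⟨w, hw, hw1, hw2⟩ := exp_mem (x := -y i) (g.neg_mem (P.yd i).1) (by
      rw [neg_mul_neg, P.yy])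
    refine ⟨u * w * u, Subgroup.mul_mem _ (Subgroup.mul_mem _ hu hw) hu, ?_⟩
    rw [mul_inv_rev, mul_inv_rev, Units.val_mul, Units.val_mul, Units.val_mul, Units.val_mul,
      hu1, hu2, hw1, hw2, nn_succ]
    have e1 := P.xyx i
    have e2 := P.yxy i
    have e3 := P.xx i i
    have e4 := P.yy i i
    have e5 := P.ex i
    have e6 := P.xe i
    have e7 := P.ey i
    have e8 := P.ye i
    set X := x i
    set Y := y i
    have a1 : (1 + X) * (X * Y - Y * X + (1 - e)) * (1 - X) = X * Y - Y * X + (1 - e) - X := by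
      have : (1 + X) * (X * Y - Y * X + (1 - e)) * (1 - X) = X * Y - Y * X + (1 - e)
          + (X * X) * Y - X * Y * X + X - X * e - X * Y * X + Y * (X * X) - X + e * X
          - (X * X) * Y * X + X * Y * (X * X) - X * X + X * e * X := by noncomm_ring
      rw [this, e1, e3, e5, e6]
      simp only [zero_mul, mul_zero]
      abel
    have a2 : (1 + -Y) * (X * Y - Y * X + (1 - e) - X) * (1 - -Y) = (1 - e) - X := by
      have : (1 + -Y) * (X * Y - Y * X + (1 - e) - X) * (1 - -Y) = X * Y - Y * X + (1 - e) - X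
          + (X * (Y * Y) - Y * X * Y + Y - e * Y - X * Y) - Y * X * Y + (Y * Y) * X - Y + Y * e
          + Y * X - Y * X * (Y * Y) + (Y * Y) * X * Y - Y * Y + Y * e * Y + Y * X * Y := by
        noncomm_ring
      rw [this, e2, e4, e7, e8]
      simp only [zero_mul, mul_zero, e4]
      abel
    have a3 : (1 + X) * ((1 - e) - X) * (1 - X) = 1 - e := by
      have : (1 + X) * ((1 - e) - X) * (1 - X) = (1 - e) - X + X - X * e - X * X
          - X + e * X + X * X - X * X + X * e * X + X * X * X := by noncomm_ring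
      rw [this, e3, e5, e6]
      simp only [zero_mul]
      abel
    have a4 : (1 + X) * (1 + -Y) * (1 + X) * (X * Y - Y * X + (1 - e)) *
        ((1 - X) * ((1 - -Y) * (1 - X))) = (1 + X) * ((1 + -Y) * ((1 + X) *
          (X * Y - Y * X + (1 - e)) * (1 - X)) * (1 - -Y)) * (1 - X) := by noncomm_ring
    rw [a4, a1, a2, a3]

/-- The letters in the torus. -/
structure LT (g t : Submodule K (End K V)) (e : End K V) (k : ℕ) (N : Fin (2 * k) → End K V) :
    Prop where
  two : 2 ≤ k
  card : 20 ≤ finrank K V
  mem : ∀ i, N i ∈ t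
  idem : ∀ i, N i * N i = N i
  rank : ∀ i, 2 * rk (N i) = finrank K V
  all : ∀ f ∈ t, f * f = f → f ≠ 0 → f ≠ 1 → ∃ i, f = N i ∨ f = 1 - N i
  tr : ∀ i j, i ≠ j → (2 * (2 * k - 1) : K) * LinearMap.trace K V (N i * N j) =
    (finrank K V : K) * (k - 1)
  conj : ∀ i, ∃ u ∈ FQ.expG K g,
    (u : End K V) * N i * ((u⁻¹ : (End K V)ˣ) : End K V) = 1 - e
  not : ∀ u ∈ FQ.expG K g, (u : End K V) * e * ((u⁻¹ : (End K V)ˣ) : End K V) ≠ 1 - e

theorem exists_lt [Nontrivial V] (T : TD g t) (he : e ∈ t) (P : Pj g e)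
    (hbal : 2 * rk e = finrank K V) : ∃ (k : ℕ) (N : Fin (2 * k) → End K V), LT g t e k N := by
  obtain ⟨⟨c, f, ρ, B, h0⟩, h20⟩ := P
  obtain ⟨M, x, y, P, hop⟩ := exists_pb_root B h0 T he
  obtain ⟨k, hM, hn, hs⟩ := P.finrank_eq hbal
  have hk : 2 ≤ k := by
    by_contra hcon
    have h1 : k = 0 ∨ k = 1 := by omega
    rcases h1 with rfl | rfl
    · rw [hn] at h20
      simp at h20
    · rw [hn] at h20
      simp at h20
  have hmem : ∀ i, nn e x y i ∈ t := by
    intro i
    refine T.cent _ (P.Nmem i) fun τ hτ => ?_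
    have h1 : (1 - e) * τ = τ * (1 - e) := by
      rw [sub_mul, mul_sub, one_mul, mul_one, T.comm e he τ hτ]
    induction i using Fin.cases with
    | zero => exact h1
    | succ i => rw [nn_succ, add_mul, mul_add, h1, (hop i).comm hτ]
  obtain rfl : M = 2 * k - 1 := by omega
  have hMk : 2 * k - 1 + 1 = 2 * k := by omega
  have hrank : ∀ i, 2 * rk (nn e x y i) = finrank K V := by
    intro i
    obtain ⟨u, -, hu⟩ := pb_conj P i
    have h1 : LinearMap.trace K V (nn e x y i) = LinearMap.trace K V (1 - e) := by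
      rw [← hu, LinearMap.trace_mul_comm, ← mul_assoc, Units.inv_mul, one_mul]
    rw [trace_idem (P.idem i), trace_idem B.G.idem'] at h1
    have h2 : rk (nn e x y i) = rk (1 - e) := by exact_mod_cast h1
    have h3 := B.G.rk_add
    omega
  refine ⟨k, fun i => nn e x y (Fin.cast hMk.symm i), hk, h20, fun i => hmem _,
    fun i => P.idem _, fun i => hrank _, ?_, ?_, fun i => pb_conj P _, ?_⟩
  · intro f' hf' hff h00 h11
    obtain ⟨i, hi⟩ := lt_idem P.lt hMk hk hs (T.le hf') (fun l => T.comm _ hf' _ (hmem l)) hff h00 h11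
    exact ⟨Fin.cast hMk i, hi⟩
  · intro i j hij
    exact lt_trace P.lt hMk hk hs (fun h => hij (by simpa using h))
  · intro u hu hue
    obtain ⟨x', hx', hinj⟩ := T.exists_tube (T.le he) B.G.idem hu hue
    have := FQA.proj_inv B hbal h0 hx' hinj
    omega

end Pool.Agent.FQX
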