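import Pool.Agent.FQX.PjC

/-!
# The two classes of idempotents of the torus
-/

set_option autoImplicit false
set_option linter.unusedSectionVars false

namespace Pool.Agent.FQX

open Module Pool.Agent.SmallRank

/-- `f` and `f'` are in the same class. -/
def Sm {I : Type} [Fintype I] (f f' : I → ℚ) : Prop :=
  f = f' ∨ (f ⬝ᵥ f' ≠ 0 ∧ 4 * (f ⬝ᵥ f') < Fintype.card I)

variable {K V : Type*} [Field K] [CharZero K] [IsAlgClosed K] [AddCommGroup V] [Module K V]
  [FiniteDimensional K V] {g t : Submodule K (End K V)} {e : End K V}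
  {I : Type} [Fintype I] {k : ℕ} {N : Fin (2 * k) → End K V}

/-- The values of an idempotent of the torus which is not zero or one. -/
def IsI (t : Submodule K (End K V)) (v : Basis I K V) (f : I → ℚ) : Prop :=
  ∃ x ∈ t, x * x = x ∧ x ≠ 0 ∧ x ≠ 1 ∧ ∀ i, x (v i) = (f i : K) • v i

namespace LT

variable (L : LT g t e k N)
include L

theorem tr1 (i : Fin (2 * k)) : 2 * LinearMap.trace K V (N i) = finrank K V := by
  rw [trace_idem (L.idem i)]
  exact_mod_cast L.rank i

theorem ne_compl (i j : Fin (2 * k)) : N i ≠ 1 - N j := by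
  intro h
  have hn : (finrank K V : K) ≠ 0 := Nat.cast_ne_zero.2 (by have := L.card; omega)
  have h1 : LinearMap.trace K V (N i * N j) = 0 := by
    rw [h, sub_mul, one_mul, L.idem, sub_self, map_zero]
  by_cases hij : i = j
  · subst hij
    rw [L.idem] at h1
    have h2 := L.tr1 i
    rw [h1, mul_zero] at h2
    exact hn h2.symm
  · have h2 := L.tr i j hij
    rw [h1, mul_zero] at h2
    rcases mul_eq_zero.1 h2.symm with h3 | h3
    · exact hn h3
    · have h4 : (k : K) = (1 : ℕ) := by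
        rw [Nat.cast_one]
        exact sub_eq_zero.1 h3
      have h5 : k = 1 := Nat.cast_injective h4
      have := L.two
      omega

variable (v : Basis I K V)

theorem dot {f f' : I → ℚ} {i j : Fin (2 * k)} (hf : ∀ l, N i (v l) = (f l : K) • v l)
    (hf' : ∀ l, N j (v l) = (f' l : K) • v l) (hij : i ≠ j) :
    (2 * (2 * k - 1) : ℚ) * (f ⬝ᵥ f') = (Fintype.card I : ℚ) * (k - 1) := by
  have h1 := L.tr i j hij
  rw [FQA.trace_pair v hf hf', finrank_eq_card_basis v] at h1
  have h2 : (((2 * (2 * k - 1) : ℚ) * (f ⬝ᵥ f') : ℚ) : K) =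
      (((Fintype.card I : ℚ) * (k - 1) : ℚ) : K) := by
    push_cast
    exact h1
  exact_mod_cast h2

theorem dot_lt {f f' : I → ℚ} {i j : Fin (2 * k)} (hf : ∀ l, N i (v l) = (f l : K) • v l)
    (hf' : ∀ l, N j (v l) = (f' l : K) • v l) (hij : i ≠ j) :
    f ⬝ᵥ f' ≠ 0 ∧ 4 * (f ⬝ᵥ f') < Fintype.card I := by
  have h1 := L.dot v hf hf' hij
  have h2 : (2 : ℚ) ≤ k := by exact_mod_cast L.two
  have h3 : (20 : ℚ) ≤ Fintype.card I := by
    have := L.card
    rw [finrank_eq_card_basis v] at this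
    exact_mod_cast this
  constructor
  · intro h0
    rw [h0, mul_zero] at h1
    nlinarith
  · by_contra hcon
    rw [not_lt] at hcon
    nlinarith

/-- **The two classes.** -/
theorem cls : ∃ A : (I → ℚ) → Prop,
    (∀ f, IsI t v f → (A (1 - f) ↔ ¬ A f)) ∧
    (∀ f f', IsI t v f → IsI t v f' → (Sm f f' ↔ (A f ↔ A f'))) ∧
    ∀ x ∈ t, x * x = x → (∃ u ∈ FQ.expG K g,
      (u : End K V) * e * ((u⁻¹ : (End K V)ˣ) : End K V) = x) → ∀ f : I → ℚ,
        (∀ i, x (v i) = (f i : K) • v i) → ¬ A f := by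
  classical
  have h3 : (20 : ℚ) ≤ Fintype.card I := by
    have := L.card
    rw [finrank_eq_card_basis v] at this
    exact_mod_cast this
  have hext : ∀ {x y : End K V} {f : I → ℚ}, (∀ i, x (v i) = (f i : K) • v i) →
      (∀ i, y (v i) = (f i : K) • v i) → x = y := by
    intro x y f hx hy
    exact v.ext fun i => by rw [hx, hy]
  have hcompl : ∀ {x : End K V} {f : I → ℚ}, (∀ i, x (v i) = (f i : K) • v i) →
      ∀ i, (1 - x) (v i) = ((1 - f : I → ℚ) i : K) • v i := by
    intro x f hx i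
    rw [LinearMap.sub_apply, Module.End.one_apply, hx, Pi.sub_apply, Pi.one_apply, Rat.cast_sub,
      Rat.cast_one, sub_smul, one_smul]
  have hcompl' : ∀ {x : End K V} {f : I → ℚ}, (∀ i, (1 - x) (v i) = (f i : K) • v i) →
      ∀ i, x (v i) = ((1 - f : I → ℚ) i : K) • v i := by
    intro x f hx i
    have h := hcompl hx i
    rwa [sub_sub_cancel] at h
  let A : (I → ℚ) → Prop := fun f => ∃ j, ∀ i, N j (v i) = (f i : K) • v i
  have hA : ∀ f, IsI t v f → ¬ A f → A (1 - f) := by
    rintro f ⟨x, hx, hxx, h0, h1, hf⟩ hn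
    obtain ⟨j, hj | hj⟩ := L.all x hx hxx h0 h1
    · exact absurd ⟨j, fun i => by rw [← hj, hf]⟩ hn
    · refine ⟨j, ?_⟩
      rw [hj] at hf
      exact hcompl' hf
  have hA' : ∀ f, A f → ¬ A (1 - f) := by
    rintro f ⟨i, hi⟩ ⟨j, hj⟩
    refine L.ne_compl j i (hext hj (hcompl hi))
  have hsum : ∀ f, A f → 2 * ∑ i, f i = Fintype.card I := by
    rintro f ⟨j, hj⟩
    have h5 := L.tr1 j
    rw [FQA.trace_dg v hj, finrank_eq_card_basis v] at h5
    have h6 : ((2 * ∑ i, f i : ℚ) : K) = ((Fintype.card I : ℚ) : K) := by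
      push_cast
      push_cast at h5
      exact h5
    exact_mod_cast h6
  have hone : ∀ f : I → ℚ, f ⬝ᵥ 1 = ∑ i, f i := fun f => by simp [dotProduct]
  have hone' : ∀ f : I → ℚ, (1 : I → ℚ) ⬝ᵥ f = ∑ i, f i := fun f => by simp [dotProduct]
  have hcard : (1 : I → ℚ) ⬝ᵥ 1 = Fintype.card I := by simp [dotProduct]
  have hpp : ∀ f f', A f → A f' → f = f' ∨ (f ⬝ᵥ f' ≠ 0 ∧ 4 * (f ⬝ᵥ f') < Fintype.card I) := by
    rintro f f' ⟨i, hi⟩ ⟨j, hj⟩
    by_cases hij : i = j
    · subst hij
      exact Or.inl (FQA.fun_eq v hi hj)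
    · exact Or.inr (L.dot_lt v hi hj hij)
  have hpm : ∀ f f', A f → A (1 - f') → ¬ Sm f f' := by
    intro f f' h1 h2 h4
    have h5 : f ≠ f' := by
      rintro rfl
      exact hA' f h1 h2
    obtain ⟨h6, h7⟩ := h4.resolve_left h5
    have e1 : f ⬝ᵥ f' = f ⬝ᵥ 1 - f ⬝ᵥ (1 - f') := by rw [dotProduct_sub]; ring
    have e2 := hsum f h1
    rw [hone] at e1
    rcases hpp f (1 - f') h1 h2 with h8 | ⟨-, h8⟩
    · obtain ⟨j, hj⟩ := h1
      have h9 : f ⬝ᵥ f = ∑ i, f i := by
        refine Finset.sum_congr rfl fun i _ => ?_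
        have h10 := LinearMap.congr_fun (L.idem j) (v i)
        rw [Module.End.mul_apply, hj, map_smul, hj, smul_smul] at h10
        have h11 := smul_left_injective K (v.ne_zero i) h10
        exact_mod_cast h11
      rw [← h8, h9, sub_self] at e1
      exact h6 e1
    · rw [e1] at h7
      linarith
  have hsymm : ∀ f f' : I → ℚ, Sm f f' → Sm f' f := by
    rintro f f' (h | h)
    · exact Or.inl h.symm
    · right
      rwa [dotProduct_comm]
  refine ⟨A, fun f hf => ⟨fun h h' => hA' f h' h, hA f hf⟩, fun f f' hf hf' => ?_, ?_⟩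
  · by_cases h1 : A f <;> by_cases h2 : A f'
    · exact iff_of_true (hpp f f' h1 h2) (iff_of_true h1 h2)
    · refine iff_of_false (hpm f f' h1 (hA f' hf' h2)) fun h => h2 (h.1 h1)
    · refine iff_of_false (fun h => hpm f' f h2 (hA f hf h1) (hsymm _ _ h)) fun h => h1 (h.2 h2)
    · refine iff_of_true ?_ (iff_of_false h1 h2)
      have g1 := hA f hf h1
      have g2 := hA f' hf' h2
      have e1 := hsum _ g1
      have e2 := hsum _ g2
      rcases hpp _ _ g1 g2 with h5 | ⟨h5, h6⟩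
      · left
        exact sub_right_injective h5
      · right
        have e3 : (1 - f) ⬝ᵥ (1 - f') = f ⬝ᵥ f' := by
          rw [← hone, sub_dotProduct, hcard, hone] at e1 e2
          rw [dotProduct_sub, sub_dotProduct, sub_dotProduct, hcard, hone, hone']
          linarith
        rw [e3] at h5 h6
        exact ⟨h5, h6⟩
  · rintro x hx hxx ⟨u, hu, hue⟩ f hf ⟨j, hj⟩
    obtain ⟨w, hw, hwe⟩ := L.conj j
    have h5 : N j = x := hext hj hf
    refine L.not (w * u) (Subgroup.mul_mem _ hw hu) ?_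
    rw [mul_inv_rev, Units.val_mul, Units.val_mul]
    calc (w : End K V) * u * e * (((u⁻¹ : (End K V)ˣ) : End K V) * ((w⁻¹ : (End K V)ˣ) : End K V))
        = (w : End K V) * ((u : End K V) * e * ((u⁻¹ : (End K V)ˣ) : End K V)) *
          ((w⁻¹ : (End K V)ˣ) : End K V) := by noncomm_ring
      _ = 1 - e := by rw [hue, ← h5, hwe]

end LT

end Pool.Agent.FQX
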