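import Pool.Agent.FQX.PjD
import Pool.Agent.FQV.Full
import Pool.Agent.FQ.Index

/-!
# The middle exterior powers: the character of the stabiliser

`σ` is real. If the skew operators are not induced by one of the Lie algebras `g` then they are induced by
none of them (`full_spread`), and all of them are of the projective type. The idempotents of the torus
form two classes, which are permuted by the stabiliser of `σ`; an automorphism over `K` preserves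
the classes, the complex conjugation does not (`exists_chi`).
-/

set_option autoImplicit false
set_option linter.unusedSectionVars false

namespace Pool.Agent.FQX

open Module
open Pool.Agent.CoprimeSig (ratM)
open Pool.Agent.FQA (TD Cn Fl)
open Pool.Agent.NumRank (Lv)
open Pool.Agent.PrimePow.CC (Rf Rt Lat)
open Pool.Agent.FQ (expG fixG mem_fixG)
open Pool.Agent.SmallRank (rk two_rk)
open Pool.Agent.FQV

variable {ι : Type} [Fintype ι] [DecidableEq ι] {E : Type} [CommRing E]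
  {R : E →+* Matrix ι ι ℚ} {Φ : Matrix ι ι ℚ} {σ : E →+* ℂ} {c : E → E}
  {g : Submodule ℂ (Matrix ι ι ℂ)} {ψ : Matrix ι ι ℂ} {W : Submodule ℂ (ι → ℂ)}
  {p : (ι → ℂ) →ₗ[ℂ] W} {v : Basis (Om R Φ σ) ℂ W} {r : (E →+* ℂ) → ℕ}

private theorem fl_of_tyS (h : TyS R Φ σ) {n : ℕ} (hn : Fintype.card (Om R Φ σ) = n) :
    (∀ m : ℕ, 3 ≤ m → m % 4 = 0 ∨ m % 4 = 3 → n ≠ 2 ^ m) ∧
      ∀ m : ℕ, 2 ≤ m → n = 2 ^ m → ∀ k, ¬ Fl (Ls R Φ σ) k := by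
  subst hn
  refine ⟨fun m hm _ => h.1 m hm, fun m hm h1 => ?_⟩
  rcases Nat.eq_or_lt_of_le hm with h2 | h2
  · exact h.2 (by rw [h1, ← h2]; rfl)
  · exact absurd h1 (h.1 m h2)

section

variable [Algebra ℚ E] [Module.Finite ℚ E] [IsReduced E]

private theorem ne_index (F : Frame R Φ g σ W p v) : Nonempty ι := by
  have hnt : Nontrivial W := F.nontrivial
  by_contra hcon
  rw [not_nonempty_iff] at hcon
  obtain ⟨w, hw⟩ := exists_ne (0 : W)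
  exact hw (Subtype.ext (funext fun i => hcon.elim i))

/-- If the skew operators are induced by one Lie algebra then they are induced by all. -/
theorem full_spread {P : Submodule ℂ (Matrix ι ι ℂ) → Matrix ι ι ℂ → Prop} (hP : P g ψ)
    (H : IsFrob R Φ) (hR : Rk R Φ r)
    (hc : ∀ (σ : E →+* ℂ) a, σ (c a) = starRingEnd ℂ (σ a)) (M : Mono R c Φ g ψ)
    (F : Frame R Φ g σ W p v) (hr : ∀ a, starRingEnd ℂ (σ a) = σ a)
    (hcn : ∀ h h', Rt (Ls R Φ σ) h → Rt (Ls R Φ σ) h' → Cn (Ls R Φ σ) h h')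
    (hS : Alt P R c Φ σ ∨ TyS R Φ σ)
    {g₁ : Submodule ℂ (Matrix ι ι ℂ)} {ψ₁ : Matrix ι ι ℂ} {W₁ : Submodule ℂ (ι → ℂ)}
    {p₁ : (ι → ℂ) →ₗ[ℂ] W₁} {v₁ : Basis (Om R Φ σ) ℂ W₁} (M₁ : Mono R c Φ g₁ ψ₁)
    (F₁ : Frame R Φ g₁ σ W₁ p₁ v₁) {φ₁ : W₁ →ₗ[ℂ] W₁ →ₗ[ℂ] ℂ} (hφ₁ : IsForm g₁ ψ₁ p₁ φ₁)
    (has₁ : (∀ x, φ₁ x x = 0) ∨ ∀ x y, φ₁ x y = φ₁ y x)
    (hfull : ∀ D₁ : End ℂ W₁, (∀ a b, φ₁ (D₁ a) b + φ₁ a (D₁ b) = 0) → D₁ ∈ res p₁ g₁) :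
    FullW g ψ p := by
  intro D _ hD
  have hnt : Nontrivial W := F.nontrivial
  have hnt₁ : Nontrivial W₁ := F₁.nontrivial
  have hne : Nonempty ι := ne_index F
  have T := td M H hR.tr.idem F.irr F.prj
  have T₁ := td M₁ H hR.tr.idem F₁.irr F₁.prj
  have hcn' : ∀ h h', Rt (Lv (res p (tor Φ)) v) h → Rt (Lv (res p (tor Φ)) v) h' →
      Cn (Lv (res p (tor Φ)) v) h h' := by
    rw [F.lv M]
    exact hcn
  obtain ⟨φ, hφ, has⟩ := exists_isForm M hc F.irr F.prj F.le hr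
  obtain ⟨e, he, hee, htr, -⟩ := hR.ex 1
  have hm := mult_of_trace M (M.le he) htr
  have hm₁ := mult_of_trace M₁ (M₁.le he) htr
  obtain ⟨h2, h3, -⟩ := rm_val F M he hee
  obtain ⟨h2', h3', -⟩ := rm_val F₁ M₁ he hee
  have h4 : ∀ a b, φ (rm p e a) b + φ a (rm p e b) = φ a b := by
    intro a b
    have h5 := hφ.mult e (M.le he) 1 (by rw [one_smul]; exact hm) a b
    rwa [one_mul] at h5
  have h4' : ∀ a b, φ₁ (rm p₁ e a) b + φ₁ a (rm p₁ e b) = φ₁ a b := by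
    intro a b
    have h5 := hφ₁.mult e (M₁.le he) 1 (by rw [one_smul]; exact hm₁) a b
    rwa [one_mul] at h5
  have hL : Lv (res p (tor Φ)) v = Lv (res p₁ (tor Φ)) v₁ := by rw [F.lv M, F₁.lv M₁]
  rcases has with halt | hsymm
  · exact T.spread_sp v (F.hv M) hcn' halt hφ.nd (hφ.sim M) h2 h3 h4 T₁ v₁ (F₁.hv M₁) hL
      has₁ hφ₁.nd (hφ₁.sim M₁) h2' h3' h4' hfull (hD φ hφ)
  · have hS' := hS.resolve_left fun h => not_alt_symm hφ.nd (h g ψ M hP W p v F φ hφ) hsymm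
    exact T.spread_so v (F.hv M) hcn' hsymm hφ.nd (hφ.sim M)
      (by rw [← F.card]; exact hS'.1 3 le_rfl)
      (by rw [← F.card, F.lv M]; exact hS'.2) h2 h3 h4 T₁ v₁ (F₁.hv M₁) hL
      has₁ hφ₁.nd (hφ₁.sim M₁) h2' h3' h4' hfull (hD φ hφ)

/-- The letters for all Lie algebras. -/
theorem lt_of_not_full {P : Submodule ℂ (Matrix ι ι ℂ) → Matrix ι ι ℂ → Prop} (hP : P g ψ)
    (H : IsFrob R Φ) (hR : Rk R Φ r)
    (hc : ∀ (σ : E →+* ℂ) a, σ (c a) = starRingEnd ℂ (σ a)) (M : Mono R c Φ g ψ)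
    (F : Frame R Φ g σ W p v) (hr : ∀ a, starRingEnd ℂ (σ a) = σ a)
    (hcn : ∀ h h', Rt (Ls R Φ σ) h → Rt (Ls R Φ σ) h' → Cn (Ls R Φ σ) h h')
    (hA : TyA R Φ σ) (hS : Alt P R c Φ σ ∨ TyS R Φ σ) (hnf : ¬ FullW g ψ p)
    {g₁ : Submodule ℂ (Matrix ι ι ℂ)} {ψ₁ : Matrix ι ι ℂ} {W₁ : Submodule ℂ (ι → ℂ)}
    {p₁ : (ι → ℂ) →ₗ[ℂ] W₁} {v₁ : Basis (Om R Φ σ) ℂ W₁} (M₁ : Mono R c Φ g₁ ψ₁)
    (P₁ : P g₁ ψ₁) (F₁ : Frame R Φ g₁ σ W₁ p₁ v₁) {e : Matrix ι ι ℂ} (he : e ∈ tor Φ)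
    (hee : e * e = e) (htr : 2 * e.trace = Fintype.card ι) :
    2 * rk (rm p₁ e) = finrank ℂ W₁ ∧
      ∃ (k : ℕ) (N : Fin (2 * k) → End ℂ W₁), LT (res p₁ g₁) (res p₁ (tor Φ)) (rm p₁ e) k N := by
  have hnt₁ : Nontrivial W₁ := F₁.nontrivial
  have hne : Nonempty ι := ne_index F
  have T₁ := td M₁ H hR.tr.idem F₁.irr F₁.prj
  have hcn₁ : ∀ h h', Rt (Lv (res p₁ (tor Φ)) v₁) h → Rt (Lv (res p₁ (tor Φ)) v₁) h' →
      Cn (Lv (res p₁ (tor Φ)) v₁) h h' := by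
    rw [F₁.lv M₁]
    exact hcn
  obtain ⟨φ₁, hφ₁, has₁⟩ := exists_isForm M₁ hc F₁.irr F₁.prj F₁.le hr
  have hm₁ := mult_of_trace M₁ (M₁.le he) htr
  obtain ⟨h2, h3, -⟩ := rm_val F₁ M₁ he hee
  have h4 : ∀ a b, φ₁ (rm p₁ e a) b + φ₁ a (rm p₁ e b) = φ₁ a b := by
    intro a b
    have h5 := hφ₁.mult e (M₁.le he) 1 (by rw [one_smul]; exact hm₁) a b
    rwa [one_mul] at h5
  have hbal := two_rk hφ₁.nd h3 h4
  refine ⟨hbal, exists_lt T₁ h2 ?_ hbal⟩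
  by_contra hcon
  apply hnf
  refine full_spread hP H hR hc M F hr hcn hS M₁ F₁ hφ₁ has₁ ?_
  rcases has₁ with halt | hsymm
  · exact (td_sp T₁ v₁ (F₁.hv M₁) hcn₁ halt hφ₁.nd (hφ₁.sim M₁)
      (by rw [← F₁.card]; exact hA.1) (by rw [← F₁.card, F₁.lv M₁]; exact hA.2) h2 h3
      h4).resolve_right hcon
  · have hS' := hS.resolve_left fun h =>
      not_alt_symm hφ₁.nd (h g₁ ψ₁ M₁ P₁ W₁ p₁ v₁ F₁ φ₁ hφ₁) hsymm
    obtain ⟨e1, e2⟩ := fl_of_tyS hS' F₁.card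
    exact (td_so T₁ v₁ (F₁.hv M₁) hcn₁ hsymm hφ₁.nd (hφ₁.sim M₁) e1
      (by rw [F₁.lv M₁]; exact e2) h2 h3 h4).resolve_right hcon

/-- The bijection of the eigenvalues. -/
private def stE (γ : ℂ ≃+* ℂ) (hγ : cp γ σ = σ) : Om R Φ σ ≃ Om R Φ σ where
  toFun μ := ⟨γ μ, by
    have h := mem_Om_cp γ μ.2
    rwa [hγ] at h⟩
  invFun μ := ⟨γ.symm μ, symm_mem_Om (by rw [hγ]; exact μ.2)⟩
  left_inv μ := Subtype.ext (γ.symm_apply_apply _)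
  right_inv μ := Subtype.ext (γ.apply_symm_apply _)

private theorem sm_equiv {I : Type} [Fintype I] (ε : I ≃ I) (f f' : I → ℚ) :
    Sm (f ∘ ε) (f' ∘ ε) ↔ Sm f f' := by
  unfold Sm
  rw [dot_equiv]
  have h : f ∘ ε = f' ∘ ε ↔ f = f' :=
    ⟨fun h => funext fun i => by
      have := congrFun h (ε.symm i)
      simpa using this, fun h => by rw [h]⟩
  rw [h]

/-- The values of an idempotent. -/
private noncomputable def vl (R : E →+* Matrix ι ι ℚ) (Φ : Matrix ι ι ℚ) (σ : E →+* ℂ)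
    (e : Matrix ι ι ℂ) : Om R Φ σ → ℚ := rs R Φ σ (ev Φ e)

private theorem vl_map (γ : ℂ ≃+* ℂ) (hγ : cp γ σ = σ) (e : Matrix ι ι ℂ) :
    vl R Φ σ (e.map γ) ∘ stE γ hγ = vl R Φ σ e := by
  funext μ
  unfold vl
  rw [Function.comp_apply, rs_apply, rs_apply, ev_map]
  exact congrArg _ (γ.symm_apply_apply _)

private theorem sm_map (γ : ℂ ≃+* ℂ) (hγ : cp γ σ = σ) (e e' : Matrix ι ι ℂ) :
    Sm (vl R Φ σ (e.map γ)) (vl R Φ σ (e'.map γ)) ↔ Sm (vl R Φ σ e) (vl R Φ σ e') := by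
  rw [← sm_equiv (stE γ hγ), vl_map, vl_map]

/-- The idempotents. -/
private structure Ip (Φ : Matrix ι ι ℚ) (e : Matrix ι ι ℂ) : Prop where
  mem : e ∈ tor Φ
  idem : e * e = e
  tr : 2 * e.trace = Fintype.card ι

private theorem Ip.map (H : IsFrob R Φ) {e : Matrix ι ι ℂ} (h : Ip Φ e) (γ : ℂ ≃+* ℂ) :
    Ip Φ (e.map γ) := by
  refine ⟨map_mem_tor h.mem γ H.diag, ?_, ?_⟩
  · have h1 := congrArg (fun A : Matrix ι ι ℂ => A.map γ) h.idem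
    simp only [Matrix.map_mul] at h1
    exact h1
  · have h1 := congrArg γ h.tr
    rw [map_mul, map_ofNat, map_natCast] at h1
    rw [← h1]
    congr 1
    simp [Matrix.trace]

/-- **The character of the stabiliser.** -/
theorem exists_chi {P : Submodule ℂ (Matrix ι ι ℂ) → Matrix ι ι ℂ → Prop} (hP : P g ψ)
    (H : IsFrob R Φ) (hR : Rk R Φ r)
    (hc : ∀ (σ : E →+* ℂ) a, σ (c a) = starRingEnd ℂ (σ a)) (M : Mono R c Φ g ψ)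
    (F : Frame R Φ g σ W p v) (hr : ∀ a, starRingEnd ℂ (σ a) = σ a)
    (hcn : ∀ h h', Rt (Ls R Φ σ) h → Rt (Ls R Φ σ) h' → Cn (Ls R Φ σ) h h')
    (hA : TyA R Φ σ) (hS : Alt P R c Φ σ ∨ TyS R Φ σ) (hnf : ¬ FullW g ψ p)
    {K : Subfield ℂ}
    (hHT : ∀ γ ∈ fixG K, ∀ S : Finset ℂ, (∀ x ∈ S, IsAlgebraic ℚ x) →
      ∃ τ : ℂ ≃+* ℂ, (∀ x ∈ S, τ x = γ x) ∧ ∃ (g : Submodule ℂ (Matrix ι ι ℂ))
        (ψ e : Matrix ι ι ℂ), Mono R c Φ g ψ ∧ P g ψ ∧ Coch R Φ r g ψ τ e) :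
    ∃ X : (ℂ ≃+* ℂ) → Prop,
      (∀ γ γ' : ℂ ≃+* ℂ, cp γ σ = σ → cp γ' σ = σ → (X (γ * γ') ↔ (X γ ↔ X γ'))) ∧
      (∀ γ ∈ fixG K, cp γ σ = σ → X γ) ∧ ¬ X starRingAut := by
  classical
  obtain ⟨e₀, he₀, hee₀, htr₀, -⟩ := hR.ex 1
  have I₀ : Ip Φ e₀ := ⟨he₀, hee₀, htr₀⟩
  have hI : Idem Φ := hR.tr.idem
  -- the values are values of idempotents
  have hIsI : ∀ {g₁ : Submodule ℂ (Matrix ι ι ℂ)} {ψ₁ : Matrix ι ι ℂ}
      {W₁ : Submodule ℂ (ι → ℂ)} {p₁ : (ι → ℂ) →ₗ[ℂ] W₁} {v₁ : Basis (Om R Φ σ) ℂ W₁}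
      (_ : Mono R c Φ g₁ ψ₁) (_ : P g₁ ψ₁) (_ : Frame R Φ g₁ σ W₁ p₁ v₁)
      {e : Matrix ι ι ℂ}, Ip Φ e → IsI (res p₁ (tor Φ)) v₁ (vl R Φ σ e) := by
    intro g₁ ψ₁ W₁ p₁ v₁ M₁ P₁ F₁ e Ie
    have hnt₁ : Nontrivial W₁ := F₁.nontrivial
    obtain ⟨h1, h2, h3⟩ := rm_val F₁ M₁ Ie.mem Ie.idem
    obtain ⟨hbal, -⟩ := lt_of_not_full hP H hR hc M F hr hcn hA hS hnf M₁ P₁ F₁ Ie.mem Ie.idem
      Ie.tr
    obtain ⟨h4, h5⟩ := FQA.ne_of_bal hbal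
    exact ⟨_, h1, h2, h4, h5, h3⟩
  obtain ⟨-, k, N, L⟩ := lt_of_not_full hP H hR hc M F hr hcn hA hS hnf M hP F he₀ hee₀ htr₀
  obtain ⟨A, hA1, hA2, -⟩ := L.cls v
  have a1 : ∀ e, Ip Φ e → (A (1 - vl R Φ σ e) ↔ ¬ A (vl R Φ σ e)) := fun e Ie =>
    hA1 _ (hIsI M hP F Ie)
  have a2 : ∀ e e', Ip Φ e → Ip Φ e' →
      (Sm (vl R Φ σ e) (vl R Φ σ e') ↔ (A (vl R Φ σ e) ↔ A (vl R Φ σ e'))) :=
    fun e e' Ie Ie' => hA2 _ _ (hIsI M hP F Ie) (hIsI M hP F Ie')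
  -- independence of the idempotent
  have key : ∀ (γ : ℂ ≃+* ℂ), cp γ σ = σ → ∀ e, Ip Φ e →
      ((A (vl R Φ σ e) ↔ A (vl R Φ σ (e.map γ))) ↔
        (A (vl R Φ σ e₀) ↔ A (vl R Φ σ (e₀.map γ)))) := by
    intro γ hγ e Ie
    have h1 := sm_map (Φ := Φ) (R := R) γ hγ e e₀
    rw [a2 _ _ (Ie.map H γ) (I₀.map H γ), a2 _ _ Ie I₀] at h1
    tauto
  refine ⟨fun γ => (A (vl R Φ σ e₀) ↔ A (vl R Φ σ (e₀.map γ))), ?_, ?_, ?_⟩
  · intro γ γ' hγ hγ'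
    have h1 := key γ hγ _ (I₀.map H γ')
    have h2 : (e₀.map γ').map γ = e₀.map (γ * γ' : ℂ ≃+* ℂ) := by
      ext i j
      rfl
    rw [h2] at h1
    tauto
  · intro γ hγK hγ
    have hfin := Module.End.finite_hasEigenvalue (Matrix.toLin' (ratM Φ))
    have halg : ∀ {μ : ℂ}, Module.End.HasEigenvalue (Matrix.toLin' (ratM Φ)) μ →
        IsAlgebraic ℚ μ := by
      intro μ hμ
      rw [Module.End.hasEigenvalue_iff_isRoot_charpoly, Matrix.charpoly_toLin'] at hμ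
      refine ⟨Φ.charpoly, Φ.charpoly_monic.ne_zero, ?_⟩
      have h2 : (ratM Φ).charpoly = Φ.charpoly.map (algebraMap ℚ ℂ) := by
        rw [← Matrix.charpoly_map]
        rfl
      rw [h2] at hμ
      rwa [Polynomial.IsRoot.def, Polynomial.eval_map_algebraMap] at hμ
    obtain ⟨τ, h1, g₁, ψ₁, e₁, M₁, P₁, C₁⟩ := hHT γ hγK hfin.toFinset
      fun x hx => halg ((Set.Finite.mem_toFinset hfin).1 hx)
    have htr₁ := trace_of_mult M₁ C₁.mult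
    have I₁ : Ip Φ e₁ := ⟨C₁.mem, C₁.idem, htr₁⟩
    obtain ⟨W₁, p₁, v₁, F₁⟩ := exists_frame M₁ H hI σ
    have hnt₁ : Nontrivial W₁ := F₁.nontrivial
    obtain ⟨-, k₁, N₁, L₁⟩ := lt_of_not_full hP H hR hc M F hr hcn hA hS hnf M₁ P₁ F₁ I₁.mem
      I₁.idem I₁.tr
    obtain ⟨A₁, -, b2, b3⟩ := L₁.cls v₁
    obtain ⟨h2, h3, h4⟩ := rm_val F₁ M₁ I₁.mem I₁.idem
    have I₂ := I₁.map H τ
    obtain ⟨h2', h3', h4'⟩ := rm_val F₁ M₁ I₂.mem I₂.idem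
    have n1 : ¬ A₁ (vl R Φ σ e₁) := by
      refine b3 _ h2 h3 ⟨1, Subgroup.one_mem _, ?_⟩ _ h4
      rw [inv_one, Units.val_one, one_mul, mul_one]
    have n2 : ¬ A₁ (vl R Φ σ (e₁.map τ)) := by
      obtain ⟨u, hu, hue⟩ := C₁.conj
      obtain ⟨u', hu', hconj⟩ := exp_res F₁.prj F₁.irr.1 hu
      refine b3 _ h2' h3' ⟨u', hu', ?_⟩ _ h4'
      rw [← hconj e₁ (M₁.le C₁.mem), ← hue]
    have h5 : Sm (vl R Φ σ e₁) (vl R Φ σ (e₁.map τ)) :=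
      (b2 _ _ (hIsI M₁ P₁ F₁ I₁) (hIsI M₁ P₁ F₁ I₂)).2 (iff_of_false n1 n2)
    have h6 : vl R Φ σ (e₁.map τ) = vl R Φ σ (e₁.map γ) := by
      funext μ
      unfold vl
      rw [rs_apply, rs_apply, ev_map, ev_map]
      congr 1
      have h7 : γ.symm μ ∈ Om R Φ σ := symm_mem_Om (by rw [hγ]; exact μ.2)
      have h8 := h1 (γ.symm μ) ((Set.Finite.mem_toFinset hfin).2 (hasEigenvalue_of_mem h7))
      rw [RingEquiv.apply_symm_apply] at h8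
      apply τ.injective
      rw [RingEquiv.apply_symm_apply, h8]
    rw [h6, a2 _ _ I₁ (I₁.map H γ)] at h5
    exact (key γ hγ e₁ I₁).1 h5
  · intro h
    have h1 : vl R Φ σ (e₀.map (starRingAut : ℂ ≃+* ℂ)) = 1 - vl R Φ σ e₀ := by
      funext μ
      unfold vl
      rw [rs_apply, ev_map, Pi.sub_apply, Pi.one_apply, rs_apply]
      have h2 : (starRingAut : ℂ ≃+* ℂ).symm (μ : ℂ) = starRingEnd ℂ μ := by
        apply (starRingAut : ℂ ≃+* ℂ).injective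
        rw [RingEquiv.apply_symm_apply]
        exact (Complex.conj_conj _).symm
      rw [h2]
      exact ev_conj H he₀ hee₀ htr₀ (hasEigenvalue_of_mem μ.2)
    rw [h1, a1 _ I₀] at h
    tauto

end

end Pool.Agent.FQX
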