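import Pool.Agent.FQX.CC

/-!
# Projections and determinants

`Gl R σ a b`: `b` acts as `a` on the eigenspace for `σ` and trivially on the other ones.
-/

set_option autoImplicit false
set_option linter.unusedSectionVars false

namespace Pool.Agent.FQX

open Module
open Pool.Agent.CoprimeSig (ratM)
open Pool.Agent.FQV
open Pool.Agent.FQ (expG IsExp)

variable {ι : Type} [Fintype ι] [DecidableEq ι] {E : Type} [CommRing E]
  {R : E →+* Matrix ι ι ℚ} {Φ : Matrix ι ι ℚ} {σ : E →+* ℂ} {c : E → E}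
  {g : Submodule ℂ (Matrix ι ι ℂ)} {ψ : Matrix ι ι ℂ} {P P' a b x y : Matrix ι ι ℂ}

/-- `b` acts as `a` on the eigenspace for `σ` and trivially on the other ones. -/
structure Gl (R : E →+* Matrix ι ι ℚ) (σ : E →+* ℂ) (a b : Matrix ι ι ℂ) : Prop where
  eq : EqOn R σ b a
  out : ∀ σ' : E →+* ℂ, σ' ≠ σ → ∀ v ∈ HS R σ', b.mulVec v = v

/-- PACKAGE. `exists_pr` (`Dg.lean`) and `M.center`. -/
theorem exists_prc [Algebra ℚ E] [Module.Finite ℚ E] [IsReduced E] (M : Mono R c Φ g ψ)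
    (σ : E →+* ℂ) : ∃ P, IsPr R σ P ∧ CC g P := by
  obtain ⟨P, hP, h⟩ := exists_pr R σ
  exact ⟨P, hP, fun Z hZ => (h Z (M.center Z hZ)).symm⟩

/-- PACKAGE. `iSup_HS M`. -/
theorem ext_on (M : Mono R c Φ g ψ) (h : ∀ σ : E →+* ℂ, EqOn R σ a b) : a = b := by
  have h3 : (⊤ : Submodule ℂ (ι → ℂ)) ≤
      LinearMap.eqLocus (Matrix.toLin' a) (Matrix.toLin' b) := by
    rw [← iSup_HS M]
    refine iSup_le fun σ' v hv => ?_
    rw [LinearMap.mem_eqLocus, Matrix.toLin'_apply, Matrix.toLin'_apply]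
    exact h σ' v hv
  exact (Matrix.toLin' (R := ℂ)).injective (LinearMap.ext fun v => h3 (Submodule.mem_top : v ∈ ⊤))

/-- PACKAGE. -/
theorem IsPr.mul_self (M : Mono R c Φ g ψ) (h : IsPr R σ P) : P * P = P := by
  refine ext_on M fun σ' v hv => ?_
  rw [← Matrix.mulVec_mulVec]
  by_cases hs : σ' = σ
  · subst hs
    rw [h.fix v hv, h.fix v hv]
  · rw [h.kill σ' hs v hv, Matrix.mulVec_zero]

/-- PACKAGE. -/
theorem IsPr.range (M : Mono R c Φ g ψ) (h : IsPr R σ P) (v : ι → ℂ) : P.mulVec v ∈ HS R σ := by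
  have h1 : (⊤ : Submodule ℂ (ι → ℂ)) ≤ (HS R σ).comap (Matrix.toLin' P) := by
    rw [← iSup_HS M]
    refine iSup_le fun σ' w hw => ?_
    rw [Submodule.mem_comap, Matrix.toLin'_apply]
    by_cases hs : σ' = σ
    · subst hs
      rw [h.fix w hw]
      exact hw
    · rw [h.kill σ' hs w hw]
      exact zero_mem _
  have h2 := h1 (Submodule.mem_top : v ∈ ⊤)
  rwa [Submodule.mem_comap, Matrix.toLin'_apply] at h2

/-- PACKAGE. `ext_on`: on `HS R σ'` both sides are `a v` for `σ' = σ` and `0` for `σ' ≠ σ` (`CC.hs`). -/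
theorem IsPr.comm (M : Mono R c Φ g ψ) (h : IsPr R σ P) (ha : CC g a) : a * P = P * a := by
  refine ext_on M fun σ' v hv => ?_
  rw [← Matrix.mulVec_mulVec, ← Matrix.mulVec_mulVec]
  by_cases hs : σ' = σ
  · subst hs
    rw [h.fix v hv, h.fix _ (ha.hs M hv)]
  · rw [h.kill σ' hs v hv, h.kill σ' hs _ (ha.hs M hv), Matrix.mulVec_zero]

/-- PACKAGE. `b = a * P + (1 - P)`. -/
theorem exists_gl [Algebra ℚ E] [Module.Finite ℚ E] [IsReduced E] (M : Mono R c Φ g ψ)
    (σ : E →+* ℂ) (ha : CC g a) : ∃ b, Gl R σ a b ∧ CC g b := by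
  obtain ⟨P, hP, hC⟩ := exists_prc M σ
  refine ⟨a * P + (1 - P), ⟨fun v hv => ?_, fun σ' hs v hv => ?_⟩,
    (ha.mul hC).add (CC.one.sub hC)⟩
  · rw [Matrix.add_mulVec, Matrix.sub_mulVec, Matrix.one_mulVec, ← Matrix.mulVec_mulVec,
      hP.fix v hv, sub_self, add_zero]
  · rw [Matrix.add_mulVec, Matrix.sub_mulVec, Matrix.one_mulVec, ← Matrix.mulVec_mulVec,
      hP.kill σ' hs v hv, Matrix.mulVec_zero, zero_add, sub_zero]

/-- PACKAGE. `ext_on`. -/
theorem Gl.unique (M : Mono R c Φ g ψ) (h : Gl R σ a b) {b' : Matrix ι ι ℂ} (h' : Gl R σ a b') :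
    b = b' := by
  refine ext_on M fun σ' v hv => ?_
  by_cases hs : σ' = σ
  · subst hs
    rw [h.eq v hv, h'.eq v hv]
  · rw [h.out σ' hs v hv, h'.out σ' hs v hv]

private theorem Pr_mulVec (τ : ℂ ≃+* ℂ) (B : Matrix ι ι ℂ) (w : ι → ℂ) : (B.map τ).mulVec w =
    fun i => τ (B.mulVec (fun i => τ.symm (w i)) i) := by
  funext i
  rw [Matrix.mulVec, Matrix.mulVec, dotProduct, dotProduct, map_sum]
  exact Finset.sum_congr rfl fun j _ => by
    rw [Matrix.map_apply, map_mul, RingEquiv.apply_symm_apply]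

private theorem Pr_cp (τ : ℂ ≃+* ℂ) (σ : E →+* ℂ) : cp τ.symm (cp τ σ) = σ := by
  ext a
  simp [cp_apply]

private theorem Pr_cp' (τ : ℂ ≃+* ℂ) (σ : E →+* ℂ) : cp τ (cp τ.symm σ) = σ := by
  ext a
  simp [cp_apply]

/-- PACKAGE. For `σ'' ≠ cp τ σ` use `conj_mem_HS τ.symm`. -/
theorem Gl.map (τ : ℂ ≃+* ℂ) (h : Gl R σ a b) : Gl R (cp τ σ) (a.map τ) (b.map τ) := by
  refine ⟨EqOn.map τ h.eq, fun σ' hs v hv => ?_⟩
  have h1 : cp τ.symm σ' ≠ σ := fun h2 => hs (by rw [← h2, Pr_cp'])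
  rw [Pr_mulVec, h.out _ h1 _ (conj_mem_HS τ.symm hv)]
  funext i
  exact RingEquiv.apply_symm_apply τ (v i)

/-- PACKAGE. -/
theorem IsDg.map (τ : ℂ ≃+* ℂ) {ξ : ℂ → ℂ} (h : IsDg R Φ σ ξ a) :
    IsDg R Φ (cp τ σ) (fun z => τ (ξ (τ.symm z))) (a.map τ) := by
  refine ⟨fun ω v hv h1 => ?_, fun σ' hs v hv => ?_⟩
  · have h2 := conj_mem_HS τ.symm hv
    rw [Pr_cp] at h2
    have h3 := h.eig (τ.symm ω) _ h2 (conj_eig τ.symm h1)
    rw [Pr_mulVec, h3]
    funext i
    simp only [Pi.smul_apply, smul_eq_mul, map_mul, RingEquiv.apply_symm_apply]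
  · have h1 : cp τ.symm σ' ≠ σ := fun h2 => hs (by rw [← h2, Pr_cp'])
    rw [Pr_mulVec, h.out _ h1 _ (conj_mem_HS τ.symm hv)]
    funext i
    exact RingEquiv.apply_symm_apply τ (v i)

/-- PACKAGE. For an idempotent `Q` and `z : ℂ` the determinant of `1 + (z - 1) Q` is `z ^ k`, where `k` is
the rank of `Q`. Use a basis adapted to the decomposition into the range and the kernel of `Q`
(`LinearMap.det_eq_det_mul_det`, or `Matrix.det_one_add_mul_comm`: write `Q = A * B` with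
`A : Matrix ι (Fin k) ℂ`, `B : Matrix (Fin k) ι ℂ`, `B * A = 1`, so
`det (1 + (z - 1) A B) = det (1 + (z - 1) B A) = det (z • 1) = z ^ k`). -/
theorem det_idem {Q : Matrix ι ι ℂ} (hQ : Q * Q = Q) (z : ℂ) :
    (1 + (z - 1) • Q).det = z ^ finrank ℂ (LinearMap.range (Matrix.toLin' Q)) := by
  classical
  set W := LinearMap.range (Matrix.toLin' Q) with hW
  let b : Basis (Fin (finrank ℂ W)) ℂ W := Module.finBasis ℂ W
  let f : (ι → ℂ) →ₗ[ℂ] W := (Matrix.toLin' Q).rangeRestrict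
  let A : Matrix ι (Fin (finrank ℂ W)) ℂ := Matrix.of fun i j => (b j : ι → ℂ) i
  let B : Matrix (Fin (finrank ℂ W)) ι ℂ := Matrix.of fun j i => b.repr (f (Pi.single i 1)) j
  have hfix : ∀ w : W, f (w : ι → ℂ) = w := by
    rintro ⟨w, v, rfl⟩
    apply Subtype.ext
    change Matrix.toLin' Q (Matrix.toLin' Q v) = Matrix.toLin' Q v
    rw [← LinearMap.comp_apply, ← Matrix.toLin'_mul, hQ]
  have hB : ∀ v : ι → ℂ, ∀ j, B.mulVec v j = b.repr (f v) j := by
    intro v j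
    have h1 : v = ∑ i, v i • (Pi.single i (1 : ℂ) : ι → ℂ) := by
      funext k
      simp [Finset.sum_apply, Pi.single_apply]
    conv_rhs => rw [h1, map_sum, map_sum]
    rw [Finsupp.finsetSum_apply, Matrix.mulVec, dotProduct]
    refine Finset.sum_congr rfl fun i _ => ?_
    rw [map_smul, map_smul, Finsupp.smul_apply, smul_eq_mul, mul_comm]
    rfl
  have hAB : A * B = Q := by
    ext i k
    have h1 : (f (Pi.single k 1) : ι → ℂ) i = Q i k := by
      change (Matrix.toLin' Q (Pi.single k 1)) i = Q i k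
      rw [Matrix.toLin'_apply, Matrix.mulVec_single_one]
      rfl
    rw [← h1, ← b.sum_repr (f (Pi.single k 1)), Matrix.mul_apply]
    simp only [Submodule.coe_sum, Submodule.coe_smul, Finset.sum_apply, Pi.smul_apply,
      smul_eq_mul]
    refine Finset.sum_congr rfl fun j _ => ?_
    rw [mul_comm]
    simp [A, B]
  have hBA : B * A = 1 := by
    ext j k
    have h1 : (B * A) j k = B.mulVec (b k : ι → ℂ) j := by
      rw [Matrix.mul_apply, Matrix.mulVec, dotProduct]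
      rfl
    rw [h1, hB, hfix, b.repr_self, Finsupp.single_apply, Matrix.one_apply]
    simp [eq_comm]
  rw [← hAB, ← Matrix.smul_mul, Matrix.det_one_add_mul_comm, Matrix.mul_smul, hBA]
  have h2 : (1 : Matrix (Fin (finrank ℂ W)) (Fin (finrank ℂ W)) ℂ) + (z - 1) • 1 = z • 1 := by
    rw [sub_smul, one_smul]
    abel
  rw [h2, Matrix.det_smul, Matrix.det_one, mul_one, Fintype.card_fin]

/-- PACKAGE. Determinants for an idempotent `e` in the double commutant: the numbers `ρ` and `dm R σ` are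
the dimensions of `e (HS R σ)` and of `HS R σ`. `b = 1 + (z - 1) • (e * P)` with the projection `P`
(`exists_prc`, `IsPr.comm`: `e * P` is an idempotent with the range `e (HS R σ)`), `det_idem`. -/
theorem det_gl [Algebra ℚ E] [Module.Finite ℚ E] [IsReduced E] (M : Mono R c Φ g ψ) (σ : E →+* ℂ)
    {e : Matrix ι ι ℂ} (he : CC g e) (hee : e * e = e) :
    ∃ ρ : ℕ, ρ ≤ dm R σ ∧ (ρ = 0 → EqOn R σ e 0) ∧ (ρ = dm R σ → EqOn R σ e 1) ∧
      ∀ (z : ℂ) (b : Matrix ι ι ℂ), Gl R σ (1 + (z - 1) • e) b → b.det = z ^ ρ := by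
  obtain ⟨P, hP, hPC⟩ := exists_prc M σ
  have hcm : e * P = P * e := hP.comm M he
  have hPP := hP.mul_self M
  have hQ : (e * P) * (e * P) = e * P := by
    rw [mul_assoc, ← mul_assoc P e P, ← hcm, mul_assoc e P P, hPP, ← mul_assoc, hee]
  have hle : LinearMap.range (Matrix.toLin' (e * P)) ≤ HS R σ := by
    rintro _ ⟨v, rfl⟩
    rw [Matrix.toLin'_apply, ← Matrix.mulVec_mulVec]
    exact he.hs M (hP.range M v)
  have hon : ∀ v ∈ HS R σ, (e * P).mulVec v = e.mulVec v := fun v hv => by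
    rw [← Matrix.mulVec_mulVec, hP.fix v hv]
  refine ⟨finrank ℂ (LinearMap.range (Matrix.toLin' (e * P))), Submodule.finrank_mono hle,
    fun h0 v hv => ?_, fun h0 v hv => ?_, fun z b hb => ?_⟩
  · rw [Submodule.finrank_eq_zero] at h0
    have h1 : Matrix.toLin' (e * P) v ∈ LinearMap.range (Matrix.toLin' (e * P)) := ⟨v, rfl⟩
    rw [h0, Submodule.mem_bot, Matrix.toLin'_apply, hon v hv] at h1
    rw [h1, Matrix.zero_mulVec]
  · have h1 : LinearMap.range (Matrix.toLin' (e * P)) = HS R σ :=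
      Submodule.eq_of_le_of_finrank_eq hle h0
    have h2 : v ∈ LinearMap.range (Matrix.toLin' (e * P)) := by
      rw [h1]
      exact hv
    obtain ⟨w, rfl⟩ := h2
    rw [Matrix.toLin'_apply, Matrix.mulVec_mulVec, ← mul_assoc, hee, Matrix.one_mulVec]
  · have h1 : b = 1 + (z - 1) • (e * P) := by
      refine Gl.unique M hb ⟨fun v hv => ?_, fun σ' hσ' v hv => ?_⟩
      · rw [Matrix.add_mulVec, Matrix.add_mulVec, Matrix.smul_mulVec, Matrix.smul_mulVec, hon v hv]
      · rw [Matrix.add_mulVec, Matrix.one_mulVec, Matrix.smul_mulVec, ← Matrix.mulVec_mulVec,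
          hP.kill σ' hσ' v hv, Matrix.mulVec_zero, smul_zero, add_zero]
    rw [h1, det_idem hQ]

/-- PACKAGE. `b = 1 + (z - 1) • P` (`exists_prc`, `Gl.unique`), `det_pr` (`Dg.lean`). -/
theorem det_scalar [Algebra ℚ E] [Module.Finite ℚ E] [IsReduced E] (M : Mono R c Φ g ψ)
    (σ : E →+* ℂ) (z : ℂ) {b : Matrix ι ι ℂ} (h : Gl R σ (z • 1) b) : b.det = z ^ dm R σ := by
  obtain ⟨P, hP, -⟩ := exists_prc M σ
  have h1 : b = 1 + (z - 1) • P := by
    refine Gl.unique M h ⟨fun v hv => ?_, fun σ' hσ' v hv => ?_⟩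
    · rw [Matrix.add_mulVec, Matrix.one_mulVec, Matrix.smul_mulVec, Matrix.smul_mulVec,
        Matrix.one_mulVec, hP.fix v hv, sub_smul, one_smul]
      abel
    · rw [Matrix.add_mulVec, Matrix.one_mulVec, Matrix.smul_mulVec, hP.kill σ' hσ' v hv,
        smul_zero, add_zero]
  rw [h1, det_pr (iSup_HS M) hP]

/-- PACKAGE. The determinant of `1 + N`, `N` nilpotent, is one (all eigenvalues are `1`; for example
`Matrix.isNilpotent_charpoly...`, `LinearMap.charpoly` of a nilpotent endomorphism is `X ^ n`, evaluate it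
at `-1`). -/
theorem det_unipotent {N : Matrix ι ι ℂ} (hN : IsNilpotent N) : (1 + N).det = 1 := by
  have h0 : IsNilpotent (-N) := hN.neg
  have h1 : IsNilpotent (Matrix.toLin' (-N)) := by
    obtain ⟨k, hk⟩ := h0
    refine ⟨k, ?_⟩
    rw [← Matrix.toLin'_pow, hk, map_zero]
  have h2 := h1.charpoly_eq_X_pow_finrank
  rw [Matrix.charpoly_toLin'] at h2
  have h3 := Matrix.eval_charpoly (-N) (1 : ℂ)
  rw [h2, Polynomial.eval_pow, Polynomial.eval_X, one_pow] at h3
  rw [h3]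
  congr 1
  simp [Matrix.scalar_apply, sub_neg_eq_add]

end Pool.Agent.FQX
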