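import Pool.Agent.FQX.Blk
import Pool.Agent.FQX.Abs

/-!
# `g = G1 + G2`, and the elements of the torus
-/

set_option autoImplicit false
set_option linter.unusedSectionVars false

namespace Pool.Agent.FQX

open Module
open Pool.Agent.CoprimeSig (ratM)
open Pool.Agent.FQV
open Pool.Agent.FQ (expG IsExp)
open Pool.Agent.FQA.TD (Two sP)
open Pool.Agent.FQA (AR)

variable {ι : Type} [Fintype ι] [DecidableEq ι] {E : Type} [CommRing E] [Algebra ℚ E]
  [Module.Finite ℚ E] [IsReduced E]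
  {R : E →+* Matrix ι ι ℚ} {Φ : Matrix ι ι ℚ} {σ : E →+* ℂ} {c : E → E}
  {g : Submodule ℂ (Matrix ι ι ℂ)} {ψ : Matrix ι ι ℂ} {s s' : Set (ℂ → ℚ)}
  {W : Submodule ℂ (ι → ℂ)} {p : (ι → ℂ) →ₗ[ℂ] W} {v : Basis (Om R Φ σ) ℂ W}

/-- All coroots of root vectors of `g` which act on `HS R σ` are in `s` or in `s'`. -/
def Act (g : Submodule ℂ (Matrix ι ι ℂ)) (R : E →+* Matrix ι ι ℚ) (Φ : Matrix ι ι ℚ)
    (σ : E →+* ℂ) (s s' : Set (ℂ → ℚ)) : Prop :=
  ∀ (W : Submodule ℂ (ι → ℂ)) (p : (ι → ℂ) →ₗ[ℂ] W) (v : Basis (Om R Φ σ) ℂ W),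
    Frame R Φ g σ W p v → ∀ h, AR (res p g) (res p (tor Φ)) (res p g) v h →
      ∃ F, (F ∈ s ∨ F ∈ s') ∧ rs R Φ σ F = h

/-- PACKAGE. `T.ar_rt` (with `F.lv M`) and `exists_rts`. -/
theorem act_compl (M : Mono R c Φ g ψ) (H : IsFrob R Φ) (hI : Idem Φ) (s : Set (ℂ → ℚ)) :
    Act g R Φ σ s {F | Rts R Φ σ F ∧ F ∉ s} := by
  intro W p v F h hh
  have hnt := F.nontrivial
  have T := td M H hI F.irr F.prj
  have h1 := T.ar_rt v (F.hv M) hh
  rw [F.lv M] at h1
  obtain ⟨F', hF', rfl⟩ := exists_rts h1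
  by_cases h2 : F' ∈ s
  · exact ⟨F', Or.inl h2, rfl⟩
  · exact ⟨F', Or.inr ⟨hF', h2⟩, rfl⟩

/-- The property of functions given by `s`. -/
def Pin (R : E →+* Matrix ι ι ℚ) (Φ : Matrix ι ι ℚ) (σ : E →+* ℂ) (s : Set (ℂ → ℚ))
    (h : Om R Φ σ → ℚ) : Prop := ∃ F ∈ s, rs R Φ σ F = h

/-- PACKAGE. -/
theorem two_pin (F : Frame R Φ g σ W p v) (hD : Dcm R Φ σ s s') (hA : Act g R Φ σ s s') :
    Two (res p g) (res p (tor Φ)) v (Pin R Φ σ s) (Pin R Φ σ s') := by
  refine ⟨fun h hh => ?_, ?_⟩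
  · obtain ⟨F', h1 | h1, h2⟩ := hA W p v F h hh
    · exact Or.inl ⟨F', h1, h2⟩
    · exact Or.inr ⟨F', h1, h2⟩
  · rintro _ _ ⟨F₁, h1, rfl⟩ ⟨F₂, h2, rfl⟩
    exact hD.orth F₁ h1 F₂ h2

/-- `G1` is the inverse image of the ideal `sP`. PACKAGE. Let `T = td M H hI F.irr F.prj`.
`→`: `x ∈ I`; `J = res p I` is an ideal of `res p g`; it commutes with the coroots in `P'`: if `H ∈ res p (tor Φ)` acts
on the basis by `rs R Φ σ F`, `F ∈ s'`, then `H = rm p y`, `y ∈ tor Φ`, and `y` has the values `rs R Φ σ F` on `HS R σ`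
(`exists_scalar`: `y` is a scalar on every eigenspace of `Φ`; compare on `v ω`), so `y ∈ Co R Φ σ s'`; `CC.rm_eq`,
`CC.rm_mul`. So `J ≤ sP` by `two_of_ideal`.
`←`: `I = {y ∈ g | rm p y ∈ sP ..}`, an ideal by `two_ideal`; it commutes on `HS R σ` with `y ∈ Co R Φ σ s'` by `two_comm`
(`hD.orth`: the values of `rm p y` are orthogonal to the coroots in `s`) and `CC.eqOn`. -/
theorem mem_G1_iff (M : Mono R c Φ g ψ) (H : IsFrob R Φ) (hI : Idem Φ) (hD : Dcm R Φ σ s s')
    (hA : Act g R Φ σ s s') (F : Frame R Φ g σ W p v) {x : Matrix ι ι ℂ} (hx : x ∈ g) :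
    x ∈ G1 g R Φ σ s' ↔ rm p x ∈ sP (res p g) (res p (tor Φ)) v (Pin R Φ σ s) := by
  have hnt := F.nontrivial
  have T := td M H hI F.irr F.prj
  have hv := F.hv M
  have hT := two_pin F hD hA
  have hst : ∀ x ∈ g, ∀ w ∈ W, x.mulVec w ∈ W := F.irr.1
  constructor
  · rintro ⟨I, hIg, hid, hxI, hc⟩
    have hJ : res p I ≤ res p g := by
      intro y hy
      obtain ⟨b, hb, rfl⟩ := mem_res.1 hy
      exact rm_mem (hIg hb)
    refine T.two_of_ideal v hv hT hJ ?_ ?_ (rm_mem hxI)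
    · intro a ha b hb
      obtain ⟨a', ha', rfl⟩ := mem_res.1 ha
      obtain ⟨b', hb', rfl⟩ := mem_res.1 hb
      rw [← rm_mul F.prj (hst a' ha') (hst b' (hIg hb')),
        ← rm_mul F.prj (hst b' (hIg hb')) (hst a' ha'), ← rm_sub]
      exact rm_mem (hid a' ha' b' hb')
    · rintro b hb H' hH ⟨h, hh, ⟨F', hF', rfl⟩, hval⟩
      obtain ⟨b', hb', rfl⟩ := mem_res.1 hb
      obtain ⟨y, hy, rfl⟩ := mem_res.1 hH
      have hyg : y ∈ g := M.le hy
      have hCo : y ∈ Co R Φ σ s' := by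
        refine ⟨hy, F', hF', fun μ w _ hμ => ?_⟩
        obtain ⟨d, hd⟩ := exists_scalar hy
        have h3 : (d μ : ℂ) = rs R Φ σ F' μ := by
          have h4 : rm p y (v μ) = d μ • v μ := Subtype.ext (by
            rw [rm_apply F.prj (hst y hyg), hd _ _ (F.bas μ)]
            rfl)
          rw [hval μ] at h4
          exact (smul_left_injective ℂ (v.ne_zero μ) h4).symm
        rw [hd μ w hμ, h3]
      have h5 := CC.rm_eq F ((CC.mem (hIg hb')).mul (CC.mem hyg))
        ((CC.mem hyg).mul (CC.mem (hIg hb'))) (hc b' hb' y hCo)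
      rwa [rm_mul F.prj (hst b' (hIg hb')) (hst y hyg),
        rm_mul F.prj (hst y hyg) (hst b' (hIg hb'))] at h5
  · intro hxs
    refine ⟨{ carrier := {y | y ∈ g ∧ rm p y ∈ sP (res p g) (res p (tor Φ)) v (Pin R Φ σ s)}
              add_mem' := fun {a b} ha hb => ⟨g.add_mem ha.1 hb.1, by
                rw [rm_add]
                exact (sP (res p g) (res p (tor Φ)) v (Pin R Φ σ s)).add_mem ha.2 hb.2⟩
              zero_mem' := ⟨g.zero_mem, by
                have h2 : rm p (0 : Matrix ι ι ℂ) = 0 := by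
                  unfold rm
                  rw [map_zero, map_zero]
                rw [h2]
                exact (sP (res p g) (res p (tor Φ)) v (Pin R Φ σ s)).zero_mem⟩
              smul_mem' := fun k a ha => ⟨g.smul_mem k ha.1, by
                rw [rm_smul]
                exact (sP (res p g) (res p (tor Φ)) v (Pin R Φ σ s)).smul_mem k ha.2⟩ },
      fun y hy => hy.1, ?_, ⟨hx, hxs⟩, ?_⟩
    · intro a ha b hb
      refine ⟨M.lie a ha b hb.1, ?_⟩
      rw [rm_sub, rm_mul F.prj (hst a ha) (hst b hb.1), rm_mul F.prj (hst b hb.1) (hst a ha)]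
      exact T.two_ideal v hv hT _ (rm_mem ha) _ hb.2
    · rintro b hb y ⟨hy, F', hF', hval⟩
      have hyg : y ∈ g := M.le hy
      refine CC.eqOn M F ((CC.mem hb.1).mul (CC.mem hyg)) ((CC.mem hyg).mul (CC.mem hb.1)) ?_
      rw [rm_mul F.prj (hst b hb.1) (hst y hyg), rm_mul F.prj (hst y hyg) (hst b hb.1)]
      refine (T.two_comm v hv hT (rm_mem hy) (f := rs R Φ σ F') (fun μ => Subtype.ext ?_) ?_ _
        hb.2).symm
      · rw [rm_apply F.prj (hst y hyg), hval μ _ (F.le (v μ).2) (F.bas μ)]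
        rfl
      · rintro _ _ ⟨F₁, hF₁, rfl⟩
        rw [dotProduct_comm]
        exact hD.orth F₁ hF₁ F' hF'

/-- PACKAGE. `G2` is the inverse image of the centraliser of `sP`: `mem_G1_iff`, `CC.eqOn`, `CC.rm_eq`. -/
theorem mem_G2_iff (M : Mono R c Φ g ψ) (H : IsFrob R Φ) (hI : Idem Φ) (hD : Dcm R Φ σ s s')
    (hA : Act g R Φ σ s s') (F : Frame R Φ g σ W p v) {x : Matrix ι ι ℂ} (hx : x ∈ g) :
    x ∈ G2 g R Φ σ s' ↔ ∀ y ∈ sP (res p g) (res p (tor Φ)) v (Pin R Φ σ s),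
      rm p x * y = y * rm p x := by
  have cx : CC g x := CC.mem hx
  constructor
  · intro h y hy
    obtain ⟨y', hy', rfl⟩ := mem_res.1 hy.1
    have cy : CC g y' := CC.mem hy'
    have h3 := CC.rm_eq F (cx.mul cy) (cy.mul cx)
      (h.2 y' ((mem_G1_iff M H hI hD hA F hy').2 hy))
    rwa [CC.rm_mul F cx cy, CC.rm_mul F cy cx] at h3
  · intro h
    refine ⟨hx, fun y hy => ?_⟩
    have hy' : y ∈ g := G1_le hy
    have cy : CC g y := CC.mem hy'
    refine CC.eqOn M F (cx.mul cy) (cy.mul cx) ?_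
    rw [CC.rm_mul F cx cy, CC.rm_mul F cy cx]
    exact h _ ((mem_G1_iff M H hI hD hA F hy').1 hy)

/-- PACKAGE. `exists_frame M H hI σ`, `two_split`, `mem_G1_iff`, `mem_G2_iff`: `rm p x = a' + b'`, `a' = rm p a` with
`a ∈ g`, `x = a + (x - a)`. -/
theorem sum_G (M : Mono R c Φ g ψ) (H : IsFrob R Φ) (hI : Idem Φ) (hD : Dcm R Φ σ s s')
    (hA : Act g R Φ σ s s') : Sum g R Φ σ s' := by
  intro x hx
  obtain ⟨W, p, v, F⟩ := exists_frame M H hI σ
  have hnt := F.nontrivial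
  have T := td M H hI F.irr F.prj
  obtain ⟨a, ha, b, hb, hab, e⟩ := T.two_split v (F.hv M) (two_pin F hD hA) (rm_mem hx)
  obtain ⟨a', ha', rfl⟩ := mem_res.1 ha.1
  have h1 : rm p (x - a') = b := by
    rw [rm_sub, e]
    abel
  refine ⟨a', (mem_G1_iff M H hI hD hA F ha').2 ha, x - a',
    (mem_G2_iff M H hI hD hA F (g.sub_mem hx ha')).2 ?_, by abel⟩
  rw [h1]
  exact hab

/-- PACKAGE. `two_mem`, `mem_G1_iff`; the values of `rm p e` on `v` are `rs R Φ σ (ev Φ e)` (`rm_val`). -/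
theorem tor_G1 (M : Mono R c Φ g ψ) (H : IsFrob R Φ) (hI : Idem Φ) (hD : Dcm R Φ σ s s')
    (hA : Act g R Φ σ s s') {e : Matrix ι ι ℂ} (he : e ∈ tor Φ) (hee : e * e = e)
    (h0 : ∀ F ∈ s', rs R Φ σ (ev Φ e) ⬝ᵥ rs R Φ σ F = 0) : e ∈ G1 g R Φ σ s' := by
  obtain ⟨W, p, v, F⟩ := exists_frame M H hI σ
  have hnt := F.nontrivial
  have T := td M H hI F.irr F.prj
  obtain ⟨h1, h2, h3⟩ := rm_val F M he hee
  refine (mem_G1_iff M H hI hD hA F (M.le he)).2
    (T.two_mem v (F.hv M) (two_pin F hD hA) h1 h3 ?_)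
  rintro h - ⟨F', hF', rfl⟩
  exact h0 F' hF'

/-- PACKAGE. `two_comm`, `mem_G2_iff`. -/
theorem tor_G2 (M : Mono R c Φ g ψ) (H : IsFrob R Φ) (hI : Idem Φ) (hD : Dcm R Φ σ s s')
    (hA : Act g R Φ σ s s') {e : Matrix ι ι ℂ} (he : e ∈ tor Φ) (hee : e * e = e)
    (h0 : ∀ F ∈ s, rs R Φ σ (ev Φ e) ⬝ᵥ rs R Φ σ F = 0) : e ∈ G2 g R Φ σ s' := by
  obtain ⟨W, p, v, F⟩ := exists_frame M H hI σ
  have hnt := F.nontrivial
  have T := td M H hI F.irr F.prj
  obtain ⟨h1, h2, h3⟩ := rm_val F M he hee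
  refine (mem_G2_iff M H hI hD hA F (M.le he)).2
    (T.two_comm v (F.hv M) (two_pin F hD hA) h1 h3 ?_)
  rintro h - ⟨F', hF', rfl⟩
  exact h0 F' hF'

/-- Elements of the centraliser of an ideal commute with an operator which commutes with the torus and with
the root vectors in the centraliser. -/
private theorem dg_comm_G2_core {V : Type*} [AddCommGroup V] [Module ℂ V] [FiniteDimensional ℂ V]
    [Nontrivial V] {G t S : Submodule ℂ (End ℂ V)} (T : FQA.TD G t) (hS : FQA.Idl G S) {A : End ℂ V}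
    (hAt : ∀ τ ∈ t, A * τ = τ * A)
    (hAr : ∀ (α : End ℂ V → ℂ) (z : End ℂ V), CoprimeSig.IsRoot G t α z → z ≠ 0 →
      (∃ τ ∈ t, α τ ≠ 0) → z ∈ FQA.cen G S → A * z = z * A) {b : End ℂ V}
    (hb : b ∈ FQA.cen G S) : A * b = b * A := by
  have key : ∀ x ∈ G, ∃ x₁ ∈ S, ∃ x₂ ∈ FQA.cen G S, x = x₁ + x₂ ∧ A * x₂ = x₂ * A := by
    intro x hx
    have h1 := CoprimeSig.mem_span_roots T.toCartan hx
    clear hx
    induction h1 using Submodule.span_induction with
    | mem z hz =>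
      obtain ⟨α, hz⟩ := hz
      by_cases hz0 : z = 0
      · exact ⟨0, S.zero_mem, 0, (FQA.cen G S).zero_mem, by rw [hz0, add_zero],
          by rw [mul_zero, zero_mul]⟩
      by_cases hα : ∃ τ ∈ t, α τ ≠ 0
      · rcases T.root_cases hS hz hz0 hα with h2 | h2
        · exact ⟨z, h2, 0, (FQA.cen G S).zero_mem, by rw [add_zero], by rw [mul_zero, zero_mul]⟩
        · exact ⟨0, S.zero_mem, z, h2, by rw [zero_add], hAr α z hz hz0 hα h2⟩
      · push Not at hα
        have hzt : z ∈ t := T.cent z hz.mem fun τ hτ => by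
          have h1 := hz.root τ hτ
          rw [hα τ hτ, zero_smul, sub_eq_zero] at h1
          exact h1.symm
        obtain ⟨x₁, h1, x₂, h2, h3, -, h4⟩ := T.split_t hS hzt
        exact ⟨x₁, h1, x₂, h2, h3, hAt x₂ h4⟩
    | zero =>
      exact ⟨0, S.zero_mem, 0, (FQA.cen G S).zero_mem, by rw [add_zero],
        by rw [mul_zero, zero_mul]⟩
    | add x y _ _ h1 h2 =>
      obtain ⟨x₁, a1, x₂, a2, rfl, a3⟩ := h1
      obtain ⟨y₁, b1, y₂, b2, rfl, b3⟩ := h2
      exact ⟨x₁ + y₁, S.add_mem a1 b1, x₂ + y₂, (FQA.cen G S).add_mem a2 b2, by abel,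
        by rw [mul_add, add_mul, a3, b3]⟩
    | smul k x _ h1 =>
      obtain ⟨x₁, a1, x₂, a2, rfl, a3⟩ := h1
      exact ⟨k • x₁, S.smul_mem k a1, k • x₂, (FQA.cen G S).smul_mem k a2, smul_add k x₁ x₂,
        by rw [mul_smul_comm, smul_mul_assoc, a3]⟩
  obtain ⟨x₁, h1, x₂, h2, h3, h4⟩ := key b hb.1
  have h5 : x₁ = 0 := by
    refine T.zero_of hS h1 fun y hy => ?_
    have h6 := hb.2 y hy
    rw [h3, add_mul, mul_add, h2.2 y hy] at h6
    exact add_right_cancel h6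
  rw [h3, h5, zero_add, h4]

/-- The same with the coroots: the operator is diagonal, and its values do not change under the reflections
with the property `P'`. -/
private theorem dg_comm_G2_diag {V : Type*} [AddCommGroup V] [Module ℂ V] [FiniteDimensional ℂ V]
    [Nontrivial V] {G t : Submodule ℂ (End ℂ V)} (T : FQA.TD G t) {I : Type} [Fintype I]
    (v : Basis I ℂ V) (hv : ∀ x ∈ t, ∀ i, ∃ c : ℂ, x (v i) = c • v i) {P P' : (I → ℚ) → Prop}
    (hT : Two G t v P P') {A : End ℂ V} {f : I → ℂ} (hA : ∀ i, A (v i) = f i • v i)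
    (hP' : ∀ (h : I → ℚ) (π : Equiv.Perm I), P' h → PrimePow.CC.Rf (NumRank.Lv t v) h π →
      ∀ i, f i = f (π i)) {b : End ℂ V} (hb : b ∈ G) (hb2 : ∀ y ∈ sP G t v P, b * y = y * b) :
    A * b = b * A := by
  have hS : FQA.Idl G (sP G t v P ⊓ LinearMap.ker (LinearMap.trace ℂ V)) := by
    refine ⟨fun z hz => hz.1.1, fun x hx z hz => ⟨T.two_ideal v hv hT x hx z hz.1, ?_⟩,
      fun z hz => hz.2⟩
    rw [SetLike.mem_coe, LinearMap.mem_ker, map_sub, LinearMap.trace_mul_comm, sub_self]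
  refine dg_comm_G2_core T hS (fun τ hτ => ?_) (fun α z hz hz0 hα hc => ?_)
    ⟨hb, fun y hy => hb2 y hy.1⟩
  · refine v.ext fun i => ?_
    obtain ⟨d, hd⟩ := hv τ hτ i
    rw [Module.End.mul_apply, Module.End.mul_apply, hd, map_smul, hA, map_smul, hd,
      smul_comm]
  · obtain ⟨y, Q⟩ := T.hopp α z hz hz0 hα
    obtain ⟨h, π, R, hh, hw⟩ := NumRank.exists_rf v hv (T.hmult v hv) Q hz0
    have hAR : AR G t G v h := ⟨α, z, y, Q, hz0, hz.mem, hh⟩
    have hst : FQA.StbA G t v P := fun h k _ Hk hPh h0 =>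
      (hT.all k Hk).resolve_right fun hPk => h0 (hT.orth h k hPh hPk)
    have hP : P' h := by
      refine (hT.all h hAR).resolve_left fun hP => hz0 ?_
      have h1 : z ∈ sP G t v P := ⟨hz.mem, fun w hw => T.comm_ofA v hv hst Q hz0 hh hP hw⟩
      have h2 : LinearMap.trace ℂ V z = 0 := by
        obtain ⟨τ', hτ', h3⟩ := hα
        have h4 := congrArg (LinearMap.trace ℂ V) (hz.root τ' hτ')
        rw [map_sub, LinearMap.trace_mul_comm, sub_self, map_smul, smul_eq_mul] at h4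
        exact (mul_eq_zero.1 h4.symm).resolve_left h3
      exact T.zero_of hS ⟨h1, h2⟩ hc.2
    refine v.ext fun i => ?_
    rw [Module.End.mul_apply, Module.End.mul_apply, hA, map_smul]
    by_cases hzi : z (v i) = 0
    · rw [hzi, map_zero, smul_zero]
    · obtain ⟨r, hr⟩ := hw i
      have h1 := NumRank.wl_of_ne v hv Q hzi
      rw [hr] at h1
      rw [← h1, map_smul, hA, hP' h π hP R i, smul_comm]

/-- A matrix in the double commutant which acts on the eigenspaces of `Φ` in `HS R σ` by scalars `f ω` which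
do not change under the reflections in `s'` commutes with `G2` on `HS R σ`. PACKAGE. Let `F` be a frame,
`T = td M H hI F.irr F.prj`, `A = rm p a`, `A (v ω) = f ω • v ω`, `S = sP .. ⊓ ker trace`, `Idl (res p g) S` (`two_ideal`),
`C = cen (res p g) S`, `b = rm p x ∈ C`. By `mem_span_roots` `b` is a sum of root vectors; a root vector with nonzero
root is in `S` or in `C` (`T.root_cases`), a root vector with zero root is in `t`, so it is a sum of elements of
`t ⊓ S` and `t ⊓ C` (`T.split_t`). So `b = b₁ + b₂`, `b₁ ∈ S`, `b₂` a sum of root vectors in `C` with nonzero root and an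
element of `t`. `b₁ = b - b₂` is in `S` and in `C`, so it commutes with `S` and with `C`, so with `res p g` (`T.split`), so it
is a scalar (`schur_irr`) of trace zero, `b₁ = 0`. `A` commutes with `t`. `A` commutes with the root vectors
`z ∈ C`: let `h` be the coroot (`ar_of`, `exists_rf`: `z (v ω)` is a multiple of `v (π ω)`). `h` is in `Pin s'`
(`two_pin`): if it were in `Pin s` then `z ∈ sP` (`comm_ofA`), also the opposite root vector `y` (`opp_mem`), but `z ∈ C`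
commutes with `y`, contradiction. So `f ω = f (π ω)`. Finally `CC.eqOn`. -/
theorem dg_comm_G2 (M : Mono R c Φ g ψ) (H : IsFrob R Φ) (hI : Idem Φ) (hD : Dcm R Φ σ s s')
    (hA : Act g R Φ σ s s') {a : Matrix ι ι ℂ} (ha : CC g a) {f : ℂ → ℂ}
    (hf : ∀ (ω : ℂ) (w : ι → ℂ), w ∈ HS R σ → (ratM Φ).mulVec w = ω • w → a.mulVec w = f ω • w)
    (hs' : ∀ (F : ℂ → ℚ) (π : Equiv.Perm (Om R Φ σ)), F ∈ s' →
      PrimePow.CC.Rf (Ls R Φ σ) (rs R Φ σ F) π → ∀ ω : Om R Φ σ, f ω = f (π ω))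
    {x : Matrix ι ι ℂ} (hx : x ∈ G2 g R Φ σ s') : EqOn R σ (a * x) (x * a) := by
  obtain ⟨W, p, v, F⟩ := exists_frame M H hI σ
  have hnt := F.nontrivial
  have T := td M H hI F.irr F.prj
  have hxg : x ∈ g := G2_le hx
  have cx : CC g x := CC.mem hxg
  refine CC.eqOn M F (ha.mul cx) (cx.mul ha) ?_
  rw [CC.rm_mul F ha cx, CC.rm_mul F cx ha]
  refine dg_comm_G2_diag T v (F.hv M) (two_pin F hD hA) (f := fun ω => f ω) (fun ω => ?_) ?_
    (rm_mem hxg) ((mem_G2_iff M H hI hD hA F hxg).1 hx)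
  · refine Subtype.ext ?_
    rw [rm_apply F.prj (fun _ hw => ha.stable F.prj hw), hf _ _ (F.le (v ω).2) (F.bas ω)]
    rfl
  · rintro h π ⟨F', hF', rfl⟩ R' ω
    rw [F.lv M] at R'
    exact hs' F' π hF' R' ω

/-- In an irreducible algebra an operator which is diagonal, and invariant under the reflections with the
property `P`, commutes with `sP`. -/
private theorem dg_comm_G1_abs {V : Type*} [AddCommGroup V] [Module ℂ V] [FiniteDimensional ℂ V]
    [Nontrivial V] {g t : Submodule ℂ (End ℂ V)} {I : Type} [Fintype I] (v : Basis I ℂ V)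
    (T : FQA.TD g t) (hv : ∀ x ∈ t, ∀ i, ∃ c : ℂ, x (v i) = c • v i)
    {P P' : (I → ℚ) → Prop} (hT : Two g t v P P') {A : End ℂ V} {f : I → ℂ}
    (hA : ∀ i, A (v i) = f i • v i)
    (hf : ∀ (h : I → ℚ) (π : Equiv.Perm I), P h → PrimePow.CC.Rf (NumRank.Lv t v) h π →
      ∀ i, f i = f (π i)) {b : End ℂ V} (hb : b ∈ sP g t v P) : A * b = b * A := by
  have hst : FQA.StbA g t v P := fun h k _ Hk hPh h0 =>
    (hT.all k Hk).resolve_right fun hPk => h0 (hT.orth h k hPh hPk)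
  obtain ⟨S, hSdef⟩ : ∃ S, S = sP g t v P ⊓ LinearMap.ker (LinearMap.trace ℂ V) := ⟨_, rfl⟩
  have hs : FQA.Idl g S := by
    rw [hSdef]
    refine ⟨fun z hz => hz.1.1, fun x hx z hz => ⟨?_, ?_⟩, fun z hz => hz.2⟩
    · exact T.sPA_ideal v hv hst x hx z hz.1
    · rw [SetLike.mem_coe, LinearMap.mem_ker, map_sub, LinearMap.trace_mul_comm, sub_self]
  have hdiag : ∀ x ∈ t, A * x = x * A := by
    intro x hx
    refine v.ext fun i => ?_
    obtain ⟨c, hc⟩ := hv x hx i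
    rw [Module.End.mul_apply, Module.End.mul_apply, hc, hA, map_smul, map_smul, hA, hc,
      smul_comm]
  have hroot : ∀ (α : End ℂ V → ℂ) (z : End ℂ V), CoprimeSig.IsRoot g t α z → z ≠ 0 →
      (∃ τ ∈ t, α τ ≠ 0) → z ∈ S → A * z = z * A := by
    intro α z hz hz0 hα hzs
    obtain ⟨y, R⟩ := T.hopp α z hz hz0 hα
    obtain ⟨h, π, hh, hhv, hw⟩ := NumRank.exists_rf v hv (T.hmult v hv) R hz0
    have hP : P h := by
      by_contra hPh
      have hys := (FQA.TD.opp_mem hs.ideal R hzs).1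
      rw [hSdef] at hys
      have h1 : y * z = z * y := hys.1.2 z ⟨α, y, h, R, hz0, hhv, hPh⟩
      have h2 := R.rx.root _ R.mem
      rw [Mod4.opp_two R hz0, h1, sub_self, zero_mul, mul_zero, sub_self] at h2
      exact smul_ne_zero two_ne_zero hz0 h2.symm
    refine v.ext fun i => ?_
    rw [Module.End.mul_apply, Module.End.mul_apply, hA, map_smul]
    by_cases hzi : z (v i) = 0
    · rw [hzi, map_zero, smul_zero]
    · obtain ⟨r, hr⟩ := hw i
      have h1 : z (v i) = r • v (π i) := (NumRank.wl_of_ne v hv R hzi).symm.trans hr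
      rw [h1, map_smul, hA, hf h π hP hh i, smul_comm]
  have hdec : ∀ x ∈ g, ∃ u ∈ S, A * u = u * A ∧ ∃ w ∈ FQA.cen g S, x = u + w := by
    intro x hx
    have h1 := CoprimeSig.mem_span_roots T.toCartan hx
    clear hx
    induction h1 using Submodule.span_induction with
    | mem z hz =>
      obtain ⟨α, hz⟩ := hz
      by_cases hz0 : z = 0
      · exact ⟨0, S.zero_mem, by rw [mul_zero, zero_mul], 0, (FQA.cen g S).zero_mem,
          by rw [hz0, add_zero]⟩
      by_cases hα : ∃ τ ∈ t, α τ ≠ 0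
      · rcases T.root_cases hs hz hz0 hα with h2 | h2
        · exact ⟨z, h2, hroot α z hz hz0 hα h2, 0, (FQA.cen g S).zero_mem, (add_zero z).symm⟩
        · exact ⟨0, S.zero_mem, by rw [mul_zero, zero_mul], z, h2, (zero_add z).symm⟩
      · push Not at hα
        have hzt : z ∈ t := T.cent z hz.mem fun τ hτ => by
          have h4 := hz.root τ hτ
          rw [hα τ hτ, zero_smul, sub_eq_zero] at h4
          exact h4.symm
        obtain ⟨a, ha, w, hw, e, hat, -⟩ := T.split_t hs hzt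
        exact ⟨a, ha, hdiag a hat, w, hw, e⟩
    | zero =>
      exact ⟨0, S.zero_mem, by rw [mul_zero, zero_mul], 0, (FQA.cen g S).zero_mem,
        (add_zero 0).symm⟩
    | add a b _ _ ha hb =>
      obtain ⟨u, hu, hu2, w, hw, rfl⟩ := ha
      obtain ⟨u', hu', hu2', w', hw', rfl⟩ := hb
      exact ⟨u + u', S.add_mem hu hu', by rw [mul_add, add_mul, hu2, hu2'], w + w',
        (FQA.cen g S).add_mem hw hw', by abel⟩
    | smul c a _ ha =>
      obtain ⟨u, hu, hu2, w, hw, rfl⟩ := ha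
      exact ⟨c • u, S.smul_mem c hu, by rw [mul_smul_comm, smul_mul_assoc, hu2], c • w,
        (FQA.cen g S).smul_mem c hw, smul_add c u w⟩
  have hn : (finrank ℂ V : ℂ) ≠ 0 := by
    rw [Nat.cast_ne_zero]
    exact finrank_pos.ne'
  obtain ⟨c, hc⟩ : ∃ c : ℂ, c = LinearMap.trace ℂ V b / finrank ℂ V := ⟨_, rfl⟩
  have h1 : (1 : End ℂ V) ∈ sP g t v P := ⟨T.hone, fun z _ => by rw [one_mul, mul_one]⟩
  have h2 : b - c • 1 ∈ S := by
    rw [hSdef]
    refine ⟨(sP g t v P).sub_mem hb ((sP g t v P).smul_mem c h1), ?_⟩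
    rw [SetLike.mem_coe, LinearMap.mem_ker, map_sub, map_smul, LinearMap.trace_one, smul_eq_mul,
      hc, div_mul_cancel₀ _ hn, sub_self]
  obtain ⟨u, hu, hu2, w, hw, e⟩ := hdec _ (hs.le h2)
  have hwS : w ∈ S := by
    have h3 : w = (b - c • 1) - u := by rw [e]; abel
    rw [h3]
    exact S.sub_mem h2 hu
  have hw0 : w = 0 := T.zero_of hs hwS hw.2
  rw [hw0, add_zero] at e
  have h4 : b = u + c • 1 := by rw [← e, sub_add_cancel]
  rw [h4, mul_add, add_mul, hu2, mul_smul_comm, smul_mul_assoc, mul_one, one_mul]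

/-- The same for `s` and `G1`. PACKAGE. The same argument: an element of `sP` is the sum of a scalar and an
element of `S`, and an element of `S` is a sum of root vectors in `S` with nonzero root and of an element of `t`
(the difference is in `C` and in `S`). The coroot `h` of a root vector `z ∈ S` is in `Pin s`: otherwise `z` commutes with
itself... with its opposite `y ∈ S` by the definition of `sP` (`Out`), contradiction. -/
theorem dg_comm_G1 (M : Mono R c Φ g ψ) (H : IsFrob R Φ) (hI : Idem Φ) (hD : Dcm R Φ σ s s')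
    (hA : Act g R Φ σ s s') {a : Matrix ι ι ℂ} (ha : CC g a) {f : ℂ → ℂ}
    (hf : ∀ (ω : ℂ) (w : ι → ℂ), w ∈ HS R σ → (ratM Φ).mulVec w = ω • w → a.mulVec w = f ω • w)
    (hs : ∀ (F : ℂ → ℚ) (π : Equiv.Perm (Om R Φ σ)), F ∈ s →
      PrimePow.CC.Rf (Ls R Φ σ) (rs R Φ σ F) π → ∀ ω : Om R Φ σ, f ω = f (π ω))
    {x : Matrix ι ι ℂ} (hx : x ∈ G1 g R Φ σ s') : EqOn R σ (a * x) (x * a) := by
  obtain ⟨W, p, v, F⟩ := exists_frame M H hI σ
  have hnt := F.nontrivial
  have T := td M H hI F.irr F.prj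
  have hxg : x ∈ g := G1_le hx
  have cx : CC g x := CC.mem hxg
  have hb := (mem_G1_iff M H hI hD hA F hxg).1 hx
  refine CC.eqOn M F (ha.mul cx) (cx.mul ha) ?_
  rw [CC.rm_mul F ha cx, CC.rm_mul F cx ha]
  refine dg_comm_G1_abs v T (F.hv M) (two_pin F hD hA) (f := fun ω => f ω)
    (fun i => Subtype.ext ?_) ?_ hb
  · rw [rm_apply F.prj (fun w hw => CC.stable F.prj ha hw), hf _ _ (F.le (v i).2) (F.bas i)]
    rfl
  · rintro _ π ⟨F', hF', rfl⟩ hπ ω
    rw [F.lv M] at hπ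
    exact hs F' π hF' hπ ω

end Pool.Agent.FQX
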