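import Pool.Agent.FQV.Base
import Mathlib.Algebra.Field.Subfield.Basic

/-!
# The reciprocity law for the monodromy groups: the definitions used in the statement

The definitions `cm`, `tor`, `Irr`, `On`, `HasForm`, `Rl`, `Mono`, `Conj`, `Coch`, `Spans`, `cp`, `SK`, `NoTwist`,
`CondU`, `TrC` are in `Pool/Agent/FQV/Base.lean`.
-/

set_option autoImplicit false

namespace Pool.Agent.FQX.Stmt

open Pool.Agent.FQV.Stmt

variable {ι : Type} [Fintype ι] [DecidableEq ι] {E : Type} [CommRing E]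

/-- `E` acts faithfully and commutes with `Φ`, which is diagonalisable over `ℂ` with eigenvalues
`μ i`; these have the same absolute value `ρ > 0` and generate a group without torsion. -/
structure Frob (R : E →+* Matrix ι ι ℚ) (Φ : Matrix ι ι ℚ) : Prop where
  inj : Function.Injective R
  comm : ∀ a, R a * Φ = Φ * R a
  diag : ∃ (U : (Matrix ι ι ℂ)ˣ) (μ : ι → ℂ) (ρ : ℝ), cm Φ * U = U * Matrix.diagonal μ ∧
    0 < ρ ∧ (∀ i, ‖μ i‖ = ρ) ∧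
    ∀ (m : ι → ℤ) (k : ℕ), k ≠ 0 → (∏ i, μ i ^ m i) ^ k = 1 → ∏ i, μ i ^ m i = 1

/-- `h = [x, y]` for opposite root vectors `x`, `y` of the torus `tor Φ` in `g` with `[h, x] = 2 x`: `h` is
the coroot of a root, or zero. -/
def Coroot (g : Submodule ℂ (Matrix ι ι ℂ)) (Φ : Matrix ι ι ℚ) (h : Matrix ι ι ℂ) : Prop :=
  ∃ x ∈ g, ∃ y ∈ g, (∀ t ∈ tor Φ, ∃ a : ℂ, t * x - x * t = a • x ∧ t * y - y * t = -a • y) ∧
    h = x * y - y * x ∧ h * x - x * h = (2 : ℂ) • x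

/-- The Kummer cocharacter of the automorphism `γ` is `q + e`, where `q` is in the lattice generated by
the coroots. Let `s` be the point of the Frobenius torus which acts on the eigenspace of `Φ` for `w` by
`f w`, where `f` is a homomorphism; then `s ^ m = Φ` and `γ(s) = s * ζ ^ (q + e)`. -/
def Kap (g : Submodule ℂ (Matrix ι ι ℂ)) (Φ : Matrix ι ι ℚ) (m : ℕ) (ζ : ℂ) (γ : ℂ ≃+* ℂ)
    (e : Matrix ι ι ℂ) : Prop :=
  ∃ f : ℂ →* ℂ, ∃ q ∈ AddSubgroup.closure {h | Coroot g Φ h}, ∀ (w : ℂ) (v : ι → ℂ), v ≠ 0 →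
    ((cm Φ).mulVec v = w • v → f w ^ m = w) ∧
    ∀ k : ℤ, (cm Φ).mulVec v = γ w • v → (q + e).mulVec v = (k : ℂ) • v →
      γ (f w) = ζ ^ k * f (γ w)

/-- The automorphism `γ` fixes all conjugates of the number field `K`, the roots of unity of order
`m` and all `m`-th roots of the conjugates of `π ∈ K`, except those of `π` itself, which it multiplies
by `ζ`. -/
structure Kum (K : Subfield ℂ) (π : K) (m : ℕ) (ζ : ℂ) (γ : ℂ ≃+* ℂ) : Prop where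
  emb : ∀ (j : K →+* ℂ) x, γ (j x) = j x
  mu : ∀ z : ℂ, z ^ m = 1 → γ z = z
  rt : ∀ (j : K →+* ℂ), j ≠ K.subtype → ∀ y : ℂ, y ^ m = j π → γ y = y
  rt0 : ∀ y : ℂ, y ^ m = π → γ y = ζ * y

/-- The data at the place `(π)` at which `Φ` is the Frobenius element; `γ` is an automorphism over
the maximal unramified extension of `ℚ_p`, and `n σ` the dimension of the irreducible subspaces of
the eigenspace for `σ`. -/
def Crys (R : E →+* Matrix ι ι ℚ) (c : E → E) (Φ : Matrix ι ι ℚ) (sp : (E →+* ℂ) → Prop)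
    (n r : (E →+* ℂ) → ℕ) (m : ℕ) (ζ : ℂ) (γ : ℂ ≃+* ℂ) : Prop :=
  ∃ (g : Submodule ℂ (Matrix ι ι ℂ)) (ψ e : Matrix ι ι ℂ),
    Mono R c Φ sp g ψ ∧ Coch R Φ r g ψ γ e ∧ Spans Φ g e ∧ Kap g Φ m ζ γ e ∧
    (∀ (σ : E →+* ℂ) (P : Matrix ι ι ℂ), On R σ P → Irr g P → P.trace = n σ) ∧
    (∀ (σ : E →+* ℂ) a, γ (σ a) = σ a) ∧
    ∀ I : Submodule ℂ (Matrix ι ι ℂ), I ≤ g → (∀ a ∈ g, ∀ b ∈ I, a * b - b * a ∈ I) →
      ∀ a ∈ g, ∀ b ∈ I, (a * b - b * a).map γ ∈ I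

/-- The Hodge cocharacter conjugated by `g` is not a scalar on the irreducible subspaces for `σ`. -/
def NonSc (n r : (E →+* ℂ) → ℕ) (σ : E →+* ℂ) (g : ℂ ≃+* ℂ) : Prop :=
  0 < r (cp g⁻¹ σ) ∧ r (cp g⁻¹ σ) < n (cp g⁻¹ σ)

/-- There are no numbers `m 0, ..., m (k - 1) ≥ 2`, `k ≥ 2`, with product `n σ` and no map `T` from
the set of the `g ∈ Aut ℂ` with `0 < r (g⁻¹ σ) < n` onto `{0, ..., k - 1}` such that
* `T (g h) = T g` for automorphisms `h` over `K`, and `T (c g) = T g` for complex conjugations `c`;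
* the automorphisms fixing `σ` permute `{0, ..., k - 1}`, compatibly with `T` and the numbers `m i`;
* `n σ` divides `m (T g) * r (g⁻¹ σ)`. -/
def NoTensor (K : Subfield ℂ) (n r : (E →+* ℂ) → ℕ) (σ : E →+* ℂ) : Prop :=
  ¬ ∃ (k : ℕ) (m : Fin k → ℕ) (T : (ℂ ≃+* ℂ) → Fin k), 2 ≤ k ∧ (∀ i, 2 ≤ m i) ∧
    ∏ i, m i = n σ ∧ (∀ i, ∃ g, NonSc n r σ g ∧ T g = i) ∧
    (∀ g, NonSc n r σ g → (∀ h : ℂ ≃+* ℂ, (∀ x ∈ K, h x = x) → T (g * h) = T g) ∧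
      (∀ h : ℂ ≃+* ℂ, T (h * starRingAut * h⁻¹ * g) = T g) ∧
      n σ ∣ m (T g) * r (cp g⁻¹ σ)) ∧
    ∀ h : ℂ ≃+* ℂ, cp h σ = σ → ∃ ρ : Equiv.Perm (Fin k), (∀ i, m (ρ i) = m i) ∧
      ∀ g, NonSc n r σ g → T (h * g) = ρ (T g)

/-- The condition for a homomorphism `σ` which is not real. -/
def CondN (K : Subfield ℂ) (n r : (E →+* ℂ) → ℕ) (σ : E →+* ℂ) : Prop :=
  NoTwist n r σ ∧ ((NoTensor K n r σ ∧ CondU n r σ) ∨ (n σ = 4 ∧ ∃ σ', SK σ σ' ∧ r σ' = 2))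

/-- The compositum of `K` and the field `σ(E)` contains no quadratic extension of `σ(E)` which is not
real. -/
def NoQuad (K : Subfield ℂ) (σ : E →+* ℂ) : Prop :=
  ∀ z ∈ Subfield.closure ((K : Set ℂ) ∪ Set.range σ), (∃ a, z ^ 2 = σ a) → starRingEnd ℂ z = z

/-- The condition for a real homomorphism `σ`, of symplectic type if `sp σ`. -/
def CondR (K : Subfield ℂ) (n r : (E →+* ℂ) → ℕ) (sp : (E →+* ℂ) → Prop) (σ : E →+* ℂ) : Prop :=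
  ((sp σ ∧ n σ = 4) ∨ (NoTensor K n r σ ∧ (∀ m : ℕ, 4 ≤ m → n σ ≠ 2 ^ m) ∧ (sp σ ∨ n σ ≠ 8))) ∧
  (NoQuad K σ ∨ ∀ k : ℕ, 3 ≤ k → (Odd k ↔ sp σ) → n σ ≠ (2 * k).choose k)

/-- The numerical conditions: for every homomorphism `σ`; and if `n σ = 4`, `σ` is not real,
`n σ' = 6`, and `σ'` is real of orthogonal type, then some `r σ''`, for an embedding `σ''` of the
factor of `E` to which `σ` belongs, is not `1` or `3`. -/
def Num (K : Subfield ℂ) (n r : (E →+* ℂ) → ℕ) (sp : (E →+* ℂ) → Prop) : Prop :=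
  (∀ σ : E →+* ℂ, n σ = 1 ∨ (¬ Rl σ ∧ CondN K n r σ) ∨ (Rl σ ∧ CondR K n r sp σ)) ∧
  ∀ σ σ' : E →+* ℂ, ¬ Rl σ → Rl σ' → ¬ sp σ' → n σ = 4 → n σ' = 6 →
    ∃ σ'', SK σ σ'' ∧ r σ'' ≠ 1 ∧ r σ'' ≠ 3

/-- No `n σ` is a power of two, except `1`, `2`, `4`, `8` if `σ` is real and symplectic, `1`, `2`, `4` if
`σ` is real and orthogonal, and `1`, `4` and the odd powers of two if `σ` is not real. -/
def NoPow (n : (E →+* ℂ) → ℕ) (sp : (E →+* ℂ) → Prop) : Prop :=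
  ∀ σ : E →+* ℂ, (Rl σ → (∀ m : ℕ, 4 ≤ m → n σ ≠ 2 ^ m) ∧ (sp σ ∨ n σ ≠ 8)) ∧
    (¬ Rl σ → ∀ m : ℕ, 2 ≤ m → n σ ≠ 4 ^ m)

/-- The conditions for `K = ℚ` or `K` real. -/
def NumR (K : Subfield ℂ) (n r : (E →+* ℂ) → ℕ) (sp : (E →+* ℂ) → Prop) : Prop :=
  (K = ⊥ ∨ (∀ z ∈ K, starRingEnd ℂ z = z) ∧ ∀ σ : E →+* ℂ, NoTensor K n r σ) ∧ NoPow n sp

end Pool.Agent.FQX.Stmt
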