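import Pool.Agent.FQX.Stmt
import Pool.Agent.FQX.MainD
import Pool.Agent.FQX.SysK
import Pool.Agent.FQV.StmtB
import Pool.Agent.FQV.Small

/-!
# Comparison with the definitions of `Stmt.lean`
-/

set_option autoImplicit false
set_option linter.unusedSectionVars false

namespace Pool.Agent.FQX

open Module
open Pool.Agent.CoprimeSig (ratM)
open Pool.Agent.FQV hiding Stmt.Frob Stmt.CondN Stmt.CondR Stmt.Num
open Pool.Agent.FQ (expG fixG)

variable {ι : Type} [Fintype ι] [DecidableEq ι] {E : Type} [CommRing E]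
  {R : E →+* Matrix ι ι ℚ} {Φ : Matrix ι ι ℚ} {c : E → E} {σ : E →+* ℂ}
  {g : Submodule ℂ (Matrix ι ι ℂ)} {ψ P Q e : Matrix ι ι ℂ}
  {r n : (E →+* ℂ) → ℕ} {sp : (E →+* ℂ) → Prop}

theorem sf_of (H : FQX.Stmt.Frob R Φ) : FQV.Stmt.Frob R Φ := by
  classical
  obtain ⟨U, μ, ρ, h1, h2, h3, h4⟩ := H.diag
  refine ⟨H.inj, H.comm, U, μ, ρ, h1, h2, h3, fun i j k hk h5 => ?_⟩
  by_cases hij : i = j
  · rw [hij]
  have hne : ∀ i, μ i ≠ 0 := fun i h0 => by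
    have := h3 i
    rw [h0, norm_zero] at this
    exact h2.ne this
  have h6 : ∏ t, μ t ^ (if t = i then (1 : ℤ) else if t = j then -1 else 0) = μ i * (μ j)⁻¹ := by
    rw [Finset.prod_eq_mul i j hij (fun t _ ht => by
      rw [if_neg ht.1, if_neg ht.2, zpow_zero]) (fun h => absurd (Finset.mem_univ i) h)
      (fun h => absurd (Finset.mem_univ j) h)]
    rw [if_pos rfl, if_neg (Ne.symm hij), if_pos rfl, zpow_one, zpow_neg_one]
  have h7 := h4 (fun t => if t = i then (1 : ℤ) else if t = j then -1 else 0) k hk (by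
    rw [h6, mul_pow, inv_pow, h5, mul_inv_cancel₀ (pow_ne_zero _ (hne j))])
  rw [h6] at h7
  have h8 : μ i = μ i * (μ j)⁻¹ * μ j := by
    rw [mul_assoc, inv_mul_cancel₀ (hne j), mul_one]
  rw [h8, h7, one_mul]

theorem eig_diag {U : (Matrix ι ι ℂ)ˣ} {μ : ι → ℂ}
    (h1 : ratM Φ * (U : Matrix ι ι ℂ) = U * Matrix.diagonal μ) {ν : ℂ}
    (hν : Module.End.HasEigenvalue (Matrix.toLin' (ratM Φ)) ν) : ∃ i, μ i = ν := by
  obtain ⟨v, hv⟩ := hν.exists_hasEigenvector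
  have h5 := Module.End.mem_eigenspace_iff.1 hv.1
  rw [Matrix.toLin'_apply] at h5
  set z := ((U⁻¹ : (Matrix ι ι ℂ)ˣ) : Matrix ι ι ℂ).mulVec v with hz
  have h6 : (U : Matrix ι ι ℂ).mulVec z = v := by
    rw [hz, Matrix.mulVec_mulVec, Units.mul_inv, Matrix.one_mulVec]
  have h7 : (Matrix.diagonal μ).mulVec z = ν • z := by
    have h8 : (U : Matrix ι ι ℂ).mulVec ((Matrix.diagonal μ).mulVec z) =
        (U : Matrix ι ι ℂ).mulVec (ν • z) := by
      rw [Matrix.mulVec_mulVec, ← h1, ← Matrix.mulVec_mulVec, h6, h5, Matrix.mulVec_smul, h6]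
    have h9 := congrArg (fun y => ((U⁻¹ : (Matrix ι ι ℂ)ˣ) : Matrix ι ι ℂ).mulVec y) h8
    simpa only [Matrix.mulVec_mulVec, ← mul_assoc, Units.inv_mul, Matrix.one_mulVec,
      one_mul] using h9
  have h10 : z ≠ 0 := by
    rintro h0
    apply hv.2
    rw [← h6, h0, Matrix.mulVec_zero]
  obtain ⟨i, hi⟩ := Function.ne_iff.1 h10
  refine ⟨i, ?_⟩
  have h11 := congrFun h7 i
  rw [Matrix.mulVec_diagonal, Pi.smul_apply, smul_eq_mul] at h11
  exact mul_right_cancel₀ hi h11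

theorem free_of (H : FQX.Stmt.Frob R Φ) : Free Φ := by
  classical
  obtain ⟨U, μ, ρ, h1, h2, h3, h4⟩ := H.diag
  intro s m k hs hk h5
  rcases s.eq_empty_or_nonempty with hs' | ⟨z', hz'⟩
  · rw [hs', Finset.prod_empty]
  have h6 : ∀ z : ℂ, ∃ i : ι, z ∈ s → μ i = z := by
    intro z
    by_cases hz : z ∈ s
    · obtain ⟨i, hi⟩ := eig_diag h1 (hs z hz)
      exact ⟨i, fun _ => hi⟩
    · obtain ⟨i, hi⟩ := eig_diag h1 (hs z' hz')
      exact ⟨i, fun h => absurd h hz⟩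
  choose f hf using h6
  have h7 : ∏ t, μ t ^ (if t ∈ s.image f then m (μ t) else 0) = ∏ z ∈ s, z ^ m z := by
    have h8 : ∀ t, μ t ^ (if t ∈ s.image f then m (μ t) else 0) =
        if t ∈ s.image f then μ t ^ m (μ t) else 1 := by
      intro t
      split_ifs
      · rfl
      · exact zpow_zero _
    rw [Finset.prod_congr rfl fun t _ => h8 t, Finset.prod_ite_mem, Finset.univ_inter,
      Finset.prod_image fun a ha b hb hab => by rw [← hf a ha, ← hf b hb, hab]]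
    exact Finset.prod_congr rfl fun z hz => by rw [hf z hz]
  have h9 := h4 (fun t => if t ∈ s.image f then m (μ t) else 0) k hk (by rw [h7, h5])
  rwa [h7] at h9

theorem map_zp (f : ℂ →* ℂ) {x : ℂ} (hx : x ≠ 0) (k : ℤ) : f (x ^ k) = f x ^ k := by
  have h1 : ∀ y : ℂ, y ≠ 0 → f y⁻¹ = (f y)⁻¹ := fun y hy => by
    refine eq_inv_of_mul_eq_one_left ?_
    rw [← map_mul, inv_mul_cancel₀ hy, map_one]
  cases k with
  | ofNat k => rw [Int.ofNat_eq_natCast, zpow_natCast, zpow_natCast, map_pow]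
  | negSucc k => rw [zpow_negSucc, zpow_negSucc, h1 _ (pow_ne_zero _ hx), map_pow]

theorem kap_of (H : IsFrob R Φ) {m : ℕ} {ζ : ℂ} {γ : ℂ ≃+* ℂ}
    (h : FQX.Stmt.Kap g Φ m ζ γ e) : Kap g Φ m ζ γ e := by
  obtain ⟨f, q, hq, h1⟩ := h
  refine ⟨f, ⟨fun μ hμ => ?_, fun t n ht h2 => ?_⟩, q, ?_, fun w v k hv h2 h3 =>
    (h1 w v hv).2 k h2 h3⟩
  · obtain ⟨v, hv⟩ := hμ.exists_hasEigenvector
    have h3 := Module.End.mem_eigenspace_iff.1 hv.1
    rw [Matrix.toLin'_apply] at h3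
    exact (h1 μ v hv.2).1 h3
  · rw [Finset.prod_congr rfl fun μ hμ => (map_zp f (eigv_ne H (ht μ hμ)) (n μ)).symm,
      ← map_prod, h2, map_one]
  · refine AddSubgroup.closure_mono ?_ hq
    rintro h ⟨x, hx, y, hy, h2, h3, h4⟩
    choose! α hα using h2
    exact ⟨x, hx, y, hy, ⟨α, fun t ht => hα t (mem_tor.2 ht)⟩, h3, h4⟩

theorem tame_of {K : Subfield ℂ} {π : K} {m : ℕ} {ζ : ℂ} {γ : ℂ ≃+* ℂ}
    (h : FQX.Stmt.Kum K π m ζ γ) : Tame K π m ζ γ :=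
  ⟨h.emb, h.mu, h.rt, h.rt0⟩

theorem kum_of {K : Subfield ℂ} {π : K} {m : ℕ} {γ : ℂ ≃+* ℂ}
    (h : Cls K π m γ) : FQX.Stmt.Kum K π m 1 γ :=
  ⟨h.emb, h.mu, fun j _ y hy => h.rt j y hy, fun y hy => by
    rw [one_mul]
    exact h.rt K.subtype y hy⟩

theorem atQ_of (H : IsFrob R Φ) {m : ℕ} {ζ : ℂ} {τ : ℂ ≃+* ℂ} (M : FQV.Stmt.Mono R c Φ sp g ψ)
    (h : FQX.Stmt.Kap g Φ m ζ τ 0) : AtQ R c Φ m ζ τ g ψ ∧ TypD R sp g ψ :=
  ⟨⟨(mono_of M).toMono, kap_of H h⟩, (mono_of M).typ⟩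

theorem dm_dvd [Algebra ℚ E] [Module.Finite ℚ E] [IsReduced E] (H : IsFrob R Φ) (σ : E →+* ℂ) :
    dm R σ ∣ (Fintype.card ι).factorial := by
  refine Nat.dvd_factorial (dm_pos H σ) ?_
  have h1 := Submodule.finrank_le (HS R σ)
  rwa [Module.finrank_fintype_fun_eq_card] at h1

end Pool.Agent.FQX
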