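import Pool.Agent.FQX.StmtA
import Pool.Agent.FQX.MainK

/-!
# The main theorem
-/

set_option autoImplicit false
set_option linter.unusedSectionVars false

namespace Pool.Agent.FQX

open Module
open Pool.Agent.CoprimeSig (ratM)
open Pool.Agent.FQV
open Pool.Agent.FQ (expG fixG)

variable {ι : Type} [Fintype ι] [DecidableEq ι] {E : Type} [CommRing E]
  {R : E →+* Matrix ι ι ℚ} {Φ : Matrix ι ι ℚ} {c : E → E} {σ : E →+* ℂ}
  {g : Submodule ℂ (Matrix ι ι ℂ)} {ψ P Q e : Matrix ι ι ℂ}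
  {r n : (E →+* ℂ) → ℕ} {sp : (E →+* ℂ) → Prop}

variable [Algebra ℚ E] [Module.Finite ℚ E] [IsReduced E]

/-- The ranks are invariant under the complex conjugation if `K` is real. -/
theorem sm_real (H : IsFrob R Φ) (hI : Idem Φ) {K : Subfield ℂ}
    (hK : ∀ z ∈ K, starRingEnd ℂ z = z)
    (hHT : ∀ γ ∈ fixG K, ∀ S : Finset ℂ, (∀ x ∈ S, IsAlgebraic ℚ x) →
      ∃ τ : ℂ ≃+* ℂ, (∀ x ∈ S, τ x = γ x) ∧ ∃ (g : Submodule ℂ (Matrix ι ι ℂ))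
        (ψ e : Matrix ι ι ℂ), Mono R c Φ g ψ ∧ Coch R Φ r g ψ τ e) (σ : E →+* ℂ) :
    r (cp starRingAut σ) = r σ := by
  let b := Module.finBasis ℚ E
  have hfin : (Set.range fun i => σ (b i)).Finite := Set.finite_range _
  obtain ⟨τ, hτ, g, ψ, e, M, C⟩ := hHT starRingAut (fun x hx => hK x hx) hfin.toFinset (by
    intro x hx
    rw [Set.Finite.mem_toFinset] at hx
    obtain ⟨i, rfl⟩ := hx
    have h1 : IsAlgebraic ℚ (b i) := Algebra.IsAlgebraic.isAlgebraic _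
    exact h1.algHom σ.toRatAlgHom)
  have hS : cp starRingAut σ = cp τ σ := by
    have h1 : (cp starRingAut σ).toRatAlgHom.toLinearMap = (cp τ σ).toRatAlgHom.toLinearMap := by
      refine b.ext fun i => ?_
      change (starRingAut : ℂ ≃+* ℂ) (σ (b i)) = τ (σ (b i))
      refine (hτ _ ?_).symm
      rw [Set.Finite.mem_toFinset]
      exact ⟨i, rfl⟩
    ext a
    exact LinearMap.congr_fun h1 a
  rw [hS]
  exact r_coch M H hI C σ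

/-- The numerical conditions. -/
theorem numE_of (H : IsFrob R Φ) {K : Subfield ℂ}
    (hHT : ∀ γ ∈ fixG K, ∀ S : Finset ℂ, (∀ x ∈ S, IsAlgebraic ℚ x) →
      ∃ τ : ℂ ≃+* ℂ, (∀ x ∈ S, τ x = γ x) ∧ ∃ (g : Submodule ℂ (Matrix ι ι ℂ))
        (ψ e : Matrix ι ι ℂ), MonoT R c Φ sp g ψ ∧ Coch R Φ r g ψ τ e)
    {τ₀ : ℂ ≃+* ℂ} (MT₀ : MonoT R c Φ sp g ψ) (C₀ : Coch R Φ r g ψ τ₀ e)
    (hspan : tor Φ ≤ Submodule.span ℂ (orbit Φ g e))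
    (hdim : ∀ (σ : E →+* ℂ), ∀ W ≤ HS R σ, Irr g W → finrank ℂ W = n σ)
    (hnum : Stmt.NumR K n r sp ∨ Stmt.Num K n r sp) :
    NumE n r sp (NoTensor K n r) (QF K) := by
  have M₀ : Mono R c Φ g ψ := MT₀.toMono
  have hR : Rk R Φ r := rk_of M₀ H C₀ hspan
  have hI : Idem Φ := hR.tr.idem
  have hHTm : ∀ γ ∈ fixG K, ∀ S : Finset ℂ, (∀ x ∈ S, IsAlgebraic ℚ x) →
      ∃ τ : ℂ ≃+* ℂ, (∀ x ∈ S, τ x = γ x) ∧ ∃ (g : Submodule ℂ (Matrix ι ι ℂ))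
        (ψ e : Matrix ι ι ℂ), Mono R c Φ g ψ ∧ Coch R Φ r g ψ τ e := by
    intro γ hγ S hS
    obtain ⟨τ, h1, g, ψ, e, h2, h3⟩ := hHT γ hγ S hS
    exact ⟨τ, h1, g, ψ, e, h2.toMono, h3⟩
  rcases hnum with ⟨hK, hQ⟩ | hnum
  · have hKr : ∀ z ∈ K, starRingEnd ℂ z = z := by
      rcases hK with hK | ⟨hK, -⟩
      · intro z hz
        rw [hK] at hz
        have h1 : (⊥ : Subfield ℂ) ≤
            RingHom.eqLocusField (starRingEnd ℂ) (RingHom.id ℂ) := bot_le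
        exact h1 hz
      · exact hK
    have hN : ∀ σ : E →+* ℂ, NoTensor K n r σ := by
      rcases hK with hK | ⟨-, hK⟩
      · intro σ
        rw [hK]
        exact noTensor_bot n r σ
      · exact hK
    have h0 : ∀ σ : E →+* ℂ, Rl σ → QF K σ := by
      intro σ hr z hz _
      have h1 : Subfield.closure ((K : Set ℂ) ∪ Set.range σ) ≤
          RingHom.eqLocusField (starRingEnd ℂ) (RingHom.id ℂ) := by
        rw [Subfield.closure_le]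
        rintro y (hy | ⟨a, rfl⟩)
        · exact hKr y hy
        · exact hr a
      exact h1 hz
    have hn : ∀ σ : E →+* ℂ, Fintype.card (Om R Φ σ) = n σ := by
      intro σ
      obtain ⟨W, p, v, F⟩ := exists_frame M₀ H hI σ
      rw [F.card, hdim σ W F.le F.irr]
    have hr : ∀ σ : E →+* ℂ, 2 * r σ = n σ := by
      intro σ
      have h1 := r_dual M₀ H hI C₀ σ
      have h2 := sm_real H hI hKr hHTm σ
      rw [hn, h2] at h1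
      omega
    have hcp : ∀ (γ : ℂ ≃+* ℂ) (σ : E →+* ℂ), n (cp γ σ) = n σ := by
      intro γ σ
      rw [← hn, ← hn, card_cp]
    refine ⟨fun σ => ?_, fun σ σ' _ _ _ h4 _ => ⟨σ, fun _ => Iff.rfl, ?_, ?_⟩⟩
    · obtain ⟨h1, h2⟩ := hQ σ
      by_cases hrl : Rl σ
      · obtain ⟨h3, h4⟩ := h1 hrl
        exact Or.inr (Or.inr ⟨hrl, Or.inr ⟨hN σ, h3, h4⟩, Or.inl (h0 σ hrl)⟩)
      · refine Or.inr (Or.inl ⟨hrl, fun σ' _ h5 _ γ => ?_, Or.inl ⟨hN σ, Or.inr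
          ⟨⟨σ, fun _ => Iff.rfl, hr σ⟩, fun m hm hev h6 => ?_⟩⟩⟩)
        · have h7 := hr (cp γ σ')
          have h8 := hr (cp γ σ)
          rw [hcp] at h7 h8
          omega
        · obtain ⟨k, rfl⟩ := hev
          refine h2 hrl k (by omega) ?_
          rw [h6, ← two_mul, pow_mul]
          norm_num
    · have := hr σ
      omega
    · have := hr σ
      omega
  · obtain ⟨h1, h2⟩ := hnum
    refine ⟨fun σ => ?_, h2⟩
    rcases h1 σ with h3 | ⟨h3, h4, h5⟩ | ⟨h3, h4, h5⟩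
    · exact Or.inl h3
    · exact Or.inr (Or.inl ⟨h3, h4, h5⟩)
    · exact Or.inr (Or.inr ⟨h3, h4, h5⟩)

/-- The Mumford–Tate conjecture for abelian varieties over number fields. -/
theorem main_s (H : Stmt.Frob R Φ) (hc : ∀ (σ : E →+* ℂ) a, σ (c a) = starRingEnd ℂ (σ a))
    {K : Subfield ℂ} [FiniteDimensional ℚ K] {π : K} {m : ℕ} (hm : m = (Fintype.card ι).factorial)
    {ζ : ℂ} (hζ : IsPrimitiveRoot ζ m)
    (hsk : ∀ σ σ' : E →+* ℂ, FQV.Stmt.SK σ σ' → sp σ → sp σ')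
    (hHT : ∀ γ : ℂ ≃+* ℂ, (∀ x ∈ K, γ x = x) → ∀ S : Finset ℂ, (∀ x ∈ S, IsAlgebraic ℚ x) →
      ∃ τ : ℂ ≃+* ℂ, (∀ x ∈ S, τ x = γ x) ∧
        ∃ (g : Submodule ℂ (Matrix ι ι ℂ)) (ψ e : Matrix ι ι ℂ), FQV.Stmt.Mono R c Φ sp g ψ ∧
          FQV.Stmt.Coch R Φ r g ψ τ e ∧ (Stmt.Kum K π m 1 γ → Stmt.Kap g Φ m ζ τ 0))
    (hCr : ∃ γ : ℂ ≃+* ℂ, Stmt.Kum K π m ζ γ ∧ Stmt.Crys R c Φ sp n r m ζ γ)
    (hnum : Stmt.NumR K n r sp ∨ Stmt.Num K n r sp)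
    (M : FQV.Stmt.Mono R c Φ sp g ψ) (N : Matrix ι ι ℂ) :
    N ∈ g ↔ (∀ Z : Matrix ι ι ℂ, (∀ x ∈ g, x * Z = Z * x) → N * Z = Z * N) ∧
      ∃ a : (ℂ ≃+* ℂ) →₀ ℂ, FQV.Stmt.TrC R r g ψ N a := by
  subst hm
  have HF : IsFrob R Φ := isFrob_of (sf_of H)
  obtain ⟨γ, hK, g₀, ψ₀, e₀, h1, h2, h3, h4, h5, h6, h7⟩ := hCr
  have hdim : ∀ (σ : E →+* ℂ), ∀ W ≤ HS R σ, Irr g₀ W → finrank ℂ W = n σ := by
    intro σ W hW hi
    obtain ⟨P, h11, rfl⟩ := exists_irrP (ss_of h1.ss) hi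
    have h12 := finrank_rg h11
    rw [h5 σ P ((on_iff h11.idem).2 hW) h11] at h12
    exact_mod_cast h12
  have C₀ := coch_of h1 h2
  have hspan := spans_of h3
  have P₀ : AtK R c Φ (Fintype.card ι).factorial ζ γ g₀ ψ₀ e₀ :=
    ⟨(mono_of h1).toMono, fun σ => RingHom.ext fun a => h6 σ a, h7, C₀.mem, C₀.idem,
      kap_of HF h4⟩
  have hHT' : ∀ γ : ℂ ≃+* ℂ, (∀ x ∈ K, γ x = x) → ∀ S : Finset ℂ, (∀ x ∈ S, IsAlgebraic ℚ x) →
      ∃ τ : ℂ ≃+* ℂ, (∀ x ∈ S, τ x = γ x) ∧ ∃ (g : Submodule ℂ (Matrix ι ι ℂ))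
        (ψ e : Matrix ι ι ℂ), MonoT R c Φ sp g ψ ∧ Coch R Φ r g ψ τ e := by
    intro γ hγ S hS
    obtain ⟨τ, h1, g, ψ, e, h2, h3, -⟩ := hHT γ hγ S hS
    exact ⟨τ, h1, g, ψ, e, mono_of h2, coch_of h2 h3⟩
  have hnum' := numE_of (K := K) HF hHT' (mono_of h1) C₀ hspan hdim hnum
  have key := main_k HF (free_of H) hc (K := K) (π := π)
    (Nat.factorial_pos _) (dm_dvd HF) hζ (tame_of hK) hsk P₀
    (mono_of h1) C₀ hspan hdim (fun δ hδ S hS => by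
      obtain ⟨τ, h11, g, ψ, e, h12, -, h13⟩ := hHT δ
        (fun x hx => (kum_of hδ).emb K.subtype ⟨x, hx⟩) S hS
      exact ⟨τ, h11, g, ψ, atQ_of HF h12 (h13 (kum_of hδ))⟩) (fun γ hγ S hS => by
      obtain ⟨τ, h11, g, ψ, e, h12, h13⟩ := hHT' γ hγ S hS
      exact ⟨τ, h11, g, ψ, e, h12.toMono, h12.typ, h13⟩) hnum'
      (mono_of M) N
  rw [key]
  constructor
  · rintro ⟨h1, a, h2⟩
    exact ⟨h1, a, trC_to M (key.2 ⟨h1, a, h2⟩) h2⟩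
  · rintro ⟨h1, a, h2⟩
    exact ⟨h1, a, trC_of M h1 h2⟩

end Pool.Agent.FQX
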