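import Pool.Agent.FQV.Base

/-!
# A simple numerical condition for arbitrary number fields
-/

set_option autoImplicit false

namespace Pool.Agent.FQX.Stmt

open Pool.Agent.FQV.Stmt

variable {E : Type} [CommRing E]

/-- For every `σ`: `n σ = 1`; or `σ` is real and `n σ` is `4` or not divisible by `4`; or, for the
embeddings `σ'` of the factor of `E` to which `σ` belongs, all `r σ'` satisfy `0 < r σ' < n σ` and one
of them is prime to `n σ`. -/
def NumS (n r : (E →+* ℂ) → ℕ) : Prop :=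
  ∀ σ : E →+* ℂ, n σ = 1 ∨ (Rl σ ∧ (¬ 4 ∣ n σ ∨ n σ = 4)) ∨
    ((∀ σ', SK σ σ' → 0 < r σ' ∧ r σ' < n σ) ∧ ∃ σ', SK σ σ' ∧ (r σ').Coprime (n σ))

end Pool.Agent.FQX.Stmt
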