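import Pool.Agent.FQX.Stmt
import Pool.Agent.FQX.StmtN
import Mathlib.Data.Nat.Choose.Central

/-!
# A simple numerical condition for arbitrary number fields
-/

set_option autoImplicit false

namespace Pool.Agent.FQX.Stmt

open Pool.Agent.FQV.Stmt

variable {E : Type} [CommRing E]

theorem four_dvd_centralBinom {k : ℕ} (h : 3 ≤ k) (hk : Odd k) : 4 ∣ k.centralBinom := by
  obtain ⟨j, rfl⟩ : ∃ j, k = j + 1 + 1 := ⟨k - 2, by omega⟩
  have h1 := Nat.succ_mul_centralBinom_succ (j + 1)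
  have h2 := Nat.two_dvd_centralBinom_succ j
  obtain ⟨t, ht⟩ := h2
  have h3 : 4 ∣ (j + 1 + 1) * (j + 1 + 1).centralBinom := by
    rw [h1, ht]
    exact ⟨(2 * (j + 1) + 1) * t, by ring⟩
  have h4 : Nat.Coprime 4 (j + 1 + 1) := by
    have h5 : Nat.Coprime 2 (j + 1 + 1) := Nat.coprime_two_left.2 hk
    exact Nat.Coprime.pow_left 2 h5
  exact h4.dvd_of_dvd_mul_left h3

theorem le_choose {M j : ℕ} (h1 : 1 ≤ j) (h2 : j + 1 ≤ M) : M ≤ M.choose j := by
  induction M generalizing j with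
  | zero => omega
  | succ M ih =>
    obtain ⟨i, rfl⟩ : ∃ i, j = i + 1 := ⟨j - 1, by omega⟩
    rw [Nat.choose_succ_succ]
    rcases Nat.eq_zero_or_pos i with rfl | hi
    · have h3 : M.choose (Nat.succ 0) = M := Nat.choose_one_right M
      rw [Nat.choose_zero_right, h3]
      omega
    · have h3 : M ≤ M.choose i := ih hi (by omega)
      have h4 : 0 < M.choose i.succ := Nat.choose_pos (by rw [Nat.succ_eq_add_one]; omega)
      omega

/-- The simple condition implies the general one, without factors of type III. -/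
theorem num_of_simple {K : Subfield ℂ} {n r : (E →+* ℂ) → ℕ} {c : E → E}
    (hc : ∀ (σ : E →+* ℂ) a, σ (c a) = starRingEnd ℂ (σ a))
    (hr : ∀ σ : E →+* ℂ, r (cp starRingAut σ) + r σ = n σ)
    (hn : ∀ (γ : ℂ ≃+* ℂ) (σ : E →+* ℂ), n (cp γ σ) = n σ) (hpos : ∀ σ, 0 < n σ)
    (hex : ∀ σ σ' : E →+* ℂ, SK σ σ' → ∃ γ : ℂ ≃+* ℂ, σ' = cp γ σ) (h : NumS n r) :
    Num K n r fun _ => True := by
  have hsk : ∀ (γ : ℂ ≃+* ℂ) (σ : E →+* ℂ), SK σ (cp γ σ) := fun γ σ a =>
    map_eq_zero_iff γ γ.injective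
  have hreal : ∀ σ : E →+* ℂ, Rl σ → 2 * r σ = n σ := by
    intro σ hσ
    have h1 : cp starRingAut σ = σ := RingHom.ext fun a => hσ a
    have h2 := hr σ
    rw [h1] at h2
    omega
  have hrl : ∀ (γ : ℂ ≃+* ℂ) (σ : E →+* ℂ), Rl σ → Rl (cp γ σ) := by
    intro γ σ hσ a
    have h1 : (cp γ σ) (c a) = (cp γ σ) a := by
      show γ (σ (c a)) = γ (σ a)
      rw [hc, hσ]
    rw [← hc, h1]
  -- the real case
  have hR : ∀ σ : E →+* ℂ, Rl σ → 0 < n σ → (¬ 4 ∣ n σ ∨ n σ = 4) → CondR K n r (fun _ => True) σ := by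
    intro σ hσ h0 h4
    refine ⟨?_, Or.inr fun k hk ho h5 => ?_⟩
    · rcases h4 with h4 | h4
      · refine Or.inr ⟨?_, fun m hm h5 => h4 ?_, Or.inl trivial⟩
        · rintro ⟨k, m, T, hk, -, hp, hT, hs, -⟩
          have h6 : ∀ i, 2 ∣ m i := by
            intro i
            obtain ⟨g, hg, rfl⟩ := hT i
            obtain ⟨-, -, h7⟩ := hs g hg
            have h8 := hreal _ (hrl g⁻¹ σ hσ)
            rw [hn] at h8
            obtain ⟨t, ht⟩ := h7
            have h9 : 0 < r (cp g⁻¹ σ) := hg.1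
            refine ⟨t, ?_⟩
            have h10 : m (T g) * r (cp g⁻¹ σ) = 2 * t * r (cp g⁻¹ σ) := by
              rw [ht, ← h8]
              ring
            exact Nat.eq_of_mul_eq_mul_right h9 h10
          have h7 : m ⟨0, by omega⟩ * m ⟨1, by omega⟩ ∣ n σ := by
            rw [← hp]
            have h8 : ∏ i ∈ ({⟨0, by omega⟩, ⟨1, by omega⟩} : Finset (Fin k)), m i ∣
                ∏ i, m i := Finset.prod_dvd_prod_of_subset _ _ _ (Finset.subset_univ _)
            rwa [Finset.prod_pair (by simp [Fin.ext_iff])] at h8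
          exact h4 ((mul_dvd_mul (h6 _) (h6 _)).trans h7)
        · rw [h5]
          exact (pow_dvd_pow 2 (by omega : 2 ≤ m))
      · exact Or.inl ⟨trivial, h4⟩
    · have h6 : 4 ∣ (2 * k).choose k := four_dvd_centralBinom hk (ho.2 trivial)
      rcases h4 with h4 | h4
      · exact h4 (h5 ▸ h6)
      · have h7 : (2 * k).choose 1 ≤ (2 * k).choose k := Nat.choose_le_centralBinom 1 k
        rw [Nat.choose_one_right, ← h5, h4] at h7
        omega
  refine ⟨fun σ => ?_, fun _ _ _ _ h5 => absurd trivial h5⟩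
  rcases h σ with h1 | ⟨h1, h2⟩ | ⟨h1, σ₀, h2, h3⟩
  · exact Or.inl h1
  · exact Or.inr (Or.inr ⟨h1, hR σ h1 (hpos σ) h2⟩)
  · obtain ⟨γ₀, rfl⟩ := hex σ σ₀ h2
    have h4 := h1 σ fun _ => Iff.rfl
    have h5 := h1 _ h2
    by_cases hσ : Rl σ
    · refine Or.inr (Or.inr ⟨hσ, hR σ hσ (by omega) (Or.inl fun h6 => ?_)⟩)
      have h7 := hreal _ (hrl γ₀ σ hσ)
      rw [hn] at h7
      have h8 : r (cp γ₀ σ) ∣ n σ := ⟨2, by omega⟩
      have h9 : r (cp γ₀ σ) = 1 := Nat.Coprime.eq_one_of_dvd h3 h8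
      omega
    · refine Or.inr (Or.inl ⟨hσ, fun σ' _ _ h6 γ => ?_, Or.inl ⟨?_, ?_⟩⟩)
      · rcases h6 γ with h7 | ⟨h7, -⟩ | ⟨h7, -⟩
        · exact h7
        · have := h1 _ (hsk γ σ)
          omega
        · have := h1 _ (hsk γ σ)
          omega
      · rintro ⟨k, m, T, hk, hm, hp, hT, hs, -⟩
        have h7 : NonSc n r σ γ₀⁻¹ := by
          refine ⟨?_, ?_⟩
          · rw [inv_inv]
            exact h5.1
          · rw [inv_inv, hn]
            exact h5.2
        obtain ⟨-, -, h8⟩ := hs _ h7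
        rw [inv_inv] at h8
        have h9 : n σ ∣ m (T γ₀⁻¹) := (Nat.Coprime.dvd_of_dvd_mul_right h3.symm h8)
        obtain ⟨j, hj⟩ : ∃ j : Fin k, j ≠ T γ₀⁻¹ := by
          by_cases h10 : T γ₀⁻¹ = ⟨0, by omega⟩
          · exact ⟨⟨1, by omega⟩, by rw [h10]; simp [Fin.ext_iff]⟩
          · exact ⟨⟨0, by omega⟩, fun h11 => h10 h11.symm⟩
        have h11 : m j * m (T γ₀⁻¹) ∣ n σ := by
          rw [← hp]
          have h8 : ∏ i ∈ ({j, T γ₀⁻¹} : Finset (Fin k)), m i ∣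
              ∏ i, m i := Finset.prod_dvd_prod_of_subset _ _ _ (Finset.subset_univ _)
          rwa [Finset.prod_pair hj] at h8
        have h12 := Nat.le_of_dvd (by omega) h11
        have h13 := Nat.le_of_dvd (by have := hm (T γ₀⁻¹); omega) h9
        have h14 := hm j
        nlinarith
      · by_cases h6 : 2 * r (cp γ₀ σ) = n σ
        · have h8 : r (cp γ₀ σ) ∣ n σ := ⟨2, by omega⟩
          have h9 : r (cp γ₀ σ) = 1 := Nat.Coprime.eq_one_of_dvd h3 h8
          refine Or.inr ⟨⟨_, h2, h6⟩, fun m hm _ h10 => ?_⟩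
          have h11 : 2 ^ 4 ≤ 2 ^ m := Nat.pow_le_pow_right (by omega) hm
          omega
        · refine Or.inl ⟨_, h2, h5.1, h5.2, h6, fun N k hk hN h7 h8 => ?_⟩
          obtain ⟨N, rfl⟩ : ∃ M, N = M + 1 := ⟨N - 1, by omega⟩
          obtain ⟨k, rfl⟩ : ∃ j, k = j + 1 := ⟨k - 1, by omega⟩
          have h9 := Nat.add_one_mul_choose_eq N k
          simp only [Nat.add_sub_cancel] at h8
          rw [← h7, ← h8] at h9
          have h10 : r (cp γ₀ σ) ∣ n σ * (k + 1) := ⟨N + 1, by rw [← h9]; ring⟩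
          have h11 := Nat.le_of_dvd (by omega) (Nat.Coprime.dvd_of_dvd_mul_left h3 h10)
          have h12 : N ≤ N.choose k := le_choose (by omega) (by omega)
          omega

end Pool.Agent.FQX.Stmt
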