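import Pool.Agent.FQX.StmtM
import Pool.Agent.FQX.StmtS
import Pool.Agent.FQV.StmtU

/-!
# The Tate classes on the powers of abelian varieties

The structure of the Tate classes from the main theorem of `StmtM.lean`.
-/

set_option autoImplicit false
set_option linter.unusedSectionVars false

namespace Pool.Agent.FQX

open Module
open Pool.Agent.CoprimeSig (ratM)
open Pool.Agent.FQV
open Pool.Agent.FQ (expG fixG)

variable {ι : Type} [Fintype ι] [DecidableEq ι] {E : Type} [CommRing E]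
  {R : E →+* Matrix ι ι ℚ} {Φ : Matrix ι ι ℚ} {c : E → E} {σ : E →+* ℂ}
  {g : Submodule ℂ (Matrix ι ι ℂ)} {ψ P Q e : Matrix ι ι ℂ}
  {r n : (E →+* ℂ) → ℕ} {sp : (E →+* ℂ) → Prop}

variable [Algebra ℚ E] [Module.Finite ℚ E] [IsReduced E]

/-- The Mumford–Tate conjecture with the trace conditions on all irreducible subspaces. -/
theorem main_i (H : Stmt.Frob R Φ) (hc : ∀ (σ : E →+* ℂ) a, σ (c a) = starRingEnd ℂ (σ a))
    {K : Subfield ℂ} [FiniteDimensional ℚ K] {π : K} {m : ℕ} (hm : m = (Fintype.card ι).factorial)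
    {ζ : ℂ} (hζ : IsPrimitiveRoot ζ m)
    (hsk : ∀ σ σ' : E →+* ℂ, FQV.Stmt.SK σ σ' → sp σ → sp σ')
    (hHT : ∀ γ : ℂ ≃+* ℂ, (∀ x ∈ K, γ x = x) → ∀ S : Finset ℂ, (∀ x ∈ S, IsAlgebraic ℚ x) →
      ∃ τ : ℂ ≃+* ℂ, (∀ x ∈ S, τ x = γ x) ∧
        ∃ (g : Submodule ℂ (Matrix ι ι ℂ)) (ψ e : Matrix ι ι ℂ), FQV.Stmt.Mono R c Φ sp g ψ ∧
          FQV.Stmt.Coch R Φ r g ψ τ e ∧ (Stmt.Kum K π m 1 γ → Stmt.Kap g Φ m ζ τ 0))
    (hCr : ∃ γ : ℂ ≃+* ℂ, Stmt.Kum K π m ζ γ ∧ Stmt.Crys R c Φ sp n r m ζ γ)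
    (hnum : Stmt.NumR K n r sp ∨ Stmt.Num K n r sp)
    (M : FQV.Stmt.Mono R c Φ sp g ψ) (N : Matrix ι ι ℂ) :
    N ∈ g ↔ (∀ Z : Matrix ι ι ℂ, (∀ x ∈ g, x * Z = Z * x) → N * Z = Z * N) ∧
      ∃ a : (ℂ ≃+* ℂ) →₀ ℂ, TrC R r g ψ N a := by
  subst hm
  have HF : IsFrob R Φ := isFrob_of (sf_of H)
  obtain ⟨γ, hK, g₀, ψ₀, e₀, h1, h2, h3, h4, h5, h6, h7⟩ := hCr
  have hdim : ∀ (σ : E →+* ℂ), ∀ W ≤ HS R σ, Irr g₀ W → finrank ℂ W = n σ := by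
    intro σ W hW hi
    obtain ⟨P, h11, rfl⟩ := exists_irrP (ss_of h1.ss) hi
    have h12 := finrank_rg h11
    rw [h5 σ P ((on_iff h11.idem).2 hW) h11] at h12
    exact_mod_cast h12
  have C₀ := coch_of h1 h2
  have hspan := spans_of h3
  have P₀ : AtK R c Φ (Fintype.card ι).factorial ζ γ g₀ ψ₀ e₀ :=
    ⟨(mono_of h1).toMono, fun σ => RingHom.ext fun a => h6 σ a, h7, C₀.mem, C₀.idem,
      kap_of HF h4⟩
  have hHT' : ∀ γ : ℂ ≃+* ℂ, (∀ x ∈ K, γ x = x) → ∀ S : Finset ℂ, (∀ x ∈ S, IsAlgebraic ℚ x) →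
      ∃ τ : ℂ ≃+* ℂ, (∀ x ∈ S, τ x = γ x) ∧ ∃ (g : Submodule ℂ (Matrix ι ι ℂ))
        (ψ e : Matrix ι ι ℂ), MonoT R c Φ sp g ψ ∧ Coch R Φ r g ψ τ e := by
    intro γ hγ S hS
    obtain ⟨τ, h1, g, ψ, e, h2, h3, -⟩ := hHT γ hγ S hS
    exact ⟨τ, h1, g, ψ, e, mono_of h2, coch_of h2 h3⟩
  have hnum' := numE_of (K := K) HF hHT' (mono_of h1) C₀ hspan hdim hnum
  exact main_k HF (free_of H) hc (K := K) (π := π)
    (Nat.factorial_pos _) (dm_dvd HF) hζ (tame_of hK) hsk P₀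
    (mono_of h1) C₀ hspan hdim (fun δ hδ S hS => by
      obtain ⟨τ, h11, g, ψ, e, h12, -, h13⟩ := hHT δ
        (fun x hx => (kum_of hδ).emb K.subtype ⟨x, hx⟩) S hS
      exact ⟨τ, h11, g, ψ, atQ_of HF h12 (h13 (kum_of hδ))⟩) (fun γ hγ S hS => by
      obtain ⟨τ, h11, g, ψ, e, h12, h13⟩ := hHT' γ hγ S hS
      exact ⟨τ, h11, g, ψ, e, h12.toMono, h12.typ, h13⟩) hnum'
      (mono_of M) N

/-- The Tate classes on the powers of abelian varieties over number fields. -/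
theorem tate_x (H : Stmt.Frob R Φ) (hc : ∀ (σ : E →+* ℂ) a, σ (c a) = starRingEnd ℂ (σ a))
    {K : Subfield ℂ} [FiniteDimensional ℚ K] {π : K} {m : ℕ} (hm : m = (Fintype.card ι).factorial)
    {ζ : ℂ} (hζ : IsPrimitiveRoot ζ m)
    (hHT : ∀ γ : ℂ ≃+* ℂ, (∀ x ∈ K, γ x = x) → ∀ S : Finset ℂ, (∀ x ∈ S, IsAlgebraic ℚ x) →
      ∃ τ : ℂ ≃+* ℂ, (∀ x ∈ S, τ x = γ x) ∧
        ∃ (g : Submodule ℂ (Matrix ι ι ℂ)) (ψ e : Matrix ι ι ℂ),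
          FQV.Stmt.Mono R c Φ (fun _ => True) g ψ ∧
          FQV.Stmt.Coch R Φ r g ψ τ e ∧ (Stmt.Kum K π m 1 γ → Stmt.Kap g Φ m ζ τ 0))
    (hCr : ∃ γ : ℂ ≃+* ℂ, Stmt.Kum K π m ζ γ ∧ Stmt.Crys R c Φ (fun _ => True) n r m ζ γ)
    (hnum : Stmt.NumR K n r (fun _ => True) ∨ Stmt.Num K n r (fun _ => True) ∨ Stmt.NumS n r)
    (M : FQV.Stmt.Mono R c Φ (fun _ => True) g ψ) :
    (∀ N j f, FQV.Stmt.IsTate g ψ N j f ↔ f ∈ FQV.Stmt.weilProducts R n r g ψ N j) ∧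
      ((∀ N j f, FQV.Stmt.IsTate g ψ N j f → f ∈ FQV.Stmt.products g ψ N j) ↔
        ¬ ∃ (m : ℕ) (s : Fin m → (E →+* ℂ)), 0 < m ∧ FQV.Stmt.Balanced n r m s) ∧
      ((∀ z ∈ K, starRingEnd ℂ z = z) →
        ((∀ N j f, FQV.Stmt.IsTate g ψ N j f → f ∈ FQV.Stmt.products g ψ N j) ↔
          ∀ σ : E →+* ℂ, FQV.Stmt.Rl σ)) := by
  have HF : IsFrob R Φ := isFrob_of (sf_of H)
  have hsym : Sym R g ψ := fun σ hσ W hW hi => ((mono_of M).typ σ hσ W hW hi).1 trivial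
  have hCr' := hCr
  obtain ⟨γ, hK, g₀, ψ₀, e₀, h1, h2, h3, -, h4, -, -⟩ := hCr'
  have M₀ : Mono R c Φ g₀ ψ₀ := (mono_of h1).toMono
  have C₀ := coch_of h1 h2
  have hspan := spans_of h3
  have hR : Rk R Φ r := rk_of M₀ HF C₀ hspan
  have hI : Idem Φ := hR.tr.idem
  have hdim : ∀ (σ : E →+* ℂ), ∀ W ≤ HS R σ, Irr g₀ W → finrank ℂ W = n σ := by
    intro σ W hW hi
    obtain ⟨P, h11, rfl⟩ := exists_irrP (ss_of h1.ss) hi
    have h12 := finrank_rg h11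
    rw [h4 σ P ((on_iff h11.idem).2 hW) h11] at h12
    exact_mod_cast h12
  have hcard : ∀ σ : E →+* ℂ, Fintype.card (Om R Φ σ) = n σ := by
    intro σ
    obtain ⟨W, p, v, F⟩ := exists_frame M₀ HF hI σ
    rw [F.card, hdim σ W F.le F.irr]
  have Mg : Mono R c Φ g ψ := (mono_of M).toMono
  have hn : ∀ (σ : E →+* ℂ), ∀ W ≤ HS R σ, Irr g W → finrank ℂ W = n σ := by
    intro σ W hσ hW
    obtain ⟨q, P⟩ := exists_prj Mg hW.1
    obtain ⟨v, F⟩ := exists_basis Mg HF hI hW P hσ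
    rw [← F.card, hcard]
  have hcp : ∀ (γ : ℂ ≃+* ℂ) (σ : E →+* ℂ), n (cp γ σ) = n σ := by
    intro γ σ
    rw [← hcard, ← hcard, card_cp]
  have hpos : ∀ σ : E →+* ℂ, 0 < n σ := by
    intro σ
    obtain ⟨W, p, v, F⟩ := exists_frame M₀ HF hI σ
    rw [← hdim σ W F.le F.irr]
    haveI : Nontrivial W := Submodule.nontrivial_iff_ne_bot.2 F.irr.2.1
    exact finrank_pos
  have hnum' : Stmt.NumR K n r (fun _ => True) ∨ Stmt.Num K n r (fun _ => True) := by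
    rcases hnum with h | h | h
    · exact Or.inl h
    · exact Or.inr h
    · exact Or.inr (Stmt.num_of_simple hc (fun σ => (r_dual M₀ HF hI C₀ σ).trans (hcard σ)) hcp
        hpos (fun σ σ' h => SK.exists_cp h) h)
  have key := tate_structure Mg HF hR hc hn hsym fun N h1 h2 =>
    (main_i H hc hm hζ (fun _ _ _ _ => trivial) hHT hCr hnum' M N).2 ⟨h1, 0, h2⟩
  have key1 : ∀ N j f, FQV.Stmt.IsTate g ψ N j f ↔
      f ∈ FQV.Stmt.weilProducts R n r g ψ N j := fun N j f => by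
    rw [tate_iff, key.1, weilProducts_eq (ss_of M.ss), mem_map_fb]
  have key2 : (∀ N j f, FQV.Stmt.IsTate g ψ N j f → f ∈ FQV.Stmt.products g ψ N j) ↔
      ¬ ∃ (m : ℕ) (s : Fin m → (E →+* ℂ)), 0 < m ∧ FQV.Stmt.Balanced n r m s := by
    rw [← show (_ ↔ ¬ ∃ (m : ℕ) (s : Fin m → (E →+* ℂ)), 0 < m ∧ FQV.Stmt.Balanced n r m s)
      from key.2]
    constructor
    · intro h N j f hf
      obtain ⟨f, rfl⟩ := (fb ι N (2 * j)).surjective f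
      rw [products_eq, mem_map_fb]
      exact h N j f ((tate_iff f).2 hf)
    · intro h N j f hf
      have h1 := h N j _ ((tate_iff f).1 hf)
      rwa [products_eq, mem_map_fb] at h1
  refine ⟨key1, key2, fun hKr => ?_⟩
  rw [key2]
  have hHTm : ∀ γ ∈ fixG K, ∀ S : Finset ℂ, (∀ x ∈ S, IsAlgebraic ℚ x) →
      ∃ τ : ℂ ≃+* ℂ, (∀ x ∈ S, τ x = γ x) ∧ ∃ (g : Submodule ℂ (Matrix ι ι ℂ))
        (ψ e : Matrix ι ι ℂ), Mono R c Φ g ψ ∧ Coch R Φ r g ψ τ e := by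
    intro γ hγ S hS
    obtain ⟨τ, h1, g, ψ, e, h2, h3, -⟩ := hHT γ hγ S hS
    exact ⟨τ, h1, g, ψ, e, (mono_of h2).toMono, coch_of h2 h3⟩
  have hr : ∀ σ : E →+* ℂ, 2 * r σ = n σ := by
    intro σ
    have h1 := r_dual M₀ HF hI C₀ σ
    have h2 := sm_real HF hI hKr hHTm σ
    rw [hcard, h2] at h1
    omega
  constructor
  · intro h σ
    by_contra hσ
    have h0 : ∃ t, starRingEnd ℂ (σ t) ≠ σ t := by
      by_contra h5
      exact hσ fun t => by_contra fun h6 => h5 ⟨t, h6⟩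
    obtain ⟨t, ht⟩ := h0
    refine h ⟨1, fun _ => σ, one_pos, fun _ _ => ⟨t, fun h5 => ht h5.symm⟩, fun γ => ?_⟩
    rw [Fin.sum_univ_one, Fin.sum_univ_one]
    exact (hr (cp γ σ)).trans (hcp γ σ)
  · rintro h ⟨m, s, hm, h1, -⟩
    obtain ⟨t, ht⟩ := h1 ⟨0, hm⟩ ⟨0, hm⟩
    exact ht (h (s ⟨0, hm⟩) t).symm

end Pool.Agent.FQX
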