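import Pool.Agent.FQX.Equi
import Pool.Agent.FQX.NoT
import Pool.Agent.FQV.Eight

/-!
# The reciprocity law for the roots without zeros

The system of blocks `{F, -F}`, `F` a root without zeros, if the coroots of all root vectors are without
zeros (`AllFl`): symplectic of dimension eight, orthogonal of dimension four.
-/

set_option autoImplicit false
set_option linter.unusedSectionVars false

namespace Pool.Agent.FQX

open Module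
open Pool.Agent.CoprimeSig (ratM)
open Pool.Agent.PrimePow.CC (Rf Rt Lat)
open Pool.Agent.FQV
open Pool.Agent.FQ (expG IsExp)
open Pool.Agent.FQA (AR Cn Fl Cube exists_cube conn_of_cn)
open Pool.Agent.NumRank (Rt_move Rt_mem Rt_sq_ne cf cf_eq_zero)

variable {ι : Type} [Fintype ι] [DecidableEq ι] {E : Type} [CommRing E] [Algebra ℚ E]
  [Module.Finite ℚ E] [IsReduced E]
  {R : E →+* Matrix ι ι ℚ} {Φ : Matrix ι ι ℚ} {σ : E →+* ℂ} {c : E → E}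
  {g : Submodule ℂ (Matrix ι ι ℂ)} {ψ : Matrix ι ι ℂ} {s s' : Set (ℂ → ℚ)} {F F' : ℂ → ℚ}

/-- The roots without zeros which are not in `s`. -/
def fcl (R : E →+* Matrix ι ι ℚ) (Φ : Matrix ι ι ℚ) (σ : E →+* ℂ) (s : Set (ℂ → ℚ)) :
    Set (ℂ → ℚ) := {F | Flr R Φ σ F ∧ F ∉ s}

/-- The roots of the lattice for `σ` are connected. -/
def CnR (R : E →+* Matrix ι ι ℚ) (Φ : Matrix ι ι ℚ) (σ : E →+* ℂ) : Prop :=
  ∀ h h', Rt (Ls R Φ σ) h → Rt (Ls R Φ σ) h' → Cn (Ls R Φ σ) h h'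

theorem fcl_mv (H : IsFrob R Φ) (h : ℂ ≃+* ℂ) (s : Set (ℂ → ℚ)) :
    mv h '' fcl R Φ σ s = fcl R Φ (cp h σ) (mv h '' s) := by
  ext F
  constructor
  · rintro ⟨F, ⟨h1, h2⟩, rfl⟩
    refine ⟨h1.mv H.diag h, ?_⟩
    rintro ⟨F', h3, h4⟩
    exact h2 (mv_inj h4 ▸ h3)
  · rintro ⟨h1, h2⟩
    have h3 := h1.mv H.diag h.symm
    have h4 : cp h.symm (cp h σ) = σ := by
      ext a
      simp [cp_apply]
    rw [h4] at h3
    exact ⟨mv h.symm F, ⟨h3, fun h5 => h2 ⟨_, h5, mv_mv_symm h F⟩⟩, mv_mv_symm h F⟩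

theorem isFc_eq {c c' : Set (ℂ → ℚ)} (hc : IsFc R Φ σ c) (hc' : IsFc R Φ σ c') (h : F ∈ c)
    (h' : F ∈ c') : c = c' := by
  rw [(fc_of_mem hc h).2, (fc_of_mem hc' h').2]

/-- Two roots without zeros are equal up to the sign or orthogonal. -/
theorem flr_or (hL : Lat (Ls R Φ σ)) (h : Flr R Φ σ F) (h' : Flr R Φ σ F') :
    F' = F ∨ F' = -F ∨ rs R Φ σ F' ⬝ᵥ rs R Φ σ F = 0 := by
  rcases h.fl.eq_or_orth hL h'.fl with h1 | h1 | h1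
  · exact Or.inl (rts_ext h'.rts h.rts h1)
  · exact Or.inr (Or.inl (rts_ext h'.rts h.neg.rts (by rw [h1, rs_neg])))
  · exact Or.inr (Or.inr h1)

/-- A pair and its complement. -/
theorem dcm_fc (hL : Lat (Ls R Φ σ)) (hcn : CnR R Φ σ) (hs : IsFc R Φ σ s) :
    Dcm R Φ σ s (fcl R Φ σ s) := by
  classical
  refine ⟨fun F hF => (fc_of_mem hs hF).1.rts, fun F hF => hF.1.rts, fun F hF F' hF' => ?_,
    fun A hA h => ?_⟩
  · obtain ⟨h1, h2⟩ := fc_of_mem hs hF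
    rcases flr_or hL h1 hF'.1 with h3 | h3 | h3
    · exact absurd (by rw [h2, h3]; exact Or.inl rfl) hF'.2
    · exact absurd (by rw [h2, h3]; exact Or.inr rfl) hF'.2
    · rw [dotProduct_comm]
      exact h3
  · obtain ⟨F₀, hF₀, -⟩ := hs
    obtain ⟨S, C⟩ := exists_cube hL (conn_of_cn hcn) ⟨_, hF₀.fl⟩
    obtain ⟨ω₀, hω₀⟩ := hA
    rw [Set.eq_univ_iff_forall]
    intro ω
    have key : ∀ T : Finset (Om R Φ σ → ℚ), T ⊆ S → ∃ x ∈ A, ∀ k ∈ T, k x = k ω := by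
      intro T
      induction T using Finset.induction_on with
      | empty => exact fun _ => ⟨ω₀, hω₀, fun k hk => absurd hk (Finset.notMem_empty k)⟩
      | insert k T hkT ih =>
        intro hsub
        obtain ⟨x, hx, hx'⟩ := ih fun y hy => hsub (Finset.mem_insert_of_mem hy)
        have hkS : k ∈ S := hsub (Finset.mem_insert_self k T)
        have K := C.fl k hkS
        by_cases heq : k x = k ω
        · refine ⟨x, hx, fun k' hk' => ?_⟩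
          rcases Finset.mem_insert.1 hk' with rfl | h3
          · exact heq
          · exact hx' k' h3
        · obtain ⟨π, hπ, hrf⟩ := Rt_move K.rt
          obtain ⟨F, hF, rfl⟩ := exists_rts K.rt
          have hFl : Flr R Φ σ F := ⟨hF, K⟩
          refine ⟨π x, h F π ?_ hrf x hx, fun k' hk' => ?_⟩
          · by_cases h3 : F ∈ s
            · exact Or.inl h3
            · exact Or.inr ⟨hFl, h3⟩
          · rcases Finset.mem_insert.1 hk' with rfl | h3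
            · rw [hrf.neg]
              rcases K.val x with h4 | h4 <;> rcases K.val ω with h5 | h5 <;>
                rw [h4, h5] at heq ⊢ <;> first | exact absurd rfl heq | norm_num
            · have hk'S : k' ∈ S := hsub hk'
              have h1 : cf k' (rs R Φ σ F) = 0 := by
                rw [cf_eq_zero (Rt_sq_ne K.rt)]
                refine C.orth k' hk'S _ hkS fun h4 => ?_
                rw [h4] at hkT
                exact hkT h3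
              rw [hπ k' (Rt_mem (C.fl k' hk'S).rt), h1, zero_mul, sub_zero, hx' k' h3]
    obtain ⟨x, hx, hx'⟩ := key S subset_rfl
    rwa [C.inj x ω hx'] at hx

theorem act_fc (hall : AllFl R Φ g σ) (s : Set (ℂ → ℚ)) :
    Act g R Φ σ s (fcl R Φ σ s) := by
  intro W p v F h hh
  have h1 := hall W p v F h hh
  obtain ⟨F', hF', rfl⟩ := exists_rts h1.rt
  by_cases h3 : F' ∈ s
  · exact ⟨F', Or.inl h3, rfl⟩
  · exact ⟨F', Or.inr ⟨⟨hF', h1⟩, h3⟩, rfl⟩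

/-- Idempotents are orthogonal to the pair or to its complement. -/
theorem one_fc (M : Mono R c Φ g ψ) (H : IsFrob R Φ) (hI : Idem Φ) (hs : IsFc R Φ σ s) :
    One R Φ σ s (fcl R Φ σ s) := by
  intro e he hee
  have hL := lat M H hI σ
  by_cases h : ∀ F ∈ s, rs R Φ σ (ev Φ e) ⬝ᵥ rs R Φ σ F = 0
  · exact Or.inr h
  push Not at h
  obtain ⟨F, hF, h0⟩ := h
  obtain ⟨h1, h2⟩ := fc_of_mem hs hF
  refine Or.inl fun F' hF' => ?_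
  by_contra h0'
  have h3 := h1.fl.one_of hL hF'.1.fl (ev_mem he hee) (fun ω => by
    rw [rs_apply]
    exact ev_or Φ e ω) (by rwa [dotProduct_comm]) (by rwa [dotProduct_comm])
  apply hF'.2
  rw [h2]
  rcases h3 with h3 | h3
  · exact Or.inl (rts_ext hF'.1.rts h1.rts h3)
  · exact Or.inr (rts_ext hF'.1.rts h1.neg.rts (by rw [h3, rs_neg]))

/-- Every pair contains the coroot of a root vector. -/
theorem ex_crt_fc (M : Mono R c Φ g ψ) (H : IsFrob R Φ) (hI : Idem Φ) (hall : AllFl R Φ g σ)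
    (hs : IsFc R Φ σ s) : ∃ F ∈ s, Crt g R Φ σ F := by
  obtain ⟨F, hF, rfl⟩ := hs
  obtain ⟨W, p, v, Fr⟩ := exists_frame M H hI σ
  have hnt := Fr.nontrivial
  have T := td M H hI Fr.irr Fr.prj
  have hL := lat M H hI σ
  obtain ⟨-, y, hy, hvy⟩ := mem_Ls.1 (Rt_mem hF.fl.rt)
  obtain ⟨k, hk, h0⟩ := T.exists_ar v (Fr.hv M) (e := rm p y) (rm_mem hy)
    (f := rs R Φ σ F) (fun ω => by
      apply Subtype.ext
      rw [rm_apply Fr.prj (Fr.irr.1 y (M.le hy)), hvy ω _ (Fr.le (v ω).2) (Fr.bas ω)]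
      rfl) (h := rs R Φ σ F)
    (by rw [Fr.lv M]; exact hF.fl.rt) (Rt_sq_ne hF.fl.rt)
  have hkf := hall W p v Fr k hk
  obtain ⟨F', hF', rfl⟩ := exists_rts hkf.rt
  have h1 : F' = F ∨ F' = -F := by
    rcases flr_or hL hF ⟨hF', hkf⟩ with h2 | h2 | h2
    · exact Or.inl h2
    · exact Or.inr h2
    · exact absurd h2 h0
  refine ⟨F', ?_, W, p, v, Fr, hk⟩
  rcases h1 with h1 | h1
  · exact Or.inl h1
  · exact Or.inr h1

theorem fix_fc (M : Mono R c Φ g ψ) (H : IsFrob R Φ) (hI : Idem Φ) (hcn : CnR R Φ σ)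
    (hall : AllFl R Φ g σ) {γ : ℂ ≃+* ℂ} (hσ : cp γ σ = σ) (hid : Spl g γ) (hs : IsFc R Φ σ s) :
    mv γ '' s = s := by
  have hL := lat M H hI σ
  obtain ⟨F, hF, hC⟩ := ex_crt_fc M H hI hall hs
  have h1 := fix_root M H hI (dcm_fc hL hcn hs) (act_fc hall s) hσ hid hF hC
  have h2 := (fc_of_mem hs hF).1.mv H.diag γ
  rw [hσ] at h2
  have h3 : mv γ F ∈ s := by
    by_contra h3
    exact h1 ⟨h2, h3⟩
  have h4 := isFc_mv H.diag γ hs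
  rw [hσ] at h4
  exact isFc_eq h4 hs ⟨F, hF, rfl⟩ h3

theorem stab_fc (M : Mono R c Φ g ψ) (H : IsFrob R Φ) (hI : Idem Φ) (hcn : CnR R Φ σ)
    (hall : AllFl R Φ g σ) {γ : ℂ ≃+* ℂ} (hσ : cp γ σ = σ) (hid : Spl g γ) (hs : IsFc R Φ σ s) :
    Stab σ s (fcl R Φ σ s) γ := by
  have h1 := fix_fc M H hI hcn hall hσ hid hs
  refine ⟨hσ, h1, ?_⟩
  rw [fcl_mv H, hσ, h1]

/-- `atl_eps` with a property `Q` of the monodromy groups. -/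
theorem atl_epsQ (H : IsFrob R Φ) (hF : Free Φ) (hI : Idem Φ) {m : ℕ} (hm0 : m ≠ 0)
    {Q : Submodule ℂ (Matrix ι ι ℂ) → Matrix ι ι ℂ → Prop}
    {δ : ℂ ≃+* ℂ} (hmu : ∀ x : ℂ, x ^ m = 1 → δ x = x)
    (h1 : ∀ S : Finset ℂ, (∀ x ∈ S, IsAlgebraic ℚ x) → ∃ τ : ℂ ≃+* ℂ, (∀ x ∈ S, τ x = δ x) ∧
      ∃ (g : Submodule ℂ (Matrix ι ι ℂ)) (ψ : Matrix ι ι ℂ), AtL R c Φ m τ g ψ ∧ Q g ψ)
    (S : Finset ℂ) (hS : ∀ x ∈ S, IsAlgebraic ℚ x) :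
    ∃ τ : ℂ ≃+* ℂ, (∀ x ∈ S, τ x = δ x) ∧ ∃ (g : Submodule ℂ (Matrix ι ι ℂ))
      (ψ : Matrix ι ι ℂ), Mono R c Φ g ψ ∧ Q g ψ ∧
      ∀ (σ : E →+* ℂ) (s s' : Set (ℂ → ℚ)), Dcm R Φ σ s s' → Act g R Φ σ s s' →
        One R Φ σ s s' → dm R σ ∣ m → Stab σ s s' τ → Eps R Φ σ s s' τ 1 := by
  classical
  obtain ⟨τ, hτ, g, ψ, A, hQ⟩ := h1 (S ∪ Polynomial.nthRootsFinset m (1 : ℂ)) (by
    intro x hx
    rcases Finset.mem_union.1 hx with hx | hx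
    · exact hS x hx
    · rw [Polynomial.mem_nthRootsFinset (Nat.pos_of_ne_zero hm0)] at hx
      exact IsAlgebraic.of_pow (Nat.pos_of_ne_zero hm0) (by rw [hx]; exact isAlgebraic_one))
  have hmuτ : ∀ x : ℂ, x ^ m = 1 → τ x = x := fun x hx => by
    rw [hτ x (Finset.mem_union_right _
      ((Polynomial.mem_nthRootsFinset (Nat.pos_of_ne_zero hm0) _).2 hx)), hmu x hx]
  refine ⟨τ, fun x hx => hτ x (Finset.mem_union_left _ hx), g, ψ, A.mono, hQ,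
    fun σ s s' hD hA hO hdm hst => ?_⟩
  obtain ⟨ζ, hε, -⟩ := exists_eps H (iSup_HS A.mono) hF (lat A.mono H hI σ) hD hst
  have h2 := eps_one A.mono H hI hD hA hO hst hdm hmuτ A.dec hε
  rwa [h2] at hε

/-- **The reciprocity law for the roots without zeros.** -/
theorem recip_fc (H : IsFrob R Φ) (hF : Free Φ) (hI : Idem Φ) {K : Subfield ℂ} {π : K}
    (hπ : (π : ℂ) ≠ 0) {m : ℕ} (hm0 : 0 < m) (hm : ∀ σ : E →+* ℂ, dm R σ ∣ m) {ζ₀ : ℂ}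
    (hζ₀ : IsPrimitiveRoot ζ₀ m) {γ : ℂ ≃+* ℂ} (T : Tame K π m ζ₀ γ) {e e₁ : Matrix ι ι ℂ}
    (P : AtP R c Φ m (π : ℂ) γ g ψ e e₁)
    {Q : Submodule ℂ (Matrix ι ι ℂ) → Matrix ι ι ℂ → Prop} (hQ : Q g ψ)
    (h1 : ∀ δ : ℂ ≃+* ℂ, Cls K π m δ → ∀ S : Finset ℂ, (∀ x ∈ S, IsAlgebraic ℚ x) →
      ∃ τ : ℂ ≃+* ℂ, (∀ x ∈ S, τ x = δ x) ∧ ∃ (g : Submodule ℂ (Matrix ι ι ℂ))
        (ψ : Matrix ι ι ℂ), AtL R c Φ m τ g ψ ∧ Q g ψ)
    {h : ℂ ≃+* ℂ} (hh : ∀ x ∈ K, h x = x) {σ : E →+* ℂ} (hns : Ns R Φ e σ)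
    (hcn : CnR R Φ σ) (hcn' : CnR R Φ (cp h σ)) (hfl : ∃ k, Fl (Ls R Φ σ) k)
    (hfl' : ∃ k, Fl (Ls R Φ (cp h σ)) k)
    (hall : ∀ (g : Submodule ℂ (Matrix ι ι ℂ)) (ψ : Matrix ι ι ℂ), Mono R c Φ g ψ → Q g ψ →
      AllFl R Φ g σ)
    (hall' : ∀ (g : Submodule ℂ (Matrix ι ι ℂ)) (ψ : Matrix ι ι ℂ), Mono R c Φ g ψ → Q g ψ →
      AllFl R Φ g (cp h σ)) :
    Ns R Φ e (cp h σ) ∧ mv h '' fch R Φ σ (ev Φ e) = fch R Φ (cp h σ) (ev Φ e) := by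
  have M := P.mono
  have hV := iSup_HS M
  have hrt0 : ∀ y : ℂ, y ^ m = π → γ y = ζ₀ * y := T.rt0
  -- the touched pair
  have hs := fch_isFc M H hI P.mem P.idem hns hcn hfl
  have hs' := isFc_mv H.diag h hs
  have hγ := stab_fc M H hI hcn (hall g ψ M hQ) (P.emb σ) P.spl hs
  have hγ' := stab_fc M H hI hcn' (hall' g ψ M hQ) (P.emb (cp h σ)) P.spl hs'
  obtain ⟨ζ, hε, hζ⟩ := atp_eps H hF hI hm0.ne' hπ hζ₀ T.mu hrt0 P
    (dcm_fc (lat M H hI _) hcn hs) (act_fc (hall g ψ M hQ) _) (one_fc M H hI hs) hγ (hm σ)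
  obtain ⟨ζ', hε', hζ'⟩ := atp_eps H hF hI hm0.ne' hπ hζ₀ T.mu hrt0 P
    (dcm_fc (lat M H hI _) hcn' hs') (act_fc (hall' g ψ M hQ) _) (one_fc M H hI hs') hγ'
    (hm (cp h σ))
  have hζ1 : ζ ≠ 1 := by
    refine hζ.2 ⟨hns, ?_⟩
    obtain ⟨F, hF, h2⟩ := hs
    have h3 : F ∈ fch R Φ σ (ev Φ e) := by
      rw [h2]
      exact Or.inl rfl
    exact ⟨F, h3, h3.2⟩
  have hζ1' : ζ' ≠ 1 := by
    intro h3
    rw [h3, ← fcl_mv H] at hε'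
    rw [← fcl_mv H] at hγ'
    refine hζ1 (rec_step H hV hm0 hζ₀ T hh (dcm_fc (lat M H hI _) hcn hs) (hm _)
      (fun δ hδ S hS => ?_) hγ hγ' hε hε')
    obtain ⟨τ, hτ, g', ψ', M', hQ', h4⟩ := atl_epsQ H hF hI hm0.ne' hδ.mu (h1 δ hδ) S hS
    refine ⟨τ, hτ, fun h5 => ?_⟩
    rw [fcl_mv H] at h5 ⊢
    exact h4 (cp h σ) _ _ (dcm_fc (lat M H hI _) hcn' hs') (act_fc (hall' g' ψ' M' hQ') _)
      (one_fc M H hI hs') (hm _) h5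
  obtain ⟨h2, F, hF, h3⟩ := hζ'.1 hζ1'
  have hFf : F ∈ fch R Φ (cp h σ) (ev Φ e) := ⟨(fc_of_mem hs' hF).1, h3⟩
  exact ⟨h2, isFc_eq hs' (fch_isFc M H hI P.mem P.idem h2 hcn' hfl') hF hFf⟩

private theorem sum_rts_SysF {F : ℂ → ℚ} (hF : Rts R Φ σ F) : ∑ ω : Om R Φ σ, rs R Φ σ F ω = 0 := by
  obtain ⟨π, hπ⟩ := hF.rt
  exact hπ.sum_zero

/-- The complex conjugation. -/
theorem fch_star (H : IsFrob R Φ) {e : Matrix ι ι ℂ} (he : e ∈ tor Φ) (hee : e * e = e)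
    (htr : 2 * e.trace = Fintype.card ι) (σ : E →+* ℂ) :
    mv starRingAut '' fch R Φ σ (ev Φ e) = fch R Φ (cp starRingAut σ) (ev Φ e) := by
  rw [← fch_mv H.diag]
  have key : ∀ F' : ℂ → ℚ, Rts R Φ (cp starRingAut σ) F' →
      rs R Φ (cp starRingAut σ) (mv starRingAut (ev Φ e)) ⬝ᵥ rs R Φ (cp starRingAut σ) F' =
        -(rs R Φ (cp starRingAut σ) (ev Φ e) ⬝ᵥ rs R Φ (cp starRingAut σ) F') := by
    intro F' hF'
    have h1 := sum_rts_SysF hF'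
    have h2 : ∀ ω : Om R Φ (cp starRingAut σ), rs R Φ (cp starRingAut σ)
        (mv starRingAut (ev Φ e)) ω = 1 - rs R Φ (cp starRingAut σ) (ev Φ e) ω := by
      intro ω
      have h3 : (starRingAut : ℂ ≃+* ℂ).symm (ω : ℂ) = starRingEnd ℂ (ω : ℂ) := by
        apply (starRingAut : ℂ ≃+* ℂ).injective
        rw [RingEquiv.apply_symm_apply]
        exact (star_star (ω : ℂ)).symm
      rw [rs_apply, rs_apply]
      change ev Φ e ((starRingAut : ℂ ≃+* ℂ).symm ω) = _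
      rw [h3, ev_conj H he hee htr (hasEigenvalue_of_mem ω.2)]
    simp only [dotProduct, h2, sub_mul, one_mul, Finset.sum_sub_distrib]
    rw [h1, zero_sub]
  ext F'
  constructor
  · rintro ⟨h1, h2⟩
    refine ⟨h1, fun h3 => h2 ?_⟩
    rw [key F' h1.rts, h3, neg_zero]
  · rintro ⟨h1, h2⟩
    refine ⟨h1, fun h3 => h2 ?_⟩
    rw [key F' h1.rts, neg_eq_zero] at h3
    exact h3

/-- The system of the pairs of roots without zeros, for the real homomorphisms with the same kernel as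
`σ`. -/
theorem sys_fc (H : IsFrob R Φ) (hF : Free Φ) (hI : Idem Φ)
    (hc : ∀ (σ : E →+* ℂ) a, σ (c a) = starRingEnd ℂ (σ a)) {K : Subfield ℂ} {π : K}
    (hπ : (π : ℂ) ≠ 0) {m : ℕ} (hm0 : 0 < m) (hm : ∀ σ : E →+* ℂ, dm R σ ∣ m) {ζ₀ : ℂ}
    (hζ₀ : IsPrimitiveRoot ζ₀ m) {γ : ℂ ≃+* ℂ} (T : Tame K π m ζ₀ γ) {e e₁ : Matrix ι ι ℂ}
    (P : AtP R c Φ m (π : ℂ) γ g ψ e e₁)
    {Q : Submodule ℂ (Matrix ι ι ℂ) → Matrix ι ι ℂ → Prop} (hQ : Q g ψ)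
    (h1 : ∀ δ : ℂ ≃+* ℂ, Cls K π m δ → ∀ S : Finset ℂ, (∀ x ∈ S, IsAlgebraic ℚ x) →
      ∃ τ : ℂ ≃+* ℂ, (∀ x ∈ S, τ x = δ x) ∧ ∃ (g : Submodule ℂ (Matrix ι ι ℂ))
        (ψ : Matrix ι ι ℂ), AtL R c Φ m τ g ψ ∧ Q g ψ)
    {n r : (E →+* ℂ) → ℕ} {τ₀ : ℂ ≃+* ℂ} (C : Coch R Φ r g ψ τ₀ e)
    (hspan : tor Φ ≤ Submodule.span ℂ (orbit Φ g e))
    (hn : ∀ σ : E →+* ℂ, Fintype.card (Om R Φ σ) = n σ) (hreal : ∀ a, starRingEnd ℂ (σ a) = σ a)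
    (h2 : 2 ≤ n σ) (hcn : ∀ σ' : E →+* ℂ, SK σ σ' → CnR R Φ σ')
    (hfl : ∃ k, Fl (Ls R Φ σ) k)
    (hall : ∀ (g : Submodule ℂ (Matrix ι ι ℂ)) (ψ : Matrix ι ι ℂ), Mono R c Φ g ψ → Q g ψ →
      ∀ σ' : E →+* ℂ, SK σ σ' → (∃ k, Fl (Ls R Φ σ') k) → AllFl R Φ g σ') :
    Sys R Φ K n r (SK σ) (fun σ => {s | IsFc R Φ σ s}) (fun _ _ => 2)
      (fun σ => fch R Φ σ (ev Φ e)) := by
  classical
  have M := P.mono
  have hfl' : ∀ σ' : E →+* ℂ, SK σ σ' → ∃ k, Fl (Ls R Φ σ') k := by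
    intro σ' h1
    obtain ⟨γ, rfl⟩ := h1.exists_cp
    obtain ⟨k₀, hk₀⟩ := hfl
    obtain ⟨F, hF, rfl⟩ := exists_rts hk₀.rt
    exact ⟨_, (Flr.mv H.diag γ ⟨hF, hk₀⟩).fl⟩
  have hpcp : ∀ (γ : ℂ ≃+* ℂ) (σ' : E →+* ℂ), SK σ σ' → SK σ (cp γ σ') := fun γ σ' h a => by
    rw [cp_apply, map_eq_zero_iff γ γ.injective]
    exact h a
  have hncp : ∀ (γ : ℂ ≃+* ℂ) (σ' : E →+* ℂ), n (cp γ σ') = n σ' := fun γ σ' => by
    rw [← hn, ← hn, card_cp]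
  have hnsk : ∀ σ' : E →+* ℂ, SK σ σ' → n σ' = n σ := by
    intro σ' h
    rw [← hn, ← hn, h.card]
  have hr : ∀ σ' : E →+* ℂ, SK σ σ' → 2 * r σ' = n σ' := fun σ' h => by
    rw [← hn]
    exact r_real M H hI C (SK.real hc h hreal)
  have hpos : ∀ σ' : E →+* ℂ, SK σ σ' → 0 < r σ' ∧ r σ' < n σ' := fun σ' h => by
    have h3 := hr σ' h
    have h4 := hnsk σ' h
    omega
  have hns : ∀ σ' : E →+* ℂ, SK σ σ' → Ns R Φ e σ' := fun σ' h =>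
    ns_of_r M H hI C (by
      rw [hn]
      exact hpos σ' h)
  refine
    { pcp := hpcp
      card := fun γ σ' _ => hncp γ σ'
      fin := fun σ' _ => finite_fc R Φ σ'
      rts := fun σ' _ s hs F hF => (fc_of_mem hs hF).1.rts
      bmv := fun γ σ' _ s hs => isFc_mv H.diag γ hs
      two := fun _ _ _ _ => le_rfl
      inv := fun _ _ _ _ _ => rfl
      prod := ?_
      mem := fun σ' h _ _ => fch_isFc M H hI P.mem P.idem (hns σ' h) (hcn σ' h) (hfl' σ' h)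
      ovr := ?_
      star := ?_
      sur := ?_
      dvd := ?_ }
  · intro σ' h _
    have h3 := card_fc M H hI (hcn σ' h) (hfl' σ' h)
    rw [hn] at h3
    have hfin : Finite {c : Set (ℂ → ℚ) // IsFc R Φ σ' c} := (finite_fc R Φ σ').to_subtype
    have : Fintype {c : Set (ℂ → ℚ) // IsFc R Φ σ' c} := Fintype.ofFinite _
    rw [← finprod_set_coe_eq_finprod_mem]
    change ∏ᶠ _ : {c : Set (ℂ → ℚ) // IsFc R Φ σ' c}, 2 = n σ'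
    rw [finprod_eq_prod_of_fintype, Finset.prod_const, Finset.card_univ, h3,
      Nat.card_eq_fintype_card]
  · intro h hh σ' hσ' _ _
    exact ⟨hpos _ (hpcp h σ' hσ'), (recip_fc H hF hI hπ hm0 hm hζ₀ T P hQ h1 hh (hns σ' hσ')
      (hcn σ' hσ') (hcn _ (hpcp h σ' hσ')) (hfl' σ' hσ') (hfl' _ (hpcp h σ' hσ'))
      (fun g ψ M' Q' => hall g ψ M' Q' σ' hσ' (hfl' σ' hσ'))
      (fun g ψ M' Q' => hall g ψ M' Q' _ (hpcp h σ' hσ') (hfl' _ (hpcp h σ' hσ')))).2⟩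
  · intro σ' hσ' _ _
    exact ⟨hpos _ (hpcp _ σ' hσ'), fch_star H P.mem P.idem (trace_of_mult M C.mult) σ'⟩
  · intro σ' hσ' s hs
    have hsk : ∀ σ₁ : E →+* ℂ, SK σ' σ₁ → SK σ σ₁ := fun σ₁ h a => (h a).trans (hσ' a)
    obtain ⟨γ, σ₁, h3, h4⟩ := fc_orbit M H hI P.mem P.idem (fun σ₁ h => hns σ₁ (hsk σ₁ h))
      (fun σ₁ h => hcn σ₁ (hsk σ₁ h)) (fun σ₁ h => hfl' σ₁ (hsk σ₁ h))
      (fun σ₁ h => hall g ψ M hQ σ₁ (hsk σ₁ h) (hfl' σ₁ (hsk σ₁ h))) hspan hs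
    have h5 : cp γ⁻¹ σ' = σ₁ := by
      rw [h3, ← cp_mul, inv_mul_cancel]
      exact cp_one
    have h6 : SK σ σ₁ := by
      rw [← h5]
      exact hpcp _ _ hσ'
    refine ⟨γ, ?_, ?_, ?_⟩
    · rw [h5]
      exact (hpos σ₁ h6).1
    · rw [h5]
      exact (hpos σ₁ h6).2
    · rw [h5]
      exact h4
  · intro σ' hσ' _ _
    rw [hr σ' hσ']

/-- **No roots without zeros.** -/
theorem no_fl_x (H : IsFrob R Φ) (hF : Free Φ) (hI : Idem Φ)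
    (hc : ∀ (σ : E →+* ℂ) a, σ (c a) = starRingEnd ℂ (σ a)) {K : Subfield ℂ} {π : K}
    (hπ : (π : ℂ) ≠ 0) {m : ℕ} (hm0 : 0 < m) (hm : ∀ σ : E →+* ℂ, dm R σ ∣ m) {ζ₀ : ℂ}
    (hζ₀ : IsPrimitiveRoot ζ₀ m) {γ : ℂ ≃+* ℂ} (T : Tame K π m ζ₀ γ) {e e₁ : Matrix ι ι ℂ}
    (P : AtP R c Φ m (π : ℂ) γ g ψ e e₁)
    {Q : Submodule ℂ (Matrix ι ι ℂ) → Matrix ι ι ℂ → Prop} (hQ : Q g ψ)
    (h1 : ∀ δ : ℂ ≃+* ℂ, Cls K π m δ → ∀ S : Finset ℂ, (∀ x ∈ S, IsAlgebraic ℚ x) →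
      ∃ τ : ℂ ≃+* ℂ, (∀ x ∈ S, τ x = δ x) ∧ ∃ (g : Submodule ℂ (Matrix ι ι ℂ))
        (ψ : Matrix ι ι ℂ), AtL R c Φ m τ g ψ ∧ Q g ψ)
    {n r : (E →+* ℂ) → ℕ} {τ₀ : ℂ ≃+* ℂ} (C : Coch R Φ r g ψ τ₀ e)
    (hspan : tor Φ ≤ Submodule.span ℂ (orbit Φ g e))
    (hn : ∀ σ : E →+* ℂ, Fintype.card (Om R Φ σ) = n σ) (hreal : ∀ a, starRingEnd ℂ (σ a) = σ a)
    (h2 : 2 < n σ) (hcn : ∀ σ' : E →+* ℂ, SK σ σ' → CnR R Φ σ')
    (hall : ∀ (g : Submodule ℂ (Matrix ι ι ℂ)) (ψ : Matrix ι ι ℂ), Mono R c Φ g ψ → Q g ψ →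
      ∀ σ' : E →+* ℂ, SK σ σ' → (∃ k, Fl (Ls R Φ σ') k) → AllFl R Φ g σ')
    (hN : NoTensor K n r σ) : ∀ k, ¬ Fl (Ls R Φ σ) k := by
  intro k hk
  have S := sys_fc H hF hI hc hπ hm0 hm hζ₀ T P hQ h1 C hspan hn hreal h2.le hcn ⟨k, hk⟩ hall
  have hsk : SK σ σ := fun a => Iff.rfl
  have h3 := S.one H hc hsk hN
  have h4 := card_fc P.mono H hI (hcn σ hsk) ⟨k, hk⟩
  rw [hn] at h4
  have h5 : Nat.card {c : Set (ℂ → ℚ) // IsFc R Φ σ c} ≤ 1 := by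
    have h6 : Subsingleton {c : Set (ℂ → ℚ) // IsFc R Φ σ c} :=
      ⟨fun a b => Subtype.ext (h3 a.2 b.2)⟩
    have h7 : Finite {c : Set (ℂ → ℚ) // IsFc R Φ σ c} := Finite.of_subsingleton
    exact Finite.card_le_one_iff_subsingleton.2 h6
  have h6 : 2 ^ Nat.card {c : Set (ℂ → ℚ) // IsFc R Φ σ c} ≤ 2 ^ 1 :=
    Nat.pow_le_pow_right (by norm_num) h5
  omega

end Pool.Agent.FQX
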